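import Pool.Agent.H307R2.OP.Defs

set_option autoImplicit false

/-! Task G123: `T_5` and three related operators lower the content. -/

namespace Pool.Agent.H307R2.OP

open PowerSeries Pool.Agent.H397R2.PP

namespace G123

theorem two_eq : (2 : S) = 0 := by
  have h : ((2 : ℕ) : S) = PowerSeries.C ((2 : ℕ) : ZMod 2) := (map_natCast (PowerSeries.C (R := ZMod 2)) 2).symm
  have h2 : ((2 : ℕ) : ZMod 2) = 0 := by decide
  rw [h2, map_zero] at h
  exact_mod_cast h

theorem add_self (x : S) : x + x = 0 := by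
  have := two_eq
  linear_combination x * this

/-- sum of powers of `Db` with exponents in a list -/
noncomputable def ex (l : List ℕ) : S := (l.map (fun i => Db ^ i)).sum

theorem ex_nil : ex [] = 0 := by simp [ex]

theorem ex_cons (i : ℕ) (l : List ℕ) : ex (i :: l) = Db ^ i + ex l := by simp [ex]

theorem ex_append (l m : List ℕ) : ex (l ++ m) = ex l + ex m := by simp [ex]

theorem mul_ex (j : ℕ) (l : List ℕ) : Db ^ j * ex l = ex (l.map (fun i => j + i)) := by
  induction l with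
  | nil => simp [ex]
  | cons i l ih => rw [ex_cons, mul_add, ih, List.map_cons, ex_cons, pow_add]

/-- toggle an exponent -/
def tog (i : ℕ) (l : List ℕ) : List ℕ := if i ∈ l then l.erase i else i :: l

theorem ex_erase (i : ℕ) (l : List ℕ) (h : i ∈ l) : ex l = Db ^ i + ex (l.erase i) := by
  induction l with
  | nil => simp at h
  | cons j l ih =>
    by_cases hj : j = i
    · subst hj
      rw [List.erase_cons_head, ex_cons]
    · rw [List.erase_cons_tail (by simpa using hj), ex_cons, ex_cons,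
        ih (by
          rcases List.mem_cons.1 h with h | h
          · exact absurd h.symm hj
          · exact h)]
      ring

theorem ex_tog (i : ℕ) (l : List ℕ) : ex (tog i l) = Db ^ i + ex l := by
  unfold tog
  split_ifs with h
  · rw [ex_erase i l h, ← add_assoc, add_self, zero_add]
  · exact ex_cons i l

/-- reduction of a list modulo 2 -/
def red (l : List ℕ) : List ℕ := l.foldr tog []

theorem ex_red (l : List ℕ) : ex (red l) = ex l := by
  induction l with
  | nil => rfl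
  | cons i l ih =>
    have : red (i :: l) = tog i (red l) := rfl
    rw [this, ex_tog, ih, ex_cons]

theorem ex_eq (l m : List ℕ) (h : red (l ++ m) = []) : ex l = ex m := by
  have h1 : ex l + ex m = 0 := by rw [← ex_append, ← ex_red, h, ex_nil]
  have h2 := add_self (ex m)
  linear_combination h1 - h2

/-- computable content (below 256) -/
def cf (n : ℕ) : ℕ :=
  wdig (n % 4) + 2 * (wdig (n / 4 % 4) + 2 * (wdig (n / 4 / 4 % 4) + 2 * wdig (n / 4 / 4 / 4 % 4)))

theorem cont_step (n : ℕ) : cont n = wdig (n % 4) + 2 * cont (n / 4) := by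
  have := NIL.cont_digit (n / 4) (n % 4) (Nat.mod_lt _ (by norm_num))
  rwa [Nat.div_add_mod] at this

theorem cont_cf (n : ℕ) (h : n < 256) : cont n = cf n := by
  rw [cont_step n, cont_step (n / 4), cont_step (n / 4 / 4), cont_step (n / 4 / 4 / 4),
    show n / 4 / 4 / 4 / 4 = 0 by omega, NIL.cont_zero, cf, mul_zero, add_zero]

theorem ex_mem (c : ℕ) (l : List ℕ) (h : ∀ i ∈ l, i % 2 = 1 ∧ i < 512 ∧ cf (i / 2) < c) :
    ex l ∈ NIL.WW c := by
  induction l with
  | nil => rw [ex_nil]; exact Submodule.zero_mem _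
  | cons i l ih =>
    rw [ex_cons]
    refine Submodule.add_mem _ ?_ (ih (fun j hj => h j (List.mem_cons_of_mem _ hj)))
    obtain ⟨h1, h2, h3⟩ := h i (by simp)
    have : i = 2 * (i / 2) + 1 := by omega
    rw [this]
    exact NIL.WW_mem (by rw [cont_cf _ (by omega)]; exact h3)

theorem ex_mem' (c : ℕ) (l : List ℕ) (h : ∀ i ∈ red l, i % 2 = 1 ∧ i < 512 ∧ cf (i / 2) < c) :
    ex l ∈ NIL.WW c := by
  rw [← ex_red]; exact ex_mem c _ h

/-- table of `T_5 (Db^k)`, `k ≤ 35` -/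
def tab : ℕ → List ℕ
  | 5 => [1] | 7 => [3] | 10 => [2] | 13 => [9] | 14 => [6] | 15 => [3, 11] | 17 => [5]
  | 19 => [7] | 20 => [4] | 21 => [9, 17] | 23 => [11, 19] | 25 => [5, 13] | 26 => [18]
  | 27 => [7, 15] | 28 => [12] | 29 => [17, 25] | 30 => [6, 22] | 31 => [27] | 34 => [10]
  | 35 => [7] | _ => []

theorem tab_rec : ∀ k < 30, red (((tab (k + 4)).map (fun i => 2 + i) ++
    ((tab (k + 2)).map (fun i => 4 + i) ++ ((tab k).map (fun i => 6 + i) ++
    (tab (k + 1)).map (fun i => 1 + i)))) ++ tab (k + 6)) = [] := by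
  decide

theorem tab_eq (H : T5H) (k : ℕ) (hk : k < 36) : Tp 5 (Db ^ k) = ex (tab k) := by
  induction k using Nat.strong_induction_on with
  | _ k ih =>
    rcases Nat.lt_or_ge k 6 with h6 | h6
    · obtain ⟨i0, i1, i2, i3, i4, i5⟩ := H.ini
      interval_cases k
      · rw [i0]; exact ex_nil.symm
      · rw [i1]; exact ex_nil.symm
      · rw [i2]; exact ex_nil.symm
      · rw [i3]; exact ex_nil.symm
      · rw [i4]; exact ex_nil.symm
      · rw [i5]; simp [tab, ex]
    · obtain ⟨j, rfl⟩ : ∃ j, k = j + 6 := ⟨k - 6, by omega⟩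
      rw [H.rec6 j, ih (j + 4) (by omega) (by omega), ih (j + 2) (by omega) (by omega),
        ih j (by omega) (by omega), ih (j + 1) (by omega) (by omega)]
      rw [← ex_eq _ _ (tab_rec j (by omega)), ex_append, ex_append, ex_append, ← mul_ex, ← mul_ex,
        ← mul_ex, ← mul_ex]
      ring

theorem chk1 : ∀ n < 16, ∀ i ∈ red (tab (2 * n + 1)), i % 2 = 1 ∧ i < 512 ∧ cf (i / 2) < cf n := by
  decide

theorem chk2 : ∀ n < 16, ∀ i ∈ red (tab (2 * n + 3) ++ (tab (2 * n + 1)).map (fun i => 2 + i)),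
    i % 2 = 1 ∧ i < 512 ∧ cf (i / 2) < cf n := by
  decide

theorem chk3 : ∀ n < 16, ∀ i ∈ red (tab (2 * n + 5) ++ ((tab (2 * n + 1)).map (fun i => 4 + i) ++
    [2 * n + 1])), i % 2 = 1 ∧ i < 512 ∧ cf (i / 2) < cf n := by
  decide

theorem chk4 : ∀ n < 16, ∀ i ∈ red ((tab (2 * n + 2)).map (fun i => 1 + i)),
    i % 2 = 1 ∧ i < 512 ∧ cf (i / 2) < cf n := by
  decide

theorem cont_split (i r d : ℕ) (hr : r < 4 ^ i) (hd : d < 4) :
    cont (d * 4 ^ i + r) = 2 ^ i * wdig d + cont r := by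
  induction i generalizing r with
  | zero =>
    have : r = 0 := by simpa using hr
    subst this
    have := NIL.cont_digit 0 d hd
    simp [NIL.cont_zero] at this
    simp [this, NIL.cont_zero]
  | succ i ih =>
    obtain ⟨m, e, he, rfl⟩ := NIL.split4 r
    have e4 : 4 ^ (i + 1) = 4 * 4 ^ i := by ring
    have h1 : d * 4 ^ (i + 1) + (4 * m + e) = 4 * (d * 4 ^ i + m) + e := by ring
    rw [h1, NIL.cont_digit _ _ he, NIL.cont_digit _ _ he, ih m (by omega)]
    ring

theorem cont_lt (s n : ℕ) (hs : 1 ≤ s) (hn : n < 8 * 2 ^ s) :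
    cont (n + 2 * 2 ^ s) < cont (n + 8 * 2 ^ s) := by
  rcases Nat.even_or_odd' s with ⟨v, hv | hv⟩
  · obtain ⟨u, rfl⟩ : ∃ u, v = u + 1 := ⟨v - 1, by omega⟩
    have e : 2 ^ s = 4 ^ (u + 1) := by rw [hv, pow_mul]; norm_num
    have e2 : (2 : ℕ) ^ (u + 2) = 2 * 2 ^ (u + 1) := by ring
    have ep : 0 < 2 ^ (u + 1) := by positivity
    have e8 : 8 * 2 ^ s = 2 * 4 ^ (u + 2) := by rw [e]; ring
    rw [e8] at hn ⊢
    rw [e]
    have l2 := NIL.L2 (u + 1) n
    rcases Nat.lt_or_ge n (4 ^ (u + 2)) with h | h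
    · have h1 := cont_split (u + 2) n 2 h (by norm_num)
      rw [add_comm n (2 * 4 ^ (u + 2)), h1, show wdig 2 = 1 from rfl]
      omega
    · obtain ⟨r, rfl⟩ : ∃ r, n = 1 * 4 ^ (u + 2) + r := ⟨n - 4 ^ (u + 2), by omega⟩
      have h1 := cont_split (u + 2) r 1 (by omega) (by norm_num)
      have h3 := cont_split (u + 2) r 3 (by omega) (by norm_num)
      rw [show 1 * 4 ^ (u + 2) + r + 2 * 4 ^ (u + 2) = 3 * 4 ^ (u + 2) + r by ring, h3,
        show wdig 3 = 2 from rfl]
      rw [h1, show wdig 1 = 1 from rfl] at l2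
      omega
  · obtain ⟨u, rfl⟩ : ∃ u, v = u := ⟨v, rfl⟩
    have e : 2 ^ s = 2 * 4 ^ v := by rw [hv, pow_succ, pow_mul]; ring
    have e2 : (2 : ℕ) ^ (v + 2) = 2 * 2 ^ (v + 1) := by ring
    have ep : 0 < 2 ^ (v + 1) := by positivity
    have e8 : 8 * 2 ^ s = 4 ^ (v + 2) := by rw [e]; ring
    have e3 : 2 * 2 ^ s = 4 ^ (v + 1) := by rw [e]; ring
    rw [e8] at hn ⊢
    rw [e3]
    have l1 := NIL.L1 (v + 1) n
    have h1 := cont_split (v + 2) n 1 hn (by norm_num)
    rw [one_mul] at h1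
    rw [add_comm n (4 ^ (v + 2)), h1, show wdig 1 = 1 from rfl]
    omega

theorem rec_one (s n : ℕ) (hs : 1 ≤ s) (hn : n < 8 * 2 ^ s) :
    RecErr (1 : EndS) s n ∈ NIL.WW (cont (n + 8 * 2 ^ s)) := by
  have h : RecErr (1 : EndS) s n = Db ^ (2 * (n + 2 * 2 ^ s) + 1) := by
    unfold RecErr
    simp only [Module.End.one_apply]
    set e := 2 ^ s
    have h2 := two_eq
    have e1 : (Db ^ (2 * n + 1 + 16 * e) : S) = Db ^ (2 * n + 1) * (Db ^ e) ^ 16 := by
      rw [pow_add, mul_comm 16 e, pow_mul]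
    have e2 : (Db ^ (16 * e) : S) = (Db ^ e) ^ 16 := by rw [mul_comm, pow_mul]
    have e3 : (Db ^ (8 * e) : S) = (Db ^ e) ^ 8 := by rw [mul_comm, pow_mul]
    have e4 : (Db ^ (4 * e) : S) = (Db ^ e) ^ 4 := by rw [mul_comm, pow_mul]
    have e5 : (Db ^ (3 * e) : S) = (Db ^ e) ^ 3 := by rw [mul_comm, pow_mul]
    have e6 : (Db ^ (2 * n + 1 + 4 * e) : S) = Db ^ (2 * n + 1) * (Db ^ e) ^ 4 := by
      rw [pow_add, mul_comm 4 e, pow_mul]
    have e7 : (Db ^ (2 * n + 1 + e) : S) = Db ^ (2 * n + 1) * Db ^ e := by rw [pow_add]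
    have e8 : (Db ^ (2 * (n + 2 * e) + 1) : S) = Db ^ (2 * n + 1) * (Db ^ e) ^ 4 := by
      rw [← pow_mul, ← pow_add]; congr 1; ring
    rw [e1, e2, e3, e4, e5, e6, e7, e8]
    linear_combination (Db ^ (2 * n + 1) * (Db ^ e) ^ 16 + Db ^ (2 * n + 1) * (Db ^ e) ^ 8) * h2
  rw [h]
  exact NIL.WW_mem (cont_lt s n hs hn)

theorem recErr_add (U V : EndS) (s n : ℕ) : RecErr (U + V) s n = RecErr U s n + RecErr V s n := by
  unfold RecErr
  simp only [LinearMap.add_apply]
  ring

/-- the recurrence holds for all exponents -/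
theorem rec_t5 (H : T5H) (s n : ℕ) : RecErr (TO 5) s n = 0 := by
  have h := H.recu s (2 * n + 1)
  have e : ∀ φ : S, TO 5 φ = Tp 5 φ := fun _ => rfl
  unfold RecErr
  rw [e, e, e, e, h]
  exact add_self _

theorem rec_left (j : ℕ) (U : EndS) (s n : ℕ) (h : RecErr U s n = 0) :
    RecErr (MD j * U) s n = 0 := by
  unfold RecErr at *
  have e : ∀ φ : S, (MD j * U) φ = Db ^ j * U φ := fun _ => rfl
  rw [e, e, e, e]
  linear_combination Db ^ j * h

theorem rec_right (H : T5H) (j s n : ℕ) : RecErr (TO 5 * MD j) s n = 0 := by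
  have h := H.recu s (2 * n + 1 + j)
  have e : ∀ k : ℕ, (TO 5 * MD j) (Db ^ k) = Tp 5 (Db ^ (k + j)) := by
    intro k
    have : (TO 5 * MD j) (Db ^ k) = Tp 5 (Db ^ j * Db ^ k) := rfl
    rw [this, ← pow_add, add_comm j k]
  unfold RecErr
  rw [e, e, e, e, show 2 * n + 1 + 16 * 2 ^ s + j = 2 * n + 1 + j + 16 * 2 ^ s by ring, h,
    show 2 * n + 1 + 4 * 2 ^ s + j = 2 * n + 1 + j + 4 * 2 ^ s by ring,
    show 2 * n + 1 + 2 ^ s + j = 2 * n + 1 + j + 2 ^ s by ring]
  exact add_self _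

theorem val5 (H : T5H) (k : ℕ) (hk : k < 36) : TO 5 (Db ^ k) = ex (tab k) := tab_eq H k hk

theorem val5m (H : T5H) (j k : ℕ) (hk : k + j < 36) : (TO 5 * MD j) (Db ^ k) = ex (tab (k + j)) := by
  have : (TO 5 * MD j) (Db ^ k) = Tp 5 (Db ^ j * Db ^ k) := rfl
  rw [this, ← pow_add, add_comm j k]
  exact tab_eq H _ hk

theorem valm5 (H : T5H) (j k : ℕ) (hk : k < 36) :
    (MD j * TO 5) (Db ^ k) = ex ((tab k).map (fun i => j + i)) := by
  have : (MD j * TO 5) (Db ^ k) = Db ^ j * Tp 5 (Db ^ k) := rfl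
  rw [this, tab_eq H _ hk, mul_ex]

end G123

open G123

/-- task G123 -/
theorem t5g (H : T5H) (hg : GenStmt) : T5G := by
  refine ⟨(hg (TO 5) ?_ ?_).2, (hg _ ?_ ?_).2, (hg _ ?_ ?_).2, (hg _ ?_ ?_).2⟩
  · intro n hn
    rw [val5 H _ (by omega), cont_cf n (by omega)]
    exact ex_mem' _ _ (chk1 n hn)
  · intro s n _ _
    rw [rec_t5 H]; exact Submodule.zero_mem _
  · intro n hn
    rw [LinearMap.add_apply, val5m H _ _ (by omega), valm5 H _ _ (by omega), ← ex_append,
      cont_cf n (by omega)]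
    exact ex_mem' _ _ (chk2 n hn)
  · intro s n _ _
    rw [recErr_add, rec_right H, rec_left 2 _ s n (rec_t5 H s n), add_zero]
    exact Submodule.zero_mem _
  · intro n hn
    rw [LinearMap.add_apply, LinearMap.add_apply, val5m H _ _ (by omega), valm5 H _ _ (by omega),
      cont_cf n (by omega)]
    have h := ex_mem' _ _ (chk3 n hn)
    rw [ex_append, ex_append, ex_cons, ex_nil, add_zero, ← add_assoc] at h
    exact h
  · intro s n hs hn
    rw [recErr_add, recErr_add, rec_right H, rec_left 4 _ s n (rec_t5 H s n), add_zero, zero_add]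
    exact rec_one s n hs hn
  · intro n hn
    have h := ex_mem' _ _ (chk4 n hn)
    rw [← mul_ex, ← cont_cf n (by omega)] at h
    have e : (MD 1 * TO 5 * MD 1) (Db ^ (2 * n + 1)) = Db ^ 1 * (TO 5 * MD 1) (Db ^ (2 * n + 1)) :=
      rfl
    rw [e, val5m H _ _ (by omega)]
    exact h
  · intro s n _ _
    rw [mul_assoc, rec_left 1 _ s n (rec_right H 1 s n)]
    exact Submodule.zero_mem _

end Pool.Agent.H307R2.OP
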