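import Pool.Agent.H307R2.OP.Defs

set_option autoImplicit false

/-! Task A-GEN: the general content lemma. -/

namespace Pool.Agent.H307R2.OP

open PowerSeries Pool.Agent.H397R2.PP

theorem GEN_add1 (t n : ℕ) (h : n < 4 ^ t) : cont n + 2 ^ t ≤ cont (n + 4 ^ t) := by
  induction t generalizing n with
  | zero =>
    have h0 : n = 0 := by simpa using h
    subst h0
    have := NIL.cont_vals.1
    simp [NIL.cont_zero, this]
  | succ t ih =>
    obtain ⟨m, d, hd, rfl⟩ := NIL.split4 n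
    have h1 : 4 * m + d + 4 ^ (t + 1) = 4 * (m + 4 ^ t) + d := by ring
    have h2 : m < 4 ^ t := by rw [pow_succ] at h; omega
    rw [h1, NIL.cont_digit _ _ hd, NIL.cont_digit _ _ hd, pow_succ]
    have := ih m h2
    omega

theorem GEN_add2 (t n : ℕ) (h : n < 2 * 4 ^ t) : cont n + 2 ^ t ≤ cont (n + 2 * 4 ^ t) := by
  induction t generalizing n with
  | zero =>
    obtain ⟨v1, v2, v3, -⟩ := NIL.cont_vals
    have h0 : n = 0 ∨ n = 1 := by norm_num at h; omega
    rcases h0 with rfl | rfl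
    · simp [NIL.cont_zero, v2]
    · simp [v1, v3]
  | succ t ih =>
    obtain ⟨m, d, hd, rfl⟩ := NIL.split4 n
    have h1 : 4 * m + d + 2 * 4 ^ (t + 1) = 4 * (m + 2 * 4 ^ t) + d := by ring
    have h2 : m < 2 * 4 ^ t := by rw [pow_succ] at h; omega
    rw [h1, NIL.cont_digit _ _ hd, NIL.cont_digit _ _ hd, pow_succ]
    have := ih m h2
    omega

theorem gen : GenStmt := by
  intro U h0 hrec
  have A : ∀ N : ℕ, U (Db ^ (2 * N + 1)) ∈ NIL.WW (cont N) := by
    intro N
    induction N using Nat.strong_induction_on with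
    | _ N ih =>
      rcases Nat.lt_or_ge N 16 with hN | hN
      · exact h0 N hN
      obtain ⟨u, hu1, hu2⟩ : ∃ u, 4 ^ (u + 2) ≤ N ∧ N < 4 ^ (u + 3) := by
        have h1 : 2 ≤ Nat.log 4 N := by
          apply Nat.le_log_of_pow_le (by norm_num)
          norm_num
          exact hN
        refine ⟨Nat.log 4 N - 2, ?_, ?_⟩
        · rw [show Nat.log 4 N - 2 + 2 = Nat.log 4 N by omega]
          exact Nat.pow_log_le_self 4 (by omega)
        · rw [show Nat.log 4 N - 2 + 3 = (Nat.log 4 N).succ by omega]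
          exact Nat.lt_pow_succ_log_self (by norm_num) N
      have hpos : 0 < 4 ^ u := by positivity
      have e1 : 4 ^ (u + 1) = 4 * 4 ^ u := by ring
      have e2 : 4 ^ (u + 2) = 16 * 4 ^ u := by ring
      have e3 : 4 ^ (u + 3) = 64 * 4 ^ u := by ring
      have p1 : 2 ^ (u + 1) = 2 * 2 ^ u := by ring
      have p2 : 2 ^ (u + 2) = 4 * 2 ^ u := by ring
      by_cases ha : N < 2 * 4 ^ (u + 2)
      · -- leading digit 1
        obtain ⟨n0, hn0⟩ : ∃ n0, N = n0 + 4 ^ (u + 2) := ⟨N - 4 ^ (u + 2), by omega⟩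
        have hn0' : n0 < 4 ^ (u + 2) := by omega
        have hs : 2 ^ (2 * u + 1) = 2 * 4 ^ u := by
          rw [pow_add, pow_mul]; norm_num; ring
        have hE := hrec (2 * u + 1) n0 (by omega) (by rw [hs]; omega)
        have hc := GEN_add1 (u + 2) n0 hn0'
        rw [← hn0] at hc
        unfold RecErr at hE
        rw [hs] at hE
        have g0 : n0 + 8 * (2 * 4 ^ u) = N := by omega
        have g1 : 2 * n0 + 1 + 16 * (2 * 4 ^ u) = 2 * N + 1 := by omega
        have g2 : 2 * n0 + 1 + 4 * (2 * 4 ^ u) = 2 * (n0 + 4 ^ (u + 1)) + 1 := by omega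
        have g3 : 2 * n0 + 1 + 2 * 4 ^ u = 2 * (n0 + 4 ^ u) + 1 := by omega
        rw [g0, g1, g2, g3] at hE
        have t1 : Db ^ (16 * (2 * 4 ^ u)) * U (Db ^ (2 * n0 + 1)) ∈ NIL.WW (cont N) :=
          NIL.WW_mono hc (NIL.WW_mul (NIL.L1 (u + 2)) (by omega) (ih n0 (by omega)))
        have t2 : Db ^ (8 * (2 * 4 ^ u)) * U (Db ^ (2 * n0 + 1)) ∈ NIL.WW (cont N) :=
          NIL.WW_mono (by omega) (NIL.WW_mul (NIL.L2 (u + 1)) (by omega) (ih n0 (by omega)))
        have t3 : Db ^ (4 * (2 * 4 ^ u)) * U (Db ^ (2 * (n0 + 4 ^ (u + 1)) + 1)) ∈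
            NIL.WW (cont N) := by
          refine NIL.WW_mono ?_ (NIL.WW_mul (NIL.L1 (u + 1)) (by omega)
            (ih (n0 + 4 ^ (u + 1)) (by omega)))
          have := NIL.L1 (u + 1) n0
          omega
        have t4 : Db ^ (3 * (2 * 4 ^ u)) * U (Db ^ (2 * (n0 + 4 ^ u) + 1)) ∈
            NIL.WW (cont N) := by
          have h4 := NIL.WW_mul (NIL.L1 u) rfl (ih (n0 + 4 ^ u) (by omega))
          have h5 := NIL.WW_mul (NIL.L2 u) rfl h4
          rw [← mul_assoc, ← pow_add] at h5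
          have h6 : 2 * (2 * 4 ^ u) + 2 * 4 ^ u = 3 * (2 * 4 ^ u) := by ring
          rw [h6] at h5
          refine NIL.WW_mono ?_ h5
          have := NIL.L1 u n0
          omega
        have hrest := Submodule.add_mem _ (Submodule.add_mem _ (Submodule.add_mem _ t1 t2) t3) t4
        rw [← add_mul] at hrest
        have hfin := Submodule.sub_mem _ hE hrest
        rwa [add_sub_cancel_right] at hfin
      · -- leading digit 2 or 3
        obtain ⟨n0, hn0⟩ : ∃ n0, N = n0 + 2 * 4 ^ (u + 2) := ⟨N - 2 * 4 ^ (u + 2), by omega⟩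
        have hn0' : n0 < 2 * 4 ^ (u + 2) := by omega
        have hs : 2 ^ (2 * u + 2) = 4 * 4 ^ u := by
          rw [pow_add, pow_mul]; norm_num; ring
        have hE := hrec (2 * u + 2) n0 (by omega) (by rw [hs]; omega)
        have hc := GEN_add2 (u + 2) n0 hn0'
        rw [← hn0] at hc
        unfold RecErr at hE
        rw [hs] at hE
        have g0 : n0 + 8 * (4 * 4 ^ u) = N := by omega
        have g1 : 2 * n0 + 1 + 16 * (4 * 4 ^ u) = 2 * N + 1 := by omega
        have g2 : 2 * n0 + 1 + 4 * (4 * 4 ^ u) = 2 * (n0 + 2 * 4 ^ (u + 1)) + 1 := by omega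
        have g3 : 2 * n0 + 1 + 4 * 4 ^ u = 2 * (n0 + 2 * 4 ^ u) + 1 := by omega
        rw [g0, g1, g2, g3] at hE
        have t1 : Db ^ (16 * (4 * 4 ^ u)) * U (Db ^ (2 * n0 + 1)) ∈ NIL.WW (cont N) :=
          NIL.WW_mono hc (NIL.WW_mul (NIL.L2 (u + 2)) (by omega) (ih n0 (by omega)))
        have t2 : Db ^ (8 * (4 * 4 ^ u)) * U (Db ^ (2 * n0 + 1)) ∈ NIL.WW (cont N) :=
          NIL.WW_mono hc (NIL.WW_mul (NIL.L1 (u + 2)) (by omega) (ih n0 (by omega)))
        have t3 : Db ^ (4 * (4 * 4 ^ u)) * U (Db ^ (2 * (n0 + 2 * 4 ^ (u + 1)) + 1)) ∈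
            NIL.WW (cont N) := by
          refine NIL.WW_mono ?_ (NIL.WW_mul (NIL.L2 (u + 1)) (by omega)
            (ih (n0 + 2 * 4 ^ (u + 1)) (by omega)))
          have := NIL.L2 (u + 1) n0
          omega
        have t4 : Db ^ (3 * (4 * 4 ^ u)) * U (Db ^ (2 * (n0 + 2 * 4 ^ u) + 1)) ∈
            NIL.WW (cont N) := by
          have h4 := NIL.WW_mul (NIL.L2 u) rfl (ih (n0 + 2 * 4 ^ u) (by omega))
          have h5 := NIL.WW_mul (NIL.L1 (u + 1)) rfl h4
          rw [← mul_assoc, ← pow_add] at h5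
          have h6 : 2 * 4 ^ (u + 1) + 2 * (2 * 4 ^ u) = 3 * (4 * 4 ^ u) := by ring
          rw [h6] at h5
          refine NIL.WW_mono ?_ h5
          have := NIL.L2 u n0
          omega
        have hrest := Submodule.add_mem _ (Submodule.add_mem _ (Submodule.add_mem _ t1 t2) t3) t4
        rw [← add_mul] at hrest
        have hfin := Submodule.sub_mem _ hE hrest
        rwa [add_sub_cancel_right] at hfin
  refine ⟨A, ?_⟩
  intro c f hf
  have hc : ((c : ℤ) + -1).toNat = c - 1 := by omega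
  rw [hc]
  induction hf using Submodule.span_induction with
  | mem x hx =>
    obtain ⟨j, hj, rfl⟩ := hx
    exact NIL.WW_mono (by omega) (A j)
  | zero => rw [map_zero]; exact Submodule.zero_mem _
  | add x y _ _ hx hy => rw [map_add]; exact Submodule.add_mem _ hx hy
  | smul a x _ hx => rw [map_smul]; exact Submodule.smul_mem _ _ hx

end Pool.Agent.H307R2.OP
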