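import Pool.Agent.H307R2.OP.Defs

set_option autoImplicit false

/-! Task JI: joint injectivity of `T_3` and `T_5`. -/

namespace Pool.Agent.H307R2.OP

open PowerSeries Pool.Agent.H397R2.PP

namespace JI

theorem sp_zero : sp 0 = 0 := by rw [sp]; simp

theorem sp_digit (a e : ℕ) (he : e < 2) : sp (2 * a + e) = 4 * sp a + e := by
  by_cases h : 2 * a + e = 0
  · have h1 : a = 0 := by omega
    have h2 : e = 0 := by omega
    subst h1 h2
    simp [sp_zero]
  · rw [sp, dif_neg h]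
    have h1 : (2 * a + e) / 2 = a := by omega
    have h2 : (2 * a + e) % 2 = e := by omega
    rw [h1, h2]

/-- every `n` is `sp a + 2 sp m`, and its content is `a + m` -/
theorem decomp (n : ℕ) : ∃ a m : ℕ, n = sp a + 2 * sp m ∧ cont n = a + m := by
  induction n using Nat.strong_induction_on with
  | _ n ih =>
    rcases Nat.eq_zero_or_pos n with h0 | hpos
    · subst h0
      exact ⟨0, 0, by simp [sp_zero], by simp [NIL.cont_zero]⟩
    · obtain ⟨k, d, hd, rfl⟩ := NIL.split4 n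
      obtain ⟨a, m, h1, h2⟩ := ih k (by omega)
      rw [NIL.cont_digit _ _ hd, h2]
      interval_cases d
      · refine ⟨2 * a + 0, 2 * m + 0, ?_, ?_⟩
        · rw [sp_digit _ _ (by norm_num), sp_digit _ _ (by norm_num)]; omega
        · simp [wdig]; ring
      · refine ⟨2 * a + 1, 2 * m + 0, ?_, ?_⟩
        · rw [sp_digit _ _ (by norm_num), sp_digit _ _ (by norm_num)]; omega
        · simp [wdig]; ring
      · refine ⟨2 * a + 0, 2 * m + 1, ?_, ?_⟩
        · rw [sp_digit _ _ (by norm_num), sp_digit _ _ (by norm_num)]; omega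
        · simp [wdig]; ring
      · refine ⟨2 * a + 1, 2 * m + 1, ?_, ?_⟩
        · rw [sp_digit _ _ (by norm_num), sp_digit _ _ (by norm_num)]; omega
        · simp [wdig]; ring

theorem cc_pent : constantCoeff (pentagonalSeries (ZMod 2)) = 1 := by
  have h := coeff_pentagonalSeries_pentagonal (R := ZMod 2) 0
  have h0 : pentagonal 0 = 0 := by simp [pentagonal]
  rw [h0] at h
  rw [← PowerSeries.coeff_zero_eq_constantCoeff_apply, h]
  simp

theorem Db_ne : Db ≠ 0 := by
  intro h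
  have h1 : coeff 1 Db = 0 := by rw [h]; simp
  have h2 : coeff 1 Db = coeff 0 ((pentagonalSeries (ZMod 2)) ^ 24) := by
    rw [Db, show (1 : ℕ) = 0 + 1 from rfl, coeff_succ_X_mul]
  have h3 : coeff 0 ((pentagonalSeries (ZMod 2)) ^ 24) = (1 : ZMod 2) := by
    simp [cc_pent]
  rw [h2, h3] at h1
  exact one_ne_zero h1

/-- the filtration between `WW C` and `WW (C + 1)` -/
noncomputable def GG (C b : ℕ) : Submodule (ZMod 2) S :=
  NIL.WW C ⊔ Submodule.span (ZMod 2)
    {φ | ∃ m : ℕ, m < b ∧ m ≤ C ∧ φ = Db ^ (2 * sp (C - m) + 4 * sp m + 1)}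

theorem WW_le_GG (C : ℕ) : NIL.WW (C + 1) ≤ GG C (C + 1) := by
  refine Submodule.span_le.mpr ?_
  rintro φ ⟨j, hj, rfl⟩
  by_cases h : cont j < C
  · exact Submodule.mem_sup_left (NIL.WW_mem h)
  · obtain ⟨a, m, h1, h2⟩ := decomp j
    apply Submodule.mem_sup_right
    apply Submodule.subset_span
    refine ⟨m, by omega, by omega, ?_⟩
    congr 1
    have : C - m = a := by omega
    rw [this, h1]
    ring

theorem GG_zero (C : ℕ) : GG C 0 = NIL.WW C := by
  rw [GG]
  have : {φ : S | ∃ m : ℕ, m < 0 ∧ m ≤ C ∧ φ = Db ^ (2 * sp (C - m) + 4 * sp m + 1)} = ∅ := by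
    ext φ; simp
  rw [this, Submodule.span_empty, sup_bot_eq]

theorem GG_succ {C b : ℕ} (hb : b ≤ C) {g : S} (hg : g ∈ GG C (b + 1)) :
    ∃ (e : ZMod 2) (h : S), h ∈ GG C b ∧ g = e • Db ^ (2 * sp (C - b) + 4 * sp b + 1) + h := by
  rw [GG, Submodule.mem_sup] at hg
  obtain ⟨w, hw, z, hz, rfl⟩ := hg
  suffices H : ∃ (e : ZMod 2) (h : S), h ∈ GG C b ∧
      z = e • Db ^ (2 * sp (C - b) + 4 * sp b + 1) + h by
    obtain ⟨e, h, h1, h2⟩ := H
    refine ⟨e, w + h, Submodule.add_mem _ (Submodule.mem_sup_left hw) h1, ?_⟩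
    rw [h2]; abel
  induction hz using Submodule.span_induction with
  | mem x hx =>
    obtain ⟨m, hm1, hm2, rfl⟩ := hx
    by_cases h : m = b
    · subst h
      exact ⟨1, 0, Submodule.zero_mem _, by rw [one_smul, add_zero]⟩
    · refine ⟨0, _, Submodule.mem_sup_right (Submodule.subset_span ⟨m, by omega, hm2, rfl⟩), ?_⟩
      rw [zero_smul, zero_add]
  | zero => exact ⟨0, 0, Submodule.zero_mem _, by simp⟩
  | add x y _ _ hx hy =>
    obtain ⟨e1, h1, h1', h1''⟩ := hx
    obtain ⟨e2, h2, h2', h2''⟩ := hy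
    refine ⟨e1 + e2, h1 + h2, Submodule.add_mem _ h1' h2', ?_⟩
    rw [h1'', h2'', add_smul]; abel
  | smul a x _ hx =>
    obtain ⟨e1, h1, h1', h1''⟩ := hx
    refine ⟨a * e1, a • h1, Submodule.smul_mem _ _ h1', ?_⟩
    rw [h1'', smul_add, mul_smul]

theorem t5_WW (G : T5G) {c : ℕ} {f : S} (hf : f ∈ NIL.WW c) : TO 5 f ∈ NIL.WW (c - 1) := by
  have := G.t5 c f hf
  have e : ((c : ℤ) + -1).toNat = c - 1 := by omega
  rwa [e] at this

theorem t5_pow (G : T5G) (b : ℕ) {c : ℕ} {f : S} (hf : f ∈ NIL.WW c) :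
    (TO 5 ^ b) f ∈ NIL.WW (c - b) := by
  induction b generalizing c f with
  | zero => simpa using hf
  | succ b ih =>
    rw [pow_succ, Module.End.mul_apply]
    have := ih (t5_WW G hf)
    rwa [Nat.sub_sub, Nat.add_comm] at this

theorem t3_pow_zero (H3 : NIL.T3H) (b : ℕ) {f : S} (hf : f ∈ NIL.WW b) :
    (TO 3 ^ b) f = 0 := by
  have h1 : (TO 3 ^ b) f = (Tp 3)^[b] f := by
    rw [Module.End.pow_apply]
    rfl
  have h2 : (Tp 3)^[b] f ∈ NIL.WW 0 := NIL.iter_WW H3 b 0 (by rwa [zero_add])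
  have h3 : NIL.WW 0 = ⊥ := by
    rw [NIL.WW]
    have : {φ : S | ∃ j : ℕ, cont j < 0 ∧ φ = Db ^ (2 * j + 1)} = ∅ := by
      ext φ; simp
    rw [this, Submodule.span_empty]
  rw [h3, Submodule.mem_bot] at h2
  rw [h1, h2]

/-- `T_5^b` lowers `GG C b` to `WW (C - b)` -/
theorem t5_GG (G : T5G) (hp : PairStmt) {C b : ℕ} {h : S} (hh : h ∈ GG C b) :
    (TO 5 ^ b) h ∈ NIL.WW (C - b) := by
  rw [GG, Submodule.mem_sup] at hh
  obtain ⟨w, hw, z, hz, rfl⟩ := hh
  rw [map_add]
  refine Submodule.add_mem _ (t5_pow G b hw) ?_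
  induction hz using Submodule.span_induction with
  | mem x hx =>
    obtain ⟨m, hm1, hm2, rfl⟩ := hx
    have := hp (C - m) m b hm1.le
    rw [if_neg (by omega), add_zero] at this
    rwa [Nat.sub_add_cancel hm2] at this
  | zero => rw [map_zero]; exact Submodule.zero_mem _
  | add x y _ _ hx hy => rw [map_add]; exact Submodule.add_mem _ hx hy
  | smul a x _ hx => rw [map_smul]; exact Submodule.smul_mem _ _ hx

theorem step (H3 : NIL.T3H) (G : T5G) (hp : PairStmt) (h3 : P3Stmt) {C b : ℕ} (hC : 1 ≤ C)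
    (hb : b ≤ C) {g : S} (hg : g ∈ GG C (b + 1)) (g3 : Tp 3 g ∈ NIL.WW (C - 1))
    (g5 : Tp 5 g ∈ NIL.WW (C - 1)) : g ∈ GG C b := by
  obtain ⟨e, h, hh, rfl⟩ := GG_succ hb hg
  set g := e • Db ^ (2 * sp (C - b) + 4 * sp b + 1) + h with hgdef
  -- the operator kills `g`
  have k1 : (TO 3 ^ (C - b)) ((TO 5 ^ b) g) = 0 := by
    rcases Nat.eq_zero_or_pos b with h0 | hpos
    · subst h0
      rw [pow_zero, Module.End.one_apply]
      obtain ⟨C', rfl⟩ : ∃ C', C = C' + 1 := ⟨C - 1, by omega⟩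
      rw [Nat.sub_zero, pow_succ, Module.End.mul_apply]
      apply t3_pow_zero H3
      rw [Nat.add_sub_cancel] at g3
      exact g3
    · obtain ⟨b', rfl⟩ : ∃ b', b = b' + 1 := ⟨b - 1, by omega⟩
      rw [pow_succ (TO 5), Module.End.mul_apply]
      apply t3_pow_zero H3
      have := t5_pow G b' (f := TO 5 g) (c := C - 1) g5
      have e : C - 1 - b' = C - (b' + 1) := by omega
      rwa [e] at this
  -- and has value `e • Db`
  have k2 : (TO 3 ^ (C - b)) ((TO 5 ^ b) g) = e • Db := by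
    have hx := hp (C - b) b b le_rfl
    rw [if_pos rfl, Nat.sub_add_cancel hb] at hx
    have hy := t5_GG G hp hh
    have e1 : (TO 5 ^ b) g = e • Db ^ (2 * sp (C - b) + 1) +
        (e • ((TO 5 ^ b) (Db ^ (2 * sp (C - b) + 4 * sp b + 1)) + Db ^ (2 * sp (C - b) + 1)) +
        (TO 5 ^ b) h) := by
      rw [hgdef, map_add, map_smul, smul_add]
      have : e • Db ^ (2 * sp (C - b) + 1) + e • Db ^ (2 * sp (C - b) + 1) = (0 : S) := by
        rw [← add_smul, CharTwo.add_self_eq_zero, zero_smul]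
      linear_combination (-1 : S) * this
    rw [e1, map_add, map_smul, h3 (C - b), t3_pow_zero H3, add_zero]
    exact Submodule.add_mem _ (Submodule.smul_mem _ _ hx) hy
  rw [k1] at k2
  have e0 : e = 0 := by
    by_contra hne
    exact Db_ne ((smul_eq_zero.mp k2.symm).resolve_left hne)
  rw [hgdef, e0, zero_smul, zero_add]
  exact hh

theorem down (H3 : NIL.T3H) (G : T5G) (hp : PairStmt) (h3 : P3Stmt) {C : ℕ} (hC : 1 ≤ C)
    {g : S} (hg : g ∈ NIL.WW (C + 1)) (g3 : Tp 3 g ∈ NIL.WW (C - 1))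
    (g5 : Tp 5 g ∈ NIL.WW (C - 1)) : g ∈ NIL.WW C := by
  have key : ∀ k : ℕ, k ≤ C + 1 → g ∈ GG C (C + 1 - k) := by
    intro k
    induction k with
    | zero => intro _; exact WW_le_GG C hg
    | succ k ih =>
      intro hk
      have h1 := ih (by omega)
      have e : C + 1 - k = (C + 1 - (k + 1)) + 1 := by omega
      rw [e] at h1
      exact step H3 G hp h3 hC (by omega) h1 g3 g5
  have := key (C + 1) le_rfl
  rwa [Nat.sub_self, GG_zero] at this

theorem exists_WW {g : S} (hg : g ∈ FF) : ∃ C, g ∈ NIL.WW C := by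
  induction hg using Submodule.span_induction with
  | mem x hx =>
    obtain ⟨j, rfl⟩ := hx
    exact ⟨cont j + 1, NIL.WW_mem (by omega)⟩
  | zero => exact ⟨0, Submodule.zero_mem _⟩
  | add x y _ _ hx hy =>
    obtain ⟨c1, h1⟩ := hx
    obtain ⟨c2, h2⟩ := hy
    exact ⟨max c1 c2, Submodule.add_mem _ (NIL.WW_mono (le_max_left _ _) h1)
      (NIL.WW_mono (le_max_right _ _) h2)⟩
  | smul a x _ hx =>
    obtain ⟨c1, h1⟩ := hx
    exact ⟨c1, Submodule.smul_mem _ _ h1⟩

end JI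

open JI in
/-- task JI -/
theorem ji (H3 : NIL.T3H) (G : T5G) (hp : PairStmt) (h3 : P3Stmt) : JIStmt := by
  intro c g hg g3 g5
  obtain ⟨C0, hC0⟩ := exists_WW hg
  have key : ∀ k : ℕ, g ∈ NIL.WW (c + 1 + k) → g ∈ NIL.WW (c + 1) := by
    intro k
    induction k with
    | zero => intro h; exact h
    | succ k ih =>
      intro h
      apply ih
      apply down H3 G hp h3 (C := c + 1 + k) (by omega) h
      · exact NIL.WW_mono (by omega) g3
      · exact NIL.WW_mono (by omega) g5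
  exact key C0 (NIL.WW_mono (by omega) hC0)

end Pool.Agent.H307R2.OP
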