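import Pool.Agent.H307R2.OP.Defs

set_option autoImplicit false

/-!
# Commutators of `T_5^(2^k)` with multiplication operators (task A-KK)
-/

namespace Pool.Agent.H307R2.OP

open PowerSeries Pool.Agent.H397R2.PP

namespace KK

theorem two_eq_zero_S : (2 : S) = 0 := by
  have h : (2 : ZMod 2) = 0 := by decide
  have h1 : (2 : S) = PowerSeries.C (2 : ZMod 2) := by
    rw [map_ofNat]
  rw [h1, h, map_zero]

theorem add_self_S (a : S) : a + a = 0 := by
  rw [← two_mul, two_eq_zero_S, zero_mul]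

theorem add_self_E (U : EndS) : U + U = 0 := by
  apply LinearMap.ext
  intro f
  rw [LinearMap.add_apply, LinearMap.zero_apply]
  exact add_self_S _

/-- multiplication operators -/
noncomputable def ML (a : S) : EndS := LinearMap.mulLeft (ZMod 2) a

theorem ML_apply (a f : S) : ML a f = a * f := rfl

theorem MD_eq (k : ℕ) : MD k = ML (Db ^ k) := rfl

theorem ML_mul (a b : S) : ML (a * b) = ML a * ML b := by
  apply LinearMap.ext
  intro f
  rw [Module.End.mul_apply, ML_apply, ML_apply, ML_apply, mul_assoc]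

theorem ML_add (a b : S) : ML (a + b) = ML a + ML b := by
  apply LinearMap.ext
  intro f
  rw [LinearMap.add_apply, ML_apply, ML_apply, ML_apply, add_mul]

theorem ML_one : ML 1 = 1 := by
  apply LinearMap.ext
  intro f
  rw [ML_apply, one_mul, Module.End.one_apply]

theorem ML_zero : ML 0 = 0 := by
  apply LinearMap.ext
  intro f
  rw [ML_apply, zero_mul, LinearMap.zero_apply]

/-- commutator in characteristic two -/
noncomputable def br (U V : EndS) : EndS := U * V + V * U

theorem br_add (U V W : EndS) : br U (V + W) = br U V + br U W := by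
  unfold br
  noncomm_ring

theorem br_mul (U V W : EndS) : br U (V * W) = br U V * W + V * br U W := by
  have h : br U V * W + V * br U W = br U (V * W) + (V * U * W + V * U * W) := by
    unfold br
    noncomm_ring
  rw [h, add_self_E, add_zero]

theorem br_sq (U V : EndS) : br (U * U) V = br U (br U V) := by
  have h : br U (br U V) = br (U * U) V + (U * V * U + U * V * U) := by
    unfold br
    noncomm_ring
  rw [h, add_self_E, add_zero]

theorem br_one (U : EndS) : br U 1 = 0 := by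
  unfold br
  rw [mul_one, one_mul, add_self_E]

theorem br_ML (a b : S) : br (ML a) (ML b) = 0 := by
  unfold br
  rw [← ML_mul, ← ML_mul, mul_comm, add_self_E]

theorem br_comm (U V : EndS) : br U V = br V U := add_comm _ _

/-! ## The filtration -/

theorem WW_zero {f : S} (h : f ∈ NIL.WW 0) : f = 0 := by
  have h1 : NIL.WW 0 = ⊥ := by
    rw [NIL.WW, Submodule.span_eq_bot]
    rintro φ ⟨j, hj, -⟩
    omega
  rw [h1] at h
  exact (Submodule.mem_bot _).1 h

theorem Fil.add {d : ℤ} {U V : EndS} (hU : Fil d U) (hV : Fil d V) : Fil d (U + V) := by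
  intro c f hf
  rw [LinearMap.add_apply]
  exact Submodule.add_mem _ (hU c f hf) (hV c f hf)

theorem Fil.mono {d e : ℤ} {U : EndS} (hU : Fil d U) (h : d ≤ e) : Fil e U := by
  intro c f hf
  exact NIL.WW_mono (Int.toNat_le_toNat (by omega)) (hU c f hf)

theorem Fil.mul {d e : ℤ} {U V : EndS} (hU : Fil d U) (hV : Fil e V) : Fil (d + e) (U * V) := by
  intro c f hf
  rw [Module.End.mul_apply]
  have h1 := hV c f hf
  rcases le_or_gt 0 ((c : ℤ) + e) with h | h
  · have h2 := hU _ _ h1
    rw [Int.toNat_of_nonneg h] at h2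
    have h3 : (c : ℤ) + e + d = (c : ℤ) + (d + e) := by ring
    rwa [h3] at h2
  · rw [Int.toNat_of_nonpos h.le] at h1
    rw [WW_zero h1, map_zero]
    exact Submodule.zero_mem _

theorem Fil.mul' {d e g : ℤ} {U V : EndS} (hU : Fil d U) (hV : Fil e V) (h : d + e ≤ g) :
    Fil g (U * V) := Fil.mono (Fil.mul hU hV) h

theorem Fil.zero (d : ℤ) : Fil d 0 := by
  intro c f _
  rw [LinearMap.zero_apply]
  exact Submodule.zero_mem _

theorem Fil.one : Fil 0 1 := by
  intro c f hf
  rw [Module.End.one_apply, add_zero, Int.toNat_natCast]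
  exact hf

theorem Fil_br {d e : ℤ} {U V : EndS} (hU : Fil d U) (hV : Fil e V) : Fil (d + e) (br U V) := by
  unfold br
  refine Fil.add (Fil.mul hU hV) ?_
  rw [add_comm d e]
  exact Fil.mul hV hU

theorem Fil_br' {d e g : ℤ} {U V : EndS} (hU : Fil d U) (hV : Fil e V) (h : d + e ≤ g) :
    Fil g (br U V) := Fil.mono (Fil_br hU hV) h

theorem Fil.pow_two {d : ℤ} {U : EndS} (hU : Fil d U) : ∀ k : ℕ, Fil (2 ^ k * d) (U ^ 2 ^ k)
  | 0 => by simpa using hU
  | k + 1 => by
    have h := Fil.pow_two hU k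
    have h1 : (2 : ℤ) ^ (k + 1) * d = 2 ^ k * d + 2 ^ k * d := by ring
    have h2 : U ^ 2 ^ (k + 1) = U ^ 2 ^ k * U ^ 2 ^ k := by
      rw [← pow_add]
      congr 1
      ring
    rw [h1, h2]
    exact Fil.mul h h

/-- operators killing all odd powers -/
def Zer (U : EndS) : Prop := ∀ j : ℕ, U (Db ^ (2 * j + 1)) = 0

theorem Zer.fil {U : EndS} (h : Zer U) (d : ℤ) : Fil d U := by
  intro c f hf
  have h1 : U f = 0 := by
    induction hf using Submodule.span_induction with
    | mem x hx =>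
      obtain ⟨j, -, rfl⟩ := hx
      exact h j
    | zero => rw [map_zero]
    | add x y _ _ hx hy => rw [map_add, hx, hy, add_zero]
    | smul a x _ hx => rw [map_smul, hx, smul_zero]
  rw [h1]
  exact Submodule.zero_mem _

theorem Fil_MD_of {t b : ℕ} (h : ∀ j, cont (j + t) ≤ cont j + b) : Fil b (MD (2 * t)) := by
  intro c f hf
  have h1 : (((c : ℤ) + (b : ℤ)).toNat) = c + b := by omega
  rw [h1]
  exact NIL.WW_mul h rfl hf

theorem Fil_B (i : ℕ) : Fil ((2 : ℤ) ^ i) (MD (4 ^ (i + 1))) := by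
  have h := Fil_MD_of (NIL.L2 i)
  have h1 : 2 * (2 * 4 ^ i) = 4 ^ (i + 1) := by ring
  rw [h1] at h
  exact_mod_cast h

theorem Fil_C (i : ℕ) : Fil ((2 : ℤ) ^ i) (MD (2 * 4 ^ i)) := by
  have h := Fil_MD_of (NIL.L1 i)
  exact_mod_cast h

theorem Fil_B2 (i : ℕ) : Fil ((2 : ℤ) ^ (i + 1)) (MD (4 ^ (i + 1)) * MD (4 ^ (i + 1))) := by
  have h := Fil_C (i + 1)
  rw [MD_eq, ← ML_mul, ← pow_add]
  rw [MD_eq, two_mul] at h
  exact h

theorem Fil_B3 (i : ℕ) : Fil ((2 : ℤ) ^ (i + 1) + 2 ^ i)
    (MD (4 ^ (i + 1)) * MD (4 ^ (i + 1)) * MD (4 ^ (i + 1))) :=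
  Fil.mul (Fil_B2 i) (Fil_B i)

/-- the basic identity -/
theorem rec_zer (H : T5H) (s : ℕ) : Zer (TO 5 * MD (16 * 2 ^ s) +
    ((MD (16 * 2 ^ s) + MD (8 * 2 ^ s)) * TO 5 + MD (4 * 2 ^ s) * TO 5 * MD (4 * 2 ^ s) +
      MD (3 * 2 ^ s) * TO 5 * MD (2 ^ s))) := by
  intro j
  have h := H.recu s (2 * j + 1)
  simp only [LinearMap.add_apply, Module.End.mul_apply, MD_eq, ML_apply]
  have e1 : Db ^ (16 * 2 ^ s) * Db ^ (2 * j + 1) = Db ^ (2 * j + 1 + 16 * 2 ^ s) := by
    rw [← pow_add]; congr 1; ring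
  have e2 : Db ^ (4 * 2 ^ s) * Db ^ (2 * j + 1) = Db ^ (2 * j + 1 + 4 * 2 ^ s) := by
    rw [← pow_add]; congr 1; ring
  have e3 : Db ^ (2 ^ s) * Db ^ (2 * j + 1) = Db ^ (2 * j + 1 + 2 ^ s) := by
    rw [← pow_add]; congr 1; ring
  rw [e1, e2, e3]
  change Tp 5 (Db ^ (2 * j + 1 + 16 * 2 ^ s)) + (Db ^ (16 * 2 ^ s) * Tp 5 (Db ^ (2 * j + 1)) +
    Db ^ (8 * 2 ^ s) * Tp 5 (Db ^ (2 * j + 1)) +
    Db ^ (4 * 2 ^ s) * Tp 5 (Db ^ (2 * j + 1 + 4 * 2 ^ s)) +
    Db ^ (3 * 2 ^ s) * Tp 5 (Db ^ (2 * j + 1 + 2 ^ s))) = 0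
  rw [h, ← add_mul, add_self_S]

/-- the polynomials `p_i`, with `D` replaced by `u` -/
noncomputable def pp (u : S) : ℕ → S
  | 0 => 1
  | 1 => u ^ 4
  | (i + 2) => u ^ (4 ^ (i + 2)) * pp u (i + 1) + u ^ (3 * 4 ^ (i + 1)) * pp u i

theorem pp_zero (u : S) : pp u 0 = 1 := by rw [pp]

theorem pp_one (u : S) : pp u 1 = u ^ 4 := by rw [pp]

theorem pp_succ (u : S) (i : ℕ) :
    pp u (i + 2) = u ^ (4 ^ (i + 2)) * pp u (i + 1) + u ^ (3 * 4 ^ (i + 1)) * pp u i := by
  rw [pp]

/-- `P_i` for level `k` -/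
noncomputable def PP (k i : ℕ) : EndS := ML (pp (Db ^ 4 ^ k) i)

/-- `B_i` -/
noncomputable def B (i : ℕ) : EndS := MD (4 ^ (i + 1))

theorem PP_zero (k : ℕ) : PP k 0 = 1 := by rw [PP, pp_zero, ML_one]

theorem PP_one (k : ℕ) : PP k 1 = B k := by
  rw [PP, pp_one, B, MD_eq, ← pow_mul, pow_succ]

theorem PP_succ (k i : ℕ) :
    PP k (i + 2) = B (k + i + 1) * PP k (i + 1) + B (k + i) * B (k + i) * B (k + i) * PP k i := by
  rw [PP, PP, PP, pp_succ, ML_add, B, B, MD_eq, MD_eq, ← pow_mul, ← pow_mul]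
  simp only [← ML_mul, ← ML_add]
  congr 1
  ring

theorem Fil_PP (k : ℕ) : ∀ i : ℕ, Fil ((2 : ℤ) ^ (k + i) - 2 ^ k) (PP k i) ∧
    Fil ((2 : ℤ) ^ (k + (i + 1)) - 2 ^ k) (PP k (i + 1))
  | 0 => by
    constructor
    · rw [PP_zero, add_zero, sub_self]
      exact Fil.one
    · rw [zero_add, PP_one]
      have h := Fil_B k
      refine Fil.mono h ?_
      rw [pow_succ]
      linarith
  | i + 1 => by
    obtain ⟨h1, h2⟩ := Fil_PP k i
    refine ⟨h2, ?_⟩
    rw [PP_succ]
    refine Fil.add ?_ ?_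
    · refine Fil.mul' (Fil_B (k + i + 1)) h2 ?_
      have e1 : (2 : ℤ) ^ (k + (i + 1 + 1)) = 2 ^ (k + i + 1) + 2 ^ (k + (i + 1)) := by ring
      rw [e1]
      linarith
    · refine Fil.mul' (Fil_B3 (k + i)) h1 ?_
      have e1 : (2 : ℤ) ^ (k + (i + 1 + 1)) = 2 ^ (k + i + 1) + 2 ^ (k + i) + 2 ^ (k + i) := by
        ring
      rw [e1]
      linarith

theorem fil_PP (k i : ℕ) : Fil ((2 : ℤ) ^ (k + i) - 2 ^ k) (PP k i) := (Fil_PP k i).1

theorem B_zero : B 0 = MD 4 := by
  rw [B, zero_add, pow_one]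

theorem B_four (i : ℕ) : B i * B i * B i * B i = B (i + 1) := by
  rw [B, B, MD_eq, MD_eq]
  simp only [← ML_mul]
  congr 1
  ring

theorem add_add_self (U V : EndS) : U = (U + V) + V := by
  rw [add_assoc, add_self_E, add_zero]

/-- step (3) -/
theorem base3 (H : T5H) (G : T5G) : ∀ i : ℕ,
    Fil ((2 : ℤ) ^ i - 2) (br (TO 5) (B i) + PP 0 i) ∧
    Fil ((2 : ℤ) ^ (i + 1) - 2) (br (TO 5) (B (i + 1)) + PP 0 (i + 1))
  | 0 => by
    constructor
    · rw [PP_zero, B_zero, pow_zero]
      exact G.g2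
    · rw [zero_add, PP_one, B_zero]
      have hZ := rec_zer H 0
      rw [pow_zero] at hZ
      have e8 : MD (8 * 1) = MD 4 * MD 4 := by
        rw [MD_eq, MD_eq, ← ML_mul, ← pow_add]
      have e3 : MD (3 * 1) = MD 2 * MD 1 := by
        rw [MD_eq, MD_eq, MD_eq, ← ML_mul, ← pow_add]
      have e16 : B 1 = MD (16 * 1) := by
        rw [B]; norm_num
      have key : br (TO 5) (B 1) + MD 4 =
          (TO 5 * MD (16 * 1) + ((MD (16 * 1) + MD (8 * 1)) * TO 5 +
            MD (4 * 1) * TO 5 * MD (4 * 1) + MD (3 * 1) * TO 5 * MD 1)) +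
          (MD 4 * (TO 5 * MD 4 + MD 4 * TO 5 + 1) + MD 2 * (MD 1 * TO 5 * MD 1)) := by
        rw [e8, e3, e16, mul_one 4]
        generalize TO 5 = T
        generalize MD 4 = b
        generalize MD 2 = c
        generalize MD 1 = d
        generalize MD (16 * 1) = e
        have h : T * e + ((e + b * b) * T + b * T * b + c * d * T * d) +
            (b * (T * b + b * T + 1) + c * (d * T * d)) =
            (br T e + b) + ((b * b * T + b * b * T) + (b * T * b + b * T * b) +
              (c * d * T * d + c * d * T * d)) := by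
          unfold br
          noncomm_ring
        rw [h]
        simp only [add_self_E, add_zero]
      rw [key]
      refine Fil.add (hZ.fil _) (Fil.add ?_ ?_)
      · have h4 := Fil_B 0
        rw [zero_add, pow_one, pow_zero] at h4
        exact Fil.mul' h4 G.g2 (by norm_num)
      · have h2 := Fil_C 0
        rw [pow_zero, pow_zero, mul_one] at h2
        exact Fil.mul' h2 G.g3 (by norm_num)
  | i + 1 => by
    obtain ⟨h1, h2⟩ := base3 H G i
    refine ⟨h2, ?_⟩
    have hZ := rec_zer H (2 * i + 2)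
    have e16 : MD (16 * 2 ^ (2 * i + 2)) = B (i + 2) := by
      rw [B]; congr 1
      rw [pow_add, pow_mul]; norm_num; ring
    have e8 : MD (8 * 2 ^ (2 * i + 2)) = B (i + 1) * B (i + 1) := by
      rw [B, MD_eq, MD_eq, ← ML_mul, ← pow_add]; congr 2
      rw [pow_add, pow_mul]; norm_num; ring
    have e4 : MD (4 * 2 ^ (2 * i + 2)) = B (i + 1) := by
      rw [B]; congr 1
      rw [pow_add, pow_mul]; norm_num; ring
    have e3 : MD (3 * 2 ^ (2 * i + 2)) = B i * B i * B i := by
      rw [B, MD_eq, MD_eq, ← ML_mul, ← ML_mul, ← pow_add, ← pow_add]; congr 2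
      rw [pow_add, pow_mul]; norm_num; ring
    have e1 : MD (2 ^ (2 * i + 2)) = B i := by
      rw [B]; congr 1
      rw [pow_add, pow_mul]; norm_num; ring
    rw [e16, e8, e4, e3, e1] at hZ
    have hP := PP_succ 0 i
    rw [zero_add] at hP
    have key : br (TO 5) (B (i + 2)) + PP 0 (i + 2) =
        (TO 5 * B (i + 2) + ((B (i + 2) + B (i + 1) * B (i + 1)) * TO 5 +
          B (i + 1) * TO 5 * B (i + 1) + B i * B i * B i * TO 5 * B i)) +
        (B (i + 1) * (br (TO 5) (B (i + 1)) + PP 0 (i + 1)) +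
          (B i * B i * B i * (br (TO 5) (B i) + PP 0 i) + B (i + 1) * TO 5)) := by
      rw [hP, ← B_four i]
      generalize TO 5 = T
      generalize B (i + 2) = e
      generalize B i = b
      generalize PP 0 (i + 1) = p
      generalize PP 0 i = q
      have h : T * e + ((e + b * b * b * b * (b * b * b * b)) * T +
          b * b * b * b * T * (b * b * b * b) + b * b * b * T * b) +
          (b * b * b * b * (br T (b * b * b * b) + p) +
            (b * b * b * (br T b + q) + b * b * b * b * T)) =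
          (br T e + (b * b * b * b * p + b * b * b * q)) +
          ((b * b * b * b * (b * b * b * b) * T + b * b * b * b * (b * b * b * b) * T) +
          (b * b * b * b * T * (b * b * b * b) + b * b * b * b * T * (b * b * b * b)) +
          (b * b * b * T * b + b * b * b * T * b) +
          (b * b * b * b * T + b * b * b * b * T)) := by
        unfold br
        noncomm_ring
      rw [h]
      simp only [add_self_E, add_zero]
    rw [key]
    have hpos : (1 : ℤ) ≤ 2 ^ (i + 1) := one_le_pow₀ (by norm_num)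
    refine Fil.add (hZ.fil _) (Fil.add ?_ (Fil.add ?_ ?_))
    · refine Fil.mul' (Fil_B (i + 1)) h2 ?_
      have : (2 : ℤ) ^ (i + 1 + 1) = 2 ^ (i + 1) + 2 ^ (i + 1) := by ring
      linarith
    · refine Fil.mul' (Fil_B3 i) h1 ?_
      have : (2 : ℤ) ^ (i + 1 + 1) = 2 ^ (i + 1) + 2 ^ i + 2 ^ i := by ring
      linarith
    · refine Fil.mul' (Fil_B (i + 1)) G.t5 ?_
      have : (2 : ℤ) ^ (i + 1 + 1) = 2 ^ (i + 1) + 2 ^ (i + 1) := by ring
      linarith

/-- the powers of `T_5` -/
noncomputable def Y (k : ℕ) : EndS := TO 5 ^ 2 ^ k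

theorem Y_succ (k : ℕ) : Y (k + 1) = Y k * Y k := by
  rw [Y, Y, ← pow_add]
  congr 1
  ring

theorem Fil_Y (G : T5G) (k : ℕ) : Fil (-2 ^ k) (Y k) := by
  have h := Fil.pow_two G.t5 k
  rw [mul_neg, mul_one] at h
  exact h

/-- part (b) of the claim at level `k` -/
def Clb (k : ℕ) : Prop :=
  ∀ i : ℕ, Fil ((2 : ℤ) ^ (k + i) - 2 ^ k - 1) (br (Y k) (B (k + i)) + PP k i)

/-- step Q -/
theorem stepQ {k : ℕ} (hb : Clb k) : ∀ i : ℕ,
    Fil ((2 : ℤ) ^ (k + i + 1) - 2 ^ (k + 1) - 1) (br (Y k) (PP k (i + 1)) + PP (k + 1) i) ∧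
    Fil ((2 : ℤ) ^ (k + i + 2) - 2 ^ (k + 1) - 1) (br (Y k) (PP k (i + 2)) + PP (k + 1) (i + 1))
  | 0 => by
    have hb0 := hb 0
    have hb1 := hb 1
    rw [add_zero, PP_zero] at hb0
    rw [PP_one] at hb1
    constructor
    · rw [PP_zero, zero_add, PP_one, add_zero]
      exact Fil.mono hb0 (by rw [pow_succ]; linarith)
    · have hP := PP_succ k 0
      rw [zero_add, zero_add, add_zero, PP_one, PP_zero, mul_one] at hP
      rw [zero_add, zero_add, PP_one, hP, add_zero]
      have key : br (Y k) (B (k + 1) * B k + B k * B k * B k) + B (k + 1) =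
          (br (Y k) (B (k + 1)) + B k) * B k + (B (k + 1) * (br (Y k) (B k) + 1) +
          ((br (Y k) (B k) + 1) * (B k * B k) + (B k * (br (Y k) (B k) + 1) * B k +
            B k * B k * (br (Y k) (B k) + 1)))) := by
        generalize B (k + 1) = e
        generalize B k = b
        generalize Y k = U
        have h : (br U e + b) * b + (e * (br U b + 1) + ((br U b + 1) * (b * b) +
            (b * (br U b + 1) * b + b * b * (br U b + 1)))) =
            br U (e * b + b * b * b) + e + ((e * U * b + e * U * b) +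
            (b * U * b * b + b * U * b * b) + (b * b * U * b + b * b * U * b) +
            (b * b + b * b) + (b * b + b * b)) := by
          unfold br
          noncomm_ring
        rw [h]
        simp only [add_self_E, add_zero]
      rw [key]
      have hB := Fil_B k
      have hB1 := Fil_B (k + 1)
      have hB2 := Fil_B2 k
      have t1 : (2 : ℤ) ^ (k + 2) = 4 * 2 ^ k := by ring
      have t2 : (2 : ℤ) ^ (k + 1) = 2 * 2 ^ k := by ring
      rw [t2] at hb1 hB1 hB2
      rw [t1, t2]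
      refine Fil.add (Fil.mul' hb1 hB (by linarith)) (Fil.add (Fil.mul' hB1 hb0 (by linarith))
        (Fil.add (Fil.mul' hb0 hB2 (by linarith)) (Fil.add ?_ (Fil.mul' hB2 hb0 (by linarith)))))
      exact Fil.mul' (Fil.mul hB hb0) hB (by linarith)
  | i + 1 => by
    obtain ⟨q0, q1⟩ := stepQ hb i
    refine ⟨q1, ?_⟩
    have r2 := hb (i + 2)
    have r1 := hb (i + 1)
    have hP3 := PP_succ k (i + 1)
    have hP2 := PP_succ k i
    have hR := PP_succ (k + 1) i
    have e1 : k + (i + 1) + 1 = k + i + 2 := by ring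
    have e2 : k + (i + 1) = k + i + 1 := by ring
    have e3 : k + 1 + i + 1 = k + i + 2 := by ring
    have e4 : k + 1 + i = k + i + 1 := by ring
    have e5 : k + (i + 2) = k + i + 2 := by ring
    rw [e1, e2] at hP3
    rw [e3, e4] at hR
    rw [e5] at r2
    rw [e2] at r1 ⊢
    have hfour := B_four (k + i)
    have hE : PP k (i + 2) * PP k (i + 2) + (PP k (i + 1) * B (k + i + 1) * B (k + i + 1) +
        B (k + i + 1) * PP k (i + 1) * B (k + i + 1) +
        B (k + i + 1) * B (k + i + 1) * PP k (i + 1)) * PP k (i + 1) =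
        B (k + i + 1) * (B (k + i) * B (k + i)) * (PP k i * PP k i) := by
      rw [hP2, ← hfour]
      simp only [PP, B, MD_eq]
      simp only [← ML_mul, ← ML_add]
      congr 1
      generalize Db ^ 4 ^ (k + i + 1) = v
      generalize pp (Db ^ 4 ^ k) (i + 1) = p1
      generalize pp (Db ^ 4 ^ k) i = p0
      linear_combination (2 * (v * v * v * v) ^ 2 * p1 ^ 2 +
        (v * v * v * v) * p1 * (v * v * v) * p0) * two_eq_zero_S
    have key : br (Y k) (PP k (i + 1 + 2)) + PP (k + 1) (i + 1 + 1) =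
        (br (Y k) (B (k + i + 2)) + PP k (i + 2)) * PP k (i + 2) +
        (B (k + i + 2) * (br (Y k) (PP k (i + 2)) + PP (k + 1) (i + 1)) +
        (((br (Y k) (B (k + i + 1)) + PP k (i + 1)) * (B (k + i + 1) * B (k + i + 1)) +
          (B (k + i + 1) * (br (Y k) (B (k + i + 1)) + PP k (i + 1)) * B (k + i + 1) +
          B (k + i + 1) * B (k + i + 1) * (br (Y k) (B (k + i + 1)) + PP k (i + 1)))) *
            PP k (i + 1) +
        (B (k + i + 1) * B (k + i + 1) * B (k + i + 1) *
          (br (Y k) (PP k (i + 1)) + PP (k + 1) i) +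
        B (k + i + 1) * (B (k + i) * B (k + i)) * (PP k i * PP k i)))) := by
      rw [← hE]
      have hP3' : PP k (i + 1 + 2) = B (k + i + 2) * PP k (i + 2) +
        B (k + i + 1) * B (k + i + 1) * B (k + i + 1) * PP k (i + 1) := hP3
      have hR' : PP (k + 1) (i + 1 + 1) = B (k + i + 2) * PP (k + 1) (i + 1) +
        B (k + i + 1) * B (k + i + 1) * B (k + i + 1) * PP (k + 1) i := hR
      rw [hP3', hR']
      generalize B (k + i + 2) = e
      generalize B (k + i + 1) = b
      generalize PP k (i + 2) = p2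
      generalize PP k (i + 1) = p1
      generalize PP (k + 1) (i + 1) = r1
      generalize PP (k + 1) i = r0
      generalize Y k = U
      have h : (br U e + p2) * p2 + (e * (br U p2 + r1) +
          (((br U b + p1) * (b * b) + (b * (br U b + p1) * b + b * b * (br U b + p1))) * p1 +
          (b * b * b * (br U p1 + r0) +
            (p2 * p2 + (p1 * b * b + b * p1 * b + b * b * p1) * p1)))) =
          br U (e * p2 + b * b * b * p1) + (e * r1 + b * b * b * r0) +
          ((p2 * p2 + p2 * p2) + (e * U * p2 + e * U * p2) +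
          (b * U * b * b * p1 + b * U * b * b * p1) + (b * b * U * b * p1 + b * b * U * b * p1) +
          (b * b * b * U * p1 + b * b * b * U * p1) +
          (p1 * b * b * p1 + p1 * b * b * p1) + (b * p1 * b * p1 + b * p1 * b * p1) +
          (b * b * p1 * p1 + b * b * p1 * p1)) := by
        unfold br
        noncomm_ring
      rw [h]
      simp only [add_self_E, add_zero]
    rw [key]
    have hB0 := Fil_B (k + i)
    have hB02 := Fil_B2 (k + i)
    have hB1 := Fil_B (k + i + 1)
    have hB12 := Fil_B2 (k + i + 1)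
    have hB13 := Fil_B3 (k + i + 1)
    have hB2 := Fil_B (k + i + 2)
    have hp0 := fil_PP k i
    have hp1 := fil_PP k (i + 1)
    have hp2 := fil_PP k (i + 2)
    have f1 : k + (i + 1) = k + i + 1 := by ring
    have f2 : k + (i + 2) = k + i + 2 := by ring
    rw [f1] at hp1
    rw [f2] at hp2
    have t0 : (2 : ℤ) ^ (k + i + 1) = 2 * 2 ^ (k + i) := by ring
    have t1 : (2 : ℤ) ^ (k + i + 2) = 4 * 2 ^ (k + i) := by ring
    have t2 : (2 : ℤ) ^ (k + i + 1 + 1) = 4 * 2 ^ (k + i) := by ring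
    have t3 : (2 : ℤ) ^ (k + i + 1 + 2) = 8 * 2 ^ (k + i) := by ring
    have t4 : (2 : ℤ) ^ (k + 1) = 2 * 2 ^ k := by ring
    have hpos : (1 : ℤ) ≤ 2 ^ (k + i) := one_le_pow₀ (by norm_num)
    rw [t0] at q0 r1 hB02 hB1 hB13 hp1
    rw [t1] at q1 r2 hB2 hp2
    rw [t2] at hB12 hB13
    rw [t4] at q0 q1
    rw [t3, t4]
    refine Fil.add (Fil.mul' r2 hp2 (by linarith)) (Fil.add (Fil.mul' hB2 q1 (by linarith))
      (Fil.add ?_ (Fil.add (Fil.mul' hB13 q0 (by linarith)) ?_)))
    · refine Fil.mul' (d := 4 * 2 ^ (k + i) + (2 * 2 ^ (k + i) - 2 ^ k - 1)) ?_ hp1 (by linarith)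
      refine Fil.add (Fil.mul' r1 hB12 (by linarith)) (Fil.add ?_
        (Fil.mul' hB12 r1 (by linarith)))
      exact Fil.mul' (Fil.mul hB1 r1) hB1 (by linarith)
    · exact Fil.mul' (Fil.mul hB1 hB02) (Fil.mul hp0 hp0) (by linarith)

theorem claim (H : T5H) (G : T5G) : ∀ k : ℕ,
    (∀ j : ℕ, j < k → Fil ((2 : ℤ) ^ j - 2 ^ k - 1) (br (Y k) (B j))) ∧ Clb k
  | 0 => by
    refine ⟨fun j hj => absurd hj (Nat.not_lt_zero j), fun i => ?_⟩
    have h := (base3 H G i).1
    have hY : Y 0 = TO 5 := by rw [Y, pow_zero, pow_one]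
    rw [zero_add, hY, pow_zero]
    exact Fil.mono h (by linarith)
  | k + 1 => by
    obtain ⟨ha, hb⟩ := claim H G k
    have hY := Fil_Y G k
    have t4 : (2 : ℤ) ^ (k + 1) = 2 * 2 ^ k := by ring
    constructor
    · intro j hj
      rw [Y_succ, br_sq]
      rcases Nat.lt_succ_iff_lt_or_eq.1 hj with h | h
      · exact Fil_br' hY (ha j h) (by rw [t4]; linarith)
      · subst h
        have hb0 := hb 0
        rw [add_zero, PP_zero] at hb0
        have h1 : br (Y j) (B j) = (br (Y j) (B j) + 1) + 1 := add_add_self _ _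
        rw [h1, br_add, br_one, add_zero]
        exact Fil_br' hY hb0 (by rw [t4]; linarith)
    · intro i
      have hbi := hb (i + 1)
      have hq := (stepQ hb i).1
      have e1 : k + (i + 1) = k + 1 + i := by ring
      have e2 : k + i + 1 = k + 1 + i := by ring
      rw [e1] at hbi
      rw [e2] at hq
      rw [Y_succ, br_sq]
      have h1 : br (Y k) (B (k + 1 + i)) =
          (br (Y k) (B (k + 1 + i)) + PP k (i + 1)) + PP k (i + 1) := add_add_self _ _
      rw [h1, br_add, add_assoc (br (Y k) _) (br (Y k) _) (PP (k + 1) i)]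
      refine Fil.add (Fil_br' hY hbi ?_) hq
      rw [t4]
      linarith

end KK

open KK in
/-- TASK KK -/
theorem t5k (H : T5H) (G : T5G) : T5K := by
  refine ⟨fun k j hj => (claim H G k).1 j hj, fun k => ?_, fun i => ?_⟩
  · have h := (claim H G k).2 0
    rw [add_zero, PP_zero] at h
    exact Fil.mono h (by linarith)
  · cases i with
    | zero =>
      rw [pow_zero, pow_zero, mul_one]
      exact G.g1
    | succ i =>
      have h := (base3 H G i).1
      have e1 : MD (2 * 4 ^ (i + 1)) = B i * B i := by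
        rw [B, MD_eq, MD_eq, ← ML_mul, ← pow_add, two_mul]
      rw [e1]
      have hcomm : PP 0 i * B i + B i * PP 0 i = 0 := by
        have := br_ML (pp (Db ^ 4 ^ 0) i) (Db ^ 4 ^ (i + 1))
        exact this
      have key : TO 5 * (B i * B i) + B i * B i * TO 5 =
          (br (TO 5) (B i) + PP 0 i) * B i + B i * (br (TO 5) (B i) + PP 0 i) := by
        have h1 : (br (TO 5) (B i) + PP 0 i) * B i + B i * (br (TO 5) (B i) + PP 0 i) =
            (TO 5 * (B i * B i) + B i * B i * TO 5) + ((B i * TO 5 * B i + B i * TO 5 * B i) +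
              (PP 0 i * B i + B i * PP 0 i)) := by
          unfold br
          noncomm_ring
        rw [h1, add_self_E, hcomm, add_zero, add_zero]
      rw [key]
      have hB := Fil_B i
      have t : (2 : ℤ) ^ (i + 1) = 2 ^ i + 2 ^ i := by ring
      rw [t]
      exact Fil.add (Fil.mul' h hB (by linarith)) (Fil.mul' hB h (by linarith))

end Pool.Agent.H307R2.OP
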