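import Pool.Agent.H307R2.OP.Defs
import Pool.Agent.H397R2.PP.VAN
import Pool.Agent.H397R2.PP.B0
import Pool.Agent.H397R2.PP.B1
import Pool.Agent.H397R2.PP.B2
import Pool.Agent.H397R2.PP.B3
import Pool.Agent.H397R2.PP.TH

set_option autoImplicit false

/-!
# Task MS: Hecke operators on the powers of `Δ` modulo 2 (helper978)
-/

namespace Pool.Agent.H307R2.OP

open PowerSeries Pool.Agent.H397R2.PP

namespace MS

/-! ## arithmetic: unique representation by `u² + n v²` -/

/-- a prime has at most one representation `a² + n b²` with `a, b` positive, for `n ≥ 2` -/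
theorem rep_unique (n q a b c d : ℕ) (hn : 2 ≤ n) (hq : q.Prime) (ha : 0 < a) (hb : 0 < b)
    (hc : 0 < c) (hd : 0 < d) (h1 : a ^ 2 + n * b ^ 2 = q) (h2 : c ^ 2 + n * d ^ 2 = q) :
    a = c ∧ b = d := by
  have e1 : (a : ℤ) ^ 2 + n * (b : ℤ) ^ 2 = q := by exact_mod_cast h1
  have e2 : (c : ℤ) ^ 2 + n * (d : ℤ) ^ 2 = q := by exact_mod_cast h2
  have hqp : Prime (q : ℤ) := Nat.prime_iff_prime_int.mp hq
  have hq0 : (0 : ℤ) < q := by exact_mod_cast hq.pos
  have hnZ : (2 : ℤ) ≤ n := by exact_mod_cast hn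
  have ha' : (0 : ℤ) < a := by exact_mod_cast ha
  have hb' : (0 : ℤ) < b := by exact_mod_cast hb
  have hc' : (0 : ℤ) < c := by exact_mod_cast hc
  have hd' : (0 : ℤ) < d := by exact_mod_cast hd
  have hprod : ((a : ℤ) * d - b * c) * (a * d + b * c) = q * (d ^ 2 - b ^ 2) := by
    linear_combination (d : ℤ) ^ 2 * e1 - (b : ℤ) ^ 2 * e2
  have hdvd : (q : ℤ) ∣ (a * d - b * c) * (a * d + b * c) := ⟨_, hprod⟩
  have hid1 : ((a : ℤ) * c + n * (b * d)) ^ 2 + n * (a * d - b * c) ^ 2 = q ^ 2 := by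
    rw [sq (q : ℤ)]; nth_rewrite 1 [← e1]; rw [← e2]; ring
  have hid2 : ((a : ℤ) * c - n * (b * d)) ^ 2 + n * (a * d + b * c) ^ 2 = q ^ 2 := by
    rw [sq (q : ℤ)]; nth_rewrite 1 [← e1]; rw [← e2]; ring
  rcases hqp.dvd_or_dvd hdvd with h | h
  · have h0 : (a : ℤ) * d - b * c = 0 := by
      by_contra hne
      have h3 : (q : ℤ) ≤ |(a : ℤ) * d - b * c| := Int.le_of_dvd (abs_pos.mpr hne) ((dvd_abs _ _).mpr h)
      have h4 : (q : ℤ) ^ 2 ≤ (a * d - b * c) ^ 2 := by
        rw [← sq_abs ((a : ℤ) * d - b * c)]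
        exact pow_le_pow_left₀ hq0.le h3 2
      have h5 : 2 * (q : ℤ) ^ 2 ≤ n * (a * d - b * c) ^ 2 :=
        mul_le_mul hnZ h4 (by positivity) (by positivity)
      have h6 := sq_nonneg ((a : ℤ) * c + n * (b * d))
      have h7 : (0 : ℤ) < (q : ℤ) ^ 2 := by positivity
      linarith
    rw [h0, zero_mul] at hprod
    have h5 : (d : ℤ) ^ 2 - b ^ 2 = 0 := by
      rcases mul_eq_zero.mp hprod.symm with h | h
      · omega
      · exact h
    have h6 : (b : ℤ) = d := by nlinarith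
    have h7 : (a : ℤ) ^ 2 = c ^ 2 := by rw [h6] at e1; linarith
    have h8 : (a : ℤ) = c := by nlinarith
    exact ⟨by exact_mod_cast h8, by exact_mod_cast h6⟩
  · exfalso
    have hpos : (0 : ℤ) < a * d + b * c := by positivity
    have h3 : (q : ℤ) ≤ a * d + b * c := Int.le_of_dvd hpos h
    have h4 : (q : ℤ) ^ 2 ≤ (a * d + b * c) ^ 2 := pow_le_pow_left₀ hq0.le h3 2
    have h5 : 2 * (q : ℤ) ^ 2 ≤ n * (a * d + b * c) ^ 2 :=
      mul_le_mul hnZ h4 (by positivity) (by positivity)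
    have h6 := sq_nonneg ((a : ℤ) * c - n * (b * d))
    have h7 : (0 : ℤ) < (q : ℤ) ^ 2 := by positivity
    linarith

/-- a prime `q ≡ 3 (mod 8)` is `u² + 2 v²` with `u, v` odd -/
theorem exists_rep2 (q : ℕ) (hq : q.Prime) (h8 : q % 8 = 3) :
    ∃ i j : ℕ, (2 * i + 1) ^ 2 + 2 * (2 * j + 1) ^ 2 = q := by
  have : Fact q.Prime := ⟨hq⟩
  have hsq : IsSquare (-2 : ZMod q) := by
    rw [ZMod.exists_sq_eq_neg_two_iff (by omega)]
    right; exact h8
  obtain ⟨s, hs⟩ := hsq
  set m := Nat.sqrt q with hm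
  have hm1 : m * m ≤ q := Nat.sqrt_le q
  have hm2 : q < (m + 1) * (m + 1) := Nat.lt_succ_sqrt q
  -- pigeonhole
  have hcard : (Finset.univ : Finset (ZMod q)).card <
      ((Finset.range (m + 1)) ×ˢ (Finset.range (m + 1))).card := by
    rw [Finset.card_univ, ZMod.card, Finset.card_product, Finset.card_range]
    exact hm2
  obtain ⟨x, hx, y, hy, hne, hxy⟩ := Finset.exists_ne_map_eq_of_card_lt_of_maps_to hcard
    (f := fun x : ℕ × ℕ => (x.1 : ZMod q) - s * x.2) (fun _ _ => Finset.mem_coe.mpr (Finset.mem_univ _))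
  rw [Finset.mem_product, Finset.mem_range, Finset.mem_range] at hx hy
  obtain ⟨x1, x2⟩ := x
  obtain ⟨y1, y2⟩ := y
  simp only at hx hy hxy
  set u : ℤ := (x1 : ℤ) - y1 with hu
  set v : ℤ := (x2 : ℤ) - y2 with hv
  have hne2 : u ≠ 0 ∨ v ≠ 0 := by
    by_contra hcon
    push Not at hcon
    apply hne
    ext
    · simp only; omega
    · simp only; omega
  have hz : (((u ^ 2 + 2 * v ^ 2 : ℤ)) : ZMod q) = 0 := by
    have h1 : (x1 : ZMod q) - y1 = s * (x2 - y2) := by linear_combination hxy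
    rw [hu, hv]
    push_cast
    rw [h1]
    linear_combination (-((x2 : ZMod q) - y2) ^ 2) * hs
  rw [ZMod.intCast_zmod_eq_zero_iff_dvd] at hz
  obtain ⟨t, ht⟩ := hz
  have hum : u ^ 2 ≤ m * m := by
    have : |u| ≤ m := by rw [abs_le]; constructor <;> omega
    have h3 := abs_nonneg u
    rw [← sq_abs]
    nlinarith
  have hvm : v ^ 2 ≤ m * m := by
    have : |v| ≤ m := by rw [abs_le]; constructor <;> omega
    have h3 := abs_nonneg v
    rw [← sq_abs]
    nlinarith
  have hmq : (m : ℤ) * m < q := by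
    have h3 : m * m ≠ q := by
      intro h
      have : IsSquare q := ⟨m, h.symm⟩
      exact hq.prime.not_isSquare this
    have : m * m < q := lt_of_le_of_ne hm1 h3
    exact_mod_cast this
  have hpos : 0 < u ^ 2 + 2 * v ^ 2 := by
    rcases hne2 with h | h
    · have := sq_pos_of_ne_zero h; nlinarith [sq_nonneg v]
    · have := sq_pos_of_ne_zero h; nlinarith [sq_nonneg u]
  have hq0 : (0 : ℤ) < q := by exact_mod_cast hq.pos
  have ht1 : 0 < t := by
    by_contra hcon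
    push Not at hcon
    nlinarith
  have ht2 : t < 3 := by
    by_contra hcon
    push Not at hcon
    nlinarith
  have hfin : ∃ a b : ℤ, a ^ 2 + 2 * b ^ 2 = q := by
    have h3 : t = 1 ∨ t = 2 := by omega
    rcases h3 with h3 | h3
    · exact ⟨u, v, by rw [ht, h3]; ring⟩
    · rw [h3] at ht
      have h4 : (2 : ℤ) ∣ u ^ 2 := ⟨q - v ^ 2, by linarith⟩
      obtain ⟨w, hw⟩ := Int.prime_two.dvd_of_dvd_pow h4
      refine ⟨v, w, ?_⟩
      rw [hw] at ht
      nlinarith
  obtain ⟨a, b, hab⟩ := hfin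
  have habN : a.natAbs ^ 2 + 2 * b.natAbs ^ 2 = q := by
    have : (((a.natAbs ^ 2 + 2 * b.natAbs ^ 2 : ℕ)) : ℤ) = (q : ℤ) := by
      push_cast
      rw [sq_abs, sq_abs]; exact hab
    exact_mod_cast this
  set A := a.natAbs
  set B := b.natAbs
  have hA : A % 2 = 1 := by
    rcases Nat.mod_two_eq_zero_or_one A with h | h
    · exfalso
      have : A ^ 2 % 2 = 0 := by rw [Nat.pow_mod, h]
      omega
    · exact h
  have hB : B % 2 = 1 := by
    rcases Nat.mod_two_eq_zero_or_one B with h | h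
    · exfalso
      obtain ⟨c, hc⟩ : ∃ c, B = 2 * c := ⟨B / 2, by omega⟩
      obtain ⟨t', i', e1, e2, e3⟩ := TH.odd_sq hA
      rw [e1, hc] at habN
      have : 2 * (2 * c) ^ 2 = 8 * c ^ 2 := by ring
      omega
    · exact h
  refine ⟨A / 2, B / 2, ?_⟩
  rw [← habN]
  congr 2
  · omega
  · congr 1; omega

/-- a prime `q ≡ 5 (mod 8)` is `u² + 4 v²` with `u, v` odd -/
theorem exists_rep4 (q : ℕ) (hq : q.Prime) (h8 : q % 8 = 5) :
    ∃ i j : ℕ, (2 * i + 1) ^ 2 + 4 * (2 * j + 1) ^ 2 = q := by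
  have : Fact q.Prime := ⟨hq⟩
  obtain ⟨a, b, hab⟩ := Nat.Prime.sq_add_sq (p := q) (by omega)
  have key : ∀ a b : ℕ, a % 2 = 1 → a ^ 2 + b ^ 2 = q →
      ∃ i j : ℕ, (2 * i + 1) ^ 2 + 4 * (2 * j + 1) ^ 2 = q := by
    intro a b ha hab
    obtain ⟨t', i', e1, e2, e3⟩ := TH.odd_sq ha
    have hb : b % 2 = 0 := by
      rcases Nat.mod_two_eq_zero_or_one b with h | h
      · exact h
      · exfalso
        obtain ⟨t2, i2, f1, f2, f3⟩ := TH.odd_sq h
        omega
    obtain ⟨c, hc⟩ : ∃ c, b = 2 * c := ⟨b / 2, by omega⟩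
    have hc2 : c % 2 = 1 := by
      rcases Nat.mod_two_eq_zero_or_one c with h | h
      · exfalso
        obtain ⟨d, hd⟩ : ∃ d, c = 2 * d := ⟨c / 2, by omega⟩
        rw [e1, hc, hd] at hab
        have : (2 * (2 * d)) ^ 2 = 16 * d ^ 2 := by ring
        omega
      · exact h
    refine ⟨i', c / 2, ?_⟩
    have h1 : 2 * (c / 2) + 1 = c := by omega
    rw [h1, ← e3, ← hab, hc]
    ring
  rcases Nat.mod_two_eq_zero_or_one a with h | h
  · apply key b a _ (by rw [add_comm]; exact hab)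
    rcases Nat.mod_two_eq_zero_or_one b with h' | h'
    · exfalso
      have h1 : a ^ 2 % 2 = 0 := by rw [Nat.pow_mod, h]
      have h2 : b ^ 2 % 2 = 0 := by rw [Nat.pow_mod, h']
      omega
    · exact h'
  · exact key a b h hab

/-! ## the reduction modulo 2 of the Hecke operator -/

theorem TpZ_map (k q : ℕ) (_hk : 1 ≤ k) (hq : q % 2 = 1) (P : ℤ⟦X⟧) :
    (TpZ (12 * k) q P).map (Int.castRingHom (ZMod 2)) =
      Tp q (P.map (Int.castRingHom (ZMod 2))) := by
  have h2 : ((q : ℤ) : ZMod 2) = 1 := by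
    have : (q : ZMod 2) = 1 := by
      rw [← Nat.cast_one (R := ZMod 2)]
      rw [ZMod.natCast_eq_natCast_iff]
      exact hq
    exact_mod_cast this
  ext n
  rw [coeff_map, TpZ, Tp, coeff_mk, coeff_mk, coeff_map]
  split_ifs with h
  · rw [coeff_map]
    simp only [eq_intCast, Int.cast_add, Int.cast_mul, Int.cast_pow, h2, one_pow, one_mul]
  · simp

theorem mem0 (q k : ℕ) (hq : q.Prime) (hq2 : q % 2 = 1) (hk : 1 ≤ k) :
    Tp q (Db ^ k) ∈ Submodule.span (ZMod 2) (Set.range fun j : Fin (k + 1) => Db ^ (j : ℕ)) := by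
  have h1 := IsMF.mem_span qExpansion_discriminant k _
    (IsMF.hecke k hk _ (isMF_pow qExpansion_discriminant k) q hq)
  rw [TpZ_map k q hk hq2, map_pow, B1.Dz_map] at h1
  exact h1

/-- projection to the exponents `≡ r (mod 8)` -/
noncomputable def PR (r : ℕ) : EndS where
  toFun φ := PowerSeries.mk fun n => if n % 8 = r then coeff n φ else 0
  map_add' x y := by
    ext n
    simp only [coeff_mk, map_add]
    split_ifs <;> ring
  map_smul' c x := by
    ext n
    simp only [coeff_mk, PowerSeries.coeff_smul, RingHom.id_apply, smul_eq_mul]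
    split_ifs <;> ring

theorem PR_pow (r j : ℕ) : PR r (Db ^ j) = if j % 8 = r then Db ^ j else 0 := by
  ext n
  show coeff n (PowerSeries.mk fun n => if n % 8 = r then coeff n (Db ^ j) else 0) = _
  rw [coeff_mk]
  by_cases h : j % 8 = r
  · rw [if_pos h]
    by_cases h1 : n % 8 = r
    · rw [if_pos h1]
    · rw [if_neg h1, coeff_Db_pow_of_mod j n (by omega)]
  · rw [if_neg h]
    by_cases h1 : n % 8 = r
    · rw [if_pos h1, coeff_Db_pow_of_mod j n (by omega)]; simp
    · rw [if_neg h1]; simp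

theorem odd_of_prime {q : ℕ} (hq : q.Prime) (h2 : q ≠ 2) : q % 2 = 1 := by
  rcases hq.eq_two_or_odd with h | h
  · exact absurd h h2
  · exact h

theorem mul_mod8 {q n k : ℕ} (hq : q % 2 = 1) (h : (q * n) % 8 = k % 8) :
    n % 8 = (q * k) % 8 := by
  have h1 : q % 8 = 1 ∨ q % 8 = 3 ∨ q % 8 = 5 ∨ q % 8 = 7 := by omega
  rw [Nat.mul_mod] at h ⊢
  have h2 : n % 8 < 8 := Nat.mod_lt _ (by norm_num)
  have h3 : k % 8 < 8 := Nat.mod_lt _ (by norm_num)
  rw [← h]
  rcases h1 with h1 | h1 | h1 | h1 <;> rw [h1] <;> omega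

theorem Tp_support (q k n : ℕ) (hq : q % 2 = 1) (h : n % 8 ≠ (q * k) % 8) :
    coeff n (Tp q (Db ^ k)) = 0 := by
  rw [Tp, coeff_mk]
  have h1 : coeff (q * n) (Db ^ k) = 0 := by
    apply coeff_Db_pow_of_mod
    intro h1
    exact h (mul_mod8 hq h1)
  rw [h1, zero_add]
  split_ifs with h2
  · obtain ⟨c, rfl⟩ := h2
    rcases Nat.eq_zero_or_pos q with h0 | h0
    · rw [h0] at hq; omega
    rw [Nat.mul_div_cancel_left _ h0]
    apply coeff_Db_pow_of_mod
    intro h3
    apply h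
    rw [Nat.mul_mod, h3, ← Nat.mul_mod]
  · rfl

theorem mem (q k : ℕ) (hq : q.Prime) (hq2 : q ≠ 2) (hk : 1 ≤ k) :
    Tp q (Db ^ k) ∈ Submodule.span (ZMod 2)
      {φ : S | ∃ j : ℕ, j ≤ k ∧ j % 8 = (q * k) % 8 ∧ φ = Db ^ j} := by
  have hodd := odd_of_prime hq hq2
  set r := (q * k) % 8 with hr
  have h0 := mem0 q k hq hodd hk
  have hP : PR r (Tp q (Db ^ k)) = Tp q (Db ^ k) := by
    ext n
    show coeff n (PowerSeries.mk fun n => if n % 8 = r then coeff n (Tp q (Db ^ k)) else 0) = _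
    rw [coeff_mk]
    by_cases h : n % 8 = r
    · rw [if_pos h]
    · rw [if_neg h, Tp_support q k n hodd h]
  rw [← hP]
  have key : ∀ f ∈ Submodule.span (ZMod 2) (Set.range fun j : Fin (k + 1) => Db ^ (j : ℕ)),
      PR r f ∈ Submodule.span (ZMod 2)
        {φ : S | ∃ j : ℕ, j ≤ k ∧ j % 8 = r ∧ φ = Db ^ j} := by
    intro f hf
    induction hf using Submodule.span_induction with
    | mem x hx =>
      obtain ⟨j, rfl⟩ := hx
      simp only
      rw [PR_pow]
      split_ifs with h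
      · exact Submodule.subset_span ⟨j, by omega, h, rfl⟩
      · exact Submodule.zero_mem _
    | zero => rw [map_zero]; exact Submodule.zero_mem _
    | add x y _ _ hx hy => rw [map_add]; exact Submodule.add_mem _ hx hy
    | smul c x _ hx => rw [map_smul]; exact Submodule.smul_mem _ _ hx
  exact key _ h0

theorem ff (q : ℕ) (hq : q.Prime) (hq2 : q ≠ 2) : ∀ f ∈ FF, Tp q f ∈ FF := by
  intro f hf
  have hodd := odd_of_prime hq hq2
  unfold FF at hf
  induction hf using Submodule.span_induction with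
  | mem x hx =>
    obtain ⟨j, rfl⟩ := hx
    have h := mem q (2 * j + 1) hq hq2 (by omega)
    refine Submodule.span_le.mpr ?_ h
    rintro φ ⟨i, h1, h2, rfl⟩
    have hi : i % 2 = 1 := by
      have h3 : (q * (2 * j + 1)) % 2 = 1 := by
        rw [Nat.mul_mod, hodd]; omega
      omega
    refine Submodule.subset_span ⟨i / 2, ?_⟩
    congr 1
    omega
  | zero =>
    have : Tp q 0 = 0 := (TO q).map_zero
    rw [this]; exact Submodule.zero_mem _
  | add x y _ _ hx hy =>
    have : Tp q (x + y) = Tp q x + Tp q y := (TO q).map_add x y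
    rw [this]; exact Submodule.add_mem _ hx hy
  | smul c x _ hx =>
    have : Tp q (c • x) = c • Tp q x := (TO q).map_smul c x
    rw [this]; exact Submodule.smul_mem _ _ hx

theorem comm (p q : ℕ) (hp : p.Prime) (hq : q.Prime) (hpq : p ≠ q) (φ : S) :
    Tp p (Tp q φ) = Tp q (Tp p φ) := by
  have hcop : Nat.Coprime p q := (Nat.coprime_primes hp hq).mpr hpq
  ext n
  simp only [Tp, coeff_mk]
  have hA : (q ∣ p * n) ↔ q ∣ n := by
    constructor
    · intro h; exact hcop.symm.dvd_of_dvd_mul_left h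
    · intro h; exact Dvd.dvd.mul_left h p
  have hB : (p ∣ q * n) ↔ p ∣ n := by
    constructor
    · intro h; exact hcop.dvd_of_dvd_mul_left h
    · intro h; exact Dvd.dvd.mul_left h q
  have hmul : q * (p * n) = p * (q * n) := by ring
  by_cases h1 : p ∣ n
  · by_cases h2 : q ∣ n
    · have h3 : p * q ∣ n := hcop.mul_dvd_of_dvd_of_dvd h1 h2
      obtain ⟨c, rfl⟩ := h3
      have e1 : p * q * c / p = q * c := by rw [mul_assoc, Nat.mul_div_cancel_left _ hp.pos]
      have e2 : p * q * c / q = p * c := by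
        rw [mul_comm p q, mul_assoc, Nat.mul_div_cancel_left _ hq.pos]
      have e3 : p * (p * q * c) / q = p * (p * c) := by
        rw [show p * (p * q * c) = q * (p * (p * c)) by ring, Nat.mul_div_cancel_left _ hq.pos]
      have e4 : q * (p * q * c) / p = q * (q * c) := by
        rw [show q * (p * q * c) = p * (q * (q * c)) by ring, Nat.mul_div_cancel_left _ hp.pos]
      rw [if_pos (hA.mpr h2), if_pos h1, if_pos (hB.mpr h1), if_pos h2, e1, e2, e3, e4,
        if_pos (Dvd.intro _ rfl), if_pos (Dvd.intro _ rfl), Nat.mul_div_cancel_left _ hq.pos,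
        Nat.mul_div_cancel_left _ hp.pos, hmul]
      ring
    · obtain ⟨c, rfl⟩ := h1
      have e1 : p * c / p = c := Nat.mul_div_cancel_left _ hp.pos
      have e4 : q * (p * c) / p = q * c := by
        rw [show q * (p * c) = p * (q * c) by ring, Nat.mul_div_cancel_left _ hp.pos]
      have h3 : ¬ q ∣ c := fun h => h2 (Dvd.dvd.mul_left h p)
      rw [if_neg (fun h => h2 (hA.mp h)), if_pos (Dvd.intro _ rfl), if_neg h2,
        if_pos (hB.mpr (Dvd.intro _ rfl)), e1, e4, if_neg h3, hmul]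
      ring
  · by_cases h2 : q ∣ n
    · obtain ⟨c, rfl⟩ := h2
      have e1 : q * c / q = c := Nat.mul_div_cancel_left _ hq.pos
      have e4 : p * (q * c) / q = p * c := by
        rw [show p * (q * c) = q * (p * c) by ring, Nat.mul_div_cancel_left _ hq.pos]
      have h3 : ¬ p ∣ c := fun h => h1 (Dvd.dvd.mul_left h q)
      rw [if_neg h1, if_pos (hA.mpr (Dvd.intro _ rfl)), if_neg (fun h => h1 (hB.mp h)),
        if_pos (Dvd.intro _ rfl), e1, e4, if_neg h3, hmul]
      ring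
    · rw [if_neg h1, if_neg h2, if_neg (fun h => h2 (hA.mp h)), if_neg (fun h => h1 (hB.mp h)),
        hmul]

theorem eq_smul_of_mem_one {f : S} (h : f ∈ Submodule.span (ZMod 2) {φ : S | φ = Db ^ 1}) :
    f = (coeff 1 f) • Db ^ 1 := by
  have h1 : {φ : S | φ = Db ^ 1} = {Db ^ 1} := by ext; simp
  rw [h1, Submodule.mem_span_singleton] at h
  obtain ⟨c, rfl⟩ := h
  rw [PowerSeries.coeff_smul, pow_one, T3.coeff_one_Db]
  simp

theorem coeff_one_Tp (q : ℕ) (hq : q.Prime) (φ : S) : coeff 1 (Tp q φ) = coeff q φ := by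
  rw [Tp, coeff_mk, mul_one, if_neg, add_zero]
  intro h
  exact hq.one_lt.ne' (Nat.dvd_one.mp h)

theorem d1 (q : ℕ) (hq : q.Prime) (hq2 : q ≠ 2) : Tp q (Db ^ 1) = 0 := by
  have h := mem q 1 hq hq2 le_rfl
  have hodd := odd_of_prime hq hq2
  have h' : Tp q (Db ^ 1) ∈ Submodule.span (ZMod 2) {φ : S | φ = Db ^ 1} := by
    refine Submodule.span_mono ?_ h
    rintro φ ⟨j, h1, h2, rfl⟩
    have : j = 1 := by omega
    simp [this]
  rw [eq_smul_of_mem_one h', coeff_one_Tp q hq, pow_one, TH.Db_ind, TH.coeff_ind, if_neg, zero_smul]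
  rintro ⟨i, hi⟩
  have : IsSquare q := ⟨2 * i + 1, by rw [hi]; ring⟩
  exact hq.prime.not_isSquare this

theorem mem_empty {q k : ℕ} (hq : q.Prime) (hq2 : q ≠ 2) (hk : 1 ≤ k)
    (h : ∀ j ≤ k, j % 8 ≠ (q * k) % 8) : Tp q (Db ^ k) = 0 := by
  have h1 := mem q k hq hq2 hk
  have h2 : {φ : S | ∃ j : ℕ, j ≤ k ∧ j % 8 = (q * k) % 8 ∧ φ = Db ^ j} = ∅ := by
    ext φ
    simp only [Set.mem_ofPred_eq, Set.mem_empty_iff_false, iff_false]
    rintro ⟨j, h3, h4, -⟩
    exact h j h3 h4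
  rw [h2, Submodule.span_empty, Submodule.mem_bot] at h1
  exact h1

theorem mem_single {q k : ℕ} (hq : q.Prime) (hq2 : q ≠ 2) (hk : 1 ≤ k)
    (h : ∀ j ≤ k, j % 8 = (q * k) % 8 → j = 1) : Tp q (Db ^ k) = coeff q (Db ^ k) • Db ^ 1 := by
  have h1 := mem q k hq hq2 hk
  have h' : Tp q (Db ^ k) ∈ Submodule.span (ZMod 2) {φ : S | φ = Db ^ 1} := by
    refine Submodule.span_mono ?_ h1
    rintro φ ⟨j, h1, h2, rfl⟩
    have : j = 1 := h j h1 h2
    simp [this]
  have h2 := eq_smul_of_mem_one h'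
  rw [coeff_one_Tp q hq] at h2
  exact h2

open Classical in
/-- the parity of the number of representations, as a coefficient -/
theorem coeff_rep (n q e : ℕ) (hn : n = 2 ^ e) (hn2 : 2 ≤ n) (hq : q.Prime) (i j : ℕ)
    (h : (2 * i + 1) ^ 2 + n * (2 * j + 1) ^ 2 = q) : coeff q (Db ^ (1 + n)) = 1 := by
  have hn0 : n ≠ 0 := by omega
  rw [pow_add, pow_one, pow_eq_expand' n e hn0 hn, TH.Db_ind, TH.expand_ind, TH.coeff_ind_mul]
  have : (Finset.HasAntidiagonal.antidiagonal q).filter (fun x : ℕ × ℕ => TH.isOdd x.1 ∧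
      ∃ k, x.2 = n * k ∧ TH.isOdd k) = {((2 * i + 1) ^ 2, n * (2 * j + 1) ^ 2)} := by
    ext ⟨x, y⟩
    rw [Finset.mem_filter, Finset.HasAntidiagonal.mem_antidiagonal, Finset.mem_singleton]
    constructor
    · rintro ⟨h1, ⟨i', h2⟩, ⟨k, h3, ⟨j', h4⟩⟩⟩
      simp only at h1 h2 h3
      have h5 : (2 * i' + 1) ^ 2 + n * (2 * j' + 1) ^ 2 = q := by rw [← h2, ← h4, ← h3, h1]
      obtain ⟨h6, h7⟩ := rep_unique n q (2 * i' + 1) (2 * j' + 1) (2 * i + 1) (2 * j + 1) hn2 hq
        (by omega) (by omega) (by omega) (by omega) h5 h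
      rw [h2, h3, h4, h6, h7]
    · intro h1
      rw [Prod.mk.injEq] at h1
      obtain ⟨h2, h3⟩ := h1
      exact ⟨by simp only; rw [h2, h3, h], ⟨i, h2⟩, ⟨_, h3, ⟨j, rfl⟩⟩⟩
  rw [this, Finset.card_singleton, Nat.cast_one]

end MS

/-- task MS -/
theorem heckeFacts : HeckeFacts where
  mem := MS.mem
  ff := MS.ff
  comm := MS.comm
  d1 := MS.d1
  d33 := by
    intro q hq h8
    rw [MS.mem_single hq (by omega) (by norm_num) (by intro j h1 h2; omega)]
    obtain ⟨i, j, h⟩ := MS.exists_rep2 q hq h8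
    rw [MS.coeff_rep 2 q 1 (by norm_num) le_rfl hq i j h, one_smul]
  d35 := by
    intro q hq h8
    exact MS.mem_empty hq (by omega) (by norm_num) (by intro j h1; omega)
  d53 := by
    intro q hq h8
    exact MS.mem_empty hq (by omega) (by norm_num) (by intro j h1; omega)
  d55 := by
    intro q hq h8
    rw [MS.mem_single hq (by omega) (by norm_num) (by intro j h1 h2; omega)]
    obtain ⟨i, j, h⟩ := MS.exists_rep4 q hq h8
    rw [MS.coeff_rep 4 q 2 (by norm_num) (by norm_num) hq i j h, one_smul]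

end Pool.Agent.H307R2.OP
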