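import Pool.Agent.H307R2.OP.Defs

set_option autoImplicit false

/-! Task A-OC: the final algebraic theorem. -/

namespace Pool.Agent.H307R2.OP

open PowerSeries Pool.Agent.H397R2.PP

namespace OC

theorem add_self (x : S) : x + x = 0 := by
  ext n
  rw [map_add, map_zero]
  exact CharTwo.add_self_eq_zero _

theorem WW_zero {f : S} (hf : f ∈ NIL.WW 0) : f = 0 := by
  have h : {φ : S | ∃ j, cont j < 0 ∧ φ = Db ^ (2 * j + 1)} = ∅ := by
    ext φ
    simp
  have h2 : NIL.WW 0 = ⊥ := by
    rw [NIL.WW, h, Submodule.span_empty]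
  rw [h2] at hf
  simpa using hf

theorem Fil_zero (d : ℤ) : Fil d 0 := by
  intro c f _
  simp

theorem Fil_add {d : ℤ} {U V : EndS} (hU : Fil d U) (hV : Fil d V) : Fil d (U + V) := by
  intro c f hf
  rw [LinearMap.add_apply]
  exact Submodule.add_mem _ (hU c f hf) (hV c f hf)

theorem Fil_mul {d e : ℤ} {U V : EndS} (hU : Fil d U) (hV : Fil e V) : Fil (d + e) (U * V) := by
  intro c f hf
  rw [Module.End.mul_apply]
  have h1 := hV c f hf
  rcases lt_or_ge ((c : ℤ) + e) 0 with h | h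
  · have h2 : ((c : ℤ) + e).toNat = 0 := by omega
    rw [h2] at h1
    rw [WW_zero h1, map_zero]
    exact Submodule.zero_mem _
  · have h2 := hU _ _ h1
    have h3 : ((((c : ℤ) + e).toNat : ℤ) + d).toNat = ((c : ℤ) + (d + e)).toNat := by
      rw [Int.toNat_of_nonneg h]
      congr 1
      ring
    rw [h3] at h2
    exact h2

theorem Fil_one : Fil 0 1 := by
  intro c f hf
  simpa using hf

theorem Fil_pow {d : ℤ} {U : EndS} (hU : Fil d U) (n : ℕ) : Fil (n * d) (U ^ n) := by
  induction n with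
  | zero => simpa using Fil_one
  | succ n ih =>
    rw [pow_succ]
    have := Fil_mul ih hU
    have e : ((n + 1 : ℕ) : ℤ) * d = n * d + d := by push_cast; ring
    rw [e]
    exact this

/-- step 1 -/
theorem coeff_list (l : List ℕ) : l.Nodup → (∀ q ∈ l, q.Prime) → ∀ n : ℕ, (∀ q ∈ l, ¬ q ∣ n) →
    ∀ φ : S, coeff n ((l.map TO).prod φ) = coeff (n * l.prod) φ := by
  induction l with
  | nil => intro _ _ n _ φ; simp
  | cons q l ih =>
    intro hnd hpr n hn φ
    rw [List.nodup_cons] at hnd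
    rw [List.map_cons, List.prod_cons, Module.End.mul_apply]
    have h1 : ¬ q ∣ n := hn q (by simp)
    have h2 : coeff n (TO q ((l.map TO).prod φ)) = coeff (q * n) ((l.map TO).prod φ) := by
      show coeff n (Tp q ((l.map TO).prod φ)) = _
      rw [Tp, coeff_mk, if_neg h1, add_zero]
    rw [h2, ih hnd.2 (fun q' hq' => hpr q' (List.mem_cons_of_mem _ hq')) (q * n), List.prod_cons]
    · congr 2
      ring
    · intro q' hq' hdvd
      have hp' : q'.Prime := hpr q' (List.mem_cons_of_mem _ hq')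
      rcases (Nat.Prime.dvd_mul hp').1 hdvd with h | h
      · have : q' = q := (Nat.prime_dvd_prime_iff_eq hp' (hpr q (by simp))).1 h
        subst this
        exact hnd.1 hq'
      · exact hn q' (List.mem_cons_of_mem _ hq') h

/-- the representative -/
def rp (q : ℕ) : ℕ := if q % 8 = 3 then 3 else 5

theorem fil_prod (hq : FQStmt) (l : List ℕ) (hpr : ∀ q ∈ l, q.Prime ∧ (q % 8 = 3 ∨ q % 8 = 5)) :
    Fil (-(l.length : ℤ)) (l.map TO).prod := by
  induction l with
  | nil => simpa using Fil_one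
  | cons q l ih =>
    rw [List.map_cons, List.prod_cons, List.length_cons]
    have h1 : Fil (-1) (TO q) := by
      obtain ⟨h2, h3 | h3⟩ := hpr q (by simp)
      · exact (hq.q3 q h2 h3).1
      · exact (hq.q5 q h2 h3).1
    have h2 := Fil_mul h1 (ih fun q' hq' => hpr q' (List.mem_cons_of_mem _ hq'))
    have e : -((l.length + 1 : ℕ) : ℤ) = -1 + -(l.length : ℤ) := by push_cast; ring
    rw [e]
    exact h2

theorem fil_diff (hq : FQStmt) (l : List ℕ) (hpr : ∀ q ∈ l, q.Prime ∧ (q % 8 = 3 ∨ q % 8 = 5)) :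
    Fil (-(l.length : ℤ) - 1) ((l.map TO).prod + (l.map fun q => TO (rp q)).prod) := by
  induction l with
  | nil =>
    have h : ((([] : List ℕ).map TO).prod + (([] : List ℕ).map fun q => TO (rp q)).prod) = 0 := by
      simp only [List.map_nil, List.prod_nil]
      ext1 x
      simp only [LinearMap.add_apply, Module.End.one_apply, LinearMap.zero_apply]
      exact add_self x
    rw [h]
    exact Fil_zero _
  | cons q l ih =>
    have hpr' : ∀ q' ∈ l, q'.Prime ∧ (q' % 8 = 3 ∨ q' % 8 = 5) :=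
      fun q' hq' => hpr q' (List.mem_cons_of_mem _ hq')
    have ih' := ih hpr'
    have hP := fil_prod hq l hpr'
    rw [List.map_cons, List.prod_cons, List.map_cons, List.prod_cons, List.length_cons]
    set P := (l.map TO).prod with hPdef
    set P' := (l.map fun q => TO (rp q)).prod with hPdef'
    have hc : Fil (-1) (TO (rp q)) ∧ Fil (-2) (TO q + TO (rp q)) := by
      obtain ⟨h2, h3⟩ := hpr q (by simp)
      by_cases h4 : q % 8 = 3
      · have e : rp q = 3 := by simp [rp, h4]
        rw [e]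
        exact ⟨(hq.q3 3 (by norm_num) (by norm_num)).1, (hq.q3 q h2 h4).2⟩
      · have h5 : q % 8 = 5 := by omega
        have e : rp q = 5 := by simp [rp, h5]
        rw [e]
        exact ⟨(hq.q5 5 (by norm_num) (by norm_num)).1, (hq.q5 q h2 h5).2⟩
    have h1 := Fil_mul hc.2 hP
    have h2 := Fil_mul hc.1 ih'
    have e1 : (-2 : ℤ) + -(l.length : ℤ) = -((l.length + 1 : ℕ) : ℤ) - 1 := by push_cast; ring
    have e2 : (-1 : ℤ) + (-(l.length : ℤ) - 1) = -((l.length + 1 : ℕ) : ℤ) - 1 := by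
      push_cast; ring
    rw [e1] at h1
    rw [e2] at h2
    have h3 := Fil_add h1 h2
    have e3 : TO q * P + TO (rp q) * P' = (TO q + TO (rp q)) * P + TO (rp q) * (P + P') := by
      ext1 x
      simp only [LinearMap.add_apply, Module.End.mul_apply, map_add]
      have := add_self (TO (rp q) (P x))
      linear_combination (-1 : S) * this
    rw [e3]
    exact h3

theorem comm35 (hf : HeckeFacts) : Commute (TO 3) (TO 5) := by
  refine LinearMap.ext fun x => ?_
  exact hf.comm 3 5 (by norm_num) (by norm_num) (by norm_num) x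

theorem prod_rp (hf : HeckeFacts) (l : List ℕ) :
    (l.map fun q => TO (rp q)).prod = TO 3 ^ (l.countP fun q => q % 8 = 3) *
      TO 5 ^ (l.length - l.countP fun q => q % 8 = 3) := by
  induction l with
  | nil => simp
  | cons q l ih =>
    rw [List.map_cons, List.prod_cons, ih, List.length_cons, List.countP_cons]
    have hle : (l.countP fun q => q % 8 = 3) ≤ l.length := List.countP_le_length
    by_cases h4 : q % 8 = 3
    · have e : rp q = 3 := by simp [rp, h4]
      rw [e]
      simp only [h4, decide_true, if_true]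
      rw [pow_succ', mul_assoc]
      congr 3
      omega
    · have e : rp q = 5 := by simp [rp, h4]
      rw [e]
      simp only [h4, decide_false]
      have e2 : l.length + 1 - (l.countP fun q => q % 8 = 3) =
          (l.length - l.countP fun q => q % 8 = 3) + 1 := by omega
      simp only [Bool.false_eq_true, if_false, add_zero]
      rw [e2, pow_succ', ← mul_assoc, ← mul_assoc]
      congr 1
      exact ((comm35 hf).pow_left _).eq.symm

theorem sp_zero : sp 0 = 0 := by rw [sp]; simp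

theorem sp_double_add_one (n : ℕ) : sp (2 * n + 1) = 4 * sp n + 1 := by
  rw [sp, dif_neg (by omega)]
  have h1 : (2 * n + 1) / 2 = n := by omega
  have h2 : (2 * n + 1) % 2 = 1 := by omega
  rw [h1, h2]

theorem sp_pow (k : ℕ) : 3 * sp (2 ^ k - 1) + 1 = 4 ^ k := by
  induction k with
  | zero => simp [sp_zero]
  | succ k ih =>
    have h1 : 2 ^ (k + 1) - 1 = 2 * (2 ^ k - 1) + 1 := by
      have : 1 ≤ 2 ^ k := Nat.one_le_two_pow
      rw [pow_succ]; omega
    rw [h1, sp_double_add_one, pow_succ, ← ih]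
    ring

theorem coeff_one_Db' : coeff 1 Db = 1 := by
  rw [Db, show (1 : ℕ) = 0 + 1 from rfl, coeff_succ_X_mul, coeff_zero_eq_constantCoeff_apply,
    map_pow]
  have : constantCoeff (pentagonalSeries (ZMod 2)) = 1 := by
    have h := coeff_pentagonalSeries_pentagonal (R := ZMod 2) 0
    have h0 : pentagonal 0 = 0 := by decide
    rw [h0, coeff_zero_eq_constantCoeff_apply] at h
    rw [h]
    simp
  rw [this, one_pow]

theorem T5_21 (H5 : T5H) : Tp 5 (Db ^ 21) = Db ^ 17 + Db ^ 9 := by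
  obtain ⟨i0, i1, i2, i3, i4, i5⟩ := H5.ini
  have h6 : Tp 5 (Db ^ 6) = 0 := by
    have := H5.rec6 0
    norm_num [i0, i1, i2, i4] at this
    have i0' : Tp 5 (1 : S) = 0 := by simpa using i0
    have i1' : Tp 5 Db = 0 := by simpa using i1
    rw [this, i0', i1']
    ring
  have h7 : Tp 5 (Db ^ 7) = Db ^ 3 := by
    have := H5.rec6 1
    norm_num at this
    have i1' : Tp 5 Db = 0 := by simpa using i1
    rw [this, i5, i3, i1', i2]
    ring
  have h9 : Tp 5 (Db ^ 9) = 0 := by
    have := H5.rec6 3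
    norm_num at this
    rw [this, h7, i5, i3, i4]
    have := add_self (Db ^ 5)
    linear_combination this
  have := H5.recu 0 5
  norm_num at this
  rw [this, i5, h9, h6]
  ring

theorem T3_17 (H3 : NIL.T3H) : Tp 3 (Db ^ 17) = 0 := by
  obtain ⟨i1, i3, i5, i7⟩ := H3.ini
  have := H3.recu 2 1
  norm_num at this
  have i1' : Tp 3 Db = 0 := by simpa using i1
  rw [this, i5, i1']
  ring

theorem T3_9 (H3 : NIL.T3H) : Tp 3 (Db ^ 9) = Db ^ 3 := by
  obtain ⟨i1, i3, i5, i7⟩ := H3.ini
  have := H3.recu 1 1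
  norm_num at this
  have i1' : Tp 3 Db = 0 := by simpa using i1
  rw [this, i3, i1']
  ring

theorem final3 (H3 : NIL.T3H) (H5 : T5H) : (TO 3 ^ 2) (TO 5 (Db ^ 21)) = Db := by
  have h1 : TO 5 (Db ^ 21) = Db ^ 17 + Db ^ 9 := T5_21 H5
  rw [h1, pow_two, Module.End.mul_apply, map_add]
  have h2 : TO 3 (Db ^ 17) = 0 := T3_17 H3
  have h3 : TO 3 (Db ^ 9) = Db ^ 3 := T3_9 H3
  rw [h2, h3, zero_add]
  have h4 : TO 3 (Db ^ 3) = Db ^ 1 := H3.ini.2.1
  rw [h4, pow_one]

theorem chain5 (G : T5G) (hl : L5Stmt) (k : ℕ) (hk : 2 ≤ k) :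
    (TO 5 ^ (2 ^ k - 4)) (Db ^ (4 * sp (2 ^ k - 1) + 1)) + Db ^ 21 ∈ NIL.WW 3 := by
  induction k, hk using Nat.le_induction with
  | base =>
    have h1 := sp_pow 2
    have h2 : 4 * sp (2 ^ 2 - 1) + 1 = 21 := by omega
    rw [h2]
    have h3 : (2 ^ 2 - 4 : ℕ) = 0 := by norm_num
    rw [h3, pow_zero, Module.End.one_apply, add_self]
    exact Submodule.zero_mem _
  | succ k hk ih =>
    have h4 : 4 ≤ 2 ^ k := by
      calc 4 = 2 ^ 2 := by norm_num
        _ ≤ 2 ^ k := Nat.pow_le_pow_right (by norm_num) hk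
    have e1 : 2 ^ (k + 1) - 4 = (2 ^ k - 4) + 2 ^ k := by rw [pow_succ]; omega
    have e2 : 2 ^ (k + 1) - 1 = 2 ^ k + (2 ^ k - 1) := by rw [pow_succ]; omega
    have hw := hl k (2 ^ k - 1) (by omega)
    rw [e1, e2, pow_add, Module.End.mul_apply]
    set w := (TO 5 ^ 2 ^ k) (Db ^ (4 * sp (2 ^ k + (2 ^ k - 1)) + 1)) +
      Db ^ (4 * sp (2 ^ k - 1) + 1) with hwdef
    have e3 : (TO 5 ^ 2 ^ k) (Db ^ (4 * sp (2 ^ k + (2 ^ k - 1)) + 1)) =
        w + Db ^ (4 * sp (2 ^ k - 1) + 1) := by
      rw [hwdef, add_assoc, add_self, add_zero]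
    rw [e3, map_add, add_assoc]
    refine Submodule.add_mem _ ?_ ih
    have h5 := Fil_pow G.t5 (2 ^ k - 4) _ _ hw
    have h6 : (((2 ^ k - 1 : ℕ) : ℤ) + ((2 ^ k - 4 : ℕ) : ℤ) * (-1)).toNat = 3 := by
      omega
    rw [h6] at h5
    exact h5

end OC

open OC in
/-- task A-OC -/
theorem oc (H3 : NIL.T3H) (H5 : T5H) (G : T5G) (hp : PairStmt) (hl : L5Stmt) (hf : HeckeFacts)
    (hq : FQStmt) : OCStmt := by
  intro r m hr hm s hs hcard hcnt
  obtain ⟨k, rfl⟩ : ∃ k, r = k + 1 := ⟨r - 1, by omega⟩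
  have hk : 2 ≤ k := by omega
  rw [Nat.add_sub_cancel] at hcard
  have h4 : 4 ≤ 2 ^ k := by
    calc 4 = 2 ^ 2 := by norm_num
      _ ≤ 2 ^ k := Nat.pow_le_pow_right (by norm_num) hk
  -- the list
  set l := s.toList with hl'
  have hlen : l.length = 2 ^ k - 1 := by rw [hl', Finset.length_toList, hcard]
  have hprod : ∏ q ∈ s, q = l.prod := by
    rw [hl']
    have := Finset.prod_map_toList s (fun q => q)
    rw [← this, List.map_id']
  have hmem : ∀ q ∈ l, q.Prime ∧ (q % 8 = 3 ∨ q % 8 = 5) := by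
    intro q hq'
    exact hs q (Finset.mem_toList.1 hq')
  have hcount : (l.countP fun q => q % 8 = 3) = (s.filter (fun q => q % 8 = 3)).card := by
    rw [Finset.card_def, Finset.filter_val, ← Multiset.countP_eq_card_filter, ← Finset.coe_toList s,
      Multiset.coe_countP]
  have hstep1 : coeff (∏ q ∈ s, q) (Db ^ m) = coeff 1 ((l.map TO).prod (Db ^ m)) := by
    have := coeff_list l (Finset.nodup_toList s) (fun q hq' => (hmem q hq').1) 1 (by
      intro q hq' hdvd
      have h1 := (hmem q hq').1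
      have h2 : q = 1 := Nat.dvd_one.1 hdvd
      rw [h2] at h1
      exact Nat.not_prime_one h1) (Db ^ m)
    rw [this, one_mul, hprod]
  -- membership
  obtain ⟨m', hm1, hm2⟩ := NIL.cont_m k
  have hmm : m = 2 * m' + 1 := by omega
  have hfW : Db ^ m ∈ NIL.WW (2 ^ k) := by
    rw [hmm]
    apply NIL.WW_mem
    omega
  have hstep2 : (l.map TO).prod (Db ^ m) = (l.map fun q => TO (rp q)).prod (Db ^ m) := by
    have h1 := fil_diff hq l hmem _ _ hfW
    rw [hlen] at h1
    have h2 : (((2 ^ k : ℕ) : ℤ) + (-((2 ^ k - 1 : ℕ) : ℤ) - 1)).toNat = 0 := by omega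
    rw [h2] at h1
    have h3 := WW_zero h1
    rw [LinearMap.add_apply] at h3
    have h5 := add_self ((l.map fun q => TO (rp q)).prod (Db ^ m))
    calc (l.map TO).prod (Db ^ m) = ((l.map TO).prod (Db ^ m) +
          (l.map fun q => TO (rp q)).prod (Db ^ m)) + (l.map fun q => TO (rp q)).prod (Db ^ m) := by
          rw [add_assoc, h5, add_zero]
      _ = _ := by rw [h3, zero_add]
  have hmsp : m = 4 * sp (2 ^ k - 1) + 1 := by
    have := sp_pow k
    rw [pow_succ] at hm
    omega
  rw [hstep1, hstep2, prod_rp hf, hcount, hlen]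
  rcases hcnt with h0 | h2
  · rw [h0, pow_zero, one_mul, Nat.sub_zero]
    have h1 := hp 0 (2 ^ k - 1) (2 ^ k - 1) le_rfl
    rw [if_pos rfl, sp_zero, mul_zero, zero_add, zero_add, Nat.sub_self] at h1
    have h3 := WW_zero h1
    have h5 : (TO 5 ^ (2 ^ k - 1)) (Db ^ m) = Db := by
      rw [hmsp]
      have h6 := add_self (Db)
      rw [pow_one] at h3
      calc (TO 5 ^ (2 ^ k - 1)) (Db ^ (4 * sp (2 ^ k - 1) + 1))
          = ((TO 5 ^ (2 ^ k - 1)) (Db ^ (4 * sp (2 ^ k - 1) + 1)) + Db) + Db := by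
            rw [add_assoc, h6, add_zero]
        _ = Db := by rw [h3, zero_add]
    rw [h5]
    exact coeff_one_Db'
  · rw [h2]
    have e1 : 2 ^ k - 1 - 2 = 1 + (2 ^ k - 4) := by omega
    rw [e1, pow_add, pow_one, Module.End.mul_apply, Module.End.mul_apply]
    have h1 := chain5 G hl k hk
    rw [← hmsp] at h1
    set w := (TO 5 ^ (2 ^ k - 4)) (Db ^ m) + Db ^ 21 with hw
    have e3 : (TO 5 ^ (2 ^ k - 4)) (Db ^ m) = w + Db ^ 21 := by
      rw [hw, add_assoc, add_self, add_zero]
    rw [e3, map_add, map_add, final3 H3 H5]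
    have hF3 : Fil (-1) (TO 3) := (hq.q3 3 (by norm_num) (by norm_num)).1
    have h5 := Fil_mul (Fil_pow hF3 2) G.t5 _ _ h1
    have h6 : (((3 : ℕ) : ℤ) + (((2 : ℕ) : ℤ) * (-1) + (-1))).toNat = 0 := by norm_num
    rw [h6] at h5
    have h7 := WW_zero h5
    rw [Module.End.mul_apply] at h7
    rw [h7, zero_add]
    exact coeff_one_Db'

end Pool.Agent.H307R2.OP
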