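import Pool.Agent.H307R2.OP.Defs

set_option autoImplicit false

/-! Task P3 (helper797 for helper307): `T_3^a D^(2 sp a + 1) = D`. -/

namespace Pool.Agent.H307R2.OP

open PowerSeries Pool.Agent.H397R2.PP

namespace P3

theorem sp_zero : sp 0 = 0 := by
  rw [sp]
  simp

theorem sp_digit (n d : ℕ) (hd : d < 2) : sp (2 * n + d) = 4 * sp n + d := by
  by_cases h : 2 * n + d = 0
  · have hn : n = 0 := by omega
    have hd0 : d = 0 := by omega
    subst hn hd0
    simp [sp_zero]
  · rw [sp, dif_neg h]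
    have h1 : (2 * n + d) % 2 = d := by omega
    have h2 : (2 * n + d) / 2 = n := by omega
    rw [h1, h2]

theorem split2 (n : ℕ) : ∃ m d, d < 2 ∧ n = 2 * m + d :=
  ⟨n / 2, n % 2, Nat.mod_lt _ (by norm_num), by omega⟩

theorem wdig_lt {d : ℕ} (hd : d < 2) : wdig d = d := by
  interval_cases d <;> simp [wdig]

theorem sp_add (k : ℕ) : ∀ a, a < 2 ^ k → sp (2 ^ k + a) = 4 ^ k + sp a := by
  induction k with
  | zero =>
    intro a ha
    have : a = 0 := by simpa using ha
    subst this
    have := sp_digit 0 1 (by norm_num)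
    simpa [sp_zero] using this
  | succ k ih =>
    intro a ha
    obtain ⟨m, d, hd, rfl⟩ := split2 a
    have e : 2 ^ (k + 1) + (2 * m + d) = 2 * (2 ^ k + m) + d := by ring
    have hm : m < 2 ^ k := by
      rw [pow_succ] at ha
      omega
    rw [e, sp_digit _ _ hd, sp_digit _ _ hd, ih m hm]
    ring

theorem cont_sp (n : ℕ) : cont (sp n) = n := by
  induction n using Nat.strong_induction_on with
  | _ n ih =>
    by_cases hn : n = 0
    · subst hn
      rw [sp_zero, NIL.cont_zero]
    · obtain ⟨m, d, hd, rfl⟩ := split2 n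
      rw [sp_digit _ _ hd, NIL.cont_digit _ _ (by omega), ih m (by omega), wdig_lt hd]
      ring

theorem cont_two (k : ℕ) : ∀ a, a < 2 ^ k → cont (2 * 4 ^ k + sp a) = 2 ^ k + a := by
  induction k with
  | zero =>
    intro a ha
    have : a = 0 := by simpa using ha
    subst this
    rw [sp_zero]
    simpa using NIL.cont_vals.2.1
  | succ k ih =>
    intro a ha
    obtain ⟨m, d, hd, rfl⟩ := split2 a
    have hm : m < 2 ^ k := by
      rw [pow_succ] at ha
      omega
    have e : 2 * 4 ^ (k + 1) + sp (2 * m + d) = 4 * (2 * 4 ^ k + sp m) + d := by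
      rw [sp_digit _ _ hd]
      ring
    rw [e, NIL.cont_digit _ _ (by omega), ih m hm, wdig_lt hd]
    ring

/-- multiplication by `D^(2 * 4^i)` -/
theorem mul_WW (i : ℕ) {c : ℕ} {φ : S} (hφ : φ ∈ NIL.WW c) :
    Db ^ (2 * 4 ^ i) * φ ∈ NIL.WW (c + 2 ^ i) := NIL.WW_mul (NIL.L1 i) rfl hφ

theorem mul_pow (i j : ℕ) : (Db : S) ^ (2 * 4 ^ i) * Db ^ (2 * j + 1) = Db ^ (2 * (4 ^ i + j) + 1) := by
  rw [← pow_add]
  congr 1
  ring

theorem recu (H : NIL.T3H) (i j : ℕ) : Tp 3 (Db ^ (2 * (4 ^ (i + 1) + j) + 1)) =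
    Db ^ (2 * 4 ^ i) * Tp 3 (Db ^ (2 * (4 ^ i + j) + 1)) +
      Db ^ (2 * 4 ^ (i + 1)) * Tp 3 (Db ^ (2 * j + 1)) := by
  have h := H.recu (2 * i + 1) (2 * j + 1)
  have hs : 2 ^ (2 * i + 1) = 2 * 4 ^ i := by
    rw [pow_add, pow_mul]
    norm_num
    ring
  rw [hs] at h
  have e1 : 2 * j + 1 + 4 * (2 * 4 ^ i) = 2 * (4 ^ (i + 1) + j) + 1 := by ring
  have e2 : 2 * j + 1 + 2 * 4 ^ i = 2 * (4 ^ i + j) + 1 := by ring
  have e3 : 4 * (2 * 4 ^ i) = 2 * 4 ^ (i + 1) := by ring
  rw [e1, e2, e3] at h
  exact h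

theorem add_self (f : S) : f + f = 0 := by
  ext n
  rw [map_add, map_zero]
  exact CharTwo.add_self_eq_zero _

/-- the main claim -/
theorem claim (H : NIL.T3H) (a : ℕ) (ha : 1 ≤ a) :
    Tp 3 (Db ^ (2 * sp a + 1)) + Db ^ (2 * sp (a - 1) + 1) ∈ NIL.WW (a - 1) := by
  induction a using Nat.strong_induction_on with
  | _ a ih =>
    obtain ⟨k, a', ha', rfl⟩ : ∃ k a', a' < 2 ^ k ∧ a = 2 ^ k + a' := by
      refine ⟨Nat.log 2 a, a - 2 ^ Nat.log 2 a, ?_, ?_⟩
      · have h1 := Nat.lt_pow_succ_log_self (b := 2) (by norm_num) a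
        rw [pow_succ] at h1
        have h2 := Nat.pow_log_le_self 2 (x := a) (by omega)
        omega
      · have h2 := Nat.pow_log_le_self 2 (x := a) (by omega)
        omega
    rcases k with _ | k
    · have : a' = 0 := by simpa using ha'
      subst this
      have h1 : sp 1 = 1 := by
        have := sp_digit 0 1 (by norm_num)
        simpa [sp_zero] using this
      have e : 2 ^ 0 + 0 = 1 := by norm_num
      rw [e, h1, show 1 - 1 = 0 from rfl, sp_zero]
      have h3 := H.ini.2.1
      have e2 : 2 * 1 + 1 = 3 := by norm_num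
      have e3 : 2 * 0 + 1 = 1 := by norm_num
      rw [e2, h3, e3, add_self]
      exact Submodule.zero_mem _
    · have hpos : 1 ≤ 2 ^ k := Nat.one_le_two_pow
      have h2k : 2 ^ (k + 1) = 2 * 2 ^ k := by ring
      rw [sp_add _ _ ha', recu H k (sp a')]
      -- the first term, if `a' ≥ 1`
      have first : 1 ≤ a' → Db ^ (2 * 4 ^ (k + 1)) * Tp 3 (Db ^ (2 * sp a' + 1)) +
          Db ^ (2 * sp (2 ^ (k + 1) + a' - 1) + 1) ∈ NIL.WW (2 ^ (k + 1) + a' - 1) := by
        intro h1
        have h2 := ih a' (by omega) h1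
        have h3 := mul_WW (k + 1) h2
        rw [mul_add, mul_pow] at h3
        have e1 : 2 ^ (k + 1) + a' - 1 = 2 ^ (k + 1) + (a' - 1) := by omega
        have e2 : a' - 1 + 2 ^ (k + 1) = 2 ^ (k + 1) + (a' - 1) := by omega
        rw [e1, sp_add _ _ (by omega)]
        rw [e2] at h3
        exact h3
      rcases Nat.eq_zero_or_pos a' with h0 | h0
      · subst h0
        have h2 := ih (2 ^ k) (by omega) hpos
        have h3 := mul_WW k h2
        rw [mul_add, mul_pow] at h3
        have e1 : sp (2 ^ k) = 4 ^ k + sp 0 := by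
          have := sp_add k 0 (by omega)
          simpa using this
        have e2 : 4 ^ k + sp (2 ^ k - 1) = sp (2 ^ (k + 1) + 0 - 1) := by
          rw [← sp_add k (2 ^ k - 1) (by omega)]
          congr 1
          omega
        have e3 : 2 ^ k - 1 + 2 ^ k = 2 ^ (k + 1) + 0 - 1 := by omega
        rw [e1, e2, e3] at h3
        have h4 : Tp 3 (Db ^ (2 * sp 0 + 1)) = 0 := by
          rw [sp_zero]
          exact H.ini.1
        rw [h4, mul_zero]
        simpa using h3
      · have hfirst := first h0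
        have hsecond : Db ^ (2 * 4 ^ k) * Tp 3 (Db ^ (2 * (4 ^ k + sp a') + 1)) ∈
            NIL.WW (2 ^ (k + 1) + a' - 1) := by
          rcases Nat.lt_or_ge a' (2 ^ k) with hlt | hge
          · have h2 := ih (2 ^ k + a') (by omega) (by omega)
            rw [sp_add _ _ hlt] at h2
            have h3 := mul_WW k h2
            rw [mul_add, mul_pow] at h3
            have e3 : 2 ^ k + a' - 1 + 2 ^ k = 2 ^ (k + 1) + a' - 1 := by omega
            rw [e3] at h3
            have h4 : Db ^ (2 * (4 ^ k + sp (2 ^ k + a' - 1)) + 1) ∈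
                NIL.WW (2 ^ (k + 1) + a' - 1) := by
              apply NIL.WW_mem
              have e4 : 2 ^ k + a' - 1 = 2 ^ k + (a' - 1) := by omega
              rw [e4, sp_add _ _ (by omega)]
              have e5 : 4 ^ k + (4 ^ k + sp (a' - 1)) = 2 * 4 ^ k + sp (a' - 1) := by ring
              rw [e5, cont_two _ _ (by omega)]
              omega
            have h5 := Submodule.sub_mem _ h3 h4
            rwa [add_sub_cancel_right] at h5
          · obtain ⟨a'', rfl⟩ : ∃ a'', a' = 2 ^ k + a'' := ⟨a' - 2 ^ k, by omega⟩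
            have h1 : Db ^ (2 * (4 ^ k + sp (2 ^ k + a'')) + 1) ∈ NIL.WW (2 ^ k + a'' + 1) := by
              apply NIL.WW_mem
              rw [sp_add _ _ (by omega)]
              have e5 : 4 ^ k + (4 ^ k + sp a'') = 2 * 4 ^ k + sp a'' := by ring
              rw [e5, cont_two _ _ (by omega)]
              omega
            have h2 := mul_WW k (NIL.map_WW H h1)
            exact NIL.WW_mono (by omega) h2
        have h6 := Submodule.add_mem _ hsecond hfirst
        rw [← add_assoc] at h6
        exact h6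

end P3

theorem p3 (H : NIL.T3H) : P3Stmt := by
  intro a
  have key : ∀ a : ℕ, (Tp 3)^[a] (Db ^ (2 * sp a + 1)) = Db := by
    intro a
    induction a with
    | zero => rw [P3.sp_zero]; simp
    | succ a ih =>
      have h1 := P3.claim H (a + 1) (by omega)
      rw [Nat.add_sub_cancel] at h1
      set w := Tp 3 (Db ^ (2 * sp (a + 1) + 1)) + Db ^ (2 * sp a + 1) with hw
      have h2 : Tp 3 (Db ^ (2 * sp (a + 1) + 1)) = Db ^ (2 * sp a + 1) + w := by
        rw [hw, add_comm (Tp 3 _), ← add_assoc, P3.add_self, zero_add]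
      have h3 : ∀ (n : ℕ) (f g : S), (Tp 3)^[n] (f + g) = (Tp 3)^[n] f + (Tp 3)^[n] g := by
        intro n
        induction n with
        | zero => intro f g; rfl
        | succ n ihn =>
          intro f g
          rw [Function.iterate_succ_apply, Function.iterate_succ_apply,
            Function.iterate_succ_apply, NIL.Tp_add, ihn]
      have h4 : (Tp 3)^[a] w = 0 := by
        have h5 := NIL.iter_WW H a 0 (by rw [zero_add]; exact h1)
        have h6 : NIL.WW 0 = ⊥ := by
          unfold NIL.WW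
          rw [Submodule.span_eq_bot]
          rintro x ⟨j, hj, _⟩
          omega
        rw [h6] at h5
        exact (Submodule.mem_bot _).1 h5
      rw [Function.iterate_succ_apply, h2, h3, ih, h4, add_zero]
  have h7 : (TO 3 ^ a) (Db ^ (2 * sp a + 1)) = (Tp 3)^[a] (Db ^ (2 * sp a + 1)) := by
    rw [Module.End.pow_apply]
    rfl
  rw [h7, key]

end Pool.Agent.H307R2.OP
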