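import Pool.Agent.H307R2.OP.Defs

set_option autoImplicit false

/-! Task A-PAIR: pairing statements. -/

namespace Pool.Agent.H307R2.OP

open PowerSeries Pool.Agent.H397R2.PP

namespace PAIR

theorem S_two (f : S) : f + f = 0 := by
  have h : (2 : ZMod 2) = 0 := by decide
  have : (2 : ZMod 2) • f = f + f := two_smul _ f
  rw [← this, h, zero_smul]

theorem E_two (U : EndS) : U + U = 0 := by
  apply LinearMap.ext
  intro f
  exact S_two (U f)

theorem WW_zero {f : S} (h : f ∈ NIL.WW 0) : f = 0 := by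
  have h1 : NIL.WW 0 ≤ ⊥ := by
    unfold NIL.WW
    rw [Submodule.span_le]
    rintro φ ⟨j, hj, -⟩
    omega
  exact (Submodule.mem_bot (ZMod 2)).1 (h1 h)

theorem Db_mem : Db ∈ NIL.WW 1 := by
  have := NIL.WW_mem (c := 1) (j := 0) (by rw [NIL.cont_zero]; norm_num)
  simpa using this

theorem fil_mono {d e : ℤ} {U : EndS} (h : Fil d U) (hde : d ≤ e) : Fil e U := by
  intro c f hf
  exact NIL.WW_mono (by omega) (h c f hf)

theorem fil_add {d : ℤ} {U V : EndS} (hU : Fil d U) (hV : Fil d V) : Fil d (U + V) := by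
  intro c f hf
  rw [LinearMap.add_apply]
  exact Submodule.add_mem _ (hU c f hf) (hV c f hf)

theorem fil_zero (d : ℤ) : Fil d (0 : EndS) := by
  intro c f _
  rw [LinearMap.zero_apply]
  exact Submodule.zero_mem _

theorem fil_mul {d e : ℤ} {U V : EndS} (hU : Fil d U) (hV : Fil e V) : Fil (d + e) (U * V) := by
  intro c f hf
  rw [Module.End.mul_apply]
  have h1 := hV c f hf
  by_cases h : (c : ℤ) + e < 0
  · have h2 : ((c : ℤ) + e).toNat = 0 := by omega
    rw [h2] at h1
    rw [WW_zero h1, map_zero]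
    exact Submodule.zero_mem _
  · have h2 := hU _ _ h1
    have h3 : (((((c : ℤ) + e).toNat : ℕ) : ℤ) + d).toNat = ((c : ℤ) + (d + e)).toNat := by omega
    rwa [h3] at h2

theorem fil_one : Fil 0 (1 : EndS) := by
  intro c f hf
  simpa using hf

/-- the commutator in characteristic two -/
noncomputable def cm (U V : EndS) : EndS := U * V + V * U

theorem cm_mul (U V W : EndS) : cm U (V * W) = cm U V * W + V * cm U W := by
  unfold cm
  have h := E_two (V * U * W)
  calc U * (V * W) + V * W * U = U * (V * W) + (V * U * W + V * U * W) + V * W * U := by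
        rw [h]; noncomm_ring
    _ = _ := by noncomm_ring

theorem mul_cm (U V W : EndS) : cm (U * V) W = U * cm V W + cm U W * V := by
  unfold cm
  have h := E_two (U * W * V)
  calc U * V * W + W * (U * V) = U * V * W + (U * W * V + U * W * V) + W * (U * V) := by
        rw [h]; noncomm_ring
    _ = _ := by noncomm_ring

theorem MD_add (a b : ℕ) : MD (a + b) = MD a * MD b := by
  apply LinearMap.ext
  intro f
  simp only [MD, Module.End.mul_apply, LinearMap.mulLeft_apply]
  rw [pow_add, mul_assoc]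

theorem MD_zero : MD 0 = 1 := by
  apply LinearMap.ext
  intro f
  simp [MD]

theorem MD_pow (a b : ℕ) : MD a (Db ^ b) = Db ^ (a + b) := by
  simp only [MD, LinearMap.mulLeft_apply]
  rw [pow_add]

theorem sp_zero : sp 0 = 0 := by rw [sp]; simp

theorem sp_rec (n : ℕ) : sp n = 4 * sp (n / 2) + n % 2 := by
  by_cases h : n = 0
  · subst h; simp [sp_zero]
  · rw [sp, dif_neg h]

theorem sp_add (k m : ℕ) (h : m < 2 ^ k) : sp (2 ^ k + m) = 4 ^ k + sp m := by
  induction k generalizing m with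
  | zero =>
    have : m = 0 := by simpa using h
    subst this
    rw [sp_rec (2 ^ 0 + 0)]
    simp [sp_zero]
  | succ k ih =>
    rw [pow_succ] at h
    rw [sp_rec, sp_rec m]
    have e1 : (2 ^ (k + 1) + m) / 2 = 2 ^ k + m / 2 := by rw [pow_succ]; omega
    have e2 : (2 ^ (k + 1) + m) % 2 = m % 2 := by rw [pow_succ]; omega
    rw [e1, e2, ih (m / 2) (by omega), pow_succ]
    ring

theorem fil_B (j : ℕ) : Fil (2 ^ j) (MD (4 ^ (j + 1))) := by
  intro c f hf
  have h := NIL.WW_mul (c := c) (b := 2 ^ j) (e := 4 ^ (j + 1)) (t := 2 * 4 ^ j) (NIL.L2 j)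
    (by ring) hf
  rw [show (c : ℤ) + 2 ^ j = ((c + 2 ^ j : ℕ) : ℤ) by push_cast; ring, Int.toNat_natCast]
  exact h

theorem fil_C (i : ℕ) : Fil (2 ^ i) (MD (2 * 4 ^ i)) := by
  intro c f hf
  have h := NIL.WW_mul (c := c) (b := 2 ^ i) (e := 2 * 4 ^ i) (t := 4 ^ i) (NIL.L1 i) rfl hf
  rw [show (c : ℤ) + 2 ^ i = ((c + 2 ^ i : ℕ) : ℤ) by push_cast; ring, Int.toNat_natCast]
  exact h

/-- induction along the binary digits -/
theorem bits {P : ℕ → Prop} (h0 : P 0) (h : ∀ k m, m < 2 ^ k → P m → P (2 ^ k + m)) (n : ℕ) :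
    P n := by
  induction n using Nat.strong_induction_on with
  | _ n ih =>
    rcases Nat.eq_zero_or_pos n with hn | hn
    · rw [hn]; exact h0
    · have h1 : 2 ^ Nat.log 2 n ≤ n := Nat.pow_log_le_self 2 hn.ne'
      have h2 : n < 2 ^ (Nat.log 2 n + 1) := Nat.lt_pow_succ_log_self (by norm_num) n
      have h3 : 0 < 2 ^ Nat.log 2 n := by positivity
      rw [pow_succ] at h2
      have h4 := h (Nat.log 2 n) (n - 2 ^ Nat.log 2 n) (by omega) (ih _ (by omega))
      rwa [Nat.add_sub_cancel' h1] at h4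

theorem fil_PB (m : ℕ) : Fil m (MD (4 * sp m)) := by
  induction m using bits with
  | h0 =>
    rw [sp_zero, mul_zero, MD_zero]
    exact fil_one
  | h k m hm ih =>
    rw [sp_add k m hm, mul_add, MD_add, show 4 * 4 ^ k = 4 ^ (k + 1) by ring]
    have h := fil_mul (fil_B k) ih
    push_cast
    exact h

theorem fil_PC (m : ℕ) : Fil m (MD (2 * sp m)) := by
  induction m using bits with
  | h0 =>
    rw [sp_zero, mul_zero, MD_zero]
    exact fil_one
  | h k m hm ih =>
    rw [sp_add k m hm, mul_add, MD_add]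
    have h := fil_mul (fil_C k) ih
    push_cast
    exact h

theorem cm_one (U : EndS) : cm U 1 = 0 := by
  unfold cm
  rw [mul_one, one_mul, E_two]

theorem cm_PB (K : T5K) (k m : ℕ) (hmk : m < 2 ^ k) :
    Fil ((m : ℤ) - 2 ^ k - 1) (cm (TO 5 ^ (2 ^ k)) (MD (4 * sp m))) := by
  induction m using bits with
  | h0 =>
    rw [sp_zero, mul_zero, MD_zero, cm_one]
    exact fil_zero _
  | h j m hm ih =>
    rw [sp_add j m hm, mul_add, MD_add, show 4 * 4 ^ j = 4 ^ (j + 1) by ring, cm_mul]
    have hjk : j < k := by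
      by_contra hc
      have : 2 ^ k ≤ 2 ^ j := Nat.pow_le_pow_right (by norm_num) (by omega)
      omega
    have h1 := fil_mul (K.ka k j hjk) (fil_PB m)
    have h2 := fil_mul (fil_B j) (ih (by omega))
    refine fil_add (fil_mono h1 ?_) (fil_mono h2 ?_) <;> push_cast <;> linarith

theorem cm_PC (K : T5K) (m : ℕ) :
    Fil ((m : ℤ) - 2) (cm (TO 5) (MD (2 * sp m))) := by
  induction m using bits with
  | h0 =>
    rw [sp_zero, mul_zero, MD_zero, cm_one]
    exact fil_zero _
  | h j m hm ih =>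
    rw [sp_add j m hm, mul_add, MD_add, cm_mul]
    have h1 := fil_mul (K.kc j) (fil_PC m)
    have h2 := fil_mul (fil_C j) ih
    refine fil_add (fil_mono h1 ?_) (fil_mono h2 ?_) <;> push_cast <;> linarith

theorem fil_T (G : T5G) (b : ℕ) : Fil (-(b : ℤ)) (TO 5 ^ b) := by
  induction b with
  | zero => simpa using fil_one
  | succ b ih =>
    rw [pow_succ]
    refine fil_mono (fil_mul ih G.t5) ?_
    push_cast
    linarith

theorem cm_TPC (G : T5G) (K : T5K) (a b : ℕ) :
    Fil ((a : ℤ) - b - 1) (cm (TO 5 ^ b) (MD (2 * sp a))) := by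
  induction b with
  | zero =>
    rw [pow_zero]
    have : cm 1 (MD (2 * sp a)) = 0 := by
      unfold cm
      rw [mul_one, one_mul, E_two]
    rw [this]
    exact fil_zero _
  | succ b ih =>
    rw [pow_succ', mul_cm]
    refine fil_add (fil_mono (fil_mul G.t5 ih) ?_)
      (fil_mono (fil_mul (cm_PC K a) (fil_T G b)) ?_) <;> push_cast <;> linarith

theorem T_zero (G : T5G) {c b : ℕ} (h : c ≤ b) {f : S} (hf : f ∈ NIL.WW c) :
    (TO 5 ^ b) f = 0 := by
  have h1 := fil_T G b c f hf
  rw [show ((c : ℤ) + -(b : ℤ)).toNat = 0 by omega] at h1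
  exact WW_zero h1

theorem g_mem (m : ℕ) : Db ^ (4 * sp m + 1) ∈ NIL.WW (m + 1) := by
  have h := fil_PB m 1 Db Db_mem
  have e : MD (4 * sp m) Db = Db ^ (4 * sp m + 1) := by
    have := MD_pow (4 * sp m) 1
    rwa [pow_one] at this
  rw [e] at h
  exact NIL.WW_mono (by omega) h

end PAIR

open PAIR

/-- task PAIR -/
theorem l5 (G : T5G) (K : T5K) : L5Stmt := by
  intro k m hm
  set U := TO 5 ^ (2 ^ k) with hU
  have e1 : Db ^ (4 * sp (2 ^ k + m) + 1) = MD (4 ^ (k + 1)) (Db ^ (4 * sp m + 1)) := by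
    rw [MD_pow, sp_add k m hm]
    congr 1
    ring
  have e2 : Db ^ (4 * sp m + 1) = MD (4 * sp m) Db := by
    have := MD_pow (4 * sp m) 1
    rw [pow_one] at this
    exact this.symm
  have h2k : 0 < 2 ^ k := by positivity
  -- `U P e0 = 0`
  have hUP : U (Db ^ (4 * sp m + 1)) = 0 := by
    have h1 := cm_PB K k m hm 1 Db Db_mem
    have h2 : (((1 : ℕ) : ℤ) + ((m : ℤ) - 2 ^ k - 1)).toNat = 0 := by
      have : ((2 ^ k : ℕ) : ℤ) = 2 ^ k := by push_cast; rfl
      omega
    rw [h2] at h1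
    have h3 := WW_zero h1
    unfold cm at h3
    rw [LinearMap.add_apply, Module.End.mul_apply, Module.End.mul_apply,
      T_zero G h2k Db_mem, map_zero, add_zero] at h3
    rw [e2]
    exact h3
  have h4 := K.kb k (m + 1) _ (g_mem m)
  rw [LinearMap.add_apply, LinearMap.add_apply, Module.End.mul_apply, Module.End.mul_apply,
    Module.End.one_apply, hUP, map_zero, add_zero] at h4
  rw [e1]
  exact NIL.WW_mono (by omega) h4

namespace PAIR

theorem p1a (G : T5G) (K : T5K) (m : ℕ) : (TO 5 ^ m) (Db ^ (4 * sp m + 1)) = Db := by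
  induction m using bits with
  | h0 => simp [sp_zero]
  | h k m hm ih =>
    have h1 := l5 G K k m hm
    set w := (TO 5 ^ (2 ^ k)) (Db ^ (4 * sp (2 ^ k + m) + 1)) + Db ^ (4 * sp m + 1) with hw
    have h2 : (TO 5 ^ (2 ^ k)) (Db ^ (4 * sp (2 ^ k + m) + 1)) = w + Db ^ (4 * sp m + 1) := by
      rw [hw, add_assoc, S_two, add_zero]
    rw [add_comm (2 ^ k) m, pow_add, Module.End.mul_apply, add_comm m (2 ^ k), h2, map_add, ih,
      T_zero G le_rfl h1, zero_add]

end PAIR

/-- task PAIR -/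
theorem pair (G : T5G) (K : T5K) : PairStmt := by
  intro a m b hmb
  have e1 : Db ^ (2 * sp a + 4 * sp m + 1) = MD (2 * sp a) (Db ^ (4 * sp m + 1)) := by
    rw [MD_pow, add_assoc]
  have h1 := cm_TPC G K a b (m + 1) _ (g_mem m)
  unfold cm at h1
  rw [LinearMap.add_apply, Module.End.mul_apply, Module.End.mul_apply] at h1
  rw [e1]
  have h2 : (((m + 1 : ℕ) : ℤ) + ((a : ℤ) - b - 1)).toNat = a + m - b := by omega
  rw [h2] at h1
  by_cases h : b = m
  · rw [if_pos h]
    rw [h, p1a G K m] at h1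
    have e2 : Db ^ (2 * sp a + 1) = MD (2 * sp a) Db := by
      have := MD_pow (2 * sp a) 1
      rw [pow_one] at this
      exact this.symm
    rw [e2, h]
    exact h1
  · rw [if_neg h, add_zero]
    rw [T_zero G (by omega) (g_mem m), map_zero, add_zero] at h1
    exact h1

end Pool.Agent.H307R2.OP
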