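import Pool.Agent.H307R2.OP.Defs
import Pool.Agent.H397R2.PP.TH

set_option autoImplicit false

/-! # Task PX: odd values of the partition function from an odd coefficient (helper268) -/

namespace Pool.Agent.H307R2.OP

open PowerSeries Pool.Agent.H397R2.PP Pool.Agent.H397R2.PP.TH

/-- TASK PX. -/
theorem exists_odd (r m N : ℕ) (hm : 3 * m + 1 = 4 ^ r) (h : coeff N (Db ^ m) = 1) :
    ∃ n u : ℕ, Odd (Fintype.card (Nat.Partition n)) ∧ 24 * n + 4 ^ r * u ^ 2 = 3 * N + 1 := by
  have h1 : Db ^ m = X ^ m * PowerSeries.expand 8 (by norm_num)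
      (pentagonalSeries (ZMod 2) ^ (3 * m)) := by
    rw [← pow_eq_expand' 8 3 (by norm_num) (by norm_num), Db, mul_pow, ← pow_mul, ← pow_mul]
    congr 2
    ring
  have hN : ∃ n0 : ℕ, N = 8 * n0 + m := by
    rw [h1, coeff_X_pow_mul'] at h
    split_ifs at h with hmN
    · rw [coeff_expand] at h
      split_ifs at h with hd
      · obtain ⟨c, hc⟩ := hd
        exact ⟨c, by omega⟩
      · exact absurd h (by decide)
    · exact absurd h (by decide)
  obtain ⟨n0, rfl⟩ := hN
  rw [← partition_identity r m n0 hm] at h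
  have hne : (∑ j ∈ Finset.Icc (-(n0 : ℤ)) n0,
      if 4 ^ r * pentagonal j ≤ n0 then
        (Fintype.card (Nat.Partition (n0 - 4 ^ r * pentagonal j)) : ZMod 2) else 0) ≠ 0 := by
    rw [h]
    decide
  obtain ⟨j, -, hj⟩ := Finset.exists_ne_zero_of_sum_ne_zero hne
  split_ifs at hj with hle
  · refine ⟨n0 - 4 ^ r * pentagonal j, (6 * j - 1).natAbs, ?_, ?_⟩
    · rw [← Nat.not_even_iff_odd]
      intro he
      exact hj ((ZMod.natCast_eq_zero_iff_even).2 he)
    · have h4 := pent_sq j
      have h5 : ((6 * j - 1).natAbs ^ 2 : ℕ) = 24 * pentagonal j + 1 := by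
        have : (((6 * j - 1).natAbs ^ 2 : ℕ) : ℤ) = ((24 * pentagonal j + 1 : ℕ) : ℤ) := by
          push_cast
          rw [sq_abs, ← h4]
        exact_mod_cast this
      rw [h5]
      obtain ⟨d, hd⟩ := Nat.exists_eq_add_of_le hle
      have h6 : n0 - 4 ^ r * pentagonal j = d := by omega
      rw [h6]
      generalize hq : (4 : ℕ) ^ r = q at *
      nlinarith
  · exact absurd rfl hj

end Pool.Agent.H307R2.OP
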