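import Pool.Agent.H307R2.OP.Defs
import Pool.Agent.H397R2.PP.T3

set_option autoImplicit false

/-! Task A-T5R: recurrences and initial values of `T_5`. -/

namespace Pool.Agent.H307R2.OP

open PowerSeries Pool.Agent.H397R2.PP

namespace T5R

/-- the operator `U_5`. -/
noncomputable def U (φ : S) : S := PowerSeries.mk fun n => coeff (5 * n) φ

theorem U_add (a b : S) : U (a + b) = U a + U b := by
  ext n; simp [U]

theorem two_eq : (2 : S) = 0 := by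
  have : ((2 : ZMod 2)) = 0 := by decide
  calc (2 : S) = PowerSeries.C (2 : ZMod 2) := (map_ofNat _ 2).symm
    _ = 0 := by rw [this]; simp

theorem U_expand_mul (a b : S) : U (PowerSeries.expand 5 (by norm_num) a * b) = a * U b := by
  ext n
  rw [U, coeff_mk, coeff_mul, coeff_mul]
  symm
  apply Finset.sum_of_injOn (fun p : ℕ × ℕ => (5 * p.1, 5 * p.2))
  · rintro ⟨a, b⟩ _ ⟨c, d⟩ _ h
    simp only [Prod.mk.injEq] at h
    ext <;> simp <;> omega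
  · rintro ⟨a, b⟩ h
    simp only [Finset.mem_coe, Finset.HasAntidiagonal.mem_antidiagonal] at h ⊢
    omega
  · rintro ⟨i, j⟩ hij hne
    rw [coeff_expand]
    rw [if_neg, zero_mul]
    rintro ⟨c, hc⟩
    apply hne
    simp only [Finset.HasAntidiagonal.mem_antidiagonal] at hij
    simp only [Set.mem_image, Finset.mem_coe, Finset.HasAntidiagonal.mem_antidiagonal,
      Prod.mk.injEq, Prod.exists]
    refine ⟨c, n - c, ?_, ?_, ?_⟩ <;> omega
  · rintro ⟨i, j⟩ _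
    simp only [U, coeff_mk, coeff_expand_mul]

theorem Tp_eq (φ : S) : Tp 5 φ = U φ + PowerSeries.expand 5 (by norm_num) φ := by
  ext n
  rw [Tp, coeff_mk, map_add, U, coeff_mk, coeff_expand]

theorem U_sq (a : S) : U (a ^ 2) = (U a) ^ 2 := by
  rw [T3.sq_eq, T3.sq_eq]
  ext n
  rw [U, coeff_mk, coeff_expand, coeff_expand]
  by_cases h : 2 ∣ n
  · have h3 : 2 ∣ 5 * n := Dvd.dvd.mul_left h 5
    have h4 : 5 * n / 2 = 5 * (n / 2) := by omega
    rw [if_pos h3, if_pos h, U, coeff_mk, h4]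
  · have h3 : ¬ 2 ∣ 5 * n := by omega
    rw [if_neg h3, if_neg h]

theorem U_one : U (1 : S) = 1 := by
  ext n
  rw [U, coeff_mk, coeff_one, coeff_one]
  by_cases h : n = 0
  · simp [h]
  · rw [if_neg h, if_neg (by omega)]

theorem Tp_sq (a : S) : Tp 5 (a ^ 2) = (Tp 5 a) ^ 2 := by
  rw [Tp_eq, Tp_eq, U_sq, map_pow]
  have := T3.add_pow 1 (U a) (PowerSeries.expand 5 (by norm_num) a)
  rw [pow_one] at this
  exact this.symm

/-- the modular equation, expanded -/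
theorem six {D V : S} (h : (D + V) ^ 6 = D * V) :
    D ^ 6 + D ^ 4 * V ^ 2 + D ^ 2 * V ^ 4 + V ^ 6 + D * V = 0 := by
  linear_combination h + (-3 * D ^ 5 * V - 7 * D ^ 4 * V ^ 2 - 10 * D ^ 3 * V ^ 3 -
    7 * D ^ 2 * V ^ 4 - 3 * D * V ^ 5 + D * V) * two_eq

theorem sixteen {D V : S} (h : D ^ 6 + D ^ 4 * V ^ 2 + D ^ 2 * V ^ 4 + V ^ 6 + D * V = 0) :
    D ^ 16 = V ^ 16 + V ^ 8 + V ^ 4 * D ^ 4 + V ^ 3 * D := by
  linear_combination (D ^ 10 + D ^ 8 * V ^ 2 + D ^ 5 * V + D ^ 2 * V ^ 8 + D * V ^ 5 + V ^ 10 +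
    V ^ 2) * h + (-(D ^ 14 * V ^ 2) - D ^ 12 * V ^ 4 - D ^ 11 * V - D ^ 10 * V ^ 6 -
    D ^ 9 * V ^ 3 - D ^ 8 * V ^ 8 - D ^ 7 * V ^ 5 - D ^ 6 * V ^ 10 - D ^ 6 * V ^ 2 -
    D ^ 5 * V ^ 7 - D ^ 4 * V ^ 12 - D ^ 3 * V ^ 9 - D ^ 2 * V ^ 14 - D ^ 2 * V ^ 6 -
    D * V ^ 11 - (V ^ 16 + V ^ 8 + V ^ 4 * D ^ 4 + V ^ 3 * D)) * two_eq

end T5R

open T5R in
/-- task T5R -/
theorem t5h (h : ME5) (hf : HeckeFacts) : T5H := by
  unfold ME5 at h
  set V := PowerSeries.expand 5 (by norm_num) Db with hV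
  have hP : Db ^ 6 + Db ^ 4 * V ^ 2 + Db ^ 2 * V ^ 4 + V ^ 6 + Db * V = 0 := six h
  have hP' : V ^ 6 + V ^ 4 * Db ^ 2 + V ^ 2 * Db ^ 4 + Db ^ 6 + V * Db = 0 := by
    linear_combination hP
  have h16 := sixteen hP
  have h16' := sixteen hP'
  refine ⟨?_, ?_, ?_⟩
  · intro k
    have hU : U (Db ^ (k + 6)) = Db ^ 2 * U (Db ^ (k + 4)) + Db ^ 4 * U (Db ^ (k + 2)) +
        Db ^ 6 * U (Db ^ k) + Db * U (Db ^ (k + 1)) := by
      have e : Db ^ (k + 6) = PowerSeries.expand 5 (by norm_num) (Db ^ 2) * Db ^ (k + 4) +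
          PowerSeries.expand 5 (by norm_num) (Db ^ 4) * Db ^ (k + 2) +
          PowerSeries.expand 5 (by norm_num) (Db ^ 6) * Db ^ k +
          PowerSeries.expand 5 (by norm_num) Db * Db ^ (k + 1) := by
        rw [map_pow, map_pow, map_pow, ← hV]
        linear_combination (Db ^ k) * hP - (V ^ 2 * Db ^ (k + 4) + V ^ 4 * Db ^ (k + 2) +
          V ^ 6 * Db ^ k + V * Db ^ (k + 1)) * two_eq
      rw [e, U_add, U_add, U_add, U_expand_mul, U_expand_mul, U_expand_mul, U_expand_mul]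
    have hVV : PowerSeries.expand 5 (by norm_num) (Db ^ (k + 6)) =
        Db ^ 2 * PowerSeries.expand 5 (by norm_num) (Db ^ (k + 4)) +
        Db ^ 4 * PowerSeries.expand 5 (by norm_num) (Db ^ (k + 2)) +
        Db ^ 6 * PowerSeries.expand 5 (by norm_num) (Db ^ k) +
        Db * PowerSeries.expand 5 (by norm_num) (Db ^ (k + 1)) := by
      rw [map_pow, map_pow, map_pow, map_pow, map_pow, ← hV]
      linear_combination (V ^ k) * hP - (Db ^ 2 * V ^ (k + 4) + Db ^ 4 * V ^ (k + 2) +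
        Db ^ 6 * V ^ k + Db * V ^ (k + 1)) * two_eq
    rw [Tp_eq, Tp_eq, Tp_eq, Tp_eq, Tp_eq, hU, hVV]
    ring
  · intro s k
    have key : ∀ A B : S, A ^ 16 = B ^ 16 + B ^ 8 + B ^ 4 * A ^ 4 + B ^ 3 * A →
        A ^ (16 * 2 ^ s) = B ^ (16 * 2 ^ s) + B ^ (8 * 2 ^ s) + B ^ (4 * 2 ^ s) * A ^ (4 * 2 ^ s) +
          B ^ (3 * 2 ^ s) * A ^ (2 ^ s) := by
      intro A B hAB
      rw [pow_mul, hAB, T3.add_pow, T3.add_pow, T3.add_pow, mul_pow, mul_pow, ← pow_mul, ← pow_mul,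
        ← pow_mul, ← pow_mul, ← pow_mul]
    have k1 := key Db V h16
    have k2 := key V Db h16'
    have hU : U (Db ^ (k + 16 * 2 ^ s)) =
        (Db ^ (16 * 2 ^ s) + Db ^ (8 * 2 ^ s)) * U (Db ^ k) +
        Db ^ (4 * 2 ^ s) * U (Db ^ (k + 4 * 2 ^ s)) + Db ^ (3 * 2 ^ s) * U (Db ^ (k + 2 ^ s)) := by
      have e : Db ^ (k + 16 * 2 ^ s) =
          PowerSeries.expand 5 (by norm_num) (Db ^ (16 * 2 ^ s) + Db ^ (8 * 2 ^ s)) * Db ^ k +
          PowerSeries.expand 5 (by norm_num) (Db ^ (4 * 2 ^ s)) * Db ^ (k + 4 * 2 ^ s) +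
          PowerSeries.expand 5 (by norm_num) (Db ^ (3 * 2 ^ s)) * Db ^ (k + 2 ^ s) := by
        rw [map_add, map_pow, map_pow, map_pow, map_pow, ← hV, pow_add, pow_add, pow_add, k1]
        ring
      rw [e, U_add, U_add, U_expand_mul, U_expand_mul, U_expand_mul]
    have hVV : PowerSeries.expand 5 (by norm_num) (Db ^ (k + 16 * 2 ^ s)) =
        (Db ^ (16 * 2 ^ s) + Db ^ (8 * 2 ^ s)) * PowerSeries.expand 5 (by norm_num) (Db ^ k) +
        Db ^ (4 * 2 ^ s) * PowerSeries.expand 5 (by norm_num) (Db ^ (k + 4 * 2 ^ s)) +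
        Db ^ (3 * 2 ^ s) * PowerSeries.expand 5 (by norm_num) (Db ^ (k + 2 ^ s)) := by
      rw [map_pow, map_pow, map_pow, map_pow, ← hV, pow_add, pow_add, pow_add, k2]
      ring
    rw [Tp_eq, Tp_eq, Tp_eq, Tp_eq, hU, hVV]
    ring
  · have hp5 : Nat.Prime 5 := by norm_num
    have t0 : Tp 5 (Db ^ 0) = 0 := by
      rw [Tp_eq, pow_zero, U_one, map_one]
      exact T3.two_zero 1
    have t1 : Tp 5 (Db ^ 1) = 0 := hf.d1 5 hp5 (by norm_num)
    have t2 : Tp 5 (Db ^ 2) = 0 := by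
      rw [Tp_sq, ← pow_one Db, t1]
      ring
    have t4 : Tp 5 (Db ^ 4) = 0 := by
      rw [show (4 : ℕ) = 2 * 2 from rfl, pow_mul, Tp_sq, t2]
      ring
    refine ⟨t0, t1, t2, hf.d35 5 hp5 (by norm_num), t4, ?_⟩
    rw [hf.d55 5 hp5 (by norm_num), pow_one]

end Pool.Agent.H307R2.OP
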