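import Pool.Agent.H307R2.OP.Defs
import Pool.Agent.H397R2.PP.TH

set_option autoImplicit false

/-! # Task TH5: the modular equation of degree 5 modulo 2 (helper268) -/

namespace Pool.Agent.H307R2.OP

open PowerSeries Pool.Agent.H397R2.PP Pool.Agent.H397R2.PP.TH

namespace TH5

/-- solutions of `a ^ 2 + 5 b ^ 2 = 6 K` with `a`, `b` positive and coprime to 6 -/
def IsS (K : ℕ) (x : ℕ × ℕ) : Prop :=
  x.1 % 2 = 1 ∧ x.1 % 3 ≠ 0 ∧ x.2 % 2 = 1 ∧ x.2 % 3 ≠ 0 ∧ x.1 ^ 2 + 5 * x.2 ^ 2 = 6 * K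

/-- the set in `CR5` -/
abbrev QS (K : ℕ) : Finset (ℕ × ℕ) :=
  ((Finset.Icc 1 (6 * K)) ×ˢ (Finset.Icc 1 (6 * K))).filter (fun ab : ℕ × ℕ =>
      ab.1 % 2 = 1 ∧ ab.1 % 3 ≠ 0 ∧ ab.2 % 2 = 1 ∧ ab.2 % 3 ≠ 0 ∧
      ab.1 ^ 2 + 5 * ab.2 ^ 2 = 6 * K)

lemma mem_QS {K : ℕ} {x : ℕ × ℕ} : x ∈ QS K ↔ IsS K x := by
  rw [QS, Finset.mem_filter, Finset.mem_product, Finset.mem_Icc, Finset.mem_Icc]
  constructor
  · rintro ⟨-, h⟩
    exact h
  · intro h
    obtain ⟨h1, h2, h3, h4, h5⟩ := h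
    refine ⟨⟨⟨by omega, ?_⟩, ⟨by omega, ?_⟩⟩, h1, h2, h3, h4, h5⟩ <;> nlinarith

lemma natAbs_sq' (j : ℤ) : ((6 * j - 1).natAbs ^ 2 : ℕ) = 24 * pentagonal j + 1 := by
  have h4 := pent_sq j
  have : (((6 * j - 1).natAbs ^ 2 : ℕ) : ℤ) = ((24 * pentagonal j + 1 : ℕ) : ℤ) := by
    push_cast
    rw [sq_abs, ← h4]
  exact_mod_cast this

open Classical in
lemma card_pent_pent (s : ℕ) :
    ((Finset.HasAntidiagonal.antidiagonal s).filter fun x : ℕ × ℕ => isPent x.1 ∧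
      ∃ k, x.2 = 5 * k ∧ isPent k).card = (QS (4 * s + 1)).card := by
  symm
  apply Finset.card_bij (fun (x : ℕ × ℕ) _ => ((x.1 ^ 2 - 1) / 24, 5 * ((x.2 ^ 2 - 1) / 24)))
  · rintro ⟨A, B⟩ hx
    rw [mem_QS] at hx
    obtain ⟨h1, h2, h3, h4, h5⟩ := hx
    simp only at h1 h2 h3 h4 h5
    obtain ⟨i, e3⟩ := cop_sq h1 h2
    obtain ⟨j, e4⟩ := cop_sq h3 h4
    rw [Finset.mem_filter, Finset.HasAntidiagonal.mem_antidiagonal]
    simp only
    have f1 : (A ^ 2 - 1) / 24 = pentagonal i := by omega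
    have f2 : (B ^ 2 - 1) / 24 = pentagonal j := by omega
    rw [f1, f2]
    exact ⟨by omega, ⟨i, rfl⟩, ⟨pentagonal j, rfl, ⟨j, rfl⟩⟩⟩
  · rintro ⟨A, B⟩ hx ⟨A', B'⟩ hx' h
    rw [mem_QS] at hx hx'
    obtain ⟨h1, h2, h3, h4, h5⟩ := hx
    obtain ⟨h1', h2', h3', h4', h5'⟩ := hx'
    simp only at h1 h2 h3 h4 h5 h1' h2' h3' h4' h5'
    obtain ⟨i, e3⟩ := cop_sq h1 h2
    obtain ⟨j, e4⟩ := cop_sq h3 h4
    obtain ⟨i', e3'⟩ := cop_sq h1' h2'
    obtain ⟨j', e4'⟩ := cop_sq h3' h4'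
    simp only [Prod.mk.injEq] at h ⊢
    obtain ⟨g1, g2⟩ := h
    have k1 : B ^ 2 = B' ^ 2 := by omega
    have k2 : A ^ 2 = A' ^ 2 := by omega
    exact ⟨Nat.pow_left_injective (n := 2) (by norm_num) k2,
      Nat.pow_left_injective (n := 2) (by norm_num) k1⟩
  · rintro ⟨t, g⟩ hx
    rw [Finset.mem_filter, Finset.HasAntidiagonal.mem_antidiagonal] at hx
    obtain ⟨h1, ⟨i, h2⟩, ⟨k, h3, ⟨j, h4⟩⟩⟩ := hx
    simp only at h1 h2 h3
    have h5 := natAbs_sq' i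
    have h6 := natAbs_sq' j
    refine ⟨((6 * i - 1).natAbs, (6 * j - 1).natAbs), ?_, ?_⟩
    · rw [mem_QS]
      refine ⟨by simp only; omega, by simp only; omega, by simp only; omega,
        by simp only; omega, ?_⟩
      simp only
      rw [h5, h6, ← h1, h2, h3, h4]
      ring
    · simp only
      rw [h5, h6, h2, h3, h4]
      simp only [Prod.mk.injEq]
      constructor <;> omega

lemma exp5 : PowerSeries.expand 5 (by norm_num) (pentagonalSeries (ZMod 2)) =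
    ind fun n => ∃ k, n = 5 * k ∧ isPent k := by
  rw [pent_eq, expand_ind]

/-- the level 10 identity modulo 2 -/
lemma key (h : CR5) : pentagonalSeries (ZMod 2) *
      PowerSeries.expand 5 (by norm_num) (pentagonalSeries (ZMod 2)) =
    pentagonalSeries (ZMod 2) ^ 6 +
      X * (PowerSeries.expand 5 (by norm_num) (pentagonalSeries (ZMod 2))) ^ 6 := by
  classical
  have hψ : ind isTri = pentagonalSeries (ZMod 2) ^ 3 := by rw [psi_eq, pent_eq]
  have h6 : pentagonalSeries (ZMod 2) ^ 6 = ind fun n => ∃ k, n = 2 * k ∧ isTri k := by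
    rw [← expand_ind isTri 2 (by norm_num),
      ← pow_eq_expand' 2 1 (by norm_num) (by norm_num) (ind isTri), hψ, ← pow_mul]
  have h7 : (PowerSeries.expand 5 (by norm_num) (pentagonalSeries (ZMod 2))) ^ 6 =
      ind fun n => ∃ k, n = 5 * k ∧ ∃ l, k = 2 * l ∧ isTri l := by
    rw [← map_pow, h6, expand_ind]
  rw [h6, h7, exp5, pent_eq]
  ext s
  rw [coeff_ind_mul, card_pent_pent, map_add, coeff_ind]
  have h1 := h (4 * s + 1) (by omega)
  rw [h1]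
  have e1 : (∃ k, s = 2 * k ∧ isTri k) ↔ ∃ u : ℕ, 4 * s + 1 = u ^ 2 := by
    constructor
    · rintro ⟨k, hk, i, hi⟩
      exact ⟨2 * i + 1, by rw [hk]; nlinarith⟩
    · rintro ⟨u, hu⟩
      have hu2 : u % 2 = 1 := odd_of_sq hu (by omega)
      obtain ⟨t, i, e1, e2, e3⟩ := odd_sq hu2
      exact ⟨t, by omega, i, e2⟩
  simp only [e1]
  congr 1
  rcases s with _ | s
  · rw [coeff_zero_X_mul, if_neg]
    rintro ⟨v, hv⟩
    omega
  · rw [coeff_succ_X_mul, coeff_ind]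
    congr 1
    apply propext
    constructor
    · rintro ⟨v, hv⟩
      have hv2 : v % 2 = 1 := by
        rcases Nat.mod_two_eq_zero_or_one v with h1 | h1
        · exfalso
          have : v ^ 2 % 2 = 0 := by rw [Nat.pow_mod, h1]
          omega
        · exact h1
      obtain ⟨t, i, e1, e2, e3⟩ := odd_sq hv2
      exact ⟨2 * t, by omega, t, rfl, i, e2⟩
    · rintro ⟨k, hk, l, hl, i, hi⟩
      exact ⟨2 * i + 1, by rw [hk, hl]; nlinarith⟩

end TH5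

open TH5

/-- TASK TH5: the modular equation of degree 5. -/
theorem me5 (h : CR5) : ME5 := by
  have hk := key h
  set E : (ZMod 2)⟦X⟧ := pentagonalSeries (ZMod 2) with hE
  set F : (ZMod 2)⟦X⟧ := PowerSeries.expand 5 (by norm_num) E with hF
  have hV : PowerSeries.expand 5 (by norm_num) Db = X ^ 5 * F ^ 24 := by
    rw [Db, map_mul, map_pow, PowerSeries.expand_X]
  have h4 : (E * F) ^ 4 = E ^ 24 + X ^ 4 * F ^ 24 := by
    rw [hk]
    have h2 : ∀ a b : (ZMod 2)⟦X⟧, (a + b) ^ 4 = a ^ 4 + b ^ 4 := by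
      intro a b
      rw [pow_eq_expand' 4 2 (by norm_num) (by norm_num), pow_eq_expand' 4 2 (by norm_num) (by norm_num),
        pow_eq_expand' 4 2 (by norm_num) (by norm_num), map_add]
    rw [h2]
    ring
  have hs : Db + PowerSeries.expand 5 (by norm_num) Db = X * (E * F) ^ 4 := by
    rw [hV, h4, Db, ← hE]
    ring
  rw [ME5, hs, hV, Db, ← hE]
  ring

end Pool.Agent.H307R2.OP
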