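import Pool.Agent.H307R2.OP.Defs

set_option autoImplicit false

/-!
# Task A-Z5: parity of the number of solutions of `a² + 5b² = 6K` (helper215)
-/

namespace Pool.Agent.H307R2.OP

namespace Z5

/-- half of the lattice points of norm `K` -/
def IsP (K : ℤ) (p : ℤ × ℤ) : Prop := p.1 ^ 2 + 5 * p.2 ^ 2 = K ∧ 0 < p.1 - 5 * p.2

open Classical in
/-- the finite set of these lattice points -/
noncomputable def P (K : ℤ) : Finset (ℤ × ℤ) :=
  ((Finset.Icc (-K) K) ×ˢ (Finset.Icc (-K) K)).filter (IsP K)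

theorem mem_P {K : ℤ} {p : ℤ × ℤ} : p ∈ P K ↔ IsP K p := by
  classical
  unfold P
  rw [Finset.mem_filter, Finset.mem_product, Finset.mem_Icc, Finset.mem_Icc]
  constructor
  · exact fun h => h.2
  · intro h
    refine ⟨?_, h⟩
    obtain ⟨h1, -⟩ := h
    have a1 : p.1 ≤ p.1 ^ 2 := Int.le_self_sq p.1
    have a2 : -p.1 ≤ p.1 ^ 2 := by
      have := Int.le_self_sq (-p.1)
      rwa [neg_sq] at this
    have b1 : p.2 ≤ p.2 ^ 2 := Int.le_self_sq p.2
    have b2 : -p.2 ≤ p.2 ^ 2 := by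
      have := Int.le_self_sq (-p.2)
      rwa [neg_sq] at this
    have c1 := sq_nonneg p.1
    have c2 := sq_nonneg p.2
    constructor <;> constructor <;> linarith

theorem card_free {s : Finset (ℤ × ℤ)} (g : ℤ × ℤ → ℤ × ℤ) (h1 : ∀ a ∈ s, g a ∈ s)
    (h2 : ∀ a ∈ s, g a ≠ a) (h3 : ∀ a ∈ s, g (g a) = a) : (s.card : ZMod 2) = 0 := by
  have h0 : (s.card : ZMod 2) = ∑ x ∈ s, (1 : ZMod 2) := by simp
  rw [h0]
  exact Finset.sum_involution (fun x _ => g x) (fun _ _ => by decide) (fun a ha _ => h2 a ha)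
    (fun a ha => h1 a ha) (fun a ha => h3 a ha)

theorem parity {K : ℤ} (hK : K % 2 = 1) {x y : ℤ} (h : x ^ 2 + 5 * y ^ 2 = K) :
    (x + y) % 2 = 1 := by
  have h1 : x ^ 2 % 2 = x % 2 := by
    rcases Int.emod_two_eq_zero_or_one x with h | h <;> simp [pow_two, Int.mul_emod, h]
  have h2 : y ^ 2 % 2 = y % 2 := by
    rcases Int.emod_two_eq_zero_or_one y with h | h <;> simp [pow_two, Int.mul_emod, h]
  omega

/-- the reflection -/
def sg (p : ℤ × ℤ) : ℤ × ℤ := if 0 < p.1 + 5 * p.2 then (p.1, -p.2) else (-p.1, p.2)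

theorem sg_isP {K : ℤ} (hK : K % 2 = 1) {p : ℤ × ℤ} (h : IsP K p) : IsP K (sg p) := by
  obtain ⟨x, y⟩ := p
  obtain ⟨h1, h2⟩ := h
  simp only at h1 h2
  have hp := parity hK h1
  unfold sg
  split_ifs with h3
  · refine ⟨?_, ?_⟩
    · simp only
      rw [← h1]
      ring
    · simp only at h3 ⊢
      omega
  · refine ⟨?_, ?_⟩
    · simp only
      rw [← h1]
      ring
    · simp only at h3 ⊢
      omega

theorem sg_sg {K : ℤ} {p : ℤ × ℤ} (h : IsP K p) : sg (sg p) = p := by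
  obtain ⟨x, y⟩ := p
  obtain ⟨h1, h2⟩ := h
  simp only at h1 h2
  by_cases h3 : 0 < x + 5 * y
  · have e : sg (x, y) = (x, -y) := if_pos h3
    rw [e]
    have h4 : 0 < x + 5 * (-y) := by omega
    have e' : sg (x, -y) = (x, - -y) := if_pos h4
    rw [e', neg_neg]
  · have e : sg (x, y) = (-x, y) := if_neg h3
    rw [e]
    have h4 : ¬ 0 < -x + 5 * y := by omega
    have e' : sg (-x, y) = (- -x, y) := if_neg h4
    rw [e', neg_neg]

/-- the reflection associated with the ideal above 3 -/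
def tu (p : ℤ × ℤ) : ℤ × ℤ :=
  if 0 < 7 * p.1 + 5 * p.2 then ((2 * p.1 - 5 * p.2) / 3, -((p.1 + 2 * p.2) / 3))
  else (-((2 * p.1 - 5 * p.2) / 3), (p.1 + 2 * p.2) / 3)

theorem tu_isP {K : ℤ} (hK : K % 2 = 1) {p : ℤ × ℤ} (h : IsP K p) (h3 : (p.1 - p.2) % 3 = 0) :
    IsP K (tu p) ∧ ((tu p).1 - (tu p).2) % 3 = 0 := by
  obtain ⟨x, y⟩ := p
  obtain ⟨h1, h2⟩ := h
  simp only at h1 h2 h3
  have hp := parity hK h1
  obtain ⟨u, hu⟩ : ∃ u, 2 * x - 5 * y = 3 * u := ⟨(2 * x - 5 * y) / 3, by omega⟩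
  obtain ⟨v, hv⟩ : ∃ v, x + 2 * y = 3 * v := ⟨(x + 2 * y) / 3, by omega⟩
  have eu : (2 * x - 5 * y) / 3 = u := by omega
  have ev : (x + 2 * y) / 3 = v := by omega
  have hn : u ^ 2 + 5 * v ^ 2 = K := by
    have : (3 * u) ^ 2 + 5 * (3 * v) ^ 2 = 9 * K := by
      rw [← hu, ← hv, ← h1]
      ring
    linarith
  unfold tu
  simp only [eu, ev]
  split_ifs with h4
  · refine ⟨⟨?_, ?_⟩, ?_⟩
    · simp only
      rw [← hn]
      ring
    · simp only at h4 ⊢
      omega
    · simp only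
      omega
  · refine ⟨⟨?_, ?_⟩, ?_⟩
    · simp only
      rw [← hn]
      ring
    · simp only at h4 ⊢
      omega
    · simp only
      omega

theorem tu_tu {K : ℤ} {p : ℤ × ℤ} (h : IsP K p) (h3 : (p.1 - p.2) % 3 = 0) : tu (tu p) = p := by
  obtain ⟨x, y⟩ := p
  obtain ⟨h1, h2⟩ := h
  simp only at h1 h2 h3
  obtain ⟨u, hu⟩ : ∃ u, 2 * x - 5 * y = 3 * u := ⟨(2 * x - 5 * y) / 3, by omega⟩
  obtain ⟨v, hv⟩ : ∃ v, x + 2 * y = 3 * v := ⟨(x + 2 * y) / 3, by omega⟩
  have eu : (2 * x - 5 * y) / 3 = u := by omega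
  have ev : (x + 2 * y) / 3 = v := by omega
  unfold tu
  simp only [eu, ev]
  split_ifs with h4 h5 h5 <;> simp only at h5 <;> simp only [Prod.mk.injEq] <;> omega

theorem tu_ne {K : ℤ} (hK : K % 2 = 1) {p : ℤ × ℤ} (h : IsP K p) (h3 : (p.1 - p.2) % 3 = 0) :
    tu p ≠ p := by
  obtain ⟨x, y⟩ := p
  obtain ⟨h1, h2⟩ := h
  simp only at h1 h2 h3
  have hp := parity hK h1
  unfold tu
  simp only
  split_ifs with h4 <;> simp only [ne_eq, Prod.mk.injEq] <;> omega

open Classical in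
theorem card_P (K : ℕ) (hK : K % 2 = 1) :
    ((P (K : ℤ)).card : ZMod 2) =
      (if ∃ u : ℕ, K = u ^ 2 then 1 else 0) + (if ∃ v : ℕ, K = 5 * v ^ 2 then 1 else 0) := by
  have hK' : (K : ℤ) % 2 = 1 := by omega
  have hF1 : (((P (K : ℤ)).filter (fun p => p.2 = 0)).card : ZMod 2) =
      if ∃ u : ℕ, K = u ^ 2 then 1 else 0 := by
    split_ifs with hu
    · obtain ⟨u, hu⟩ := hu
      have hu0 : 0 < u := by
        rcases Nat.eq_zero_or_pos u with h | h
        · rw [h] at hu; norm_num at hu; omega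
        · exact h
      have : (P (K : ℤ)).filter (fun p => p.2 = 0) = {((u : ℤ), 0)} := by
        ext ⟨x, y⟩
        rw [Finset.mem_filter, mem_P, Finset.mem_singleton]
        constructor
        · rintro ⟨⟨h1, h2⟩, h3⟩
          simp only at h1 h2 h3
          subst h3
          rw [hu] at h1
          push_cast at h1
          have h4 : x ^ 2 = (u : ℤ) ^ 2 := by linarith
          have h5 : 0 ≤ x := by linarith
          have h6 : x = u := by
            exact (sq_eq_sq₀ h5 (by positivity)).mp h4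
          rw [h6]
        · intro h
          rw [Prod.mk.injEq] at h
          obtain ⟨rfl, rfl⟩ := h
          refine ⟨⟨?_, ?_⟩, rfl⟩
          · simp only
            rw [hu]
            push_cast
            ring
          · simp only
            have : (0 : ℤ) < u := by exact_mod_cast hu0
            linarith
      rw [this]
      simp
    · have : (P (K : ℤ)).filter (fun p => p.2 = 0) = ∅ := by
        apply Finset.eq_empty_of_forall_notMem
        rintro ⟨x, y⟩ h
        rw [Finset.mem_filter, mem_P] at h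
        obtain ⟨⟨h1, h2⟩, h3⟩ := h
        simp only at h1 h2 h3
        subst h3
        apply hu
        refine ⟨x.natAbs, ?_⟩
        have : (K : ℤ) = ((x.natAbs : ℕ) : ℤ) ^ 2 := by
          rw [Int.natCast_natAbs, sq_abs]
          linarith
        exact_mod_cast this
      rw [this]
      simp
  have hF2 : ((((P (K : ℤ)).filter (fun p => ¬ p.2 = 0)).filter (fun p => p.1 = 0)).card : ZMod 2) =
      if ∃ v : ℕ, K = 5 * v ^ 2 then 1 else 0 := by
    split_ifs with hu
    · obtain ⟨u, hu⟩ := hu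
      have hu0 : 0 < u := by
        rcases Nat.eq_zero_or_pos u with h | h
        · rw [h] at hu; norm_num at hu; omega
        · exact h
      have : ((P (K : ℤ)).filter (fun p => ¬ p.2 = 0)).filter (fun p => p.1 = 0) =
          {(0, -(u : ℤ))} := by
        ext ⟨x, y⟩
        rw [Finset.mem_filter, Finset.mem_filter, mem_P, Finset.mem_singleton]
        constructor
        · rintro ⟨⟨⟨h1, h2⟩, -⟩, h3⟩
          simp only at h1 h2 h3
          subst h3
          rw [hu] at h1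
          push_cast at h1
          have h4 : (-y) ^ 2 = (u : ℤ) ^ 2 := by linarith
          have h5 : 0 ≤ -y := by linarith
          have h6 : -y = u := by
            exact (sq_eq_sq₀ h5 (by positivity)).mp h4
          rw [← h6, neg_neg]
        · intro h
          rw [Prod.mk.injEq] at h
          obtain ⟨rfl, rfl⟩ := h
          have h7 : (0 : ℤ) < u := by exact_mod_cast hu0
          refine ⟨⟨⟨?_, ?_⟩, ?_⟩, rfl⟩
          · simp only
            rw [hu]
            push_cast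
            ring
          · simp only
            linarith
          · simp only
            omega
      rw [this]
      simp
    · have : ((P (K : ℤ)).filter (fun p => ¬ p.2 = 0)).filter (fun p => p.1 = 0) = ∅ := by
        apply Finset.eq_empty_of_forall_notMem
        rintro ⟨x, y⟩ h
        rw [Finset.mem_filter, Finset.mem_filter, mem_P] at h
        obtain ⟨⟨⟨h1, h2⟩, -⟩, h3⟩ := h
        simp only at h1 h2 h3
        subst h3
        apply hu
        refine ⟨y.natAbs, ?_⟩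
        have : (K : ℤ) = 5 * ((y.natAbs : ℕ) : ℤ) ^ 2 := by
          rw [Int.natCast_natAbs, sq_abs]
          linarith
        exact_mod_cast this
      rw [this]
      simp
  have hF3 : ((((P (K : ℤ)).filter (fun p => ¬ p.2 = 0)).filter (fun p => ¬ p.1 = 0)).card :
      ZMod 2) = 0 := by
    apply card_free sg
    · intro p hp
      rw [Finset.mem_filter, Finset.mem_filter, mem_P] at hp ⊢
      obtain ⟨⟨h1, h2⟩, h3⟩ := hp
      refine ⟨⟨sg_isP hK' h1, ?_⟩, ?_⟩
      · unfold sg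
        split_ifs
        · simp only; omega
        · exact h2
      · unfold sg
        split_ifs
        · exact h3
        · simp only; omega
    · intro p hp h
      rw [Finset.mem_filter, Finset.mem_filter, mem_P] at hp
      obtain ⟨⟨h1, h2⟩, h3⟩ := hp
      obtain ⟨x, y⟩ := p
      unfold sg at h
      simp only at h h2 h3
      split_ifs at h <;> simp only [Prod.mk.injEq] at h <;> omega
    · intro p hp
      rw [Finset.mem_filter, Finset.mem_filter, mem_P] at hp
      exact sg_sg hp.1.1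
  have e1 := Finset.card_filter_add_card_filter_not (s := P (K : ℤ)) (fun p => p.2 = 0)
  have e2 := Finset.card_filter_add_card_filter_not
    (s := (P (K : ℤ)).filter (fun p => ¬ p.2 = 0)) (fun p => p.1 = 0)
  rw [← e1, ← e2]
  push_cast
  rw [hF1, hF2, hF3, add_zero]

theorem card_E (K : ℤ) (hK : K % 2 = 1) :
    (((P K).filter (fun p => (p.1 - p.2) % 3 = 0)).card : ZMod 2) = 0 := by
  apply card_free tu
  · intro p hp
    rw [Finset.mem_filter, mem_P] at hp ⊢
    exact tu_isP hK hp.1 hp.2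
  · intro p hp
    rw [Finset.mem_filter, mem_P] at hp
    exact tu_ne hK hp.1 hp.2
  · intro p hp
    rw [Finset.mem_filter, mem_P] at hp
    exact tu_tu hp.1 hp.2

theorem sq_mod3 (x : ℤ) : x ^ 2 % 3 = if x % 3 = 0 then 0 else 1 := by
  have h : x % 3 = 0 ∨ x % 3 = 1 ∨ x % 3 = 2 := by omega
  rcases h with h | h | h <;> simp [pow_two, Int.mul_emod, h]

theorem norm_mod3 {x y K : ℤ} (h : x ^ 2 + 5 * y ^ 2 = K) :
    K % 3 = 0 ↔ ((x - y) % 3 = 0 ∨ (x + y) % 3 = 0) := by
  have h1 := sq_mod3 x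
  have h2 := sq_mod3 y
  have hx : x % 3 = 0 ∨ x % 3 = 1 ∨ x % 3 = 2 := by omega
  have hy : y % 3 = 0 ∨ y % 3 = 1 ∨ y % 3 = 2 := by omega
  split_ifs at h1 h2 <;> omega

/-- the points corresponding to the solutions -/
noncomputable def H (K : ℤ) : Finset (ℤ × ℤ) := (P K).filter (fun p => ¬ (p.1 + p.2) % 3 = 0)

theorem H_of_not {K : ℤ} (h3 : ¬ K % 3 = 0) : H K = P K := by
  unfold H
  apply Finset.filter_true_of_mem
  intro p hp h
  rw [mem_P] at hp
  exact h3 ((norm_mod3 hp.1).2 (Or.inr h))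

theorem card_H_add {K : ℤ} (h3 : K % 3 = 0) :
    (H K).card + ((P K).filter (fun p => p.1 % 3 = 0 ∧ p.2 % 3 = 0)).card =
      ((P K).filter (fun p => (p.1 - p.2) % 3 = 0)).card := by
  classical
  rw [← Finset.card_union_of_disjoint]
  · congr 1
    ext ⟨x, y⟩
    unfold H
    rw [Finset.mem_union, Finset.mem_filter, Finset.mem_filter, Finset.mem_filter]
    simp only
    constructor
    · rintro (⟨h1, h2⟩ | ⟨h1, h2, h4⟩)
      · refine ⟨h1, ?_⟩
        rcases (norm_mod3 (mem_P.1 h1).1).1 h3 with h | h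
        · exact h
        · exact absurd h h2
      · exact ⟨h1, by omega⟩
    · rintro ⟨h1, h2⟩
      by_cases h4 : (x + y) % 3 = 0
      · right
        exact ⟨h1, by omega, by omega⟩
      · left
        exact ⟨h1, h4⟩
  · rw [Finset.disjoint_left]
    rintro ⟨x, y⟩ h1 h2
    unfold H at h1
    rw [Finset.mem_filter] at h1 h2
    simp only at h1 h2
    omega

theorem card_nine {L : ℤ} :
    ((P (9 * L)).filter (fun p => p.1 % 3 = 0 ∧ p.2 % 3 = 0)).card = (P L).card := by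
  refine Finset.card_bij' (fun p _ => (p.1 / 3, p.2 / 3)) (fun p _ => (3 * p.1, 3 * p.2)) ?_ ?_ ?_ ?_
  · rintro ⟨x, y⟩ h
    rw [Finset.mem_filter, mem_P] at h
    obtain ⟨⟨h1, h2⟩, h3, h4⟩ := h
    simp only at h1 h2 h3 h4
    obtain ⟨u, rfl⟩ : ∃ u, x = 3 * u := ⟨x / 3, by omega⟩
    obtain ⟨v, rfl⟩ : ∃ v, y = 3 * v := ⟨y / 3, by omega⟩
    rw [mem_P]
    have e1 : 3 * u / 3 = u := by omega
    have e2 : 3 * v / 3 = v := by omega
    simp only [e1, e2]
    exact ⟨by simp only; linarith, by simp only; omega⟩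
  · rintro ⟨x, y⟩ h
    rw [mem_P] at h
    obtain ⟨h1, h2⟩ := h
    simp only at h1 h2
    rw [Finset.mem_filter, mem_P]
    refine ⟨⟨by simp only; linarith, by simp only; omega⟩, by simp only; omega, by simp only; omega⟩
  · rintro ⟨x, y⟩ h
    rw [Finset.mem_filter, mem_P] at h
    obtain ⟨-, h3, h4⟩ := h
    simp only at h3 h4
    simp only [Prod.mk.injEq]
    omega
  · rintro ⟨x, y⟩ -
    simp only [Prod.mk.injEq]
    omega

theorem card_not_nine {K : ℤ} (h9 : ¬ K % 9 = 0) :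
    ((P K).filter (fun p => p.1 % 3 = 0 ∧ p.2 % 3 = 0)).card = 0 := by
  rw [Finset.card_eq_zero]
  apply Finset.eq_empty_of_forall_notMem
  rintro ⟨x, y⟩ h
  rw [Finset.mem_filter, mem_P] at h
  obtain ⟨⟨h1, h2⟩, h3, h4⟩ := h
  simp only at h1 h2 h3 h4
  obtain ⟨u, rfl⟩ : ∃ u, x = 3 * u := ⟨x / 3, by omega⟩
  obtain ⟨v, rfl⟩ : ∃ v, y = 3 * v := ⟨y / 3, by omega⟩
  apply h9
  rw [← h1]
  have : (3 * u) ^ 2 + 5 * (3 * v) ^ 2 = 9 * (u ^ 2 + 5 * v ^ 2) := by ring
  rw [this]
  omega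

theorem dvd3_of_sq {u : ℕ} (h : u ^ 2 % 3 = 0) : u % 3 = 0 := by
  have hu : u % 3 = 0 ∨ u % 3 = 1 ∨ u % 3 = 2 := by omega
  rcases hu with h1 | h1 | h1
  · exact h1
  · simp [pow_two, Nat.mul_mod, h1] at h
  · simp [pow_two, Nat.mul_mod, h1] at h

open Classical in
/-- the parity of the number of points of `H` -/
theorem card_H (K : ℕ) (hK : K % 2 = 1) :
    ((H (K : ℤ)).card : ZMod 2) =
      (if ∃ u : ℕ, K = u ^ 2 then 1 else 0) + (if ∃ v : ℕ, K = 5 * v ^ 2 then 1 else 0) := by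
  by_cases h3 : K % 3 = 0
  · have h3' : (K : ℤ) % 3 = 0 := by omega
    have e := card_H_add h3'
    have e' := card_E (K : ℤ) (by omega)
    rw [← e] at e'
    push_cast at e'
    by_cases h9 : K % 9 = 0
    · obtain ⟨L, rfl⟩ : ∃ L, K = 9 * L := ⟨K / 9, by omega⟩
      have hL : L % 2 = 1 := by omega
      have f := card_P L hL
      have f2 := card_nine (L := (L : ℤ))
      rw [← f2] at f
      have hc : ((9 * L : ℕ) : ℤ) = 9 * (L : ℤ) := by push_cast; ring
      rw [hc] at e' ⊢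
      rw [f] at e'
      have g1 : (∃ u : ℕ, 9 * L = u ^ 2) ↔ ∃ u : ℕ, L = u ^ 2 := by
        constructor
        · rintro ⟨u, hu⟩
          have h1 : u % 3 = 0 := dvd3_of_sq (by omega)
          obtain ⟨w, rfl⟩ : ∃ w, u = 3 * w := ⟨u / 3, by omega⟩
          exact ⟨w, by nlinarith⟩
        · rintro ⟨u, rfl⟩
          exact ⟨3 * u, by ring⟩
      have g2 : (∃ u : ℕ, 9 * L = 5 * u ^ 2) ↔ ∃ u : ℕ, L = 5 * u ^ 2 := by
        constructor
        · rintro ⟨u, hu⟩
          have h1 : u % 3 = 0 := dvd3_of_sq (by omega)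
          obtain ⟨w, rfl⟩ : ∃ w, u = 3 * w := ⟨u / 3, by omega⟩
          exact ⟨w, by nlinarith⟩
        · rintro ⟨u, rfl⟩
          exact ⟨3 * u, by ring⟩
      simp only [g1, g2]
      have h2 : ∀ a b : ZMod 2, a + b = 0 → a = b := by decide
      exact h2 _ _ e'
    · have h9' : ¬ (K : ℤ) % 9 = 0 := by omega
      rw [card_not_nine h9'] at e'
      rw [Nat.cast_zero, add_zero] at e'
      rw [e', if_neg, if_neg, add_zero]
      · rintro ⟨v, rfl⟩
        have h1 : v % 3 = 0 := dvd3_of_sq (by omega)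
        obtain ⟨w, rfl⟩ : ∃ w, v = 3 * w := ⟨v / 3, by omega⟩
        apply h9
        have : 5 * (3 * w) ^ 2 = 9 * (5 * w ^ 2) := by ring
        omega
      · rintro ⟨v, rfl⟩
        have h1 : v % 3 = 0 := dvd3_of_sq (by omega)
        obtain ⟨w, rfl⟩ : ∃ w, v = 3 * w := ⟨v / 3, by omega⟩
        apply h9
        have : (3 * w) ^ 2 = 9 * (w ^ 2) := by ring
        omega
  · have h3' : ¬ (K : ℤ) % 3 = 0 := by omega
    rw [H_of_not h3']
    exact card_P K hK

theorem add_mod3 {a b : ℕ} (ha : a % 3 ≠ 0) (hb : b % 3 ≠ 0) (h : ¬ a % 3 = b % 3) :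
    (a + b) % 3 = 0 := by
  have h1 : a % 3 = 1 ∨ a % 3 = 2 := by omega
  have h2 : b % 3 = 1 ∨ b % 3 = 2 := by omega
  rcases h1 with h1 | h1 <;> rcases h2 with h2 | h2 <;> omega

end Z5

open Z5 in
theorem card_rep5 : CR5 := by
  intro K hK
  rw [← card_H K hK]
  congr 1
  refine Finset.card_bij'
    (fun ab _ => if ab.1 % 3 = ab.2 % 3 then
        (((ab.1 : ℤ) + 5 * (ab.2 : ℤ)) / 6, ((ab.2 : ℤ) - (ab.1 : ℤ)) / 6)
      else (((ab.1 : ℤ) - 5 * (ab.2 : ℤ)) / 6, (-(ab.2 : ℤ) - (ab.1 : ℤ)) / 6))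
    (fun p _ => ((p.1 - 5 * p.2).natAbs, (p.1 + p.2).natAbs)) ?_ ?_ ?_ ?_
  · rintro ⟨a, b⟩ h
    rw [Finset.mem_filter, Finset.mem_product, Finset.mem_Icc, Finset.mem_Icc] at h
    obtain ⟨-, h1, h2, h3, h4, h5⟩ := h
    simp only at h1 h2 h3 h4 h5
    have h5' : (a : ℤ) ^ 2 + 5 * (b : ℤ) ^ 2 = 6 * K := by exact_mod_cast h5
    unfold H
    rw [Finset.mem_filter, mem_P]
    simp only
    split_ifs with h6
    · obtain ⟨x, hx⟩ : ∃ x : ℤ, (a : ℤ) + 5 * b = 6 * x := ⟨((a : ℤ) + 5 * b) / 6, by omega⟩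
      obtain ⟨y, hy⟩ : ∃ y : ℤ, (b : ℤ) - a = 6 * y := ⟨((b : ℤ) - a) / 6, by omega⟩
      have ex : ((a : ℤ) + 5 * b) / 6 = x := by omega
      have ey : ((b : ℤ) - a) / 6 = y := by omega
      rw [ex, ey]
      have ea : (a : ℤ) = x - 5 * y := by omega
      have eb : (b : ℤ) = x + y := by omega
      refine ⟨⟨?_, ?_⟩, ?_⟩
      · simp only
        rw [ea, eb] at h5'
        nlinarith
      · simp only
        omega
      · simp only
        omega
    · have h7 : (a + b) % 3 = 0 := add_mod3 h2 h4 h6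
      have h8 : (a + b) % 6 = 0 := by omega
      obtain ⟨x, hx⟩ : ∃ x : ℤ, (a : ℤ) - 5 * b = 6 * x := ⟨((a : ℤ) - 5 * b) / 6, by omega⟩
      obtain ⟨y, hy⟩ : ∃ y : ℤ, -(b : ℤ) - a = 6 * y := ⟨(-(b : ℤ) - a) / 6, by omega⟩
      have ex : ((a : ℤ) - 5 * b) / 6 = x := by omega
      have ey : (-(b : ℤ) - a) / 6 = y := by omega
      rw [ex, ey]
      have ea : (a : ℤ) = x - 5 * y := by omega
      have eb : (b : ℤ) = -(x + y) := by omega
      refine ⟨⟨?_, ?_⟩, ?_⟩
      · simp only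
        rw [ea, eb] at h5'
        nlinarith
      · simp only
        omega
      · simp only
        omega
  · rintro ⟨x, y⟩ h
    unfold H at h
    rw [Finset.mem_filter, mem_P] at h
    obtain ⟨⟨h1, h2⟩, h3⟩ := h
    simp only at h1 h2 h3
    have hp := parity (by omega) h1
    rw [Finset.mem_filter, Finset.mem_product, Finset.mem_Icc, Finset.mem_Icc]
    simp only
    have hn : (x - 5 * y).natAbs ^ 2 + 5 * (x + y).natAbs ^ 2 = 6 * K := by
      have : (((x - 5 * y).natAbs : ℕ) : ℤ) ^ 2 + 5 * (((x + y).natAbs : ℕ) : ℤ) ^ 2 = 6 * K := by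
        rw [Int.natCast_natAbs, Int.natCast_natAbs, sq_abs, sq_abs, ← h1]
        ring
      exact_mod_cast this
    have p1 : 1 ≤ (x - 5 * y).natAbs := by omega
    have p2 : 1 ≤ (x + y).natAbs := by omega
    refine ⟨⟨⟨p1, ?_⟩, p2, ?_⟩, by omega, by omega, by omega, by omega, hn⟩
    · nlinarith
    · nlinarith
  · rintro ⟨a, b⟩ h
    rw [Finset.mem_filter, Finset.mem_product, Finset.mem_Icc, Finset.mem_Icc] at h
    obtain ⟨-, h1, h2, h3, h4, h5⟩ := h
    simp only at h1 h2 h3 h4 h5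
    simp only
    split_ifs with h6
    · simp only [Prod.mk.injEq]
      omega
    · have h7 : (a + b) % 3 = 0 := add_mod3 h2 h4 h6
      have h8 : (a + b) % 6 = 0 := by omega
      obtain ⟨x, hx⟩ : ∃ x : ℤ, (a : ℤ) - 5 * b = 6 * x := ⟨((a : ℤ) - 5 * b) / 6, by omega⟩
      obtain ⟨y, hy⟩ : ∃ y : ℤ, -(b : ℤ) - a = 6 * y := ⟨(-(b : ℤ) - a) / 6, by omega⟩
      have ex : ((a : ℤ) - 5 * b) / 6 = x := by omega
      have ey : (-(b : ℤ) - a) / 6 = y := by omega
      simp only [ex, ey, Prod.mk.injEq]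
      omega
  · rintro ⟨x, y⟩ h
    unfold H at h
    rw [Finset.mem_filter, mem_P] at h
    obtain ⟨⟨h1, h2⟩, h3⟩ := h
    simp only at h1 h2 h3
    have hp := parity (by omega) h1
    simp only
    split_ifs with h6 <;> simp only [Prod.mk.injEq] <;> omega

end Pool.Agent.H307R2.OP
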