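import Pool.Agent.H307R2.OP.FQ
import Pool.Agent.H307R2.OP.G123
import Pool.Agent.H307R2.OP.GEN
import Pool.Agent.H307R2.OP.JI
import Pool.Agent.H307R2.OP.KK
import Pool.Agent.H307R2.OP.MS
import Pool.Agent.H307R2.OP.OC
import Pool.Agent.H307R2.OP.P3
import Pool.Agent.H307R2.OP.PAIR
import Pool.Agent.H307R2.OP.PX
import Pool.Agent.H307R2.OP.T5R
import Pool.Agent.H307R2.OP.TH5
import Pool.Agent.H307R2.OP.Z5
import Pool.Agent.H397R2.PP.T3
import Pool.Agent.H397R2.PP.TH

set_option autoImplicit false

namespace Pool.Agent.H307R2.OP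

open PowerSeries Pool.Agent.H397R2.PP

theorem t3h : NIL.T3H := ⟨T3.rec modular_equation, T3.init modular_equation⟩

theorem t5h_main : T5H := t5h (me5 card_rep5) heckeFacts

theorem t5g_main : T5G := t5g t5h_main gen

theorem t5k_main : T5K := t5k t5h_main t5g_main

theorem pair_main : PairStmt := pair t5g_main t5k_main

theorem l5_main : L5Stmt := l5 t5g_main t5k_main

theorem ji_main : JIStmt := ji t3h t5g_main pair_main (p3 t3h)

theorem fq_main : FQStmt := fq t3h t5g_main heckeFacts ji_main

/-- **the algebraic theorem** -/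
theorem oc_main : OCStmt :=
  oc t3h t5h_main t5g_main pair_main l5_main heckeFacts fq_main

end Pool.Agent.H307R2.OP
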