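import Pool.Agent.H307R2.OP.DefsC

set_option autoImplicit false

/-!
# Number of biased quadratic characters by duality (helper604)
-/

namespace Pool.Agent.H307R2.OP

open Finset

/-! ### character sums -/

/-- a quadratic nonresidue -/
private theorem bad_exists_neg (l e : ℕ) (hl : l.Prime) (hl2 : l ≠ 2) (he : e ≠ 0)
    (hc : Nat.Coprime l e) : ∃ c : ℕ, jacobiSym (c : ℤ) (l * e) = -1 := by
  have : Fact l.Prime := ⟨hl⟩
  obtain ⟨x, hx⟩ := FiniteField.exists_nonsquare (F := ZMod l) (by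
    rw [ZMod.ringChar_zmod_n]; exact hl2)
  obtain ⟨c, hc1, hc2⟩ := Nat.chineseRemainder hc x.val 1
  refine ⟨c, ?_⟩
  rw [jacobiSym.mul_right' _ hl.ne_zero he]
  have h1 : jacobiSym (c : ℤ) l = -1 := by
    rw [ZMod.nonsquare_iff_jacobiSym_eq_neg_one]
    have : ((c : ℤ) : ZMod l) = x := by
      have h2 : ((c : ℕ) : ZMod l) = ((x.val : ℕ) : ZMod l) :=
        (ZMod.natCast_eq_natCast_iff _ _ _).2 hc1
      push_cast
      rw [h2, ZMod.natCast_zmod_val]
    rw [this]
    exact hx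
  have h2 : jacobiSym (c : ℤ) e = 1 := by
    have h3 : (c : ℤ) % e = (1 : ℤ) % e := by
      have := hc2
      unfold Nat.ModEq at this
      exact_mod_cast this
    rw [jacobiSym.mod_left' h3, jacobiSym.one_left]
  rw [h1, h2]
  norm_num

/-- the sum over a complete period vanishes -/
private theorem bad_period (D : ℕ) (hD : 0 < D) (c : ℕ) (hc : jacobiSym (c : ℤ) D = -1) :
    ∑ n ∈ range D, jacobiSym (n : ℤ) D = 0 := by
  have hcop : Nat.Coprime D c := by
    by_contra h
    have : NeZero D := ⟨hD.ne'⟩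
    have : jacobiSym (c : ℤ) D = 0 := by
      rw [jacobiSym.eq_zero_iff_not_coprime]
      intro h1
      apply h
      rw [Nat.Coprime, Nat.gcd_comm]
      have := h1
      simpa [Int.gcd_natCast_natCast] using this
    rw [this] at hc
    norm_num at hc
  have hinj : Set.InjOn (fun n : ℕ => c * n % D) (range D : Set ℕ) := by
    intro n hn m hm hnm
    have hn' : n < D := by simpa using hn
    have hm' : m < D := by simpa using hm
    have h1 : c * n ≡ c * m [MOD D] := hnm
    have h2 : n ≡ m [MOD D] := Nat.ModEq.cancel_left_of_coprime hcop h1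
    exact Nat.ModEq.eq_of_lt_of_lt h2 hn' hm'
  have himg : (range D).image (fun n : ℕ => c * n % D) = range D := by
    apply Finset.eq_of_subset_of_card_le
    · intro x hx
      obtain ⟨n, -, rfl⟩ := Finset.mem_image.1 hx
      exact Finset.mem_range.2 (Nat.mod_lt _ hD)
    · rw [Finset.card_image_of_injOn hinj]
  have h1 : ∑ n ∈ range D, jacobiSym (n : ℤ) D =
      ∑ n ∈ range D, jacobiSym ((c * n % D : ℕ) : ℤ) D := by
    conv_lhs => rw [← himg]
    rw [Finset.sum_image hinj]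
  have h2 : ∀ n : ℕ, jacobiSym ((c * n % D : ℕ) : ℤ) D = -jacobiSym (n : ℤ) D := by
    intro n
    push_cast
    rw [← jacobiSym.mod_left, jacobiSym.mul_left, hc]
    ring
  rw [Finset.sum_congr rfl fun n _ => h2 n, Finset.sum_neg_distrib] at h1
  linarith

private theorem bad_abs_le (a : ℤ) (b : ℕ) : |jacobiSym a b| ≤ 1 := by
  rcases jacobiSym.trichotomy a b with h | h | h <;> rw [h] <;> norm_num

/-- incomplete sums -/
private theorem bad_incomplete (D : ℕ) (hD : 0 < D)
    (h0 : ∑ n ∈ range D, jacobiSym (n : ℤ) D = 0) (L : ℕ) :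
    |∑ n ∈ range L, jacobiSym (n : ℤ) D| ≤ D := by
  have hper : ∀ q r : ℕ, jacobiSym ((q * D + r : ℕ) : ℤ) D = jacobiSym (r : ℤ) D := by
    intro q r
    apply jacobiSym.mod_left'
    push_cast
    rw [add_comm, Int.add_mul_emod_self_right]
  have hfull : ∀ q : ℕ, ∑ n ∈ range (q * D), jacobiSym (n : ℤ) D = 0 := by
    intro q
    induction q with
    | zero => simp
    | succ q ih =>
      rw [Nat.succ_mul, Finset.sum_range_add, ih, zero_add, ← h0]
      apply Finset.sum_congr rfl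
      intro n _
      exact hper q n
  have hL : L = (L / D) * D + L % D := by
    rw [mul_comm]
    exact (Nat.div_add_mod L D).symm
  rw [hL, Finset.sum_range_add, hfull, zero_add]
  calc |∑ n ∈ range (L % D), jacobiSym ((L / D * D + n : ℕ) : ℤ) D|
      ≤ ∑ n ∈ range (L % D), |jacobiSym ((L / D * D + n : ℕ) : ℤ) D| :=
        Finset.abs_sum_le_sum_abs _ _
    _ ≤ ∑ _n ∈ range (L % D), (1 : ℤ) := Finset.sum_le_sum fun n _ => bad_abs_le _ _
    _ = ((L % D : ℕ) : ℤ) := by simp
    _ ≤ D := by exact_mod_cast (Nat.mod_lt L hD).le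

/-- two different odd squarefree numbers -/
private theorem bad_pair (d d' : ℕ) (hd : Squarefree d) (hd' : Squarefree d') (h2 : d % 2 = 1)
    (h2' : d' % 2 = 1) (hne : d ≠ d') (L : ℕ) :
    |∑ n ∈ range L, jacobiSym (n : ℤ) (d * d')| ≤ ((d * d' : ℕ) : ℤ) := by
  have hd0 : d ≠ 0 := by omega
  have hd0' : d' ≠ 0 := by omega
  have key : ∀ a b : ℕ, Squarefree a → a % 2 = 1 → b ≠ 0 → ∀ l : ℕ, l.Prime → l ∣ a → ¬ l ∣ b →
      ∃ c : ℕ, jacobiSym (c : ℤ) (a * b) = -1 := by
    intro a b ha ha2 hb l hl hla hlb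
    obtain ⟨a', rfl⟩ := hla
    have ha' : a' ≠ 0 := by
      rintro rfl
      simp at ha2
    have hcop : Nat.Coprime l (a' * b) := by
      apply Nat.Coprime.mul_right
      · exact (Nat.squarefree_mul_iff.1 ha).1
      · exact (Nat.Prime.coprime_iff_not_dvd hl).2 hlb
    have hl2 : l ≠ 2 := by
      rintro rfl
      omega
    obtain ⟨c, hc⟩ := bad_exists_neg l (a' * b) hl hl2 (mul_ne_zero ha' hb) hcop
    exact ⟨c, by rw [mul_assoc]; exact hc⟩
  have hex : ∃ c : ℕ, jacobiSym (c : ℤ) (d * d') = -1 := by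
    by_cases h : ∃ l : ℕ, l.Prime ∧ l ∣ d ∧ ¬ l ∣ d'
    · obtain ⟨l, hl, h3, h4⟩ := h
      exact key d d' hd h2 hd0' l hl h3 h4
    · by_cases h' : ∃ l : ℕ, l.Prime ∧ l ∣ d' ∧ ¬ l ∣ d
      · obtain ⟨l, hl, h3, h4⟩ := h'
        rw [mul_comm]
        exact key d' d hd' h2' hd0 l hl h3 h4
      · exfalso
        apply hne
        push Not at h h'
        have hpf : d.primeFactors = d'.primeFactors := by
          ext l
          simp only [Nat.mem_primeFactors]
          constructor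
          · rintro ⟨h3, h4, -⟩
            exact ⟨h3, h l h3 h4, hd0'⟩
          · rintro ⟨h3, h4, -⟩
            exact ⟨h3, h' l h3 h4, hd0⟩
        rw [← Nat.prod_primeFactors_of_squarefree hd, hpf,
          Nat.prod_primeFactors_of_squarefree hd']
  obtain ⟨c, hc⟩ := hex
  have hD : 0 < d * d' := Nat.pos_of_ne_zero (mul_ne_zero hd0 hd0')
  exact bad_incomplete (d * d') hD (bad_period (d * d') hD c hc) L

/-! ### counting tuples with a given product -/

private theorem bad_count_tuples (m n : ℕ) (P : Finset ℕ) (hP : ∀ p ∈ P, p.Prime) :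
    ((Fintype.piFinset fun _ : Fin m => P).filter fun f => ∏ i, f i = n).card ≤ m.factorial := by
  have hcard : (Finset.univ : Finset (Equiv.Perm (Fin m))).card = m.factorial := by
    rw [Finset.card_univ, Fintype.card_perm, Fintype.card_fin]
  rw [← hcard]
  apply Finset.card_le_card_of_injOn (fun f => Tuple.sort f) (fun f _ => Finset.mem_univ _)
  intro f hf g hg hfg
  simp only [Finset.coe_filter, Fintype.mem_piFinset, Set.mem_ofPred_eq] at hf hg
  have hpf : List.Perm (List.ofFn f) (List.ofFn g) := by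
    have h1 : List.Perm (List.ofFn f) (Nat.primeFactorsList n) := by
      apply Nat.primeFactorsList_unique
      · rw [List.prod_ofFn]; exact hf.2
      · intro p hp
        obtain ⟨i, rfl⟩ := (List.mem_ofFn' _ _).1 hp
        exact hP _ (hf.1 i)
    have h2 : List.Perm (List.ofFn g) (Nat.primeFactorsList n) := by
      apply Nat.primeFactorsList_unique
      · rw [List.prod_ofFn]; exact hg.2
      · intro p hp
        obtain ⟨i, rfl⟩ := (List.mem_ofFn' _ _).1 hp
        exact hP _ (hg.1 i)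
    exact h1.trans h2.symm
  have hs : f ∘ Tuple.sort f = g ∘ Tuple.sort g :=
    List.ofFn_injective <|
      (((Tuple.sort f).ofFn_comp_perm f).trans
        (hpf.trans ((Tuple.sort g).ofFn_comp_perm g).symm)).eq_of_pairwise'
        (Tuple.monotone_sort f).sortedLE_ofFn.pairwise
        (Tuple.monotone_sort g).sortedLE_ofFn.pairwise
  have hfg' : Tuple.sort f = Tuple.sort g := hfg
  rw [hfg'] at hs
  funext i
  have := congrFun hs ((Tuple.sort g).symm i)
  simpa using this

/-! ### the main bound -/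

private theorem J_abs_le (n d : ℕ) : |J n d| ≤ 1 := by
  unfold J
  have := bad_abs_le (n : ℤ) d
  have h2 : ((|jacobiSym (n : ℤ) d| : ℤ) : ℝ) ≤ ((1 : ℤ) : ℝ) := by exact_mod_cast this
  simpa using h2

private theorem J_mul_left (a b d : ℕ) : J (a * b) d = J a d * J b d := by
  unfold J
  push_cast
  rw [jacobiSym.mul_left]
  push_cast
  ring

private theorem J_prod {m : ℕ} (f : Fin m → ℕ) (d : ℕ) : J (∏ i, f i) d = ∏ i, J (f i) d := by
  induction m with
  | zero => simp [J]
  | succ m ih =>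
    rw [Fin.prod_univ_succ, Fin.prod_univ_succ, J_mul_left, ih]

private theorem J_corr (d d' N : ℕ) (hd : Squarefree d) (hd' : Squarefree d') (h2 : d % 2 = 1)
    (h2' : d' % 2 = 1) (hne : d ≠ d') :
    |∑ n ∈ Icc 1 N, J n d * J n d'| ≤ (d : ℝ) * d' := by
  have hd0 : d ≠ 0 := by omega
  have hd0' : d' ≠ 0 := by omega
  have h1 := bad_pair d d' hd hd' h2 h2' hne (N + 1)
  have hgt : 1 < d * d' := by
    rcases Nat.lt_or_ge 1 (d * d') with h | h
    · exact h
    · exfalso
      apply hne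
      have h3 : d * d' = 1 := by
        have : 0 < d * d' := Nat.pos_of_ne_zero (mul_ne_zero hd0 hd0')
        omega
      rw [Nat.eq_one_of_mul_eq_one_right h3, Nat.eq_one_of_mul_eq_one_left h3]
  have h3 : ∑ n ∈ Icc 1 N, J n d * J n d' =
      ((∑ n ∈ range (N + 1), jacobiSym (n : ℤ) (d * d') : ℤ) : ℝ) := by
    rw [Finset.range_eq_Ico, Finset.sum_eq_sum_Ico_succ_bot (Nat.succ_pos N)]
    have h0 : jacobiSym ((0 : ℕ) : ℤ) (d * d') = 0 := by
      push_cast
      exact jacobiSym.zero_left hgt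
    rw [h0, zero_add]
    push_cast
    apply Finset.sum_congr
    · ext x; simp [Finset.mem_Ico]
    · intro n _
      unfold J
      rw [jacobiSym.mul_right' _ hd0 hd0']
      push_cast
      ring
  rw [h3]
  have h4 : ((|∑ n ∈ range (N + 1), jacobiSym (n : ℤ) (d * d')| : ℤ) : ℝ) ≤
      (((d * d' : ℕ) : ℤ) : ℝ) := by exact_mod_cast h1
  push_cast at h4
  push_cast
  exact h4

/-- task B-BAD -/
theorem badCount : BadCount := by
  intro Y Δ m τ P B hY hm hΔ hτ hP hB
  classical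
  set N : ℕ := (2 * Y) ^ m with hN
  set F : ℕ → ℝ := fun d => ∑ p ∈ P, J p d / p with hF
  set T : Finset (Fin m → ℕ) := Fintype.piFinset fun _ : Fin m => P with hT
  -- signs
  set ε : ℕ → ℝ := fun d => if 0 ≤ F d ^ m then 1 else -1 with hε
  have hεF : ∀ d, ε d * F d ^ m = |F d| ^ m := by
    intro d
    simp only [hε]
    split_ifs with h
    · rw [one_mul, ← abs_pow, abs_of_nonneg h]
    · rw [← abs_pow, abs_of_neg (not_le.1 h)]; ring
  have hεabs : ∀ d, |ε d| = 1 := by
    intro d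
    simp only [hε]
    split_ifs <;> simp
  -- the generating function
  have hpos : ∀ p ∈ P, 0 < p := fun p hp => (hP p hp).1.pos
  have hFm : ∀ d, F d ^ m = ∑ f ∈ T, J (∏ i, f i) d * (1 / ((∏ i, f i : ℕ) : ℝ)) := by
    intro d
    have h1 : F d ^ m = ∏ _i : Fin m, ∑ p ∈ P, J p d / p := by simp [hF]
    rw [h1, Finset.prod_univ_sum]
    apply Finset.sum_congr rfl
    intro f _
    rw [J_prod, Finset.prod_div_distrib]
    push_cast
    ring
  set G : ℕ → ℝ := fun n => ∑ d ∈ B, ε d * J n d with hG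
  set b : ℕ → ℝ := fun n => ((T.filter fun f => ∏ i, f i = n).card : ℝ) * (1 / (n : ℝ)) with hb
  have hrange : ∀ f ∈ T, ∏ i, f i ∈ Icc 1 N := by
    intro f hf
    rw [hT, Fintype.mem_piFinset] at hf
    rw [Finset.mem_Icc]
    constructor
    · exact Nat.pos_of_ne_zero (Finset.prod_ne_zero_iff.2 fun i _ => (hpos _ (hf i)).ne')
    · calc ∏ i, f i ≤ ∏ _i : Fin m, 2 * Y :=
            Finset.prod_le_prod (fun i _ => Nat.zero_le _) fun i _ => (hP _ (hf i)).2.2
        _ = N := by simp [hN]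
  have hgroup : ∀ h : ℕ → ℝ, ∑ f ∈ T, h (∏ i, f i) =
      ∑ n ∈ Icc 1 N, ((T.filter fun f => ∏ i, f i = n).card : ℝ) * h n := by
    intro h
    rw [← Finset.sum_fiberwise_of_maps_to hrange]
    apply Finset.sum_congr rfl
    intro n _
    rw [← nsmul_eq_mul, ← Finset.sum_const]
    apply Finset.sum_congr rfl
    intro f hf
    rw [(Finset.mem_filter.1 hf).2]
  have hmain : ∑ d ∈ B, |F d| ^ m = ∑ n ∈ Icc 1 N, b n * G n := by
    calc ∑ d ∈ B, |F d| ^ m = ∑ d ∈ B, ε d * F d ^ m :=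
          Finset.sum_congr rfl fun d _ => (hεF d).symm
      _ = ∑ d ∈ B, ∑ f ∈ T, ε d * (J (∏ i, f i) d * (1 / ((∏ i, f i : ℕ) : ℝ))) := by
          apply Finset.sum_congr rfl
          intro d _
          rw [hFm d, Finset.mul_sum]
      _ = ∑ f ∈ T, (1 / ((∏ i, f i : ℕ) : ℝ)) * G (∏ i, f i) := by
          rw [Finset.sum_comm]
          apply Finset.sum_congr rfl
          intro f _
          rw [hG, Finset.mul_sum]
          apply Finset.sum_congr rfl
          intro d _
          ring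
      _ = ∑ n ∈ Icc 1 N, b n * G n := by
          rw [hgroup fun n => (1 / (n : ℝ)) * G n]
          apply Finset.sum_congr rfl
          intro n _
          simp only [hb]
          ring
  -- the two factors
  have hPcard : (P.card : ℝ) ≤ Y := by
    have : P ⊆ Ioc Y (2 * Y) := fun p hp => Finset.mem_Ioc.2 (hP p hp).2
    have h2 := Finset.card_le_card this
    rw [Nat.card_Ioc] at h2
    have h3 : P.card ≤ Y := by omega
    exact_mod_cast h3
  have hYpos : (0 : ℝ) < Y := by
    have : 0 < Y := by omega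
    exact_mod_cast this
  have hPsq : ∑ p ∈ P, (1 / (p : ℝ)) ^ 2 ≤ 1 / (Y : ℝ) := by
    calc ∑ p ∈ P, (1 / (p : ℝ)) ^ 2 ≤ ∑ _p ∈ P, (1 / (Y : ℝ)) ^ 2 := by
          apply Finset.sum_le_sum
          intro p hp
          have h1 : (Y : ℝ) ≤ p := by exact_mod_cast (hP p hp).2.1.le
          gcongr
      _ = P.card * (1 / (Y : ℝ)) ^ 2 := by rw [Finset.sum_const, nsmul_eq_mul]
      _ ≤ Y * (1 / (Y : ℝ)) ^ 2 := by gcongr
      _ = 1 / (Y : ℝ) := by field_simp
  have hbsq : ∑ n ∈ Icc 1 N, b n ^ 2 ≤ (m.factorial : ℝ) * (1 / (Y : ℝ)) ^ m := by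
    calc ∑ n ∈ Icc 1 N, b n ^ 2 ≤ ∑ n ∈ Icc 1 N, (m.factorial : ℝ) *
          (((T.filter fun f => ∏ i, f i = n).card : ℝ) * (1 / (n : ℝ)) ^ 2) := by
          apply Finset.sum_le_sum
          intro n _
          have h1 : (((T.filter fun f => ∏ i, f i = n).card : ℕ) : ℝ) ≤ (m.factorial : ℝ) := by
            exact_mod_cast bad_count_tuples m n P fun p hp => (hP p hp).1
          simp only [hb]
          rw [mul_pow, sq (((T.filter fun f => ∏ i, f i = n).card : ℕ) : ℝ), mul_assoc]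
          apply mul_le_mul_of_nonneg_right h1
          positivity
      _ = (m.factorial : ℝ) * ∑ n ∈ Icc 1 N,
          ((T.filter fun f => ∏ i, f i = n).card : ℝ) * (1 / (n : ℝ)) ^ 2 := by
          rw [Finset.mul_sum]
      _ = (m.factorial : ℝ) * ∑ f ∈ T, (1 / ((∏ i, f i : ℕ) : ℝ)) ^ 2 := by
          rw [hgroup fun n => (1 / (n : ℝ)) ^ 2]
      _ = (m.factorial : ℝ) * (∑ p ∈ P, (1 / (p : ℝ)) ^ 2) ^ m := by
          congr 1
          have h1 : (∑ p ∈ P, (1 / (p : ℝ)) ^ 2) ^ m = ∏ _i : Fin m, ∑ p ∈ P, (1 / (p : ℝ)) ^ 2 := by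
            simp
          rw [h1, Finset.prod_univ_sum]
          apply Finset.sum_congr rfl
          intro f _
          push_cast
          rw [Finset.prod_pow, Finset.prod_div_distrib]
          simp
      _ ≤ (m.factorial : ℝ) * (1 / (Y : ℝ)) ^ m := by
          have h0 : 0 ≤ ∑ p ∈ P, (1 / (p : ℝ)) ^ 2 := Finset.sum_nonneg fun p _ => by positivity
          gcongr
  have hBle : ∀ d ∈ B, (d : ℝ) ≤ Δ := fun d hd => by exact_mod_cast (hB d hd).2.2.1
  have hBcard : B.card ≤ Δ := by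
    have h1 : B ⊆ Icc 1 Δ := by
      intro d hd
      have := hB d hd
      rw [Finset.mem_Icc]
      omega
    have h2 := Finset.card_le_card h1
    simpa using h2
  have hGsq : ∑ n ∈ Icc 1 N, G n ^ 2 ≤ 2 * (N : ℝ) * B.card := by
    have h1 : ∑ n ∈ Icc 1 N, G n ^ 2 =
        ∑ d ∈ B, ∑ d' ∈ B, ε d * ε d' * ∑ n ∈ Icc 1 N, J n d * J n d' := by
      have h2 : ∀ n, G n ^ 2 = ∑ d ∈ B, ∑ d' ∈ B, ε d * ε d' * (J n d * J n d') := by
        intro n
        rw [sq, hG, Finset.sum_mul_sum]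
        apply Finset.sum_congr rfl
        intro d _
        apply Finset.sum_congr rfl
        intro d' _
        ring
      rw [Finset.sum_congr rfl fun n _ => h2 n, Finset.sum_comm]
      apply Finset.sum_congr rfl
      intro d _
      rw [Finset.sum_comm]
      apply Finset.sum_congr rfl
      intro d' _
      rw [Finset.mul_sum]
    rw [h1]
    have h3 : ∀ d ∈ B, ∀ d' ∈ B, ε d * ε d' * ∑ n ∈ Icc 1 N, J n d * J n d' ≤
        (if d = d' then (N : ℝ) else 0) + (Δ : ℝ) ^ 2 := by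
      intro d hd d' hd'
      have hle : ε d * ε d' * ∑ n ∈ Icc 1 N, J n d * J n d' ≤ |∑ n ∈ Icc 1 N, J n d * J n d'| := by
        calc ε d * ε d' * ∑ n ∈ Icc 1 N, J n d * J n d'
            ≤ |ε d * ε d' * ∑ n ∈ Icc 1 N, J n d * J n d'| := le_abs_self _
          _ = |∑ n ∈ Icc 1 N, J n d * J n d'| := by
              rw [abs_mul, abs_mul, hεabs, hεabs, one_mul, one_mul]
      refine hle.trans ?_
      split_ifs with h
      · subst h
        have h4 : |∑ n ∈ Icc 1 N, J n d * J n d| ≤ N := by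
          calc |∑ n ∈ Icc 1 N, J n d * J n d| ≤ ∑ n ∈ Icc 1 N, |J n d * J n d| :=
                Finset.abs_sum_le_sum_abs _ _
            _ ≤ ∑ _n ∈ Icc 1 N, (1 : ℝ) := by
                apply Finset.sum_le_sum
                intro n _
                rw [abs_mul]
                exact mul_le_one₀ (J_abs_le n d) (abs_nonneg _) (J_abs_le n d)
            _ = N := by simp
        have h5 : (0 : ℝ) ≤ (Δ : ℝ) ^ 2 := by positivity
        linarith
      · have h4 := J_corr d d' N (hB d hd).1 (hB d' hd').1 (hB d hd).2.1 (hB d' hd').2.1 h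
        have h5 : (d : ℝ) * d' ≤ (Δ : ℝ) ^ 2 := by
          rw [sq]
          exact mul_le_mul (hBle d hd) (hBle d' hd') (Nat.cast_nonneg _) (Nat.cast_nonneg _)
        linarith
    calc ∑ d ∈ B, ∑ d' ∈ B, ε d * ε d' * ∑ n ∈ Icc 1 N, J n d * J n d'
        ≤ ∑ d ∈ B, ∑ d' ∈ B, ((if d = d' then (N : ℝ) else 0) + (Δ : ℝ) ^ 2) :=
          Finset.sum_le_sum fun d hd => Finset.sum_le_sum fun d' hd' => h3 d hd d' hd'
      _ = ∑ d ∈ B, ((N : ℝ) + B.card * (Δ : ℝ) ^ 2) := by
          apply Finset.sum_congr rfl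
          intro d hd
          rw [Finset.sum_add_distrib, Finset.sum_ite_eq, if_pos hd, Finset.sum_const, nsmul_eq_mul]
      _ = B.card * ((N : ℝ) + B.card * (Δ : ℝ) ^ 2) := by rw [Finset.sum_const, nsmul_eq_mul]
      _ ≤ B.card * ((N : ℝ) + N) := by
          gcongr
          have h6 : B.card * Δ ^ 2 ≤ N := by
            calc B.card * Δ ^ 2 ≤ Δ * Δ ^ 2 := Nat.mul_le_mul_right _ hBcard
              _ = Δ ^ 3 := by ring
              _ ≤ N := hΔ
          exact_mod_cast h6
      _ = 2 * (N : ℝ) * B.card := by ring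
  -- Cauchy-Schwarz
  have hlow : (B.card : ℝ) * τ ^ m ≤ ∑ d ∈ B, |F d| ^ m := by
    rw [← nsmul_eq_mul, ← Finset.sum_const]
    apply Finset.sum_le_sum
    intro d hd
    exact pow_le_pow_left₀ hτ.le (hB d hd).2.2.2.le m
  have hCS : (∑ n ∈ Icc 1 N, b n * G n) ^ 2 ≤
      ((m.factorial : ℝ) * (1 / (Y : ℝ)) ^ m) * (2 * (N : ℝ) * B.card) :=
    (Finset.sum_mul_sq_le_sq_mul_sq _ _ _).trans
      (mul_le_mul hbsq hGsq (Finset.sum_nonneg fun n _ => sq_nonneg _) (by positivity))
  have h1 : ((B.card : ℝ) * τ ^ m) ^ 2 ≤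
      ((m.factorial : ℝ) * (1 / (Y : ℝ)) ^ m) * (2 * (N : ℝ) * B.card) := by
    refine le_trans ?_ hCS
    rw [← hmain]
    exact pow_le_pow_left₀ (by positivity) hlow 2
  have h2 : ((m.factorial : ℝ) * (1 / (Y : ℝ)) ^ m) * (2 * (N : ℝ) * B.card) =
      2 * (m.factorial : ℝ) * 2 ^ m * B.card := by
    have hYm : (Y : ℝ) ^ m ≠ 0 := by positivity
    rw [hN]
    push_cast
    rw [mul_pow, one_div, inv_pow]
    field_simp
  rw [h2] at h1
  rcases Nat.eq_zero_or_pos B.card with h0 | h0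
  · rw [h0]
    push_cast
    positivity
  have hBp : (0 : ℝ) < B.card := by exact_mod_cast h0
  have h3 : (B.card : ℝ) * (τ ^ m) ^ 2 ≤ 2 * (m.factorial : ℝ) * 2 ^ m := by
    have h4 : (B.card : ℝ) * ((B.card : ℝ) * (τ ^ m) ^ 2) ≤
        (B.card : ℝ) * (2 * (m.factorial : ℝ) * 2 ^ m) := by
      calc (B.card : ℝ) * ((B.card : ℝ) * (τ ^ m) ^ 2) = ((B.card : ℝ) * τ ^ m) ^ 2 := by ring
        _ ≤ _ := h1
        _ = _ := by ring
    exact le_of_mul_le_mul_left h4 hBp
  have hfac : (m.factorial : ℝ) ≤ (m : ℝ) ^ m := by exact_mod_cast Nat.factorial_le_pow m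
  have hτm : 0 < (τ ^ m) ^ 2 := by positivity
  have h5 : (B.card : ℝ) * (τ ^ m) ^ 2 ≤ 2 * (2 * m) ^ m := by
    calc (B.card : ℝ) * (τ ^ m) ^ 2 ≤ 2 * (m.factorial : ℝ) * 2 ^ m := h3
      _ ≤ 2 * (m : ℝ) ^ m * 2 ^ m := by gcongr
      _ = 2 * (2 * m) ^ m := by rw [mul_pow]; ring
  calc (B.card : ℝ) = (B.card : ℝ) * (τ ^ m) ^ 2 / (τ ^ m) ^ 2 := by field_simp
    _ ≤ 2 * (2 * m) ^ m / (τ ^ m) ^ 2 := by gcongr
    _ = 2 * (2 * m / τ ^ 2) ^ m := by
        rw [div_pow, ← pow_mul, ← pow_mul, mul_comm m 2]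
        ring

end Pool.Agent.H307R2.OP
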