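import Pool.Agent.H307R2.OP.DefsC

set_option autoImplicit false

/-!
# Task B-BTOT: the tuples that are lost (helper35)
-/

namespace Pool.Agent.H307R2.OP

open Finset Filter Topology

namespace BT

/-! ### growth -/

theorem ev_pow (k : ℕ) (b : ℝ) (hb : 1 < b) (K c : ℝ) (hc : 0 < c) :
    ∃ y0 : ℕ, ∀ y : ℕ, y0 ≤ y → K * (y : ℝ) ^ k ≤ c * b ^ y := by
  have h := (tendsto_pow_const_div_const_pow_of_one_lt k hb).const_mul (|K| + 1)
  rw [mul_zero] at h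
  have h2 := (h.eventually (gt_mem_nhds hc)).exists_forall_of_atTop
  obtain ⟨y0, hy0⟩ := h2
  refine ⟨y0, fun y hy => ?_⟩
  have h3 := hy0 y hy
  have hb0 : 0 < b ^ y := pow_pos (by linarith) y
  rw [mul_div_assoc', div_lt_iff₀ hb0] at h3
  have h4 : K * (y : ℝ) ^ k ≤ (|K| + 1) * (y : ℝ) ^ k := by
    apply mul_le_mul_of_nonneg_right _ (by positivity)
    linarith [le_abs_self K]
  linarith

theorem ev_exp (K c : ℝ) (hc : 0 < c) :
    ∃ y0 : ℕ, ∀ y : ℕ, y0 ≤ y → K * Real.exp (-(0.002 * (y : ℝ))) ≤ c := by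
  have h1 : Tendsto (fun y : ℕ => Real.exp (-(0.002 * (y : ℝ)))) atTop (𝓝 0) := by
    apply Real.tendsto_exp_neg_atTop_nhds_zero.comp
    exact (tendsto_natCast_atTop_atTop).const_mul_atTop (by norm_num)
  have h := h1.const_mul K
  rw [mul_zero] at h
  obtain ⟨y0, hy0⟩ := (h.eventually (gt_mem_nhds hc)).exists_forall_of_atTop
  exact ⟨y0, fun y hy => (hy0 y hy).le⟩

theorem two_pow_ge : ∀ k : ℕ, 15 ≤ k → 1280 * k ≤ 2 ^ k := by
  intro k hk
  induction k, hk using Nat.le_induction with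
  | base => norm_num
  | succ n hn ih =>
    rw [pow_succ]
    omega

/-! ### one kernel that is not strongly biased -/

theorem theta_cond {M : ℕ} (g : Cfg M) (j : Fin M) (δ : ℕ) (hR : g.R.card ≤ 2)
    (hκ : 15 ≤ g.κ j) (hS : 1 / (8 * (g.κ j : ℝ)) ≤ g.S j) (hst : ¬ StrongAt (g.κ j) δ) :
    ∑ q ∈ (g.Blk j).filter (fun q => J q δ ≠ -1), (1 : ℝ) / q ≤ (1 - 1 / 80) * g.S j := by
  classical
  have hκ0 : (0 : ℝ) < g.κ j := by exact_mod_cast (by omega : 0 < g.κ j)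
  have hsub : g.Blk j ⊆ PB (g.κ j) 5 := Finset.sdiff_subset
  have hSPB : g.S j ≤ ∑ p ∈ PB (g.κ j) 5, (1 : ℝ) / p := by
    unfold Cfg.S
    exact Finset.sum_le_sum_of_subset_of_nonneg hsub (fun _ _ _ => by positivity)
  unfold StrongAt at hst
  push Not at hst
  -- the split primes lost with `R`
  have hlost : ∑ p ∈ (PB (g.κ j) 5).filter (fun p => J p δ = -1), (1 : ℝ) / p ≤
      ∑ p ∈ (g.Blk j).filter (fun p => J p δ = -1), (1 : ℝ) / p + 2 / 2 ^ (g.κ j) := by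
    have h1 : (PB (g.κ j) 5).filter (fun p => J p δ = -1) ⊆
        (g.Blk j).filter (fun p => J p δ = -1) ∪ (PB (g.κ j) 5 ∩ g.R) := by
      intro p hp
      rw [Finset.mem_filter] at hp
      rw [Finset.mem_union, Finset.mem_filter, Finset.mem_inter]
      by_cases hpR : p ∈ g.R
      · exact Or.inr ⟨hp.1, hpR⟩
      · exact Or.inl ⟨Finset.mem_sdiff.2 ⟨hp.1, hpR⟩, hp.2⟩
    have h2 : ∑ p ∈ PB (g.κ j) 5 ∩ g.R, (1 : ℝ) / p ≤ 2 / 2 ^ (g.κ j) := by
      calc ∑ p ∈ PB (g.κ j) 5 ∩ g.R, (1 : ℝ) / p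
          ≤ ∑ p ∈ PB (g.κ j) 5 ∩ g.R, (1 : ℝ) / 2 ^ (g.κ j) := by
            refine Finset.sum_le_sum fun p hp => ?_
            have h3 := (Finset.mem_inter.1 hp).1
            unfold PB at h3
            have h4 := (Finset.mem_Ioc.1 (Finset.mem_filter.1 h3).1).1
            have h5 : (2 : ℝ) ^ (g.κ j) ≤ p := by exact_mod_cast h4.le
            exact one_div_le_one_div_of_le (by positivity) h5
        _ = ((PB (g.κ j) 5 ∩ g.R).card : ℝ) * (1 / 2 ^ (g.κ j)) := by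
            rw [Finset.sum_const, nsmul_eq_mul]
        _ ≤ 2 * (1 / 2 ^ (g.κ j)) := by
            have : ((PB (g.κ j) 5 ∩ g.R).card : ℝ) ≤ 2 := by
              exact_mod_cast (Finset.card_le_card Finset.inter_subset_right).trans hR
            gcongr
        _ = 2 / 2 ^ (g.κ j) := by ring
    calc ∑ p ∈ (PB (g.κ j) 5).filter (fun p => J p δ = -1), (1 : ℝ) / p
        ≤ ∑ p ∈ (g.Blk j).filter (fun p => J p δ = -1) ∪ (PB (g.κ j) 5 ∩ g.R), (1 : ℝ) / p :=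
          Finset.sum_le_sum_of_subset_of_nonneg h1 (fun _ _ _ => by positivity)
      _ ≤ ∑ p ∈ (g.Blk j).filter (fun p => J p δ = -1), (1 : ℝ) / p +
            ∑ p ∈ PB (g.κ j) 5 ∩ g.R, (1 : ℝ) / p := by
          have := Finset.sum_union_inter (s₁ := (g.Blk j).filter (fun p => J p δ = -1))
            (s₂ := PB (g.κ j) 5 ∩ g.R) (f := fun p : ℕ => (1 : ℝ) / p)
          have h0 : 0 ≤ ∑ p ∈ (g.Blk j).filter (fun p => J p δ = -1) ∩ (PB (g.κ j) 5 ∩ g.R),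
              (1 : ℝ) / p := Finset.sum_nonneg (fun _ _ => by positivity)
          linarith
      _ ≤ _ := by linarith
  have hsplit : ∑ q ∈ (g.Blk j).filter (fun q => J q δ = -1), (1 : ℝ) / q +
      ∑ q ∈ (g.Blk j).filter (fun q => J q δ ≠ -1), (1 : ℝ) / q = g.S j := by
    unfold Cfg.S
    exact Finset.sum_filter_add_sum_filter_not _ _ _
  have hpow : (1280 : ℝ) * g.κ j ≤ 2 ^ (g.κ j) := by exact_mod_cast two_pow_ge _ hκ
  have h6 : (2 : ℝ) / 2 ^ (g.κ j) ≤ 1 / 80 * (1 / (8 * (g.κ j : ℝ))) := by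
    rw [div_mul_div_comm, div_le_div_iff₀ (by positivity) (by positivity)]
    nlinarith
  nlinarith

/-! ### parity and size of the number of a tuple -/

theorem rep_le {r δ N : ℕ} (hr : 1 ≤ r) (hδ : Adm δ) (hN : N % 2 = 1) (I : ℕ) (hNI : N ≤ 2 ^ I)
    (h : Rep r δ N) : δ ∈ Icc 1 (3 * 2 ^ I) := by
  obtain ⟨s, u, hsu⟩ := h
  have h1 : 1 ≤ δ := by
    have := hδ.1
    omega
  rw [Finset.mem_Icc]
  refine ⟨h1, ?_⟩
  have hs : s ≠ 0 := by
    rintro rfl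
    have h4 : 4 ^ r % 2 = 0 := by
      obtain ⟨k, rfl⟩ := Nat.exists_eq_add_of_le hr
      rw [pow_add, pow_one]
      omega
    have h5 : (4 ^ r * u ^ 2) % 2 = 0 := by
      rw [Nat.mul_mod, h4, Nat.zero_mul, Nat.zero_mod]
    have : δ * 0 ^ 2 = 0 := by simp
    rw [this] at hsu
    omega
  have hs2 : 1 ≤ s ^ 2 := Nat.one_le_pow _ _ (Nat.pos_of_ne_zero hs)
  calc δ ≤ δ * s ^ 2 := Nat.le_mul_of_pos_right _ hs2
    _ ≤ 3 * N := by rw [hsu]; exact Nat.le_add_right _ _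
    _ ≤ 3 * 2 ^ I := by omega

theorem prod_odd (s : Finset ℕ) (h : ∀ q ∈ s, q.Prime ∧ 5 ≤ q) : (∏ q ∈ s, q) % 2 = 1 := by
  by_contra hcon
  have h2 : 2 ∣ ∏ q ∈ s, q := by omega
  obtain ⟨q, hq, hq2⟩ := (Nat.prime_two.prime.dvd_finsetProd_iff (fun q : ℕ => q)).1 h2
  have := (Nat.prime_dvd_prime_iff_eq Nat.prime_two (h q hq).1).1 hq2
  have := (h q hq).2
  omega

/-! ### numerical estimates -/

theorem small_num (n x y : ℝ) (k : ℕ) (hxy : y ≤ x) (hy : 0 ≤ y)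
    (hn : n ≤ (2 : ℝ) ^ (0.001 * x)) (hk : x / 4 ≤ k) :
    n * (1 - 1 / 80) ^ k ≤ Real.exp (-(0.002 * y)) := by
  have h1 : (1 - 1 / 80 : ℝ) ≤ Real.exp (-(1 / 80)) := by
    have := Real.one_sub_le_exp_neg (1 / 80 : ℝ)
    linarith
  have h2 : (1 - 1 / 80 : ℝ) ^ k ≤ Real.exp (-(x / 320)) := by
    calc (1 - 1 / 80 : ℝ) ^ k ≤ Real.exp (-(1 / 80)) ^ k :=
          pow_le_pow_left₀ (by norm_num) h1 k
      _ = Real.exp (k * (-(1 / 80))) := by rw [← Real.exp_nat_mul]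
      _ ≤ Real.exp (-(x / 320)) := by
          apply Real.exp_le_exp.2
          linarith
  have h3 : (2 : ℝ) ^ (0.001 * x) ≤ Real.exp (0.001 * x) := by
    rw [Real.rpow_def_of_pos (by norm_num)]
    apply Real.exp_le_exp.2
    have := Real.log_two_lt_d9
    have hx : 0 ≤ 0.001 * x := by linarith
    nlinarith
  have h4 : 0 ≤ (1 - 1 / 80 : ℝ) ^ k := by positivity
  calc n * (1 - 1 / 80) ^ k ≤ Real.exp (0.001 * x) * (1 - 1 / 80) ^ k := by
        apply mul_le_mul_of_nonneg_right (hn.trans h3) h4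
    _ ≤ Real.exp (0.001 * x) * Real.exp (-(x / 320)) := by
        apply mul_le_mul_of_nonneg_left h2 (Real.exp_pos _).le
    _ = Real.exp (0.001 * x + -(x / 320)) := by rw [← Real.exp_add]
    _ ≤ Real.exp (-(0.002 * y)) := by
        apply Real.exp_le_exp.2
        linarith

/-- the tuples that come from `n = 0` -/
theorem zero_num (M I r Rp : ℕ) (c0 W L : ℝ) (hc0 : 0 < c0) (hI : 1 ≤ I) (hRp1 : 1 ≤ Rp)
    (hRp : Rp ≤ 2 ^ (I / 16)) (hW : 1 / (2 : ℝ) ^ (I / 100) ≤ W)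
    (hb : 32 * (2 : ℝ) ^ M * (I : ℝ) ^ 1 ≤ c0 * ((2 : ℝ) ^ (0.3 : ℝ)) ^ I)
    (hL : L ≤ 2 ^ (I / 8) * (Real.sqrt (3 * 2 ^ I) / 2 ^ r + 2)) :
    L ≤ 2 ^ I / (Rp * I) * W * (c0 / (8 * 2 ^ M)) := by
  have hIr : (1 : ℝ) ≤ I := by exact_mod_cast hI
  have hRpr : (1 : ℝ) ≤ Rp := by exact_mod_cast hRp1
  have e8 : (2 : ℝ) ^ (I / 8) ≤ (2 : ℝ) ^ ((I : ℝ) * 0.125) := by
    rw [← Real.rpow_natCast]
    apply Real.rpow_le_rpow_of_exponent_le (by norm_num)
    have := Nat.cast_div_le (α := ℝ) (m := I) (n := 8)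
    push_cast at this
    linarith
  have e16 : (Rp : ℝ) ≤ (2 : ℝ) ^ ((I : ℝ) * 0.0625) := by
    have h0 : (Rp : ℝ) ≤ (2 : ℝ) ^ (I / 16) := by exact_mod_cast hRp
    refine h0.trans ?_
    rw [← Real.rpow_natCast]
    apply Real.rpow_le_rpow_of_exponent_le (by norm_num)
    have := Nat.cast_div_le (α := ℝ) (m := I) (n := 16)
    push_cast at this
    linarith
  have e100 : (2 : ℝ) ^ (-((I : ℝ) * 0.01)) ≤ W := by
    refine le_trans ?_ hW
    rw [Real.rpow_neg (by norm_num), ← one_div]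
    apply one_div_le_one_div_of_le (by positivity)
    rw [← Real.rpow_natCast]
    apply Real.rpow_le_rpow_of_exponent_le (by norm_num)
    have := Nat.cast_div_le (α := ℝ) (m := I) (n := 100)
    push_cast at this
    linarith
  have hsq : Real.sqrt (3 * 2 ^ I) ≤ 2 * (2 : ℝ) ^ ((I : ℝ) * 0.5) := by
    rw [Real.sqrt_le_left (by positivity)]
    have : ((2 : ℝ) ^ ((I : ℝ) * 0.5)) ^ 2 = 2 ^ I := by
      rw [← Real.rpow_natCast, ← Real.rpow_mul (by norm_num), ← Real.rpow_natCast]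
      congr 1
      push_cast
      ring
    rw [mul_pow, this]
    have : (0 : ℝ) < 2 ^ I := by positivity
    linarith
  have hU : Real.sqrt (3 * 2 ^ I) / 2 ^ r + 2 ≤ 4 * (2 : ℝ) ^ ((I : ℝ) * 0.5) := by
    have h1 : Real.sqrt (3 * 2 ^ I) / 2 ^ r ≤ Real.sqrt (3 * 2 ^ I) := by
      apply div_le_self (Real.sqrt_nonneg _)
      exact one_le_pow₀ (by norm_num)
    have h2 : (1 : ℝ) ≤ (2 : ℝ) ^ ((I : ℝ) * 0.5) :=
      Real.one_le_rpow (by norm_num) (by positivity)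
    linarith
  have hL2 : L ≤ 4 * (2 : ℝ) ^ ((I : ℝ) * 0.625) := by
    calc L ≤ 2 ^ (I / 8) * (Real.sqrt (3 * 2 ^ I) / 2 ^ r + 2) := hL
      _ ≤ (2 : ℝ) ^ ((I : ℝ) * 0.125) * (4 * (2 : ℝ) ^ ((I : ℝ) * 0.5)) := by
          gcongr
      _ = 4 * ((2 : ℝ) ^ ((I : ℝ) * 0.125) * (2 : ℝ) ^ ((I : ℝ) * 0.5)) := by ring
      _ = 4 * (2 : ℝ) ^ ((I : ℝ) * 0.625) := by
          rw [← Real.rpow_add (by norm_num)]
          congr 2
          ring
  refine hL2.trans ?_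
  have hb' : 32 * (2 : ℝ) ^ M * (I : ℝ) ≤ c0 * (2 : ℝ) ^ ((I : ℝ) * 0.3) := by
    have : ((2 : ℝ) ^ (0.3 : ℝ)) ^ I = (2 : ℝ) ^ ((I : ℝ) * 0.3) := by
      rw [← Real.rpow_natCast, ← Real.rpow_mul (by norm_num)]
      congr 1
      ring
    rw [← this]
    simpa using hb
  have hW0 : 0 < (2 : ℝ) ^ (-((I : ℝ) * 0.01)) := Real.rpow_pos_of_pos (by norm_num) _
  have hA : (2 : ℝ) ^ ((I : ℝ) * 0.925) / I ≤ 2 ^ I / (Rp * I) * W := by
    calc (2 : ℝ) ^ ((I : ℝ) * 0.925) / I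
        ≤ (2 : ℝ) ^ ((I : ℝ) * 0.9275) / I := by
          apply div_le_div_of_nonneg_right _ (by linarith)
          apply Real.rpow_le_rpow_of_exponent_le (by norm_num)
          linarith
      _ = 2 ^ I / ((2 : ℝ) ^ ((I : ℝ) * 0.0625) * I) * (2 : ℝ) ^ (-((I : ℝ) * 0.01)) := by
          have e1 : (2 : ℝ) ^ I = (2 : ℝ) ^ ((I : ℝ) * 0.0625) * (2 : ℝ) ^ ((I : ℝ) * 0.01)
              * (2 : ℝ) ^ ((I : ℝ) * 0.9275) := by
            rw [← Real.rpow_add (by norm_num), ← Real.rpow_add (by norm_num),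
              ← Real.rpow_natCast]
            congr 1
            ring
          rw [e1, Real.rpow_neg (by norm_num)]
          have p1 : (0 : ℝ) < (2 : ℝ) ^ ((I : ℝ) * 0.0625) := Real.rpow_pos_of_pos (by norm_num) _
          have p2 : (0 : ℝ) < (2 : ℝ) ^ ((I : ℝ) * 0.01) := Real.rpow_pos_of_pos (by norm_num) _
          field_simp
      _ ≤ 2 ^ I / (Rp * I) * W := by
          have p1 : (0 : ℝ) < Rp := by linarith
          gcongr
  have hc8 : 0 < c0 / (8 * 2 ^ M) := by positivity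
  refine le_trans ?_ (mul_le_mul_of_nonneg_right hA hc8.le)
  rw [div_mul_div_comm, le_div_iff₀ (by positivity)]
  calc 4 * (2 : ℝ) ^ ((I : ℝ) * 0.625) * (I * (8 * 2 ^ M))
      = (2 : ℝ) ^ ((I : ℝ) * 0.625) * (32 * (2 : ℝ) ^ M * (I : ℝ)) := by ring
    _ ≤ (2 : ℝ) ^ ((I : ℝ) * 0.625) * (c0 * (2 : ℝ) ^ ((I : ℝ) * 0.3)) := by gcongr
    _ = ((2 : ℝ) ^ ((I : ℝ) * 0.625) * (2 : ℝ) ^ ((I : ℝ) * 0.3)) * c0 := by ring
    _ = (2 : ℝ) ^ ((I : ℝ) * 0.925) * c0 := by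
        rw [← Real.rpow_add (by norm_num)]
        congr 2
        ring

/-- the large bad kernels -/
theorem large_num (M I r Rp H Y y : ℕ) (c0 W S : ℝ) (hc0 : 0 < c0) (hI : 1 ≤ I)
    (hI2 : I ≤ 2 * y ^ (2 * M + 4)) (hRp1 : 1 ≤ Rp) (hW : 0 ≤ W) (hH : H ≤ Y) (hy : y ≤ Y)
    (hb : 48 * (2 : ℝ) ^ M * (y : ℝ) ^ (2 * M + 4) ≤ c0 * (2 : ℝ) ^ y)
    (hS : S ≤ 1 / (2 : ℝ) ^ (2 * Y)) :
    Real.sqrt (3 * 2 ^ I) * 2 ^ H * (Real.sqrt (3 * 2 ^ I) / 2 ^ r / Rp) * W * S ≤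
      2 ^ I / (Rp * I) * W * (c0 / (8 * 2 ^ M)) := by
  have hIr : (1 : ℝ) ≤ I := by exact_mod_cast hI
  have hRpr : (1 : ℝ) ≤ Rp := by exact_mod_cast hRp1
  have hsq : Real.sqrt (3 * 2 ^ I) * Real.sqrt (3 * 2 ^ I) = 3 * 2 ^ I :=
    Real.mul_self_sqrt (by positivity)
  have h2H : (2 : ℝ) ^ H ≤ 2 ^ Y := pow_le_pow_right₀ (by norm_num) hH
  have h2y : (2 : ℝ) ^ y ≤ 2 ^ Y := pow_le_pow_right₀ (by norm_num) hy
  have hS2 : S ≤ 1 / ((2 : ℝ) ^ Y * 2 ^ Y) := by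
    rw [two_mul, pow_add] at hS
    exact hS
  have hI2r : (I : ℝ) ≤ 2 * (y : ℝ) ^ (2 * M + 4) := by exact_mod_cast hI2
  have hX : 0 ≤ Real.sqrt (3 * 2 ^ I) * 2 ^ H * (Real.sqrt (3 * 2 ^ I) / 2 ^ r / Rp) * W := by
    positivity
  calc Real.sqrt (3 * 2 ^ I) * 2 ^ H * (Real.sqrt (3 * 2 ^ I) / 2 ^ r / Rp) * W * S
      ≤ Real.sqrt (3 * 2 ^ I) * 2 ^ H * (Real.sqrt (3 * 2 ^ I) / 2 ^ r / Rp) * W *
          (1 / ((2 : ℝ) ^ Y * 2 ^ Y)) := by gcongr
    _ = (Real.sqrt (3 * 2 ^ I) * Real.sqrt (3 * 2 ^ I)) * (W / Rp) *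
          (2 ^ H / (2 ^ r * ((2 : ℝ) ^ Y * 2 ^ Y))) := by
        field_simp
    _ = 3 * 2 ^ I * (W / Rp) * (2 ^ H / (2 ^ r * ((2 : ℝ) ^ Y * 2 ^ Y))) := by rw [hsq]
    _ ≤ 3 * 2 ^ I * (W / Rp) * (2 ^ Y / (1 * ((2 : ℝ) ^ Y * 2 ^ Y))) := by
        have : (1 : ℝ) ≤ 2 ^ r := one_le_pow₀ (by norm_num)
        gcongr
    _ = 2 ^ I / (Rp * I) * W * (3 * I / 2 ^ Y) := by
        field_simp
    _ ≤ 2 ^ I / (Rp * I) * W * (c0 / (8 * 2 ^ M)) := by
        apply mul_le_mul_of_nonneg_left _ (by positivity)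
        rw [div_le_div_iff₀ (by positivity) (by positivity)]
        calc 3 * (I : ℝ) * (8 * 2 ^ M) ≤ 3 * (2 * (y : ℝ) ^ (2 * M + 4)) * (8 * 2 ^ M) := by
              gcongr
          _ = 48 * (2 : ℝ) ^ M * (y : ℝ) ^ (2 * M + 4) := by ring
          _ ≤ c0 * (2 : ℝ) ^ y := hb
          _ ≤ c0 * (2 : ℝ) ^ Y := by gcongr

/-- the last level at which a kernel is not strongly biased -/
theorem last_level {M : ℕ} (hM : 1 ≤ M) (P : ℕ → Prop) (h0 : ¬ P 0) :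
    ∃ j : Fin M, ¬ P j ∧ ((j : ℕ) + 1 < M → P ((j : ℕ) + 1)) := by
  classical
  by_contra hcon
  push Not at hcon
  have key : ∀ j : ℕ, j < M → ¬ P j := by
    intro j
    induction j with
    | zero => intro _; exact h0
    | succ n ih =>
      intro hn
      exact (hcon ⟨n, by omega⟩ (ih (by omega))).2
  have := (hcon ⟨M - 1, by omega⟩ (key (M - 1) (by omega))).1
  simp only at this
  omega

end BT

open BT

open Classical in
/-- task B-BTOT -/
theorem badTotal (h1 : QRStmt) (h2 : TupStmt) (h3 : TupLow) (h4 : TupLarge) (h5 : TupSmall)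
    (h6 : TupZero) (h7 : BadSum) (h8 : BadNum) (h9 : StrongBad) (h10 : ParStmt) (h11 : PCStmt) :
    BadTotal := by
  intro M hM
  obtain ⟨c0, hc0, I0, hlow⟩ := h3
  obtain ⟨C5, hC5, hsmall⟩ := h5
  obtain ⟨C9, hC9⟩ := h9
  obtain ⟨y7, hy7⟩ := h7 M hM
  obtain ⟨y8, hy8⟩ := h8 M hM 0.001 (by norm_num)
  obtain ⟨y10, hy10⟩ := h10 M hM
  obtain ⟨ya, hya⟩ := ev_pow (2 * M + 4) 2 (by norm_num) (48 * 2 ^ M) c0 hc0
  obtain ⟨yb, hyb⟩ := ev_pow 1 ((2 : ℝ) ^ (0.3 : ℝ))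
    (Real.one_lt_rpow (by norm_num) (by norm_num)) (32 * 2 ^ M) c0 hc0
  obtain ⟨yc, hyc⟩ := ev_pow (2 * M + 4) 2 (by norm_num) 2 1 one_pos
  obtain ⟨yd, hyd⟩ := ev_exp (8 * M * C5 * 2 ^ M) c0 hc0
  refine ⟨I0 + C9 + y7 + y8 + y10 + ya + yb + yc + yd + 15, fun y hy I hI1 hI2 R c hRC => ?_⟩
  obtain ⟨hOk, hcard, hYr1, hYr2, hk, hS, hκ, hk2, -, hW⟩ :=
    hy10 y (by omega) I hI1 hI2 R c hRC.card hRC.pr hRC.le hRC.cl
  have h7' := hy7 y (by omega) I hI1 hI2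
  obtain ⟨h8a, h8b⟩ := hy8 y (by omega) I hI1 hI2
  set g := cfg M y I R c with hg
  have hgI : g.I = I := rfl
  have hgr : g.r = rr M y := rfl
  have hgR : g.R = R := rfl
  have hgκ : ∀ j, g.κ j = kap M y j := fun _ => rfl
  have hgRp : g.Rp = ∏ q ∈ R, q := rfl
  set Y := y ^ (2 * M - 1) with hY
  have hy1 : 1 ≤ y := by omega
  have hyY : y ≤ Y := by
    calc y = y ^ 1 := (pow_one y).symm
      _ ≤ y ^ (2 * M - 1) := Nat.pow_le_pow_right hy1 (by omega)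
  have hyI : y ≤ I := by
    calc y = y ^ 1 := (pow_one y).symm
      _ ≤ y ^ (2 * M + 4) := Nat.pow_le_pow_right hy1 (by omega)
      _ ≤ I := hI1
  have hI : 1 ≤ I := by omega
  have hIr : (1 : ℝ) ≤ I := by exact_mod_cast hI
  have hRp1 : 1 ≤ g.Rp := by
    rw [hgRp]
    exact Finset.prod_pos fun q hq => (hRC.pr q hq).1.pos
  have hRpr : (1 : ℝ) ≤ g.Rp := by exact_mod_cast hRp1
  have hW0 : 0 < g.W := lt_of_lt_of_le (by positivity) hW
  set A : ℝ := 2 ^ I / (g.Rp * I) * g.W with hA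
  have hA0 : 0 < A := by positivity
  -- all tuples
  have hT : c0 * A / 2 ^ M ≤ (g.Tup.card : ℝ) := by
    refine le_trans (le_of_eq ?_) (hlow M g hOk (by rw [hgI]; omega) hk2)
    rw [hA, hgI]
    ring
  -- numbers of the tuples
  have hNodd : ∀ t ∈ g.Tup, g.N t % 2 = 1 ∧ g.N t ≤ 2 ^ I := by
    intro t ht
    obtain ⟨s, hs1, hs2, -, -, -, -, -, hs8⟩ := h2 M g hOk t ht
    rw [← hs2]
    refine ⟨prod_odd s fun q hq => ⟨(hs1 q hq).1, (hs1 q hq).2.1⟩, ?_⟩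
    rw [hs2]
    exact hs8
  -- the three parts
  set La := g.Tup.filter (fun t => ∃ u : ℕ, 3 * g.N t + 1 = 4 ^ g.r * u ^ 2) with hLa
  set D := (Icc 1 (3 * 2 ^ I)).filter (fun δ => Adm δ ∧ Bad I y δ) with hD
  let P : ℕ → Finset (Σ _ : Fin M → Finset ℕ, ℕ) :=
    fun δ => g.Tup.filter (fun t => Rep g.r δ (g.N t))
  have hsub : g.Tup.filter (fun t => (∃ δ : ℕ, Adm δ ∧ Bad I y δ ∧ Rep (rr M y) δ (g.N t)) ∨
      ∃ u : ℕ, 3 * g.N t + 1 = 4 ^ (rr M y) * u ^ 2) ⊆ La ∪ D.biUnion P := by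
    intro t ht
    rw [Finset.mem_filter] at ht
    rw [Finset.mem_union]
    rcases ht.2 with ⟨δ, hδ1, hδ2, hδ3⟩ | hu
    · right
      rw [Finset.mem_biUnion]
      obtain ⟨hN1, hN2⟩ := hNodd t ht.1
      refine ⟨δ, ?_, Finset.mem_filter.2 ⟨ht.1, hδ3⟩⟩
      rw [hD, Finset.mem_filter]
      refine ⟨rep_le ?_ hδ1 hN1 I hN2 hδ3, hδ1, hδ2⟩
      have := hOk.hr
      rw [hgr] at this
      omega
    · left
      exact Finset.mem_filter.2 ⟨ht.1, hu⟩
  -- (a)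
  have hLa1 : (La.card : ℝ) ≤ A * (c0 / (8 * 2 ^ M)) := by
    have h := h6 M g hOk
    rw [hA]
    refine zero_num M I g.r g.Rp c0 g.W _ hc0 hI hRp1 (by rw [hgRp]; exact hRC.le) hW
      (hyb I (by omega)) ?_
    exact h
  -- (b1)
  have hb1 : ∑ δ ∈ D.filter (fun δ => 2 ^ (8 * Y) < δ), ((P δ).card : ℝ) ≤
      A * (c0 / (8 * 2 ^ M)) := by
    set H := ∑ j, g.k j + g.R.card + 1 with hH
    have hH1 : H ≤ Y := by
      have : H = 2 ^ (rr M y - 1) - 1 := hcard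
      omega
    have h := large_num M I g.r g.Rp H Y y c0 g.W
      (∑ δ ∈ D.filter (fun δ => 2 ^ (8 * Y) < δ), 1 / Real.sqrt δ) hc0 hI hI2 hRp1 hW0.le hH1 hyY
      (hya y (by omega)) (by
        refine le_trans (le_of_eq ?_) h7'
        apply Finset.sum_congr _ (fun _ _ => rfl)
        rw [hD, Finset.filter_filter]
        ext δ
        simp only [Finset.mem_filter]
        tauto)
    refine le_trans ?_ h
    rw [Finset.mul_sum]
    refine Finset.sum_le_sum fun δ hδ => ?_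
    have hδ2 := (Finset.mem_filter.1 (Finset.mem_filter.1 hδ).1)
    have h9 := h4 M g hOk δ hδ2.2.1
    have hδ0 : (0 : ℝ) < δ := by
      have := (Finset.mem_Icc.1 hδ2.1).1
      exact_mod_cast this
    refine h9.trans (le_of_eq ?_)
    rw [Real.sqrt_div (by positivity)]
    unfold Cfg.U
    rw [hgI]
    ring
  -- (b2), (b3)
  have hb3 : ∑ δ ∈ D.filter (fun δ => ¬ 2 ^ (8 * Y) < δ), ((P δ).card : ℝ) ≤
      A * (c0 / (8 * 2 ^ M)) := by
    set D' := D.filter (fun δ => ¬ 2 ^ (8 * Y) < δ) with hD'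
    let Dj : Fin M → Finset ℕ := fun j => D'.filter (fun δ => ¬ StrongAt (kap M y j) δ ∧
      ((j : ℕ) + 1 < M → StrongAt (kap M y ((j : ℕ) + 1)) δ))
    have hmemD : ∀ δ ∈ D', 1 ≤ δ ∧ δ ≤ 2 ^ (8 * Y) ∧ Adm δ ∧ Bad I y δ := by
      intro δ hδ
      obtain ⟨ha, hb⟩ := Finset.mem_filter.1 hδ
      obtain ⟨hc, hd⟩ := Finset.mem_filter.1 ha
      exact ⟨(Finset.mem_Icc.1 hc).1, not_lt.1 hb, hd.1, hd.2⟩
    have hpt : ∀ δ ∈ D', ((P δ).card : ℝ) ≤
        ∑ j : Fin M, if δ ∈ Dj j then ((P δ).card : ℝ) else 0 := by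
      intro δ hδ
      obtain ⟨hδ1, hδ2, hδ3, hδ4⟩ := hmemD δ hδ
      by_cases hst : StrongAt (kap M y 0) δ
      · -- killed
        obtain ⟨q, hqR, hqJ⟩ := hRC.kills δ hδ3 hδ2 hst
        have hempty : P δ = ∅ := by
          apply Finset.filter_eq_empty_iff.2
          intro t ht
          obtain ⟨s, -, -, -, -, hs5, -, hs7, -⟩ := h2 M g hOk t ht
          have hqs : q ∈ s := hs5 hqR
          exact h1.kill g.r δ (g.N t) q hδ3 (hRC.pr q hqR).1 (hRC.pr q hqR).2.1 hqJ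
            (hs7 q hqs).1 (hs7 q hqs).2
        rw [hempty]
        simp
      · obtain ⟨j, hj1, hj2⟩ := last_level hM (fun i => StrongAt (kap M y i) δ) hst
        have hmem : δ ∈ Dj j := Finset.mem_filter.2 ⟨hδ, hj1, hj2⟩
        calc ((P δ).card : ℝ) = (if δ ∈ Dj j then ((P δ).card : ℝ) else 0) := by
              rw [if_pos hmem]
          _ ≤ ∑ j : Fin M, if δ ∈ Dj j then ((P δ).card : ℝ) else 0 :=
              Finset.single_le_sum
                (f := fun j : Fin M => if δ ∈ Dj j then ((P δ).card : ℝ) else 0)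
                (fun i _ => by positivity) (Finset.mem_univ j)
    have hjb : ∀ j : Fin M, ∑ δ ∈ D', (if δ ∈ Dj j then ((P δ).card : ℝ) else 0) ≤
        C5 * A * Real.exp (-(0.002 * (y : ℝ))) := by
      intro j
      have hsum : ∑ δ ∈ D', (if δ ∈ Dj j then ((P δ).card : ℝ) else 0) =
          ∑ δ ∈ Dj j, ((P δ).card : ℝ) := by
        rw [← Finset.sum_filter]
        apply Finset.sum_congr _ (fun _ _ => rfl)
        ext δ
        simp only [Finset.mem_filter, Dj]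
        tauto
      rw [hsum]
      have hPδ : ∀ δ ∈ Dj j, ((P δ).card : ℝ) ≤ C5 * A * (1 - 1 / 80) ^ (g.k j) := by
        intro δ hδ
        obtain ⟨ha, hb⟩ := Finset.mem_filter.1 hδ
        obtain ⟨hδ1, hδ2, hδ3, hδ4⟩ := hmemD δ ha
        have h15 : 15 ≤ g.κ j := by
          have := (hκ j).1
          rw [hgκ]
          omega
        have hth := theta_cond g j δ (by rw [hgR]; exact hRC.card) h15
          (by rw [hgκ]; exact hS j) (by rw [hgκ]; exact hb.1)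
        refine (hsmall M g hOk δ hδ3 j (1 / 80) (by norm_num) (by norm_num) hth).trans
          (le_of_eq ?_)
        rw [hA, hgI]
        ring
      have hnum : ((Dj j).card : ℝ) ≤ (2 : ℝ) ^ (0.001 * (y : ℝ) ^ (2 * (j : ℕ) + 1)) := by
        by_cases hjM : (j : ℕ) + 1 < M
        · refine le_trans ?_ (h8b j hjM)
          have : Dj j ⊆ (Icc 1 (2 ^ (8 * Y))).filter
              (fun δ => Adm δ ∧ BadAt I (kap M y ((j : ℕ) + 1)) δ) := by
            intro δ hδ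
            obtain ⟨ha, hb⟩ := Finset.mem_filter.1 hδ
            obtain ⟨hδ1, hδ2, hδ3, hδ4⟩ := hmemD δ ha
            rw [Finset.mem_filter]
            refine ⟨Finset.mem_Icc.2 ⟨hδ1, hδ2⟩, hδ3, ?_⟩
            have hκ1 := hκ ⟨(j : ℕ) + 1, hjM⟩
            simp only at hκ1
            -- the exponent is at least `y ^ 4`
            have hy4 : y ^ 2 ≤ kap M y ((j : ℕ) + 1) := by
              unfold kap
              exact Nat.pow_le_pow_right hy1 (by omega)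
            have hy5 : y ≤ kap M y ((j : ℕ) + 1) / 4 := by
              rw [Nat.le_div_iff_mul_le (by norm_num)]
              refine le_trans ?_ hy4
              rw [sq]
              exact Nat.mul_le_mul_left _ (by omega)
            apply hC9 I (kap M y ((j : ℕ) + 1)) δ (by omega) hκ1.2 _ hδ1 _ (hb.2 hjM)
            · have hc1 := hyc y (by omega)
              rw [one_mul] at hc1
              have hc2 : 2 * y ^ (2 * M + 4) ≤ 2 ^ y := by exact_mod_cast hc1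
              calc I ≤ 2 * y ^ (2 * M + 4) := hI2
                _ ≤ 2 ^ y := hc2
                _ ≤ 2 ^ (kap M y ((j : ℕ) + 1) / 4) := Nat.pow_le_pow_right (by norm_num) hy5
            · refine hδ2.trans (Nat.pow_le_pow_right (by norm_num) ?_)
              refine le_trans ?_ hI1
              rw [hY]
              have e1 : y ^ (2 * M + 4) = y ^ 5 * y ^ (2 * M - 1) := by
                rw [← pow_add]
                congr 1
                omega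
              rw [e1]
              apply Nat.mul_le_mul_right
              calc 8 ≤ y := by omega
                _ = y ^ 1 := (pow_one y).symm
                _ ≤ y ^ 5 := Nat.pow_le_pow_right hy1 (by norm_num)
          exact Nat.cast_le.2 (Finset.card_le_card this)
        · have hj : (j : ℕ) + 1 = M := by
            have := j.2
            omega
          have e1 : 2 * (j : ℕ) + 1 = 2 * M - 1 := by omega
          rw [e1]
          refine le_trans ?_ h8a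
          have : Dj j ⊆ (Icc 1 (2 ^ (8 * Y))).filter (fun δ => Adm δ ∧ Bad I y δ) := by
            intro δ hδ
            obtain ⟨ha, hb⟩ := Finset.mem_filter.1 hδ
            obtain ⟨hδ1, hδ2, hδ3, hδ4⟩ := hmemD δ ha
            rw [Finset.mem_filter]
            exact ⟨Finset.mem_Icc.2 ⟨hδ1, hδ2⟩, hδ3, hδ4⟩
          exact Nat.cast_le.2 (Finset.card_le_card this)
      have hyx : (y : ℝ) ≤ (y : ℝ) ^ (2 * (j : ℕ) + 1) := by
        have h : y ^ 1 ≤ y ^ (2 * (j : ℕ) + 1) := Nat.pow_le_pow_right hy1 (by omega)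
        rw [pow_one] at h
        exact_mod_cast h
      have hfin := small_num ((Dj j).card : ℝ) ((y : ℝ) ^ (2 * (j : ℕ) + 1)) y (g.k j) hyx
        (Nat.cast_nonneg _) hnum (hk j).1
      calc ∑ δ ∈ Dj j, ((P δ).card : ℝ)
          ≤ ∑ δ ∈ Dj j, C5 * A * (1 - 1 / 80) ^ (g.k j) := Finset.sum_le_sum hPδ
        _ = C5 * A * (((Dj j).card : ℝ) * (1 - 1 / 80) ^ (g.k j)) := by
            rw [Finset.sum_const, nsmul_eq_mul]
            ring
        _ ≤ C5 * A * Real.exp (-(0.002 * (y : ℝ))) := by gcongr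
    calc ∑ δ ∈ D', ((P δ).card : ℝ)
        ≤ ∑ δ ∈ D', ∑ j : Fin M, (if δ ∈ Dj j then ((P δ).card : ℝ) else 0) :=
          Finset.sum_le_sum hpt
      _ = ∑ j : Fin M, ∑ δ ∈ D', (if δ ∈ Dj j then ((P δ).card : ℝ) else 0) :=
          Finset.sum_comm
      _ ≤ ∑ j : Fin M, C5 * A * Real.exp (-(0.002 * (y : ℝ))) :=
          Finset.sum_le_sum fun j _ => hjb j
      _ = M * (C5 * A * Real.exp (-(0.002 * (y : ℝ)))) := by
          rw [Finset.sum_const, Finset.card_univ, Fintype.card_fin, nsmul_eq_mul]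
      _ ≤ A * (c0 / (8 * 2 ^ M)) := by
          have hd := hyd y (by omega)
          rw [mul_div_assoc', le_div_iff₀ (by positivity)]
          calc (M : ℝ) * (C5 * A * Real.exp (-(0.002 * (y : ℝ)))) * (8 * 2 ^ M)
              = A * (8 * M * C5 * 2 ^ M * Real.exp (-(0.002 * (y : ℝ)))) := by ring
            _ ≤ A * c0 := by gcongr
  -- conclusion
  have hcardle : ((g.Tup.filter (fun t => (∃ δ : ℕ, Adm δ ∧ Bad I y δ ∧
      Rep (rr M y) δ (g.N t)) ∨ ∃ u : ℕ, 3 * g.N t + 1 = 4 ^ (rr M y) * u ^ 2)).card : ℝ) ≤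
      (La.card : ℝ) + ∑ δ ∈ D, ((P δ).card : ℝ) := by
    have e1 := (Finset.card_le_card hsub).trans (Finset.card_union_le _ _)
    have e2 : (D.biUnion P).card ≤ ∑ δ ∈ D, (P δ).card := Finset.card_biUnion_le
    have e3 := e1.trans (Nat.add_le_add_left e2 _)
    exact_mod_cast e3
  have hsplit := Finset.sum_filter_add_sum_filter_not D (fun δ => 2 ^ (8 * Y) < δ)
    (fun δ => ((P δ).card : ℝ))
  have hfin : A * (c0 / (8 * 2 ^ M)) = c0 * A / 2 ^ M / 8 := by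
    field_simp
  have hA2 : 0 ≤ c0 * A / 2 ^ M := by positivity
  refine hcardle.trans ?_
  rw [hfin] at hLa1 hb1 hb3
  linarith

end Pool.Agent.H307R2.OP
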