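import Pool.Agent.H397R2.PP.NIL
import Pool.Agent.H397R2.PP.EXT

set_option autoImplicit false

/-!
# Odd values of the partition function (MP_ebc808_nt): definitions for the algebraic part

`Db` is the reduction modulo 2 of `q ∏ (1 - q^n)^24`; `Tp p` is the Hecke operator modulo 2;
`cont n = ∑ 2^i w(d_i)` for `n = ∑ d_i 4^i`, `w(0)=0, w(1)=w(2)=1, w(3)=2`;
`NIL.WW c` is the span of the `Db^(2j+1)` with `cont j < c`.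
-/

namespace Pool.Agent.H307R2.OP

open PowerSeries Pool.Agent.H397R2.PP

/-- power series modulo 2 -/
abbrev S : Type := (ZMod 2)⟦X⟧

/-- additive operators on `S` -/
abbrev EndS : Type := Module.End (ZMod 2) S

/-- the Hecke operator `T_p` modulo 2 as an element of the ring `EndS` -/
noncomputable def TO (p : ℕ) : EndS where
  toFun := Tp p
  map_add' := NIL.Tp_add p
  map_smul' a φ := NIL.Tp_smul p a φ

/-- multiplication by `Db ^ k` -/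
noncomputable def MD (k : ℕ) : EndS := LinearMap.mulLeft (ZMod 2) (Db ^ k)

/-- operators that raise the content by at most `d` (`d` may be negative) -/
def Fil (d : ℤ) (U : EndS) : Prop :=
  ∀ c : ℕ, ∀ f ∈ NIL.WW c, U f ∈ NIL.WW ((c : ℤ) + d).toNat

/-- binary digits read in base 4 -/
def sp (n : ℕ) : ℕ := if h : n = 0 then 0 else 4 * sp (n / 2) + n % 2
decreasing_by omega

/-- the span of the odd powers of `Db` -/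
noncomputable def FF : Submodule (ZMod 2) S :=
  Submodule.span (ZMod 2) {φ | ∃ j : ℕ, φ = Db ^ (2 * j + 1)}

/-- the modular equation of degree 5 -/
def ME5 : Prop :=
  (Db + PowerSeries.expand 5 (by norm_num) Db) ^ 6 = Db * PowerSeries.expand 5 (by norm_num) Db

/-- recurrences and initial values of `T_5` -/
structure T5H : Prop where
  rec6 : ∀ k : ℕ, Tp 5 (Db ^ (k + 6)) = Db ^ 2 * Tp 5 (Db ^ (k + 4)) +
    Db ^ 4 * Tp 5 (Db ^ (k + 2)) + Db ^ 6 * Tp 5 (Db ^ k) + Db * Tp 5 (Db ^ (k + 1))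
  recu : ∀ s k : ℕ, Tp 5 (Db ^ (k + 16 * 2 ^ s)) =
    (Db ^ (16 * 2 ^ s) + Db ^ (8 * 2 ^ s)) * Tp 5 (Db ^ k) +
    Db ^ (4 * 2 ^ s) * Tp 5 (Db ^ (k + 4 * 2 ^ s)) + Db ^ (3 * 2 ^ s) * Tp 5 (Db ^ (k + 2 ^ s))
  ini : Tp 5 (Db ^ 0) = 0 ∧ Tp 5 (Db ^ 1) = 0 ∧ Tp 5 (Db ^ 2) = 0 ∧ Tp 5 (Db ^ 3) = 0 ∧
    Tp 5 (Db ^ 4) = 0 ∧ Tp 5 (Db ^ 5) = Db

/-- the error in the recurrence, for a general operator -/
noncomputable def RecErr (U : EndS) (s n : ℕ) : S :=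
  U (Db ^ (2 * n + 1 + 16 * 2 ^ s)) +
    ((Db ^ (16 * 2 ^ s) + Db ^ (8 * 2 ^ s)) * U (Db ^ (2 * n + 1)) +
    Db ^ (4 * 2 ^ s) * U (Db ^ (2 * n + 1 + 4 * 2 ^ s)) +
    Db ^ (3 * 2 ^ s) * U (Db ^ (2 * n + 1 + 2 ^ s)))

/-- the facts on `T_5` produced by the content filtration (tasks GEN and G123) -/
structure T5G : Prop where
  t5 : Fil (-1) (TO 5)
  g1 : Fil (-1) (TO 5 * MD 2 + MD 2 * TO 5)
  g2 : Fil (-1) (TO 5 * MD 4 + MD 4 * TO 5 + 1)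
  g3 : Fil (-1) (MD 1 * TO 5 * MD 1)

/-- the commutator facts (task KK) -/
structure T5K : Prop where
  ka : ∀ k j : ℕ, j < k → Fil ((2 : ℤ) ^ j - 2 ^ k - 1)
    (TO 5 ^ (2 ^ k) * MD (4 ^ (j + 1)) + MD (4 ^ (j + 1)) * TO 5 ^ (2 ^ k))
  kb : ∀ k : ℕ, Fil (-1)
    (TO 5 ^ (2 ^ k) * MD (4 ^ (k + 1)) + MD (4 ^ (k + 1)) * TO 5 ^ (2 ^ k) + 1)
  kc : ∀ i : ℕ, Fil ((2 : ℤ) ^ i - 2) (TO 5 * MD (2 * 4 ^ i) + MD (2 * 4 ^ i) * TO 5)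

/-- statement of task GEN -/
def GenStmt : Prop := ∀ U : EndS,
  (∀ n < 16, U (Db ^ (2 * n + 1)) ∈ NIL.WW (cont n)) →
  (∀ s n : ℕ, 1 ≤ s → n < 8 * 2 ^ s → RecErr U s n ∈ NIL.WW (cont (n + 8 * 2 ^ s))) →
  (∀ n : ℕ, U (Db ^ (2 * n + 1)) ∈ NIL.WW (cont n)) ∧ Fil (-1) U

/-- statement of task PAIR -/
def PairStmt : Prop := ∀ a m b : ℕ, m ≤ b →
  (TO 5 ^ b) (Db ^ (2 * sp a + 4 * sp m + 1)) + (if b = m then Db ^ (2 * sp a + 1) else 0) ∈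
    NIL.WW (a + m - b)

/-- statement of task L5 -/
def L5Stmt : Prop := ∀ k m : ℕ, m < 2 ^ k →
  (TO 5 ^ (2 ^ k)) (Db ^ (4 * sp (2 ^ k + m) + 1)) + Db ^ (4 * sp m + 1) ∈ NIL.WW m

/-- statement of task P3 -/
def P3Stmt : Prop := ∀ a : ℕ, (TO 3 ^ a) (Db ^ (2 * sp a + 1)) = Db

/-- statement of task JI -/
def JIStmt : Prop := ∀ c : ℕ, ∀ g ∈ FF, Tp 3 g ∈ NIL.WW c → Tp 5 g ∈ NIL.WW c → g ∈ NIL.WW (c + 1)

/-- statement of task MS -/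
structure HeckeFacts : Prop where
  mem : ∀ q k : ℕ, q.Prime → q ≠ 2 → 1 ≤ k → Tp q (Db ^ k) ∈ Submodule.span (ZMod 2)
    {φ : S | ∃ j : ℕ, j ≤ k ∧ j % 8 = (q * k) % 8 ∧ φ = Db ^ j}
  ff : ∀ q : ℕ, q.Prime → q ≠ 2 → ∀ f ∈ FF, Tp q f ∈ FF
  comm : ∀ p q : ℕ, p.Prime → q.Prime → p ≠ q → ∀ φ : S, Tp p (Tp q φ) = Tp q (Tp p φ)
  d1 : ∀ q : ℕ, q.Prime → q ≠ 2 → Tp q (Db ^ 1) = 0
  d33 : ∀ q : ℕ, q.Prime → q % 8 = 3 → Tp q (Db ^ 3) = Db ^ 1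
  d35 : ∀ q : ℕ, q.Prime → q % 8 = 5 → Tp q (Db ^ 3) = 0
  d53 : ∀ q : ℕ, q.Prime → q % 8 = 3 → Tp q (Db ^ 5) = 0
  d55 : ∀ q : ℕ, q.Prime → q % 8 = 5 → Tp q (Db ^ 5) = Db ^ 1

/-- statement of task FQ -/
structure FQStmt : Prop where
  q3 : ∀ q : ℕ, q.Prime → q % 8 = 3 → Fil (-1) (TO q) ∧ Fil (-2) (TO q + TO 3)
  q5 : ∀ q : ℕ, q.Prime → q % 8 = 5 → Fil (-1) (TO q) ∧ Fil (-2) (TO q + TO 5)

/-- statement of task OC: the coefficient of `D^m` at a product of `2^(r-1)-1` distinct primes,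
all `≡ 5 (mod 8)` except zero or two that are `≡ 3 (mod 8)`, is odd -/
def OCStmt : Prop := ∀ r m : ℕ, 3 ≤ r → 3 * m + 1 = 4 ^ r → ∀ s : Finset ℕ,
  (∀ q ∈ s, q.Prime ∧ (q % 8 = 3 ∨ q % 8 = 5)) → s.card = 2 ^ (r - 1) - 1 →
  ((s.filter (fun q => q % 8 = 3)).card = 0 ∨ (s.filter (fun q => q % 8 = 3)).card = 2) →
  coeff (∏ q ∈ s, q) (Db ^ m) = 1

open Classical in
/-- statement of task Z5 -/
def CR5 : Prop := ∀ K : ℕ, K % 2 = 1 →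
  ((((Finset.Icc 1 (6 * K)) ×ˢ (Finset.Icc 1 (6 * K))).filter (fun ab : ℕ × ℕ =>
      ab.1 % 2 = 1 ∧ ab.1 % 3 ≠ 0 ∧ ab.2 % 2 = 1 ∧ ab.2 % 3 ≠ 0 ∧
      ab.1 ^ 2 + 5 * ab.2 ^ 2 = 6 * K)).card : ZMod 2)
    = (if ∃ u : ℕ, K = u ^ 2 then 1 else 0) + (if ∃ v : ℕ, K = 5 * v ^ 2 then 1 else 0)

end Pool.Agent.H307R2.OP
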