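import Mathlib

set_option autoImplicit false

/-!
# Odd values of the partition function (MP_ebc808_nt): definitions for the analytic part
-/

namespace Pool.Agent.H307R2.OP

open Finset

/-- the Jacobi symbol `(q | δ)` as a real number -/
noncomputable def J (q δ : ℕ) : ℝ := ((jacobiSym (q : ℤ) δ : ℤ) : ℝ)

/-- primes in `(2^i, 2^(i+1)]` congruent to `c` modulo 8 -/
def PB (i c : ℕ) : Finset ℕ :=
  (Ioc (2 ^ i) (2 ^ (i + 1))).filter (fun p => p.Prime ∧ p % 8 = c)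

/-- the squarefree kernels of the numbers `24 n - 1` -/
def Adm (δ : ℕ) : Prop := δ % 24 = 23 ∧ Squarefree δ

/-- the character of `δ` is biased on one of the classes of primes in `(2^i, 2^(i+1)]` -/
def BadAt (I i δ : ℕ) : Prop :=
  ∃ c ∈ ({1, 3, 5, 7} : Finset ℕ), 1 / (I : ℝ) ^ 2 < |∑ p ∈ PB i c, J p δ / p|

/-- bad kernels -/
def Bad (I i0 δ : ℕ) : Prop := ∃ i : ℕ, i0 ≤ i ∧ i ≤ I ∧ BadAt I i δ

/-- almost all primes `≡ 5 (mod 8)` of the block are split -/
def StrongAt (i δ : ℕ) : Prop :=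
  ∑ p ∈ (PB i 5).filter (fun p => J p δ = -1), (1 : ℝ) / p < 1 / 40 * ∑ p ∈ PB i 5, (1 : ℝ) / p

/-- `3 N = δ s² + 4^r u²` -/
def Rep (r δ N : ℕ) : Prop := ∃ s u : ℕ, 3 * N = δ * s ^ 2 + 4 ^ r * u ^ 2

/-- the roots modulo `p` -/
def Om (r δ s p : ℕ) : Finset ℕ := (range p).filter (fun u => p ∣ δ * s ^ 2 + 4 ^ r * u ^ 2)

/-- the primes in `(2^a, 2^b]` -/
def Pr2 (a b : ℕ) : Finset ℕ := (Ioc (2 ^ a) (2 ^ b)).filter Nat.Prime

/-- a configuration: `M` blocks of primes, `k j` primes from the block `κ j`, killing primes `R`,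
the class `c` modulo 8 of the large prime -/
structure Cfg (M : ℕ) where
  I : ℕ
  r : ℕ
  κ : Fin M → ℕ
  k : Fin M → ℕ
  R : Finset ℕ
  c : ℕ

namespace Cfg

variable {M : ℕ} (g : Cfg M)

/-- the primes of a block, without the killing primes -/
def Blk (j : Fin M) : Finset ℕ := PB (g.κ j) 5 \ g.R

/-- the mass of a block -/
noncomputable def S (j : Fin M) : ℝ := ∑ q ∈ g.Blk j, (1 : ℝ) / q

/-- the mass of the family -/
noncomputable def W : ℝ := ∏ j, (g.S j ^ g.k j / ((g.k j).factorial : ℝ))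

/-- the family of the choices of small primes -/
def Fam : Finset (Fin M → Finset ℕ) :=
  Fintype.piFinset (fun j => powersetCard (g.k j) (g.Blk j))

/-- the product of the killing primes -/
def Rp : ℕ := ∏ q ∈ g.R, q

/-- the product of the chosen small primes -/
def Q (_ : Cfg M) (A : Fin M → Finset ℕ) : ℕ := ∏ j, ∏ q ∈ A j, q

/-- the large primes -/
def Pr (A : Fin M → Finset ℕ) : Finset ℕ :=
  (Ioc (2 ^ (g.I / 2)) (2 ^ g.I / (g.Rp * g.Q A))).filter (fun p => p.Prime ∧ p % 8 = g.c)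

/-- the tuples `(A, p)` -/
def Tup : Finset (Σ _ : Fin M → Finset ℕ, ℕ) := g.Fam.sigma g.Pr

/-- the number of a tuple -/
def N (t : Σ _ : Fin M → Finset ℕ, ℕ) : ℕ := g.Rp * g.Q t.1 * t.2

/-- the bound for `u` -/
noncomputable def U : ℝ := Real.sqrt (3 * 2 ^ g.I) / 2 ^ g.r

/-- admissible configurations -/
structure Ok : Prop where
  inj : Function.Injective g.κ
  hr : 3 ≤ g.r
  hrI : 100 * g.r ≤ g.I
  hI : 800 ≤ g.I
  hR : ∀ q ∈ g.R, q.Prime ∧ 5 ≤ q ∧ (q % 8 = 3 ∨ q % 8 = 5)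
  hκ : ∀ j, 3 ≤ g.κ j
  hRQ : ∀ A ∈ g.Fam, g.Rp * g.Q A ≤ 2 ^ (g.I / 8)
  hc : g.c = 3 ∨ g.c = 5

end Cfg

/-- parameters: exponents of the blocks -/
def kap (M y j : ℕ) : ℕ := y ^ (2 * M + 2 - 2 * j)

/-- parameters: `2 ^ (rr - 1)` is the largest power of two at most `y ^ (2 M - 1)` -/
def rr (M y : ℕ) : ℕ := Nat.log 2 (y ^ (2 * M - 1)) + 1

/-- parameters: the number of primes of the blocks (`t` is the number of killing primes) -/
def kk (M y t j : ℕ) : ℕ :=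
  if j + 1 < M then y ^ (2 * j + 1)
  else 2 ^ (rr M y - 1) - 2 - t - ∑ i ∈ range (M - 1), y ^ (2 * i + 1)

/-- the configuration of the main argument -/
def cfg (M y I : ℕ) (R : Finset ℕ) (c : ℕ) : Cfg M where
  I := I
  r := rr M y
  κ := fun j => kap M y j
  k := fun j => kk M y R.card j
  R := R
  c := c

end Pool.Agent.H307R2.OP
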