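import Pool.Agent.H307R2.OP.DefsC

set_option autoImplicit false

/-!
# B-ES: elementary symmetric sums
-/

namespace Pool.Agent.H307R2.OP

open Finset

/-- Double counting of the pairs `(A, q)` with `q ∈ A`. -/
theorem es_rec (B : Finset ℕ) (x : ℕ → ℝ) (k : ℕ) :
    ((k:ℝ) + 1) * ∑ A ∈ powersetCard (k + 1) B, ∏ q ∈ A, x q =
      ∑ A ∈ powersetCard k B, (∏ q ∈ A, x q) * ∑ q ∈ B \ A, x q := by
  have h1 : ((k:ℝ) + 1) * ∑ A ∈ powersetCard (k + 1) B, ∏ q ∈ A, x q =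
      ∑ A ∈ powersetCard (k + 1) B, ∑ q ∈ A, ∏ q' ∈ A, x q' := by
    rw [Finset.mul_sum]
    apply Finset.sum_congr rfl
    intro A hA
    rw [Finset.mem_powersetCard] at hA
    rw [Finset.sum_const, hA.2, nsmul_eq_mul]
    push_cast
    ring
  rw [h1]
  simp_rw [Finset.mul_sum]
  rw [Finset.sum_sigma', Finset.sum_sigma']
  refine Finset.sum_bij' (fun a _ => ⟨a.1.erase a.2, a.2⟩) (fun a _ => ⟨insert a.2 a.1, a.2⟩)
    ?_ ?_ ?_ ?_ ?_
  · rintro ⟨A, q⟩ h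
    simp only [Finset.mem_sigma, Finset.mem_powersetCard, Finset.mem_sdiff] at h ⊢
    refine ⟨⟨(Finset.erase_subset _ _).trans h.1.1, ?_⟩, h.1.1 h.2, Finset.notMem_erase _ _⟩
    rw [Finset.card_erase_of_mem h.2, h.1.2]
    rfl
  · rintro ⟨A, q⟩ h
    simp only [Finset.mem_sigma, Finset.mem_powersetCard, Finset.mem_sdiff] at h ⊢
    refine ⟨⟨Finset.insert_subset h.2.1 h.1.1, ?_⟩, Finset.mem_insert_self _ _⟩
    rw [Finset.card_insert_of_notMem h.2.2, h.1.2]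
  · rintro ⟨A, q⟩ h
    simp only [Finset.mem_sigma, Finset.mem_powersetCard] at h
    simp only [Finset.insert_erase h.2]
  · rintro ⟨A, q⟩ h
    simp only [Finset.mem_sigma, Finset.mem_powersetCard, Finset.mem_sdiff] at h
    simp only [Finset.erase_insert h.2.2]
  · rintro ⟨A, q⟩ h
    simp only [Finset.mem_sigma, Finset.mem_powersetCard] at h
    simp only
    rw [Finset.prod_erase_mul _ _ h.2]

theorem es_up (B : Finset ℕ) (x : ℕ → ℝ) (k : ℕ) (hx : ∀ q ∈ B, 0 ≤ x q) :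
    ∑ A ∈ powersetCard k B, ∏ q ∈ A, x q ≤ (∑ q ∈ B, x q) ^ k / (k.factorial : ℝ) := by
  induction k with
  | zero => simp
  | succ k ih =>
    have hk : (0:ℝ) < (k:ℝ) + 1 := by positivity
    have h1 := es_rec B x k
    have h2 : ∑ A ∈ powersetCard k B, (∏ q ∈ A, x q) * ∑ q ∈ B \ A, x q ≤
        (∑ A ∈ powersetCard k B, ∏ q ∈ A, x q) * ∑ q ∈ B, x q := by
      rw [Finset.sum_mul]
      apply Finset.sum_le_sum
      intro A hA
      rw [Finset.mem_powersetCard] at hA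
      apply mul_le_mul_of_nonneg_left
      · exact Finset.sum_le_sum_of_subset_of_nonneg Finset.sdiff_subset (fun q hq _ => hx q hq)
      · exact Finset.prod_nonneg (fun q hq => hx q (hA.1 hq))
    have hS : 0 ≤ ∑ q ∈ B, x q := Finset.sum_nonneg hx
    have h3 := mul_le_mul_of_nonneg_right ih hS
    have h4 : ((k:ℝ) + 1) * ∑ A ∈ powersetCard (k + 1) B, ∏ q ∈ A, x q ≤
        (∑ q ∈ B, x q) ^ k / (k.factorial : ℝ) * ∑ q ∈ B, x q := by
      rw [h1]; exact h2.trans h3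
    have hf : (0:ℝ) < (k.factorial : ℝ) := by exact_mod_cast Nat.factorial_pos k
    rw [Nat.factorial_succ]
    push_cast
    rw [le_div_iff₀ (by positivity)]
    calc (∑ A ∈ powersetCard (k + 1) B, ∏ q ∈ A, x q) * (((k:ℝ) + 1) * (k.factorial : ℝ))
        = (((k:ℝ) + 1) * ∑ A ∈ powersetCard (k + 1) B, ∏ q ∈ A, x q) * (k.factorial : ℝ) := by ring
      _ ≤ ((∑ q ∈ B, x q) ^ k / (k.factorial : ℝ) * ∑ q ∈ B, x q) * (k.factorial : ℝ) :=
          mul_le_mul_of_nonneg_right h4 hf.le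
      _ = (∑ q ∈ B, x q) ^ (k + 1) := by
          rw [pow_succ]; field_simp

theorem es_low (B : Finset ℕ) (x : ℕ → ℝ) (k : ℕ) (τ : ℝ) (hτ : 0 ≤ τ)
    (hx : ∀ q ∈ B, 0 ≤ x q ∧ x q ≤ τ) (hk : k * τ ≤ ∑ q ∈ B, x q) :
    (∑ q ∈ B, x q - k * τ) ^ k / (k.factorial : ℝ) ≤ ∑ A ∈ powersetCard k B, ∏ q ∈ A, x q := by
  induction k with
  | zero => simp
  | succ k ih =>
    push_cast at hk
    have hk0 : (0:ℝ) < (k:ℝ) + 1 := by positivity
    have hk' : (k:ℝ) * τ ≤ ∑ q ∈ B, x q := by nlinarith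
    have ih' := ih hk'
    have h1 := es_rec B x k
    have h2 : (∑ A ∈ powersetCard k B, ∏ q ∈ A, x q) * (∑ q ∈ B, x q - k * τ) ≤
        ∑ A ∈ powersetCard k B, (∏ q ∈ A, x q) * ∑ q ∈ B \ A, x q := by
      rw [Finset.sum_mul]
      apply Finset.sum_le_sum
      intro A hA
      rw [Finset.mem_powersetCard] at hA
      apply mul_le_mul_of_nonneg_left
      · have h3 : ∑ q ∈ B \ A, x q = ∑ q ∈ B, x q - ∑ q ∈ A, x q := by
          rw [eq_sub_iff_add_eq, Finset.sum_sdiff hA.1]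
        have h4 : ∑ q ∈ A, x q ≤ k * τ := by
          calc ∑ q ∈ A, x q ≤ ∑ _q ∈ A, τ := Finset.sum_le_sum (fun q hq => (hx q (hA.1 hq)).2)
            _ = k * τ := by rw [Finset.sum_const, hA.2, nsmul_eq_mul]
        rw [h3]; linarith
      · exact Finset.prod_nonneg (fun q hq => (hx q (hA.1 hq)).1)
    set S : ℝ := ∑ q ∈ B, x q with hS
    have hf : (0:ℝ) < (k.factorial : ℝ) := by exact_mod_cast Nat.factorial_pos k
    rw [Nat.factorial_succ]
    push_cast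
    rw [div_le_iff₀ (by positivity)]
    have h5 : (S - ((k:ℝ) + 1) * τ) ^ k ≤ (S - k * τ) ^ k :=
      pow_le_pow_left₀ (by linarith) (by nlinarith) k
    have h6 : S - ((k:ℝ) + 1) * τ ≤ S - k * τ := by nlinarith
    calc (S - ((k:ℝ) + 1) * τ) ^ (k + 1)
        = (S - ((k:ℝ) + 1) * τ) ^ k * (S - ((k:ℝ) + 1) * τ) := pow_succ _ _
      _ ≤ (S - k * τ) ^ k * (S - k * τ) :=
          mul_le_mul h5 h6 (by linarith) (pow_nonneg (by linarith) _)
      _ = ((S - k * τ) ^ k / (k.factorial : ℝ)) * (S - k * τ) * (k.factorial : ℝ) := by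
          field_simp
      _ ≤ ((∑ A ∈ powersetCard k B, ∏ q ∈ A, x q) * (S - k * τ)) * (k.factorial : ℝ) := by
          apply mul_le_mul_of_nonneg_right _ hf.le
          exact mul_le_mul_of_nonneg_right ih' (by linarith)
      _ ≤ (∑ A ∈ powersetCard k B, (∏ q ∈ A, x q) * ∑ q ∈ B \ A, x q) * (k.factorial : ℝ) :=
          mul_le_mul_of_nonneg_right h2 hf.le
      _ = _ := by rw [← h1]; ring

theorem es_fam (M : ℕ) (B : Fin M → Finset ℕ) (k : Fin M → ℕ) (x : ℕ → ℝ) :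
    ∑ A ∈ Fintype.piFinset (fun j => powersetCard (k j) (B j)), ∏ j, ∏ q ∈ A j, x q =
      ∏ j, ∑ A ∈ powersetCard (k j) (B j), ∏ q ∈ A, x q := by
  rw [Finset.prod_univ_sum]

/-- task B-ES -/
theorem es : ESStmt :=
  ⟨fun B x k h => es_up B x k h, fun B x k τ h0 h1 h2 => es_low B x k τ h0 h1 h2,
    fun M B k x => es_fam M B k x⟩

end Pool.Agent.H307R2.OP
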