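import Pool.Agent.H307R2.OP.Defs

set_option autoImplicit false

/-!
All `T_q` lower the content; `T_q = T_3` or `T_5` modulo operators lowering it by two (task FQ).
-/

namespace Pool.Agent.H307R2.OP

open PowerSeries Pool.Agent.H397R2.PP

namespace FQaux

theorem add_self (φ : S) : φ + φ = 0 := by
  rw [← two_smul (ZMod 2) φ, show (2 : ZMod 2) = 0 from rfl, zero_smul]

theorem WW_le_FF (c : ℕ) : NIL.WW c ≤ FF := by
  apply Submodule.span_mono
  rintro φ ⟨j, -, rfl⟩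
  exact ⟨j, rfl⟩

theorem cont_lt_two {j : ℕ} (h : cont j < 2) : j = 0 ∨ j = 1 ∨ j = 2 := by
  obtain ⟨m, d, hd, rfl⟩ := NIL.split4 j
  rw [NIL.cont_digit _ _ hd] at h
  have hm : m = 0 := by
    apply NIL.cont_eq_zero
    omega
  subst hm
  interval_cases d
  · left; rfl
  · right; left; rfl
  · right; right; rfl
  · simp [wdig] at h
    omega

theorem main (H3 : NIL.T3H) (G : T5G) (hj : JIStmt) (U : EndS) (e : ℕ)
    (hFF : ∀ f ∈ FF, U f ∈ FF) (c3 : ∀ f, Tp 3 (U f) = U (Tp 3 f))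
    (c5 : ∀ f, Tp 5 (U f) = U (Tp 5 f)) (h0 : ∀ f ∈ NIL.WW e, U f = 0) :
    ∀ c : ℕ, ∀ f ∈ NIL.WW (c + e), U f ∈ NIL.WW c := by
  intro c
  induction c with
  | zero =>
    intro f hf
    rw [zero_add] at hf
    rw [h0 f hf]
    exact Submodule.zero_mem _
  | succ c ih =>
    intro f hf
    have hf' : f ∈ NIL.WW (c + e + 1) := by
      rwa [show c + e + 1 = c + 1 + e by ring]
    apply hj c (U f) (hFF f (WW_le_FF _ hf))
    · rw [c3]
      exact ih _ (NIL.map_WW H3 hf')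
    · rw [c5]
      have h5 := G.t5 (c + e + 1) f hf'
      have e1 : (((c + e + 1 : ℕ) : ℤ) + -1).toNat = c + e := by push_cast; omega
      rw [e1] at h5
      exact ih _ h5

theorem fil_of (U : EndS) (e : ℕ) (h0 : ∀ f ∈ NIL.WW e, U f = 0)
    (h : ∀ c : ℕ, ∀ f ∈ NIL.WW (c + e), U f ∈ NIL.WW c) : Fil (-(e : ℤ)) U := by
  intro c f hf
  rcases Nat.lt_or_ge c e with hc | hc
  · rw [h0 f (NIL.WW_mono hc.le hf)]
    exact Submodule.zero_mem _
  · have e1 : ((c : ℤ) + -(e : ℤ)).toNat = c - e := by omega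
    rw [e1]
    apply h
    rwa [Nat.sub_add_cancel hc]

theorem zero_of_gen (U : EndS) (e : ℕ) (h : ∀ j, cont j < e → U (Db ^ (2 * j + 1)) = 0) :
    ∀ f ∈ NIL.WW e, U f = 0 := by
  intro f hf
  induction hf using Submodule.span_induction with
  | mem x hx => obtain ⟨j, hj, rfl⟩ := hx; exact h j hj
  | zero => exact map_zero U
  | add x y _ _ hx hy => rw [map_add, hx, hy, add_zero]
  | smul a x _ hx => rw [map_smul, hx, smul_zero]

theorem comm' (hf : HeckeFacts) (p q : ℕ) (hp : p.Prime) (hq : q.Prime) (f : S) :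
    Tp p (Tp q f) = Tp q (Tp p f) := by
  by_cases h : p = q
  · rw [h]
  · exact hf.comm p q hp hq h f

theorem fil1 (H3 : NIL.T3H) (G : T5G) (hf : HeckeFacts) (hj : JIStmt) (q : ℕ) (hq : q.Prime)
    (hq2 : q ≠ 2) : Fil (-1) (TO q) := by
  have h0 : ∀ f ∈ NIL.WW 1, TO q f = 0 := by
    refine zero_of_gen _ _ fun j hj => ?_
    have : j = 0 := NIL.cont_eq_zero (by omega)
    subst this
    exact hf.d1 q hq hq2
  have h := fil_of (TO q) 1 h0 (main H3 G hj (TO q) 1 (fun f h => hf.ff q hq hq2 f h)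
    (fun f => comm' hf 3 q Nat.prime_three hq f) (fun f => comm' hf 5 q Nat.prime_five hq f) h0)
  exact_mod_cast h

theorem fil2 (H3 : NIL.T3H) (G : T5G) (hf : HeckeFacts) (hj : JIStmt) (q p : ℕ) (hq : q.Prime)
    (hq2 : q ≠ 2) (hp : p.Prime) (hp2 : p ≠ 2)
    (e1 : Tp q (Db ^ 1) = Tp p (Db ^ 1)) (e3 : Tp q (Db ^ 3) = Tp p (Db ^ 3))
    (e5 : Tp q (Db ^ 5) = Tp p (Db ^ 5)) : Fil (-2) (TO q + TO p) := by
  have h0 : ∀ f ∈ NIL.WW 2, (TO q + TO p) f = 0 := by
    refine zero_of_gen _ _ fun j hj => ?_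
    rw [LinearMap.add_apply]
    change Tp q _ + Tp p _ = 0
    rcases cont_lt_two hj with h | h | h
    · subst h
      rw [show 2 * 0 + 1 = 1 by norm_num, e1]; exact add_self _
    · subst h
      rw [show 2 * 1 + 1 = 3 by norm_num, e3]; exact add_self _
    · subst h
      rw [show 2 * 2 + 1 = 5 by norm_num, e5]; exact add_self _
  have hc : ∀ r : ℕ, r.Prime → ∀ f, Tp r ((TO q + TO p) f) = (TO q + TO p) (Tp r f) := by
    intro r hr f
    rw [LinearMap.add_apply, LinearMap.add_apply]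
    change Tp r (Tp q f + Tp p f) = Tp q (Tp r f) + Tp p (Tp r f)
    rw [NIL.Tp_add, comm' hf r q hr hq, comm' hf r p hr hp]
  have h := fil_of (TO q + TO p) 2 h0 (main H3 G hj (TO q + TO p) 2
    (fun f h => Submodule.add_mem _ (hf.ff q hq hq2 f h) (hf.ff p hp hp2 f h))
    (hc 3 Nat.prime_three) (hc 5 Nat.prime_five) h0)
  exact_mod_cast h

end FQaux

open FQaux in
/-- task FQ -/
theorem fq (H3 : NIL.T3H) (G : T5G) (hf : HeckeFacts) (hj : JIStmt) : FQStmt := by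
  refine ⟨fun q hq hq8 => ?_, fun q hq hq8 => ?_⟩
  · have hq2 : q ≠ 2 := by rintro rfl; norm_num at hq8
    refine ⟨fil1 H3 G hf hj q hq hq2, fil2 H3 G hf hj q 3 hq hq2 Nat.prime_three (by norm_num)
      ?_ ?_ ?_⟩
    · rw [hf.d1 q hq hq2, hf.d1 3 Nat.prime_three (by norm_num)]
    · rw [hf.d33 q hq hq8, hf.d33 3 Nat.prime_three (by norm_num)]
    · rw [hf.d53 q hq hq8, hf.d53 3 Nat.prime_three (by norm_num)]
  · have hq2 : q ≠ 2 := by rintro rfl; norm_num at hq8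
    refine ⟨fil1 H3 G hf hj q hq hq2, fil2 H3 G hf hj q 5 hq hq2 Nat.prime_five (by norm_num)
      ?_ ?_ ?_⟩
    · rw [hf.d1 q hq hq2, hf.d1 5 Nat.prime_five (by norm_num)]
    · rw [hf.d35 q hq hq8, hf.d35 5 Nat.prime_five (by norm_num)]
    · rw [hf.d55 q hq hq8, hf.d55 5 Nat.prime_five (by norm_num)]

end Pool.Agent.H307R2.OP
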