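import Pool.Agent.H307R2.OP.DefsC

set_option autoImplicit false

/-!
# Task B-KP (helper130): a small prime `q ≡ 3, 5 (mod 8)` with `(q | δ) = -1`

Elementary proof: if there is no such prime up to `y` then the convolution `F` of
`a(n) = (2|n) 1_{(n,δ)=1}` and `b(n) = (n|δ) 1_{n odd}` is nonnegative up to `y` and at least `1` at
the squares coprime to `2δ`, so `∑ (y - n) F(n) ≫ y^{3/2} / δ`; but summation by parts gives
`|∑ (y - n) F(n)| ≪ δ² y log y`.
-/

namespace Pool.Agent.H307R2.OP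

namespace KP

open Finset ArithmeticFunction

/-! ### Summation by parts -/

lemma abel_id (c g : ℕ → ℝ) (N : ℕ) :
    ∑ i ∈ range N, c i * g i = (∑ i ∈ range N, c i) * g N -
      ∑ i ∈ range N, (∑ j ∈ range (i + 1), c j) * (g (i + 1) - g i) := by
  induction N with
  | zero => simp
  | succ N ih =>
    rw [sum_range_succ, ih, sum_range_succ (fun i => (∑ j ∈ range (i + 1), c j) * (g (i + 1) - g i)),
      sum_range_succ c]
    ring

lemma abel_bound (c g : ℕ → ℝ) (B : ℝ) (hc : ∀ n, |∑ i ∈ range n, c i| ≤ B) (N : ℕ) :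
    |∑ i ∈ range N, c i * g i| ≤ B * (|g N| + ∑ i ∈ range N, |g (i + 1) - g i|) := by
  rw [abel_id, mul_add, mul_sum]
  refine (abs_sub _ _).trans (add_le_add ?_ ?_)
  · rw [abs_mul]; exact mul_le_mul_of_nonneg_right (hc N) (abs_nonneg _)
  · refine (abs_sum_le_sum_abs _ _).trans (sum_le_sum fun i _ => ?_)
    rw [abs_mul]; exact mul_le_mul_of_nonneg_right (hc _) (abs_nonneg _)

/-- partial sums of a bounded periodic function with mean zero -/
lemma period_bound (c : ℕ → ℝ) (k : ℕ) (hk : 0 < k) (hper : ∀ n, c (n + k) = c n)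
    (hz : ∑ i ∈ range k, c i = 0) (h1 : ∀ n, |c n| ≤ 1) (n : ℕ) :
    |∑ i ∈ range n, c i| ≤ k := by
  induction n using Nat.strong_induction_on with
  | _ n ih =>
    by_cases hn : n < k
    · refine (abs_sum_le_sum_abs _ _).trans ?_
      calc ∑ i ∈ range n, |c i| ≤ ∑ i ∈ range n, (1 : ℝ) := sum_le_sum fun i _ => h1 i
        _ = n := by simp
        _ ≤ k := by exact_mod_cast hn.le
    · rw [not_lt] at hn
      obtain ⟨m, rfl⟩ := Nat.exists_eq_add_of_le hn
      rw [sum_range_add, hz, zero_add]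
      have : ∑ i ∈ range m, c (k + i) = ∑ i ∈ range m, c i :=
        sum_congr rfl fun i _ => by rw [add_comm k i, hper]
      rw [this]
      exact ih m (by omega)

/-! ### The two characters -/

/-- `(2 | n) 1_{(n, δ) = 1}` -/
noncomputable def av (δ n : ℕ) : ℤ := if Nat.Coprime n δ then ZMod.χ₈ (n : ZMod 8) else 0

/-- `(n | δ) 1_{n odd}` -/
noncomputable def bv (δ n : ℕ) : ℤ := if n % 2 = 1 then jacobiSym (n : ℤ) δ else 0

lemma av_mul (δ m n : ℕ) : av δ (m * n) = av δ m * av δ n := by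
  unfold av
  by_cases h1 : Nat.Coprime m δ
  · by_cases h2 : Nat.Coprime n δ
    · rw [if_pos h1, if_pos h2, if_pos (Nat.coprime_mul_iff_left.2 ⟨h1, h2⟩), Nat.cast_mul, map_mul]
    · rw [if_neg h2, if_neg (fun h => h2 (Nat.coprime_mul_iff_left.1 h).2), mul_zero]
  · rw [if_neg h1, if_neg (fun h => h1 (Nat.coprime_mul_iff_left.1 h).1), zero_mul]

lemma bv_mul (δ m n : ℕ) : bv δ (m * n) = bv δ m * bv δ n := by
  unfold bv
  by_cases h1 : m % 2 = 1 <;> by_cases h2 : n % 2 = 1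
  · rw [if_pos h1, if_pos h2, if_pos (by rw [Nat.mul_mod, h1, h2])]
    push_cast
    exact jacobiSym.mul_left _ _ _
  · rw [if_neg h2, if_neg (by rw [Nat.mul_mod]; have : n % 2 = 0 := by omega
                              simp [this]), mul_zero]
  · rw [if_neg h1, if_neg (by rw [Nat.mul_mod]; have : m % 2 = 0 := by omega
                              simp [this]), zero_mul]
  · rw [if_neg h1, if_neg (by rw [Nat.mul_mod]; have : m % 2 = 0 := by omega
                              simp [this]), zero_mul]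

lemma av_one (δ : ℕ) : av δ 1 = 1 := by simp [av]

lemma bv_one (δ : ℕ) : bv δ 1 = 1 := by simp [bv]

lemma av_zero {δ : ℕ} (h : 1 < δ) : av δ 0 = 0 := by
  unfold av
  rw [if_neg]
  simp; omega

lemma bv_zero (δ : ℕ) : bv δ 0 = 0 := by simp [bv]

lemma av_abs (δ n : ℕ) : |(av δ n : ℝ)| ≤ 1 := by
  unfold av
  split_ifs
  · generalize (n : ZMod 8) = z
    revert z
    have : ∀ z : ZMod 8, ZMod.χ₈ z = 0 ∨ ZMod.χ₈ z = 1 ∨ ZMod.χ₈ z = -1 := by decide
    intro z
    rcases this z with h | h | h <;> simp [h]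
  · simp

lemma bv_abs (δ n : ℕ) : |(bv δ n : ℝ)| ≤ 1 := by
  unfold bv
  split_ifs
  · rcases jacobiSym.trichotomy (n : ℤ) δ with h | h | h <;> simp [h]
  · simp

lemma av_shift {δ : ℕ} (hδ : δ % 2 = 1) (n : ℕ) : av δ (n + 4 * δ) = - av δ n := by
  unfold av
  have h1 : Nat.Coprime (n + 4 * δ) δ ↔ Nat.Coprime n δ := by
    rw [Nat.coprime_add_mul_right_left]
  have h2 : ((n + 4 * δ : ℕ) : ZMod 8) = (n : ZMod 8) + 4 := by
    obtain ⟨t, ht⟩ : ∃ t, δ = 2 * t + 1 := ⟨δ / 2, by omega⟩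
    rw [ht]
    push_cast
    have : (8 : ZMod 8) = 0 := by decide
    linear_combination (t : ZMod 8) * this
  by_cases h : Nat.Coprime n δ
  · rw [if_pos (h1.2 h), if_pos h, h2]
    generalize (n : ZMod 8) = z
    revert z
    decide
  · rw [if_neg (fun h' => h (h1.1 h')), if_neg h, neg_zero]

lemma av_bound {δ : ℕ} (hδ : δ % 2 = 1) (n : ℕ) :
    |∑ i ∈ range n, (av δ i : ℝ)| ≤ 8 * δ := by
  have hd : 0 < δ := by omega
  have h := period_bound (fun i => (av δ i : ℝ)) (8 * δ) (by omega) (fun m => by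
    have : m + 8 * δ = (m + 4 * δ) + 4 * δ := by ring
    simp only [this, av_shift hδ, neg_neg]) (by
    have : 8 * δ = 4 * δ + 4 * δ := by ring
    rw [this, sum_range_add]
    have h2 : ∑ i ∈ range (4 * δ), (av δ (4 * δ + i) : ℝ) = - ∑ i ∈ range (4 * δ), (av δ i : ℝ) := by
      rw [← sum_neg_distrib]
      refine sum_congr rfl fun i _ => ?_
      rw [add_comm, av_shift hδ]; push_cast; rfl
    rw [h2]; ring) (fun m => av_abs δ m) n
  exact_mod_cast h

lemma bv_bound {δ : ℕ} (hδ : δ % 4 = 3) (n : ℕ) :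
    |∑ i ∈ range n, (bv δ i : ℝ)| ≤ 2 * δ := by
  have hd : 0 < δ := by omega
  have hper : ∀ m, bv δ (m + 2 * δ) = bv δ m := fun m => by
    unfold bv
    have h1 : (m + 2 * δ) % 2 = m % 2 := by omega
    rw [h1]
    have h2 : jacobiSym ((m + 2 * δ : ℕ) : ℤ) δ = jacobiSym (m : ℤ) δ := by
      rw [jacobiSym.mod_left, jacobiSym.mod_left (m : ℤ)]
      congr 1
      push_cast
      rw [Int.add_mul_emod_self_right]
    rw [h2]
  have hneg : ∀ m, m ≤ 2 * δ → bv δ (2 * δ - m) = - bv δ m := fun m hm => by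
    unfold bv
    have h1 : (2 * δ - m) % 2 = m % 2 := by omega
    rw [h1]
    split_ifs
    · have h2 : jacobiSym ((2 * δ - m : ℕ) : ℤ) δ = jacobiSym (-(m : ℤ)) δ := by
        rw [jacobiSym.mod_left, jacobiSym.mod_left (-(m : ℤ))]
        congr 1
        rw [Nat.cast_sub hm]
        push_cast
        rw [show (2 * (δ : ℤ) - m) = -(m : ℤ) + 2 * δ by ring, Int.add_mul_emod_self_right]
      rw [h2, jacobiSym.neg _ (Nat.odd_iff.2 (by omega)), ZMod.χ₄_nat_three_mod_four hδ]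
      ring
    · simp
  have hz : ∑ i ∈ range (2 * δ), (bv δ i : ℝ) = 0 := by
    have h1 : ∑ i ∈ range (2 * δ + 1), (bv δ i : ℝ) = ∑ i ∈ range (2 * δ + 1), (bv δ (2 * δ - i) : ℝ) := by
      rw [Finset.sum_flip (fun i => (bv δ i : ℝ))]
    have h2 : ∑ i ∈ range (2 * δ + 1), (bv δ (2 * δ - i) : ℝ) =
        - ∑ i ∈ range (2 * δ + 1), (bv δ i : ℝ) := by
      rw [← sum_neg_distrib]
      refine sum_congr rfl fun i hi => ?_
      rw [hneg i (by simpa [Nat.lt_succ_iff] using hi)]; push_cast; rfl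
    have h3 : ∑ i ∈ range (2 * δ + 1), (bv δ i : ℝ) = 0 := by linarith
    rw [sum_range_succ] at h3
    have h4 : bv δ (2 * δ) = 0 := by
      have := hneg 0 (by omega)
      rw [Nat.sub_zero, bv_zero] at this
      simpa using this
    rw [h4] at h3
    simpa using h3
  have h := period_bound (fun i => (bv δ i : ℝ)) (2 * δ) (by omega)
    (fun m => by simp only [hper]) hz (fun m => bv_abs δ m) n
  exact_mod_cast h

/-! ### The convolution -/

/-- `av` as an arithmetic function -/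
noncomputable def af (δ : ℕ) (h : 1 < δ) : ArithmeticFunction ℤ := ⟨av δ, av_zero h⟩

/-- `bv` as an arithmetic function -/
noncomputable def bf (δ : ℕ) : ArithmeticFunction ℤ := ⟨bv δ, bv_zero δ⟩

lemma af_mult {δ : ℕ} (h : 1 < δ) : (af δ h).IsMultiplicative :=
  ⟨av_one δ, fun {m n} _ => av_mul δ m n⟩

lemma bf_mult (δ : ℕ) : (bf δ).IsMultiplicative :=
  ⟨bv_one δ, fun {m n} _ => bv_mul δ m n⟩

/-- the convolution -/
noncomputable def F (δ : ℕ) (h : 1 < δ) : ArithmeticFunction ℤ := af δ h * bf δ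

lemma F_mult {δ : ℕ} (h : 1 < δ) : (F δ h).IsMultiplicative := (af_mult h).mul (bf_mult δ)

lemma av_pow (δ n i : ℕ) : av δ (n ^ i) = av δ n ^ i := by
  induction i with
  | zero => simp [av_one]
  | succ i ih => rw [pow_succ, av_mul, ih, pow_succ]

lemma bv_pow (δ n i : ℕ) : bv δ (n ^ i) = bv δ n ^ i := by
  induction i with
  | zero => simp [bv_one]
  | succ i ih => rw [pow_succ, bv_mul, ih, pow_succ]

lemma F_prime_pow {δ : ℕ} (h : 1 < δ) {p : ℕ} (hp : p.Prime) (e : ℕ) :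
    F δ h (p ^ e) = ∑ i ∈ range (e + 1), av δ p ^ i * bv δ p ^ (e - i) := by
  have h0 : F δ h (p ^ e) = ∑ x ∈ (p ^ e).divisorsAntidiagonal, av δ x.1 * bv δ x.2 := by
    unfold F
    rw [ArithmeticFunction.mul_apply]
    rfl
  rw [h0, Nat.sum_divisorsAntidiagonal (fun a b => av δ a * bv δ b), Nat.divisors_prime_pow hp,
    Finset.sum_map]
  refine sum_congr rfl fun i hi => ?_
  have hi' : i ≤ e := by simpa [Nat.lt_succ_iff] using hi
  simp only [Function.Embedding.coeFn_mk]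
  rw [Nat.pow_div hi' hp.pos, av_pow, bv_pow]

/-- `a` and `b` vanish at the same primes -/
lemma av_val {δ p : ℕ} (hδ : 1 < δ) (h2 : δ % 2 = 1) (hp : p.Prime) :
    (av δ p = 0 ∧ bv δ p = 0) ∨ ((av δ p = 1 ∨ av δ p = -1) ∧ (bv δ p = 1 ∨ bv δ p = -1) ∧
      p.Coprime δ ∧ p % 2 = 1) := by
  have : NeZero δ := ⟨by omega⟩
  by_cases hc : Nat.Coprime p δ
  · rcases Nat.Prime.eq_two_or_odd hp with rfl | ho
    · left
      constructor
      · unfold av; rw [if_pos hc]; decide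
      · unfold bv; rw [if_neg (by norm_num)]
    · right
      refine ⟨?_, ?_, hc, ho⟩
      · unfold av; rw [if_pos hc, ZMod.χ₈_nat_eq_if_mod_eight]
        split_ifs with h3 h4
        · omega
        · left; rfl
        · right; rfl
      · unfold bv; rw [if_pos ho]
        rcases jacobiSym.trichotomy (p : ℤ) δ with h | h | h
        · rw [jacobiSym.eq_zero_iff_not_coprime] at h
          exact absurd (by simpa [Nat.Coprime] using hc) h
        · left; exact h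
        · right; exact h
  · left
    constructor
    · unfold av; rw [if_neg hc]
    · unfold bv
      split_ifs
      · rw [jacobiSym.eq_zero_iff_not_coprime]
        simpa [Nat.Coprime] using hc
      · rfl

lemma F_pp_nonneg {δ : ℕ} (h : 1 < δ) (h2 : δ % 2 = 1) {p : ℕ} (hp : p.Prime)
    (hk : ¬ (av δ p = -1 ∧ bv δ p = -1)) (e : ℕ) : 0 ≤ F δ h (p ^ e) := by
  rw [F_prime_pow h hp]
  rcases av_val h h2 hp with ⟨ha, hb⟩ | ⟨ha, hb, -, -⟩
  · rw [ha, hb]
    exact sum_nonneg fun i _ => mul_nonneg (pow_nonneg le_rfl _) (pow_nonneg le_rfl _)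
  · rcases ha with ha | ha <;> rcases hb with hb | hb
    · rw [ha, hb]; simp; positivity
    · rw [ha, hb]
      simp only [one_pow, one_mul]
      rw [Finset.sum_flip (fun i => (-1 : ℤ) ^ i), neg_one_geom_sum]
      split_ifs <;> norm_num
    · rw [ha, hb]
      simp only [one_pow, mul_one]
      rw [neg_one_geom_sum]
      split_ifs <;> norm_num
    · exact absurd ⟨ha, hb⟩ hk

lemma F_pp_even {δ : ℕ} (h : 1 < δ) (h2 : δ % 2 = 1) {p : ℕ} (hp : p.Prime)
    (hc : p.Coprime δ) (ho : p % 2 = 1) (e : ℕ) : 1 ≤ F δ h (p ^ (2 * e)) := by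
  rw [F_prime_pow h hp]
  have : NeZero δ := ⟨by omega⟩
  have hne : ¬ Even (2 * e + 1) := by simp
  rcases av_val h h2 hp with ⟨ha, hb⟩ | ⟨ha, hb, -, -⟩
  · exfalso
    unfold bv at hb
    rw [if_pos ho, jacobiSym.eq_zero_iff_not_coprime] at hb
    exact hb (by simpa [Nat.Coprime] using hc)
  · rcases ha with ha | ha <;> rcases hb with hb | hb
    · rw [ha, hb]; simp
    · rw [ha, hb]
      simp only [one_pow, one_mul]
      rw [Finset.sum_flip (fun i => (-1 : ℤ) ^ i), neg_one_geom_sum, if_neg hne]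
    · rw [ha, hb]
      simp only [one_pow, mul_one]
      rw [neg_one_geom_sum, if_neg hne]
    · rw [ha, hb]
      have : ∀ i ∈ range (2 * e + 1), (-1 : ℤ) ^ i * (-1) ^ (2 * e - i) = 1 := fun i hi => by
        have hi' : i ≤ 2 * e := by simpa [Nat.lt_succ_iff] using hi
        rw [← pow_add, show i + (2 * e - i) = 2 * e by omega, pow_mul]; norm_num
      rw [sum_congr rfl this]; simp

lemma F_nonneg {δ : ℕ} (h : 1 < δ) (h2 : δ % 2 = 1) (y : ℕ)
    (hy : ∀ p : ℕ, p.Prime → p ≤ y → ¬ (av δ p = -1 ∧ bv δ p = -1)) (n : ℕ) (hn : n ≤ y) :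
    0 ≤ F δ h n := by
  rcases Nat.eq_zero_or_pos n with rfl | hpos
  · simp
  · rw [(F_mult h).multiplicative_factorization _ hpos.ne']
    refine prod_nonneg fun p hp => ?_
    have hp' : p.Prime := Nat.prime_of_mem_primeFactors (by simpa using hp)
    have hple : p ≤ n := Nat.le_of_mem_primeFactors (by simpa using hp)
    exact F_pp_nonneg h h2 hp' (hy p hp' (hple.trans hn)) _

lemma F_sq {δ : ℕ} (h : 1 < δ) (h2 : δ % 2 = 1) (m : ℕ) (hm : 0 < m) (hc : m.Coprime (2 * δ)) :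
    1 ≤ F δ h (m ^ 2) := by
  rw [(F_mult h).multiplicative_factorization _ (by positivity)]
  have hc' := Nat.coprime_mul_iff_right.1 hc
  refine Finset.prod_induction _ (fun x : ℤ => 1 ≤ x) (fun a b ha hb => by nlinarith) le_rfl ?_
  intro p hp
  have hp0 : p ∈ (m ^ 2).primeFactors := by rwa [Nat.support_factorization] at hp
  have hp' : p.Prime := Nat.prime_of_mem_primeFactors hp0
  have hpm : p ∣ m := hp'.dvd_of_dvd_pow (Nat.dvd_of_mem_primeFactors hp0)
  have he : (m ^ 2).factorization p = 2 * m.factorization p := by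
    rw [Nat.factorization_pow]; simp
  rw [he]
  refine F_pp_even h h2 hp' (Nat.Coprime.coprime_dvd_left hpm hc'.2) ?_ _
  have h3 : p.Coprime 2 := Nat.Coprime.coprime_dvd_left hpm hc'.1
  rcases hp'.eq_two_or_odd with rfl | h4
  · norm_num at h3
  · exact h4

/-! ### The two estimates -/

lemma double_sum {δ : ℕ} (h : 1 < δ) (y : ℕ) :
    ∑ n ∈ range (y + 1), (F δ h n : ℝ) * ((y - n : ℕ) : ℝ) =
      ∑ v ∈ range (y + 1), (bv δ v : ℝ) * ∑ u ∈ range (y + 1), (av δ u : ℝ) * ((y - u * v : ℕ) : ℝ) := by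
  have h1 : ∑ v ∈ range (y + 1), (bv δ v : ℝ) *
      ∑ u ∈ range (y + 1), (av δ u : ℝ) * ((y - u * v : ℕ) : ℝ) =
      ∑ x ∈ range (y + 1) ×ˢ range (y + 1),
        (av δ x.1 : ℝ) * (bv δ x.2 : ℝ) * ((y - x.1 * x.2 : ℕ) : ℝ) := by
    rw [sum_product_right]
    refine sum_congr rfl fun v _ => ?_
    rw [mul_sum]
    exact sum_congr rfl fun u _ => by ring
  have h2 : ∑ x ∈ range (y + 1) ×ˢ range (y + 1),
        (av δ x.1 : ℝ) * (bv δ x.2 : ℝ) * ((y - x.1 * x.2 : ℕ) : ℝ) =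
      ∑ x ∈ (range (y + 1) ×ˢ range (y + 1)).filter (fun x => x.1 * x.2 ≤ y),
        (av δ x.1 : ℝ) * (bv δ x.2 : ℝ) * ((y - x.1 * x.2 : ℕ) : ℝ) := by
    rw [sum_filter]
    refine sum_congr rfl fun x _ => ?_
    split_ifs with hx
    · rfl
    · rw [Nat.sub_eq_zero_of_le (by omega)]; simp
  rw [h1, h2, ← sum_fiberwise_of_maps_to (t := range (y + 1)) (g := fun x : ℕ × ℕ => x.1 * x.2)
    (fun x hx => by simp only [mem_filter] at hx; simp only [mem_range]; omega)]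
  refine sum_congr rfl fun n hn => ?_
  rcases Nat.eq_zero_or_pos n with rfl | hpos
  · rw [ArithmeticFunction.map_zero]
    simp only [Int.cast_zero, zero_mul]
    symm
    refine sum_eq_zero fun x hx => ?_
    simp only [mem_filter] at hx
    rcases Nat.mul_eq_zero.1 hx.2 with h0 | h0
    · rw [h0, av_zero h]; simp
    · rw [h0, bv_zero]; simp
  · have hset : ((range (y + 1) ×ˢ range (y + 1)).filter (fun x => x.1 * x.2 ≤ y)).filter
        (fun x => x.1 * x.2 = n) = n.divisorsAntidiagonal := by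
      ext x
      simp only [mem_filter, mem_product, mem_range, Nat.mem_divisorsAntidiagonal]
      have hny : n ≤ y := by simpa [Nat.lt_succ_iff] using hn
      constructor
      · rintro ⟨-, h4⟩; exact ⟨h4, hpos.ne'⟩
      · rintro ⟨h4, h5⟩
        have h6 : x.1 ∣ n := ⟨x.2, h4.symm⟩
        have h7 : x.2 ∣ n := ⟨x.1, by rw [mul_comm]; exact h4.symm⟩
        have h8 := Nat.le_of_dvd hpos h6
        have h9 := Nat.le_of_dvd hpos h7
        exact ⟨⟨⟨by omega, by omega⟩, by omega⟩, h4⟩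
    rw [hset]
    have hF : F δ h n = ∑ x ∈ n.divisorsAntidiagonal, av δ x.1 * bv δ x.2 := by
      unfold F
      rw [ArithmeticFunction.mul_apply]
      rfl
    rw [hF]
    push_cast
    rw [sum_mul]
    refine sum_congr rfl fun x hx => ?_
    rw [(Nat.mem_divisorsAntidiagonal.1 hx).1]

lemma var_bound (G : ℕ → ℝ) (p : ℕ) (h1 : ∀ u, u ≤ p → G u = u)
    (h2 : ∀ u, p ≤ u → G (u + 1) ≤ G u) (N : ℕ) (hN : p ≤ N) :
    ∑ u ∈ range N, |G (u + 1) - G u| = 2 * p - G N := by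
  induction N, hN using Nat.le_induction with
  | base =>
    rw [h1 p le_rfl]
    have : ∑ u ∈ range p, |G (u + 1) - G u| = ∑ u ∈ range p, (1 : ℝ) := by
      refine sum_congr rfl fun u hu => ?_
      have hu' : u < p := by simpa using hu
      rw [h1 u hu'.le, h1 (u + 1) hu']
      push_cast
      rw [add_sub_cancel_left, abs_one]
    rw [this]; simp; ring
  | succ N hN ih =>
    rw [sum_range_succ, ih, abs_sub_comm, abs_of_nonneg (sub_nonneg.2 (h2 N hN))]
    ring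

lemma inner_bound {δ : ℕ} (h : 1 < δ) (h2 : δ % 2 = 1) (y v : ℕ) :
    |∑ u ∈ range (y + 1), (av δ u : ℝ) * ((y - u * (v + 1) : ℕ) : ℝ) -
      ∑ u ∈ range (y + 1), (av δ u : ℝ) * ((y - u * v : ℕ) : ℝ)| ≤
      8 * δ * (2 * (y / (v + 1))) := by
  set G : ℕ → ℝ := fun u => ((y - u * v : ℕ) : ℝ) - ((y - u * (v + 1) : ℕ) : ℝ) with hG
  have e1 : ∑ u ∈ range (y + 1), (av δ u : ℝ) * ((y - u * (v + 1) : ℕ) : ℝ) -
      ∑ u ∈ range (y + 1), (av δ u : ℝ) * ((y - u * v : ℕ) : ℝ) =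
      - ∑ u ∈ range (y + 1), (av δ u : ℝ) * G u := by
    rw [← sum_sub_distrib, ← sum_neg_distrib]
    exact sum_congr rfl fun u _ => by rw [hG]; ring
  rw [e1, abs_neg]
  refine (abel_bound _ G (8 * δ) (av_bound h2) (y + 1)).trans ?_
  refine mul_le_mul_of_nonneg_left ?_ (by positivity)
  set p := y / (v + 1) with hp
  have hv : 0 < v + 1 := Nat.succ_pos v
  have g1 : ∀ u, u ≤ p → G u = u := by
    intro u hu
    have h3 : u * (v + 1) ≤ y := (Nat.le_div_iff_mul_le hv).1 hu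
    have h4 : y - u * v = (y - u * (v + 1)) + u := by
      have : u * (v + 1) = u * v + u := by ring
      omega
    rw [hG]
    simp only
    rw [h4]; push_cast; ring
  have g0 : ∀ u, p < u → G u = ((y - u * v : ℕ) : ℝ) := by
    intro u hu
    have h3 : y < u * (v + 1) := (Nat.div_lt_iff_lt_mul hv).1 hu
    rw [hG]
    simp only
    rw [Nat.sub_eq_zero_of_le h3.le]; simp
  have g2 : ∀ u, p ≤ u → G (u + 1) ≤ G u := by
    intro u hu
    rcases hu.eq_or_lt with h3 | h3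
    · rw [← h3, g0 (p + 1) (Nat.lt_succ_self p), g1 p le_rfl]
      have h4 : y < (p + 1) * (v + 1) := (Nat.div_lt_iff_lt_mul hv).1 (Nat.lt_succ_self p)
      have h5 : y - (p + 1) * v ≤ p := by
        have : (p + 1) * (v + 1) = (p + 1) * v + (p + 1) := by ring
        omega
      exact_mod_cast h5
    · rw [g0 (u + 1) (by omega), g0 u h3]
      have : y - (u + 1) * v ≤ y - u * v := Nat.sub_le_sub_left (Nat.mul_le_mul_right _ (by omega)) _
      exact_mod_cast this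
  have hpy : p ≤ y + 1 := (Nat.div_le_self _ _).trans (by omega)
  rw [var_bound G p g1 g2 (y + 1) hpy]
  have g3 : 0 ≤ G (y + 1) := by
    rcases hpy.eq_or_lt with h3 | h3
    · rw [← h3, g1 p le_rfl]; positivity
    · rw [g0 _ h3]; positivity
  rw [abs_of_nonneg g3]
  have h6 : (p : ℝ) ≤ y / (v + 1) := by
    have := @Nat.cast_div_le ℝ _ _ _ y (v + 1)
    push_cast at this
    exact this
  linarith

lemma upper {δ : ℕ} (h : 1 < δ) (h4 : δ % 4 = 3) (y : ℕ) :
    ∑ n ∈ range (y + 1), (F δ h n : ℝ) * ((y - n : ℕ) : ℝ) ≤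
      32 * δ ^ 2 * y * (1 + Real.log (y + 1)) := by
  rw [double_sum h y]
  set H : ℕ → ℝ := fun v => ∑ u ∈ range (y + 1), (av δ u : ℝ) * ((y - u * v : ℕ) : ℝ) with hH
  have h0 : H (y + 1) = 0 := by
    rw [hH]
    refine sum_eq_zero fun u _ => ?_
    rcases Nat.eq_zero_or_pos u with rfl | hu
    · rw [av_zero h]; simp
    · have : y ≤ u * (y + 1) := by nlinarith
      rw [Nat.sub_eq_zero_of_le this]; simp
  refine (le_abs_self _).trans ((abel_bound _ H (2 * δ) (bv_bound h4) (y + 1)).trans ?_)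
  rw [h0, abs_zero, zero_add]
  have h1 : ∑ v ∈ range (y + 1), |H (v + 1) - H v| ≤ 16 * δ * y * (harmonic (y + 1) : ℝ) := by
    have : ∀ v ∈ range (y + 1), |H (v + 1) - H v| ≤ 16 * δ * y * ((v : ℝ) + 1)⁻¹ := fun v _ => by
      refine (inner_bound h (by omega) y v).trans (le_of_eq ?_)
      rw [div_eq_mul_inv]; ring
    refine (sum_le_sum this).trans (le_of_eq ?_)
    rw [← mul_sum, harmonic]
    push_cast
    rfl
  have h2 := harmonic_le_one_add_log (y + 1)
  push_cast at h2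
  calc 2 * (δ : ℝ) * ∑ v ∈ range (y + 1), |H (v + 1) - H v|
      ≤ 2 * (δ : ℝ) * (16 * δ * y * (1 + Real.log (y + 1))) := by
        refine mul_le_mul_of_nonneg_left (h1.trans ?_) (by positivity)
        exact mul_le_mul_of_nonneg_left h2 (by positivity)
    _ = _ := by ring

lemma lower {δ : ℕ} (h : 1 < δ) (h2 : δ % 2 = 1) (T : ℕ)
    (hy : ∀ p : ℕ, p.Prime → p ≤ 8 * δ ^ 2 * T ^ 2 → ¬ (av δ p = -1 ∧ bv δ p = -1)) :
    (4 * δ ^ 2 * T ^ 3 : ℝ) ≤
      ∑ n ∈ range (8 * δ ^ 2 * T ^ 2 + 1), (F δ h n : ℝ) * ((8 * δ ^ 2 * T ^ 2 - n : ℕ) : ℝ) := by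
  set y := 8 * δ ^ 2 * T ^ 2 with hyd
  have hm : ∀ j, j < T → (2 * δ * j + 1) ^ 2 ≤ 4 * δ ^ 2 * T ^ 2 := fun j hj => by
    have h3 : 2 * δ * j + 1 ≤ 2 * δ * T := by nlinarith
    calc (2 * δ * j + 1) ^ 2 ≤ (2 * δ * T) ^ 2 := Nat.pow_le_pow_left h3 2
      _ = 4 * δ ^ 2 * T ^ 2 := by ring
  have hinj : Set.InjOn (fun j => (2 * δ * j + 1) ^ 2) (range T : Set ℕ) := by
    intro i _ j _ hij
    have h3 : 2 * δ * i + 1 = 2 * δ * j + 1 := Nat.pow_left_injective (n := 2) (by norm_num) hij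
    have h4 : 2 * δ * i = 2 * δ * j := by omega
    exact Nat.eq_of_mul_eq_mul_left (by omega) h4
  have hsub : (range T).image (fun j => (2 * δ * j + 1) ^ 2) ⊆ range (y + 1) := by
    intro n hn
    obtain ⟨j, hj, rfl⟩ := mem_image.1 hn
    have := hm j (by simpa using hj)
    simp only [mem_range]
    have : 4 * δ ^ 2 * T ^ 2 ≤ y := by rw [hyd]; nlinarith [sq_nonneg (δ * T)]
    omega
  have hnn : ∀ n ∈ range (y + 1), 0 ≤ (F δ h n : ℝ) * ((y - n : ℕ) : ℝ) := fun n hn => by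
    have : 0 ≤ F δ h n := F_nonneg h h2 y hy n (by simpa [Nat.lt_succ_iff] using hn)
    have h' : (0 : ℝ) ≤ F δ h n := by exact_mod_cast this
    positivity
  refine le_trans ?_ (sum_le_sum_of_subset_of_nonneg hsub (fun n hn _ => hnn n hn))
  rw [sum_image (fun i hi j hj hij => hinj hi hj hij)]
  have hterm : ∀ j ∈ range T, (4 * δ ^ 2 * T ^ 2 : ℝ) ≤
      (F δ h ((2 * δ * j + 1) ^ 2) : ℝ) * ((y - (2 * δ * j + 1) ^ 2 : ℕ) : ℝ) := by
    intro j hj
    have h3 := hm j (by simpa using hj)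
    have h5 : 1 ≤ F δ h ((2 * δ * j + 1) ^ 2) := F_sq h h2 _ (by omega) (by
      rw [mul_assoc 2 δ j, ← mul_assoc]
      have : 2 * δ * j + 1 = 1 + j * (2 * δ) := by ring
      rw [this, Nat.coprime_add_mul_right_left]
      simp)
    have h6 : (1 : ℝ) ≤ F δ h ((2 * δ * j + 1) ^ 2) := by exact_mod_cast h5
    have h7 : 4 * δ ^ 2 * T ^ 2 ≤ y - (2 * δ * j + 1) ^ 2 := by
      have : y = 4 * δ ^ 2 * T ^ 2 + 4 * δ ^ 2 * T ^ 2 := by rw [hyd]; ring
      omega
    have h8 : (4 * δ ^ 2 * T ^ 2 : ℝ) ≤ ((y - (2 * δ * j + 1) ^ 2 : ℕ) : ℝ) := by exact_mod_cast h7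
    nlinarith
  calc (4 * δ ^ 2 * T ^ 3 : ℝ) = ∑ j ∈ range T, (4 * δ ^ 2 * T ^ 2 : ℝ) := by
        simp; ring
    _ ≤ _ := sum_le_sum hterm

lemma exists_prime {δ : ℕ} (h : 1 < δ) (h4 : δ % 4 = 3) :
    ∃ p : ℕ, p.Prime ∧ p ≤ 8 * δ ^ 2 * (100000 * δ ^ 3) ^ 2 ∧ av δ p = -1 ∧ bv δ p = -1 := by
  by_contra hno
  have hy : ∀ p : ℕ, p.Prime → p ≤ 8 * δ ^ 2 * (100000 * δ ^ 3) ^ 2 →
      ¬ (av δ p = -1 ∧ bv δ p = -1) := fun p hp hle hab => hno ⟨p, hp, hle, hab.1, hab.2⟩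
  have h1 := lower h (by omega) _ hy
  have h2 := upper h h4 (8 * δ ^ 2 * (100000 * δ ^ 3) ^ 2)
  have h3 := h1.trans h2
  have hd : (1 : ℝ) ≤ δ := by exact_mod_cast h.le
  have h5 : Real.log (((8 * δ ^ 2 * (100000 * δ ^ 3) ^ 2 : ℕ) : ℝ) + 1) ≤ 192 * δ - 8 := by
    have h6 : ((8 * δ ^ 2 * (100000 * δ ^ 3) ^ 2 : ℕ) : ℝ) + 1 ≤ (24 * (δ : ℝ)) ^ 8 := by
      push_cast
      have h7 : (1 : ℝ) ≤ (δ : ℝ) ^ 8 := one_le_pow₀ hd
      have h8 : 8 * (δ : ℝ) ^ 2 * (100000 * (δ : ℝ) ^ 3) ^ 2 = 80000000000 * (δ : ℝ) ^ 8 := by ring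
      have h9 : (24 * (δ : ℝ)) ^ 8 = 110075314176 * (δ : ℝ) ^ 8 := by ring
      rw [h8, h9]
      nlinarith
    calc Real.log (((8 * δ ^ 2 * (100000 * δ ^ 3) ^ 2 : ℕ) : ℝ) + 1)
        ≤ Real.log ((24 * (δ : ℝ)) ^ 8) := Real.log_le_log (by positivity) h6
      _ = 8 * Real.log (24 * δ) := by rw [Real.log_pow]; norm_num
      _ ≤ 8 * (24 * δ - 1) := by
          have := Real.log_le_sub_one_of_pos (x := 24 * (δ : ℝ)) (by positivity)
          linarith
      _ = 192 * δ - 8 := by ring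
  push_cast at h3 h5
  have h10 : 32 * (δ : ℝ) ^ 2 * (8 * (δ : ℝ) ^ 2 * (100000 * (δ : ℝ) ^ 3) ^ 2) *
      (1 + Real.log (8 * (δ : ℝ) ^ 2 * (100000 * (δ : ℝ) ^ 3) ^ 2 + 1)) ≤
      32 * (δ : ℝ) ^ 2 * (8 * (δ : ℝ) ^ 2 * (100000 * (δ : ℝ) ^ 3) ^ 2) * (192 * δ) := by
    refine mul_le_mul_of_nonneg_left (by linarith) (by positivity)
  have h11 := h3.trans h10
  have h12 : (0 : ℝ) < (δ : ℝ) ^ 11 := by positivity
  have h13 : 4 * (δ : ℝ) ^ 2 * (100000 * (δ : ℝ) ^ 3) ^ 3 = 4000000000000000 * (δ : ℝ) ^ 11 := by ring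
  have h14 : 32 * (δ : ℝ) ^ 2 * (8 * (δ : ℝ) ^ 2 * (100000 * (δ : ℝ) ^ 3) ^ 2) * (192 * δ) =
      491520000000000 * (δ : ℝ) ^ 11 := by ring
  rw [h13, h14] at h11
  nlinarith

end KP

/-- task B-KP -/
theorem killPrime : KillPrime := by
  refine ⟨80000000000, fun δ hδ => ?_⟩
  have h24 : δ % 24 = 23 := hδ.1
  have hd : 23 ≤ δ := by omega
  obtain ⟨p, hp, hle, ha, hb⟩ := KP.exists_prime (δ := δ) (by omega) (by omega)
  have hcop : Nat.Coprime p δ := by
    by_contra hc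
    unfold KP.av at ha
    rw [if_neg hc] at ha
    norm_num at ha
  have hodd : p % 2 = 1 := by
    by_contra hc
    unfold KP.bv at hb
    rw [if_neg hc] at hb
    norm_num at hb
  have hJ : jacobiSym (p : ℤ) δ = -1 := by
    unfold KP.bv at hb
    rwa [if_pos hodd] at hb
  have h8 : p % 8 = 3 ∨ p % 8 = 5 := by
    unfold KP.av at ha
    rw [if_pos hcop, ZMod.χ₈_nat_eq_if_mod_eight] at ha
    split_ifs at ha with h1 h2
    omega
  have h3 : p ≠ 3 := by
    rintro rfl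
    have h4 : jacobiSym ((3 : ℕ) : ℤ) δ = -jacobiSym ((δ : ℕ) : ℤ) 3 :=
      jacobiSym.quadratic_reciprocity_three_mod_four (by norm_num) (by omega)
    have h5 : jacobiSym ((δ : ℕ) : ℤ) 3 = -1 := by
      rw [jacobiSym.mod_left]
      have : ((δ : ℤ) % ((3 : ℕ) : ℤ)) = 2 := by omega
      rw [this]
      decide +kernel
    rw [h5] at h4
    rw [h4] at hJ
    norm_num at hJ
  refine ⟨p, hp, ?_, h8, ?_, ?_⟩
  · have := hp.two_le
    rcases h8 with h | h <;> omega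
  · unfold J
    rw [hJ]; norm_num
  · refine hle.trans ?_
    calc 8 * δ ^ 2 * (100000 * δ ^ 3) ^ 2 = 80000000000 * δ ^ 8 := by ring
      _ ≤ 80000000000 * δ ^ 80000000000 :=
        Nat.mul_le_mul_left _ (Nat.pow_le_pow_right (by omega) (by norm_num))

end Pool.Agent.H307R2.OP
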