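import Pool.Agent.H307R2.OP.Defs
import Pool.Agent.H307R2.OP.DefsC

set_option autoImplicit false

/-! Task B-MAIN: the main theorem in terms of the parameter `y`. -/

namespace Pool.Agent.H307R2.OP

open PowerSeries Pool.Agent.H397R2.PP Finset

namespace MAINaux

theorem mod24 : ∀ a < 24, ∀ b < 24, a ^ 2 * b % 24 = 23 → b = 23 := by decide

/-- the squarefree kernel of `24 n - 1` -/
theorem kernel (n : ℕ) (hn : 1 ≤ n) :
    ∃ δ s : ℕ, δ * s ^ 2 = 24 * n - 1 ∧ Adm δ ∧ 1 ≤ s := by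
  obtain ⟨a, b, hab, hsq⟩ := Nat.sq_mul_squarefree (24 * n - 1)
  refine ⟨a, b, by rw [mul_comm]; exact hab, ⟨?_, hsq⟩, ?_⟩
  · have h1 : b ^ 2 * a % 24 = 23 := by rw [hab]; omega
    have h2 : (b % 24) ^ 2 * (a % 24) % 24 = 23 := by
      rw [← h1]
      simp [Nat.mul_mod, Nat.pow_mod]
    exact mod24 (b % 24) (Nat.mod_lt _ (by norm_num)) (a % 24) (Nat.mod_lt _ (by norm_num)) h2
  · rcases Nat.eq_zero_or_pos b with h | h
    · subst h
      simp at hab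
      omega
    · exact h

theorem exists_m (r : ℕ) : ∃ m : ℕ, 3 * m + 1 = 4 ^ r := by
  induction r with
  | zero => exact ⟨0, by norm_num⟩
  | succ r ih =>
    obtain ⟨m, hm⟩ := ih
    exact ⟨4 * m + 1, by rw [pow_succ, ← hm]; ring⟩

/-- growth: `Nat.log 2 I + 1 ≤ c y` -/
theorem log_small (M : ℕ) (c : ℝ) (hc : 0 < c) : ∃ y0 : ℕ, ∀ y : ℕ, y0 ≤ y → ∀ I : ℕ,
    I ≤ 2 * y ^ (2 * M + 4) → ((Nat.log 2 I + 1 : ℕ) : ℝ) ≤ c * y := by
  have h1 : ∀ᶠ x : ℝ in Filter.atTop, ‖Real.log x‖ ≤ (c * Real.log 2 / (2 * (2 * M + 4))) * ‖x‖ := by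
    have := (Real.isLittleO_log_id_atTop).def
      (show (0:ℝ) < c * Real.log 2 / (2 * (2 * M + 4)) by positivity)
    simpa using this
  have h2 := (tendsto_natCast_atTop_atTop (R := ℝ)).eventually h1
  have h3 : ∀ᶠ y : ℕ in Filter.atTop, (2 / c * 2 : ℝ) ≤ y :=
    (tendsto_natCast_atTop_atTop (R := ℝ)).eventually (Filter.eventually_ge_atTop _)
  obtain ⟨y0, hy0⟩ := Filter.eventually_atTop.1 (h2.and h3)
  refine ⟨max y0 1, fun y hy I hI => ?_⟩
  have hy1 : 1 ≤ y := le_trans (le_max_right _ _) hy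
  obtain ⟨ha, hb⟩ := hy0 y (le_trans (le_max_left _ _) hy)
  have hyR : (1 : ℝ) ≤ y := by exact_mod_cast hy1
  have hlog2 : 0 < Real.log 2 := Real.log_pos (by norm_num)
  rw [Real.norm_of_nonneg (Real.log_nonneg hyR), Real.norm_of_nonneg (by positivity)] at ha
  have h5 : Nat.log 2 I ≤ Nat.log 2 (2 * y ^ (2 * M + 4)) := Nat.log_mono_right hI
  have h6 : ((Nat.log 2 (2 * y ^ (2 * M + 4)) : ℕ) : ℝ) * Real.log 2 ≤
      Real.log 2 + (2 * M + 4) * Real.log y := by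
    have h7 : (2:ℕ) ^ Nat.log 2 (2 * y ^ (2 * M + 4)) ≤ 2 * y ^ (2 * M + 4) :=
      Nat.pow_log_le_self 2 (by positivity)
    have h8 : ((2:ℝ)) ^ Nat.log 2 (2 * y ^ (2 * M + 4)) ≤ 2 * (y:ℝ) ^ (2 * M + 4) := by
      exact_mod_cast h7
    have h9 := Real.log_le_log (by positivity) h8
    rw [Real.log_pow, Real.log_mul (by norm_num) (by positivity), Real.log_pow] at h9
    push_cast at h9
    linarith
  have h10 : (2 * (M:ℝ) + 4) * Real.log y ≤ c * Real.log 2 / 2 * y := by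
    calc (2 * (M:ℝ) + 4) * Real.log y ≤ (2 * (M:ℝ) + 4) * (c * Real.log 2 / (2 * (2 * M + 4)) * y) :=
          mul_le_mul_of_nonneg_left ha (by positivity)
      _ = c * Real.log 2 / 2 * y := by field_simp
  have h11 : ((Nat.log 2 I : ℕ) : ℝ) ≤ 1 + c / 2 * y := by
    have h12 : ((Nat.log 2 I : ℕ) : ℝ) * Real.log 2 ≤ (1 + c / 2 * y) * Real.log 2 := by
      calc ((Nat.log 2 I : ℕ) : ℝ) * Real.log 2
          ≤ ((Nat.log 2 (2 * y ^ (2 * M + 4)) : ℕ) : ℝ) * Real.log 2 :=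
            mul_le_mul_of_nonneg_right (by exact_mod_cast h5) hlog2.le
        _ ≤ Real.log 2 + c * Real.log 2 / 2 * y := by linarith
        _ = (1 + c / 2 * y) * Real.log 2 := by ring
    exact le_of_mul_le_mul_right h12 hlog2
  have h13 : (2:ℝ) ≤ c / 2 * y := by
    have := mul_le_mul_of_nonneg_left hb (show 0 ≤ c / 2 by positivity)
    calc (2:ℝ) = c / 2 * (2 / c * 2) := by field_simp
      _ ≤ _ := this
  push_cast
  linarith

/-- polynomial versus exponential growth -/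
theorem poly_exp (M : ℕ) : ∃ y0 : ℕ, ∀ y : ℕ, y0 ≤ y → 2 * y ^ (2 * M + 4) ≤ 2 ^ y := by
  have h := tendsto_pow_const_div_const_pow_of_one_lt (2 * M + 4) (r := (2:ℝ)) (by norm_num)
  have h2 : ∀ᶠ n : ℕ in Filter.atTop, (n:ℝ) ^ (2 * M + 4) / 2 ^ n < 1 / 2 :=
    h.eventually (gt_mem_nhds (by norm_num))
  obtain ⟨y0, hy0⟩ := Filter.eventually_atTop.1 h2
  refine ⟨y0, fun y hy => ?_⟩
  have := hy0 y hy
  rw [div_lt_iff₀ (by positivity)] at this
  have h3 : (2:ℝ) * (y:ℝ) ^ (2 * M + 4) ≤ 2 ^ y := by linarith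
  exact_mod_cast h3

open Classical in
/-- the counting step -/
theorem stepA (a1 : OCStmt)
    (a2 : ∀ r m N : ℕ, 3 * m + 1 = 4 ^ r → coeff N (Db ^ m) = 1 →
      ∃ n u : ℕ, Odd (Fintype.card (Nat.Partition n)) ∧ 24 * n + 4 ^ r * u ^ 2 = 3 * N + 1)
    (h1 : TupStmt) {M : ℕ} (g : Cfg M) (hok : g.Ok) (y : ℕ)
    (hcard : ∑ j, g.k j + g.R.card + 1 = 2 ^ (g.r - 1) - 1)
    (hpar : (g.R.filter (fun q => q % 8 = 3)).card + (if g.c = 3 then 1 else 0) = 0 ∨
      (g.R.filter (fun q => q % 8 = 3)).card + (if g.c = 3 then 1 else 0) = 2)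
    (Bd : ℝ) (hBd : 0 ≤ Bd)
    (hB : ∀ δ s : ℕ, Adm δ → ¬ Bad g.I y δ → 1 ≤ s → δ * s ^ 2 ≤ 3 * 2 ^ g.I →
      (((g.Tup ×ˢ range (2 ^ g.I + 1)).filter
        (fun x => 3 * g.N x.1 = δ * s ^ 2 + 4 ^ g.r * x.2 ^ 2)).card : ℝ) ≤ Bd)
    (hlost : ((g.Tup.filter (fun t => (∃ δ : ℕ, Adm δ ∧ Bad g.I y δ ∧
      Rep g.r δ (g.N t)) ∨ ∃ u : ℕ, 3 * g.N t + 1 = 4 ^ g.r * u ^ 2)).card : ℝ) ≤
        (g.Tup.card : ℝ) / 2) :
    (g.Tup.card : ℝ) / 2 ≤ (oddCount (2 ^ g.I) : ℝ) * Bd := by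
  have key : ∀ t ∈ g.Tup, ∃ n u : ℕ, Odd (Fintype.card (Nat.Partition n)) ∧
      24 * n + 4 ^ g.r * u ^ 2 = 3 * g.N t + 1 ∧ g.N t ≤ 2 ^ g.I := by
    intro t ht
    obtain ⟨s, hs1, hs2, hs3, hs4, -, -, -, hs8⟩ := h1 M g hok t ht
    obtain ⟨m, hm⟩ := exists_m g.r
    have hco : coeff (∏ q ∈ s, q) (Db ^ m) = 1 := by
      refine a1 g.r m hok.hr hm s (fun q hq => ⟨(hs1 q hq).1, (hs1 q hq).2.2⟩) ?_ ?_
      · rw [hs3, hcard]
      · rw [hs4]; exact hpar
    rw [hs2] at hco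
    obtain ⟨n, u, hn, hu⟩ := a2 g.r m (g.N t) hm hco
    exact ⟨n, u, hn, hu, hs8⟩
  choose! n u hodd heq hN using key
  have h4r : 64 ≤ 4 ^ g.r := by
    calc 64 = 4 ^ 3 := by norm_num
      _ ≤ 4 ^ g.r := Nat.pow_le_pow_right (by norm_num) hok.hr
  have hu : ∀ t ∈ g.Tup, u t ≤ 2 ^ g.I := by
    intro t ht
    have e1 := heq t ht
    have e2 := hN t ht
    have e3 : 64 * (u t) ^ 2 ≤ 4 ^ g.r * (u t) ^ 2 := Nat.mul_le_mul_right _ h4r
    have e4 : u t ≤ (u t) ^ 2 := Nat.le_self_pow (by norm_num) _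
    have e5 : 1 ≤ 2 ^ g.I := Nat.one_le_two_pow
    omega
  have hn : ∀ t ∈ g.Tup, n t ≤ 2 ^ g.I := by
    intro t ht
    have e1 := heq t ht
    have e2 := hN t ht
    have e5 : 1 ≤ 2 ^ g.I := Nat.one_le_two_pow
    have e6 : 0 ≤ 4 ^ g.r * (u t) ^ 2 := Nat.zero_le _
    omega
  set P : (Σ _ : Fin M → Finset ℕ, ℕ) → Prop := fun t => (∃ δ : ℕ, Adm δ ∧ Bad g.I y δ ∧
      Rep g.r δ (g.N t)) ∨ ∃ u : ℕ, 3 * g.N t + 1 = 4 ^ g.r * u ^ 2 with hP
  have hsum : (g.Tup.filter P).card + (g.Tup.filter (fun t => ¬ P t)).card = g.Tup.card :=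
    Finset.card_filter_add_card_filter_not P
  set Good := g.Tup.filter (fun t => ¬ P t) with hGood
  have hgood : (g.Tup.card : ℝ) / 2 ≤ (Good.card : ℝ) := by
    have : ((g.Tup.filter P).card : ℝ) + (Good.card : ℝ) = (g.Tup.card : ℝ) := by
      exact_mod_cast hsum
    linarith
  refine hgood.trans ?_
  rw [Finset.card_eq_sum_card_image n Good]
  push_cast
  have himg : Good.image n ⊆
      (range (2 ^ g.I + 1)).filter (fun n => Odd (Fintype.card (Nat.Partition n))) := by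
    intro b hb
    obtain ⟨t, ht, rfl⟩ := Finset.mem_image.1 hb
    have ht' := (Finset.mem_filter.1 ht).1
    rw [Finset.mem_filter, Finset.mem_range]
    exact ⟨Nat.lt_succ_of_le (hn t ht'), hodd t ht'⟩
  have hcardimg : ((Good.image n).card : ℝ) ≤ (oddCount (2 ^ g.I) : ℝ) := by
    have := Finset.card_le_card himg
    unfold oddCount
    exact_mod_cast this
  have hfib : ∀ b ∈ Good.image n, ((Good.filter (fun t => n t = b)).card : ℝ) ≤ Bd := by
    intro b hb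
    obtain ⟨t, ht, htb⟩ := Finset.mem_image.1 hb
    obtain ⟨ht', hnp⟩ := Finset.mem_filter.1 ht
    simp only [hP, not_or, not_exists, not_and] at hnp
    obtain ⟨hnp1, hnp2⟩ := hnp
    have hb1 : 1 ≤ b := by
      rcases Nat.eq_zero_or_pos b with h | h
      · exfalso
        have e1 := heq t ht'
        rw [htb, h] at e1
        exact hnp2 (u t) (by omega)
      · exact h
    obtain ⟨δ, s, hδs, hadm, hs⟩ := kernel b hb1
    have e1 := heq t ht'
    have e2 := hN t ht'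
    rw [htb] at e1
    have hrep : 3 * g.N t = δ * s ^ 2 + 4 ^ g.r * (u t) ^ 2 := by
      rw [hδs]; omega
    have hnb : ¬ Bad g.I y δ := fun hbad => hnp1 δ hadm hbad ⟨s, u t, hrep⟩
    have hle : δ * s ^ 2 ≤ 3 * 2 ^ g.I := by
      have e6 : 0 ≤ 4 ^ g.r * (u t) ^ 2 := Nat.zero_le _
      omega
    refine le_trans ?_ (hB δ s hadm hnb hs hle)
    have : (Good.filter (fun t => n t = b)).card ≤
        ((g.Tup ×ˢ range (2 ^ g.I + 1)).filter
          (fun x => 3 * g.N x.1 = δ * s ^ 2 + 4 ^ g.r * x.2 ^ 2)).card := by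
      refine Finset.card_le_card_of_injOn (fun t => (t, u t)) ?_ ?_
      · intro t' ht2
        simp only [Finset.coe_filter, Set.mem_ofPred_eq] at ht2
        obtain ⟨ht3, ht4⟩ := ht2
        have ht5 := (Finset.mem_filter.1 ht3).1
        have e7 := heq t' ht5
        rw [ht4] at e7
        simp only [Finset.coe_filter, Set.mem_ofPred_eq, Finset.mem_product, Finset.mem_range]
        refine ⟨⟨ht5, Nat.lt_succ_of_le (hu t' ht5)⟩, ?_⟩
        rw [hδs]; omega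
      · intro a _ b _ hab
        exact (Prod.mk.inj hab).1
    exact_mod_cast this
  calc ∑ b ∈ Good.image n, ((Good.filter (fun t => n t = b)).card : ℝ)
      ≤ ∑ b ∈ Good.image n, Bd := Finset.sum_le_sum hfib
    _ = ((Good.image n).card : ℝ) * Bd := by rw [Finset.sum_const, nsmul_eq_mul]
    _ ≤ (oddCount (2 ^ g.I) : ℝ) * Bd := mul_le_mul_of_nonneg_right hcardimg hBd

/-- the final computation -/
theorem stepB (c0 C I Rp U eM W y L R2 T O pr Mp s2 sI rt : ℝ) (hc0 : 0 < c0) (hC : 0 < C)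
    (hI : 0 < I) (hRp : 0 < Rp) (heM : 0 < eM) (hW : 0 < W) (hy : 0 < y) (hL : 0 < L)
    (hR2 : R2 ≤ 4) (hR20 : 0 ≤ R2) (hO : 0 ≤ O) (hpr : pr ≤ eM * W) (hMp : 0 < Mp)
    (hsI : 0 < sI) (hs2 : 0 < s2) (hrt : 0 < rt)
    (hU : U = s2 * sI / rt)
    (hT : c0 * (sI ^ 2 / (Rp * I)) * (W / Mp) ≤ T)
    (hTO : T / 2 ≤ O * (C * R2 * (U / Rp) * pr * (y * L / I)))
    : c0 * sI * rt / (8 * Mp * C * eM * s2 * y * L) ≤ O := by
  have hUpos : 0 < U := by rw [hU]; positivity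
  have h1 : O * (C * R2 * (U / Rp) * pr * (y * L / I)) ≤
      O * (C * 4 * (U / Rp) * (eM * W) * (y * L / I)) := by
    apply mul_le_mul_of_nonneg_left _ hO
    have e1 : C * R2 * (U / Rp) * pr ≤ C * 4 * (U / Rp) * (eM * W) := by
      calc C * R2 * (U / Rp) * pr ≤ C * R2 * (U / Rp) * (eM * W) :=
            mul_le_mul_of_nonneg_left hpr (by positivity)
        _ ≤ C * 4 * (U / Rp) * (eM * W) := by
            have : C * R2 ≤ C * 4 := mul_le_mul_of_nonneg_left hR2 hC.le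
            have h2 : C * R2 * (U / Rp) ≤ C * 4 * (U / Rp) :=
              mul_le_mul_of_nonneg_right this (by positivity)
            exact mul_le_mul_of_nonneg_right h2 (by positivity)
    exact mul_le_mul_of_nonneg_right e1 (by positivity)
  have h2 : c0 * (sI ^ 2 / (Rp * I)) * (W / Mp) / 2 ≤
      O * (C * 4 * (U / Rp) * (eM * W) * (y * L / I)) := by linarith
  rw [hU] at h2
  have h3 : c0 * (sI ^ 2 / (Rp * I)) * (W / Mp) / 2 =
      (c0 * sI * rt / (8 * Mp * C * eM * s2 * y * L)) *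
        (C * 4 * (s2 * sI / rt / Rp) * (eM * W) * (y * L / I)) := by
    field_simp
    ring
  rw [h3] at h2
  exact le_of_mul_le_mul_right h2 (by positivity)

end MAINaux

open MAINaux in
/-- task B-MAIN -/
theorem mainY (a1 : OCStmt)
    (a2 : ∀ r m N : ℕ, 3 * m + 1 = 4 ^ r → coeff N (Db ^ m) = 1 →
      ∃ n u : ℕ, Odd (Fintype.card (Nat.Partition n)) ∧ 24 * n + 4 ^ r * u ^ 2 = 3 * N + 1)
    (h1 : TupStmt) (h2 : TupLow) (h3 : GoodCount) (h4 : ParStmt) (h5 : RChoice)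
    (h6 : BadTotal) : MainY := by
  intro M hM
  obtain ⟨c0, hc0, I1, h2'⟩ := h2
  obtain ⟨C, hC, I2, h3'⟩ := h3
  obtain ⟨y4, h4'⟩ := h4 M hM
  obtain ⟨y5, h5'⟩ := h5 M hM
  obtain ⟨y6, h6'⟩ := h6 M hM
  obtain ⟨y7, h7'⟩ := poly_exp M
  have hs3 : (0:ℝ) < Real.sqrt 3 := Real.sqrt_pos.2 (by norm_num)
  obtain ⟨y8, h8'⟩ := log_small M (c0 / (8 * 2 ^ M * C * Real.exp M * Real.sqrt 3))
    (by positivity)
  refine ⟨y4 + y5 + y6 + y7 + y8 + I1 + I2 + 20, fun y hy I hI1 hI2 => ?_⟩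
  have hy20 : 20 ≤ y := by omega
  have hyI : y ≤ y ^ (2 * M + 4) := Nat.le_self_pow (by omega) _
  obtain ⟨R, c, hRC⟩ := h5' y (by omega) I hI1 hI2
  obtain ⟨hok, hcard, hr1, hr2, hk, hS, hκ, h2k, hprod, hW⟩ :=
    h4' y (by omega) I hI1 hI2 R c hRC.card hRC.pr hRC.le hRC.cl
  have hWpos : 0 < (cfg M y I R c).W := lt_of_lt_of_le (by positivity) hW
  have hIpow : I ≤ 2 ^ y := hI2.trans (h7' y (by omega))
  have hL : Nat.log 2 I ≤ y := by
    have := Nat.log_mono_right (b := 2) hIpow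
    rwa [Nat.log_pow (by norm_num)] at this
  have hIbig : 4000 * y * (Nat.log 2 I + 1) ≤ I := by
    have e1 : 4000 * y * (Nat.log 2 I + 1) ≤ 4000 * y * (2 * y) :=
      Nat.mul_le_mul_left _ (by omega)
    have e2 : y ^ 6 ≤ y ^ (2 * M + 4) := Nat.pow_le_pow_right (by omega) (by omega)
    have e3 : 20 ^ 4 ≤ y ^ 4 := Nat.pow_le_pow_left hy20 4
    have e4 : 8000 * y ^ 2 ≤ y ^ 6 := by
      calc 8000 * y ^ 2 ≤ y ^ 4 * y ^ 2 := Nat.mul_le_mul_right _ (by omega)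
        _ = y ^ 6 := by ring
    calc 4000 * y * (Nat.log 2 I + 1) ≤ 4000 * y * (2 * y) := e1
      _ = 8000 * y ^ 2 := by ring
      _ ≤ I := by omega
  have hksum : ∑ j, (cfg M y I R c).k j + (cfg M y I R c).R.card ≤ I := by
    have e1 : y ^ (2 * M - 1) ≤ y ^ (2 * M + 4) := Nat.pow_le_pow_right (by omega) (by omega)
    have e2 : (cfg M y I R c).R.card = R.card := rfl
    rw [e2]
    omega
  have hTlow := h2' M (cfg M y I R c) hok (show I1 ≤ I by omega) h2k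
  have hA := stepA a1 a2 h1 (cfg M y I R c) hok y hcard hRC.par
    (C * 2 ^ (cfg M y I R c).R.card * ((cfg M y I R c).U / (cfg M y I R c).Rp) *
      (∏ j, (((cfg M y I R c).S j + 1 / (I : ℝ) ^ 2 +
        (cfg M y I R c).R.card / 2 ^ ((cfg M y I R c).κ j)) ^ (cfg M y I R c).k j /
        (((cfg M y I R c).k j).factorial : ℝ))) * (y * (Nat.log 2 I + 1) / I))
    (by
      have hSnn : ∀ j, 0 ≤ (cfg M y I R c).S j := fun j => by
        unfold Cfg.S
        exact Finset.sum_nonneg (fun q _ => by positivity)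
      have hU : 0 ≤ (cfg M y I R c).U := by unfold Cfg.U; positivity
      have hp : 0 ≤ (∏ j, (((cfg M y I R c).S j + 1 / (I : ℝ) ^ 2 +
        (cfg M y I R c).R.card / 2 ^ ((cfg M y I R c).κ j)) ^ (cfg M y I R c).k j /
        (((cfg M y I R c).k j).factorial : ℝ))) := by
        refine Finset.prod_nonneg (fun j _ => ?_)
        have := hSnn j
        positivity
      positivity)
    (fun δ s h1 h2 h3 h4 => h3' M (cfg M y I R c) hok (show I2 ≤ I by omega) y (by omega)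
      hIpow hIbig hκ hksum δ s h1 h2 h3 h4)
    (h6' y (by omega) I hI1 hI2 R c hRC)
  have hyR : (0:ℝ) < y := by exact_mod_cast (by omega : 0 < y)
  have hIR : (0:ℝ) < I := by
    have : 0 < I := by
      have : 0 < y ^ (2 * M + 4) := by positivity
      omega
    exact_mod_cast this
  have hRp : (0:ℝ) < ((cfg M y I R c).Rp : ℝ) := by
    have : 0 < (cfg M y I R c).Rp := Finset.prod_pos (fun q hq => (hRC.pr q hq).1.pos)
    exact_mod_cast this
  have hB := stepB c0 C I ((cfg M y I R c).Rp) ((cfg M y I R c).U) (Real.exp M)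
    ((cfg M y I R c).W) y (Nat.log 2 I + 1) (2 ^ (cfg M y I R c).R.card)
    ((cfg M y I R c).Tup.card) (oddCount (2 ^ I))
    (∏ j, (((cfg M y I R c).S j + 1 / (I : ℝ) ^ 2 +
        (cfg M y I R c).R.card / 2 ^ ((cfg M y I R c).κ j)) ^ (cfg M y I R c).k j /
        (((cfg M y I R c).k j).factorial : ℝ))) (2 ^ M) (Real.sqrt 3) (Real.sqrt (2 ^ I))
    (2 ^ (rr M y)) hc0 hC hIR hRp (Real.exp_pos _) hWpos hyR (by positivity)
    (by
      have : R.card ≤ 2 := hRC.card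
      calc (2:ℝ) ^ (cfg M y I R c).R.card ≤ 2 ^ 2 :=
            pow_le_pow_right₀ (by norm_num) this
        _ = 4 := by norm_num)
    (by positivity) (by positivity) hprod (by positivity) (by positivity) hs3 (by positivity)
    (by
      unfold Cfg.U
      rw [Real.sqrt_mul (by norm_num)]
      rfl)
    (by
      rw [Real.sq_sqrt (by positivity)]
      exact hTlow)
    hA
  refine le_trans ?_ hB
  have h8 := h8' y (by omega) I hI2
  push_cast at h8
  have hr2' : (y:ℝ) ^ (2 * M - 1) ≤ 2 ^ (rr M y) := by exact_mod_cast hr2.le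
  have hzp : (y : ℝ) ^ (2 * M - 3 : ℤ) = (y:ℝ) ^ (2 * M - 1) / (y:ℝ) ^ 2 := by
    have e1 : (2 * M - 3 : ℤ) = ((2 * M - 1 : ℕ) : ℤ) - ((2 : ℕ) : ℤ) := by
      have : 1 ≤ 2 * M := by omega
      push_cast [this]
      ring
    rw [e1, zpow_sub₀ hyR.ne', zpow_natCast, zpow_natCast]
  rw [hzp]
  have hsI : 0 < Real.sqrt (2 ^ I) := Real.sqrt_pos.2 (by positivity)
  have hLpos : (0:ℝ) < (Nat.log 2 I : ℝ) + 1 := by positivity
  have hexp : 0 < Real.exp M := Real.exp_pos _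
  rw [div_mul_eq_mul_div, le_div_iff₀ (by positivity)] at h8
  rw [← mul_div_assoc, div_le_div_iff₀ (by positivity) (by positivity)]
  calc Real.sqrt (2 ^ I) * (y:ℝ) ^ (2 * M - 1) *
        (8 * 2 ^ M * C * Real.exp M * Real.sqrt 3 * y * ((Nat.log 2 I : ℝ) + 1))
      = Real.sqrt (2 ^ I) * (y:ℝ) ^ (2 * M - 1) * y *
        (((Nat.log 2 I : ℝ) + 1) * (8 * 2 ^ M * C * Real.exp M * Real.sqrt 3)) := by ring
    _ ≤ Real.sqrt (2 ^ I) * 2 ^ (rr M y) * y * (c0 * y) := by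
        apply mul_le_mul _ h8 (by positivity) (by positivity)
        apply mul_le_mul_of_nonneg_right _ hyR.le
        exact mul_le_mul_of_nonneg_left hr2' hsI.le
    _ = c0 * Real.sqrt (2 ^ I) * 2 ^ (rr M y) * (y:ℝ) ^ 2 := by ring

end Pool.Agent.H307R2.OP
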