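import Pool.Agent.H307R2.OP.DefsC
import Pool.Agent.H387R2.U3

/-!
# Odd values of the partition function: primes in residue classes modulo 8 (task B-PC, helper503)
-/

set_option autoImplicit false

open Finset Filter Topology

namespace Pool.Agent.H307R2.OP

namespace PCaux

/-- the number of primes `≡ c (mod 8)` up to `x` -/
noncomputable def cnt (x c : ℕ) : ℝ := (((Icc 1 x).filter (fun p => p.Prime ∧ p % 8 = c)).card : ℝ)

lemma cnt_eq (x c : ℕ) (hc : c < 8) : cnt x c = H343E.piAP x 8 c := by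
  unfold cnt H343E.piAP
  congr 2
  ext p
  simp only [mem_filter, Nat.ModEq, Nat.mod_eq_of_lt hc]

lemma pi_tend : Tendsto (fun x : ℕ => H343E.pi1 x * Real.log x / x) atTop (𝓝 1) := by
  have h := Pool.Agent.Helper507.PNT.pi_tendsto.comp (tendsto_natCast_atTop_atTop (R := ℝ))
  refine h.congr fun x => ?_
  simp only [Function.comp, Nat.floor_natCast]
  rw [Pool.Agent.H387R2.Uni.pi1_eq]

lemma log_tend : Tendsto (fun x : ℕ => Real.log (x : ℝ)) atTop atTop :=
  Real.tendsto_log_atTop.comp tendsto_natCast_atTop_atTop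

lemma cnt_tend (c : ℕ) (hc : c = 3 ∨ c = 5) :
    Tendsto (fun x : ℕ => cnt x c * Real.log x / x) atTop (𝓝 (1 / 4)) := by
  obtain ⟨x0, h⟩ := Pool.Agent.H387R2.Uni.siegel
  have hc8 : c < 8 := by rcases hc with rfl | rfl <;> norm_num
  have hcop : c.Coprime 8 := by rcases hc with rfl | rfl <;> decide
  have htot : (Nat.totient 8 : ℝ) = 4 := by
    have : Nat.totient 8 = 4 := by decide
    rw [this]; norm_num
  have hdiff : Tendsto (fun x : ℕ => cnt x c * Real.log x / x -
      H343E.pi1 x * Real.log x / x / 4) atTop (𝓝 0) := by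
    have hinv : Tendsto (fun x : ℕ => (Real.log (x : ℝ))⁻¹) atTop (𝓝 0) :=
      tendsto_inv_atTop_zero.comp log_tend
    refine squeeze_zero_norm' ?_ hinv
    filter_upwards [eventually_ge_atTop x0, eventually_ge_atTop 1,
      log_tend.eventually_ge_atTop 3] with x hx hx1 hlog
    have hx0 : (0 : ℝ) < x := by exact_mod_cast hx1
    have hL : 0 < Real.log (x : ℝ) := by linarith
    have h8 := h x hx 8 (by norm_num) (by push_cast; nlinarith) c hc8 hcop
    rw [htot, ← cnt_eq x c hc8] at h8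
    have e : cnt x c * Real.log x / x - H343E.pi1 x * Real.log x / x / 4 =
        (cnt x c - H343E.pi1 x / 4) * (Real.log x / x) := by ring
    rw [e, norm_mul, Real.norm_eq_abs, Real.norm_of_nonneg (by positivity)]
    calc |cnt x c - H343E.pi1 x / 4| * (Real.log x / x)
        ≤ (x / Real.log x ^ 6) * (Real.log x / x) := mul_le_mul_of_nonneg_right h8 (by positivity)
      _ = 1 / Real.log x ^ 5 := by field_simp
      _ ≤ 1 / Real.log x ^ 1 := by
          apply one_div_le_one_div_of_le (by positivity)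
          exact pow_le_pow_right₀ (by linarith) (by norm_num)
      _ = (Real.log x)⁻¹ := by rw [pow_one, one_div]
  have h2 := hdiff.add (pi_tend.div_const 4)
  rw [zero_add] at h2
  refine h2.congr fun x => ?_
  ring

lemma card_PB (i : ℕ) : ((PB i 5).card : ℝ) = cnt (2 ^ (i + 1)) 5 - cnt (2 ^ i) 5 := by
  have hle : 2 ^ i ≤ 2 ^ (i + 1) := Nat.pow_le_pow_right (by norm_num) (by omega)
  have hdisj : Disjoint ((Icc 1 (2 ^ i)).filter (fun p => p.Prime ∧ p % 8 = 5)) (PB i 5) := by
    rw [Finset.disjoint_left]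
    intro p hp hp'
    have h1 := (mem_Icc.1 (mem_filter.1 hp).1).2
    have h2 := (mem_Ioc.1 (mem_filter.1 hp').1).1
    omega
  have hun : (Icc 1 (2 ^ (i + 1))).filter (fun p => p.Prime ∧ p % 8 = 5) =
      (Icc 1 (2 ^ i)).filter (fun p => p.Prime ∧ p % 8 = 5) ∪ PB i 5 := by
    ext p
    simp only [PB, mem_union, mem_filter, mem_Icc, mem_Ioc]
    constructor
    · rintro ⟨⟨h1, h2⟩, h3⟩
      rcases le_or_gt p (2 ^ i) with h | h
      · exact Or.inl ⟨⟨h1, h⟩, h3⟩
      · exact Or.inr ⟨⟨h, h2⟩, h3⟩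
    · rintro (⟨⟨h1, h2⟩, h3⟩ | ⟨⟨h1, h2⟩, h3⟩)
      · exact ⟨⟨h1, h2.trans hle⟩, h3⟩
      · exact ⟨⟨by omega, h2⟩, h3⟩
  unfold cnt
  rw [hun, card_union_of_disjoint hdisj]
  push_cast
  ring

lemma pow_tend : Tendsto (fun i : ℕ => 2 ^ i) atTop atTop :=
  tendsto_pow_atTop_atTop_of_one_lt (by norm_num)

lemma block_tend : Tendsto (fun i : ℕ => ((PB i 5).card : ℝ) * (4 * i * Real.log 2) / 2 ^ i)
    atTop (𝓝 1) := by
  have hv := (cnt_tend 5 (Or.inr rfl)).comp pow_tend
  have hu := (cnt_tend 5 (Or.inr rfl)).comp (pow_tend.comp (tendsto_add_atTop_nat 1))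
  have hr : Tendsto (fun i : ℕ => (i : ℝ) / ((i : ℝ) + 1)) atTop (𝓝 1) :=
    tendsto_natCast_div_add_atTop 1
  have h := (((hu.mul hr).const_mul 2).sub hv).const_mul 4
  have e : (4 : ℝ) * (2 * (1 / 4 * 1) - 1 / 4) = 1 := by norm_num
  rw [e] at h
  refine h.congr' ?_
  filter_upwards [eventually_ge_atTop 1] with i hi
  have hi0 : (i : ℝ) ≠ 0 := by exact_mod_cast (by omega : i ≠ 0)
  have hi1 : (i : ℝ) + 1 ≠ 0 := by positivity
  have hl2 : Real.log 2 ≠ 0 := (Real.log_pos (by norm_num)).ne'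
  simp only [Function.comp]
  rw [card_PB]
  have l1 : Real.log (((2 ^ i : ℕ)) : ℝ) = i * Real.log 2 := by
    push_cast
    rw [Real.log_pow]
  have l2 : Real.log (((2 ^ (i + 1) : ℕ)) : ℝ) = (i + 1) * Real.log 2 := by
    push_cast
    rw [Real.log_pow]
    push_cast
    ring
  rw [l1, l2]
  push_cast
  have p2 : (2 : ℝ) ^ (i + 1) = 2 ^ i * 2 := pow_succ _ _
  rw [p2]
  field_simp

end PCaux

open PCaux in
/-- task B-PC -/
theorem pc : PCStmt := by
  have hblock : ∃ i0 : ℕ, ∀ i : ℕ, i0 ≤ i →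
      0.99 * (2 : ℝ) ^ i / (4 * i * Real.log 2) ≤ ((PB i 5).card : ℝ) := by
    have h := block_tend.eventually (lt_mem_nhds (show (0.99 : ℝ) < 1 by norm_num))
    obtain ⟨i0, hi0⟩ := eventually_atTop.1 h
    refine ⟨max i0 1, fun i hi => ?_⟩
    have h1 := hi0 i ((le_max_left _ _).trans hi)
    have hi1 : 1 ≤ i := (le_max_right _ _).trans hi
    have hi0' : (0 : ℝ) < i := by exact_mod_cast hi1
    have hl2 : 0 < Real.log 2 := Real.log_pos (by norm_num)
    rw [lt_div_iff₀ (by positivity)] at h1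
    rw [div_le_iff₀ (by positivity)]
    exact h1.le
  refine ⟨?_, hblock, ?_, ?_⟩
  · have h3 := (cnt_tend 3 (Or.inl rfl)).eventually (lt_mem_nhds (show (1 / 5 : ℝ) < 1 / 4 by norm_num))
    have h5 := (cnt_tend 5 (Or.inr rfl)).eventually (lt_mem_nhds (show (1 / 5 : ℝ) < 1 / 4 by norm_num))
    obtain ⟨x0, hx0⟩ := eventually_atTop.1 (h3.and (h5.and (log_tend.eventually_ge_atTop 1)))
    refine ⟨max x0 1, fun x hx c hc => ?_⟩
    obtain ⟨a3, a5, al⟩ := hx0 x ((le_max_left _ _).trans hx)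
    have hxp : (0 : ℝ) < x := by exact_mod_cast (le_max_right _ _).trans hx
    have hL : 0 < Real.log (x : ℝ) := by linarith
    have key : ∀ y : ℝ, 1 / 5 < y * Real.log x / x → (x : ℝ) / (5 * Real.log x) ≤ y := by
      intro y hy
      rw [lt_div_iff₀ hxp] at hy
      rw [div_le_iff₀ (by positivity)]
      nlinarith
    rcases hc with rfl | rfl
    · exact key _ a3
    · exact key _ a5
  · obtain ⟨i0, hi0⟩ := hblock
    refine ⟨max i0 1, fun i hi => ?_⟩
    have h1 := hi0 i ((le_max_left _ _).trans hi)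
    have hi1 : 1 ≤ i := (le_max_right _ _).trans hi
    have hi0' : (0 : ℝ) < i := by exact_mod_cast hi1
    have hl2 : 0 < Real.log 2 := Real.log_pos (by norm_num)
    have hl2' : Real.log 2 < 0.6931471808 := Real.log_two_lt_d9
    have hsum : ((PB i 5).card : ℝ) * (1 / 2 ^ (i + 1)) ≤ ∑ p ∈ PB i 5, (1 : ℝ) / p := by
      rw [← nsmul_eq_mul, ← Finset.sum_const]
      refine Finset.sum_le_sum fun p hp => ?_
      have hp' := mem_Ioc.1 (mem_filter.1 hp).1
      have hp0 : 0 < p := by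
        have := hp'.1
        have : 0 < 2 ^ i := by positivity
        omega
      apply one_div_le_one_div_of_le (by exact_mod_cast hp0)
      exact_mod_cast hp'.2
    refine le_trans ?_ hsum
    have h2 : 0.99 * (2 : ℝ) ^ i / (4 * i * Real.log 2) * (1 / 2 ^ (i + 1)) ≤
        ((PB i 5).card : ℝ) * (1 / 2 ^ (i + 1)) :=
      mul_le_mul_of_nonneg_right h1 (by positivity)
    refine le_trans ?_ h2
    have e : 0.99 * (2 : ℝ) ^ i / (4 * i * Real.log 2) * (1 / 2 ^ (i + 1)) =
        0.99 / (8 * i * Real.log 2) := by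
      rw [pow_succ]
      field_simp
      norm_num
    rw [e, div_le_div_iff₀ (by positivity) (by positivity)]
    nlinarith
  · have hb := pi_tend.bddAbove_range
    obtain ⟨C, hC⟩ := hb
    refine ⟨max C 1, by positivity, fun x hx => ?_⟩
    have h1 := hC ⟨x, rfl⟩
    simp only at h1
    have hx0 : (0 : ℝ) < x := by exact_mod_cast (by omega : 0 < x)
    have hL : 0 < Real.log (x : ℝ) := Real.log_pos (by exact_mod_cast (by omega : 1 < x))
    rw [div_le_iff₀ hx0] at h1
    rw [le_div_iff₀ hL]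
    have h2 : C * x ≤ max C 1 * x := mul_le_mul_of_nonneg_right (le_max_left _ _) hx0.le
    exact h1.trans h2

end Pool.Agent.H307R2.OP
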