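import Pool.Agent.H307R2.OP.DefsC

set_option autoImplicit false

/-!
# Task QR: quadratic residues and the forms `δ s² + 4^r u²`
-/

namespace Pool.Agent.H307R2.OP

open Finset

namespace QRAux

/-- quadratic reciprocity in the form that is used -/
theorem legendre_neg (δ q : ℕ) (hδ : δ % 24 = 23) (hq : q.Prime) (h5 : 5 ≤ q) :
    haveI := Fact.mk hq
    legendreSym q (-(δ : ℤ)) = jacobiSym (q : ℤ) δ := by
  haveI := Fact.mk hq
  have hδ4 : δ % 4 = 3 := by omega
  have hδo : Odd δ := Nat.odd_iff.mpr (by omega)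
  have hqo : Odd q := hq.odd_of_ne_two (by omega)
  rw [jacobiSym.legendreSym.to_jacobiSym, jacobiSym.neg _ hqo]
  have hq4 : q % 4 = 1 ∨ q % 4 = 3 := by
    have := Nat.odd_iff.mp hqo
    omega
  rcases hq4 with h | h
  · rw [ZMod.χ₄_nat_one_mod_four h, one_mul]
    exact (jacobiSym.quadratic_reciprocity_one_mod_four h hδo).symm
  · rw [ZMod.χ₄_nat_three_mod_four h]
    rw [jacobiSym.quadratic_reciprocity_three_mod_four h hδ4]
    ring

theorem not_dvd_two_pow {q : ℕ} (hq : q.Prime) (h5 : 5 ≤ q) (r : ℕ) : ¬ q ∣ 4 ^ r := by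
  intro h
  have h1 : q ∣ 4 := hq.dvd_of_dvd_pow h
  have := Nat.le_of_dvd (by norm_num) h1
  omega

theorem om_zero (r δ s q : ℕ) (hq : q.Prime) (h5 : 5 ≤ q) (hs : q ∣ s) :
    Om r δ s q = {0} := by
  ext u
  simp only [Om, mem_filter, mem_range, mem_singleton]
  constructor
  · rintro ⟨hu, hd⟩
    have h1 : q ∣ δ * s ^ 2 := (dvd_pow hs two_ne_zero).mul_left δ
    have h2 : q ∣ 4 ^ r * u ^ 2 := (Nat.dvd_add_right h1).mp hd
    rcases hq.dvd_mul.mp h2 with h | h
    · exact absurd h (not_dvd_two_pow hq h5 r)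
    · have h3 : q ∣ u := hq.dvd_of_dvd_pow h
      by_contra hne
      have := Nat.le_of_dvd (Nat.pos_of_ne_zero hne) h3
      omega
  · rintro rfl
    refine ⟨hq.pos, ?_⟩
    simpa using (dvd_pow hs two_ne_zero).mul_left δ

theorem om_card (r δ s q : ℕ) (hδ : δ % 24 = 23) (hq : q.Prime) (h5 : 5 ≤ q) (hs : ¬ q ∣ s) :
    (((Om r δ s q).card : ℤ)) = 1 + jacobiSym (q : ℤ) δ := by
  haveI := Fact.mk hq
  have h1 := legendreSym.card_sqrts q (by omega : q ≠ 2) (-(δ : ℤ))
  rw [legendre_neg δ q hδ hq h5] at h1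
  rw [add_comm, ← h1]
  have hs0 : (s : ZMod q) ≠ 0 := by
    rw [Ne, ZMod.natCast_eq_zero_iff]; exact hs
  have h20 : (2 : ZMod q) ≠ 0 := by
    intro h
    have : ((2 : ℕ) : ZMod q) = 0 := by exact_mod_cast h
    rw [ZMod.natCast_eq_zero_iff] at this
    have := Nat.le_of_dvd (by norm_num) this
    omega
  have h2r : (2 : ZMod q) ^ r ≠ 0 := pow_ne_zero _ h20
  have h4r : (4 : ZMod q) ^ r = ((2 : ZMod q) ^ r) ^ 2 := by
    rw [← pow_mul, mul_comm, pow_mul]; norm_num
  have hmem : ∀ u : ℕ, (q ∣ δ * s ^ 2 + 4 ^ r * u ^ 2) ↔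
      ((δ : ZMod q) * s ^ 2 + 4 ^ r * u ^ 2 = 0) := by
    intro u
    rw [← ZMod.natCast_eq_zero_iff]
    push_cast
    rfl
  congr 1
  refine Finset.card_bij (fun u _ => (2 : ZMod q) ^ r * u * (s : ZMod q)⁻¹) ?_ ?_ ?_
  · intro u hu
    simp only [Om, mem_filter, mem_range] at hu
    have h := (hmem u).mp hu.2
    simp only [Set.mem_toFinset, Set.mem_ofPred_eq]
    have h' : 4 ^ r * (u : ZMod q) ^ 2 = -((δ : ZMod q) * s ^ 2) := by
      linear_combination h
    push_cast
    rw [mul_pow, mul_pow, ← h4r, h']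
    field_simp
  · intro u hu v hv huv
    simp only [Om, mem_filter, mem_range] at hu hv
    have h : (u : ZMod q) = v := by
      have h2 := mul_right_cancel₀ (inv_ne_zero hs0) huv
      exact mul_left_cancel₀ h2r h2
    rw [ZMod.natCast_eq_natCast_iff'] at h
    rwa [Nat.mod_eq_of_lt hu.1, Nat.mod_eq_of_lt hv.1] at h
  · intro x hx
    simp only [Set.mem_toFinset, Set.mem_ofPred_eq] at hx
    refine ⟨(x * s * ((2 : ZMod q) ^ r)⁻¹).val, ?_, ?_⟩
    · simp only [Om, mem_filter, mem_range]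
      refine ⟨ZMod.val_lt _, (hmem _).mpr ?_⟩
      rw [ZMod.natCast_val, ZMod.cast_id', id]
      rw [mul_pow, mul_pow, hx, h4r]
      push_cast
      field_simp
      ring
    · rw [ZMod.natCast_val, ZMod.cast_id', id]
      field_simp

end QRAux

theorem qr : QRStmt where
  val := by
    intro q δ
    rcases jacobiSym.trichotomy (q : ℤ) δ with h | h | h
    · right; left; simp [J, h]
    · right; right; simp [J, h]
    · left; simp [J, h]
  kill := by
    rintro r δ N q ⟨hδ, -⟩ hq h5 hJ hN hN2 ⟨s, u, hsu⟩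
    have hJ' : jacobiSym (q : ℤ) δ = -1 := by
      unfold J at hJ
      exact_mod_cast hJ
    by_cases hs : q ∣ s
    · have h1 : q ∣ δ * s ^ 2 := (dvd_pow hs two_ne_zero).mul_left δ
      have h0 : q ∣ δ * s ^ 2 + 4 ^ r * u ^ 2 := hsu ▸ (hN.mul_left 3)
      have h2 : q ∣ 4 ^ r * u ^ 2 := (Nat.dvd_add_right h1).mp h0
      have h3 : q ∣ u := by
        rcases hq.dvd_mul.mp h2 with h | h
        · exact absurd h (QRAux.not_dvd_two_pow hq h5 r)
        · exact hq.dvd_of_dvd_pow h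
      have h4 : q ^ 2 ∣ 3 * N := by
        rw [hsu]
        exact dvd_add ((pow_dvd_pow_of_dvd hs 2).mul_left δ)
          ((pow_dvd_pow_of_dvd h3 2).mul_left _)
      have hc : Nat.Coprime (q ^ 2) 3 := by
        apply Nat.Coprime.pow_left
        rw [Nat.coprime_primes hq Nat.prime_three]
        omega
      exact hN2 (hc.dvd_of_dvd_mul_left h4)
    · have hc := QRAux.om_card r δ s q hδ hq h5 hs
      rw [hJ'] at hc
      have hc0 : (Om r δ s q).card = 0 := by
        have : ((Om r δ s q).card : ℤ) = 0 := by rw [hc]; norm_num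
        exact_mod_cast this
      have hmem : u % q ∈ Om r δ s q := by
        simp only [Om, mem_filter, mem_range]
        refine ⟨Nat.mod_lt _ hq.pos, ?_⟩
        have h0 : q ∣ δ * s ^ 2 + 4 ^ r * u ^ 2 := hsu ▸ (hN.mul_left 3)
        have h1 : (δ * s ^ 2 + 4 ^ r * (u % q) ^ 2) ≡ (δ * s ^ 2 + 4 ^ r * u ^ 2) [MOD q] :=
          Nat.ModEq.add_left _ (Nat.ModEq.mul_left _ ((Nat.mod_modEq u q).pow 2))
        exact (h1.dvd_iff dvd_rfl).mpr h0
      rw [Finset.card_eq_zero] at hc0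
      rw [hc0] at hmem
      exact absurd hmem (Finset.notMem_empty _)
  om_card := by
    rintro r δ s q ⟨hδ, -⟩ hq h5 hs
    have h := QRAux.om_card r δ s q hδ hq h5 hs
    unfold J
    exact_mod_cast h
  om_zero := by
    rintro r δ s q - hq h5 hs
    exact QRAux.om_zero r δ s q hq h5 hs

end Pool.Agent.H307R2.OP
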