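import Pool.Agent.H307R2.OP.DefsC

set_option autoImplicit false

/-!
# Odd values of the partition function: choice of the killing primes
-/

namespace Pool.Agent.H307R2.OP

open Finset

theorem rch_pow (C c m n y : ℕ) (hy : c * C ≤ y) (hy1 : 1 ≤ y) (hmn : m + 1 ≤ n) :
    c * C * y ^ m ≤ y ^ n := by
  calc c * C * y ^ m ≤ y * y ^ m := Nat.mul_le_mul_right _ hy
    _ = y ^ (m + 1) := by rw [pow_succ]; ring
    _ ≤ y ^ n := Nat.pow_le_pow_right hy1 hmn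

open Classical in
/-- choice of the killing primes -/
theorem rChoice (h1 : StrongStmt) (h2 : KillPrime) : RChoice := by
  obtain ⟨C1, hC1⟩ := h1
  obtain ⟨C2, hC2⟩ := h2
  intro M hM
  refine ⟨1 + C1 + 8 * C1 + 288 * C2, ?_⟩
  intro y hy I hI1 hI2
  have hy1 : 1 ≤ y := by omega
  set Δ : ℕ := 2 ^ (8 * y ^ (2 * M - 1)) with hΔ
  set i : ℕ := kap M y 0 with hi
  have hi' : i = y ^ (2 * M + 2) := by
    rw [hi]; unfold kap; simp
  have hCi : C1 ≤ i := by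
    rw [hi']
    calc C1 ≤ y := by omega
      _ = y ^ 1 := (pow_one y).symm
      _ ≤ y ^ (2 * M + 2) := Nat.pow_le_pow_right hy1 (by omega)
  have hΔC : Δ ^ C1 ≤ 2 ^ i := by
    rw [hΔ, ← pow_mul]
    apply Nat.pow_le_pow_right (by norm_num)
    rw [hi']
    have := rch_pow C1 8 (2 * M - 1) (2 * M + 2) y (by omega) hy1 (by omega)
    calc 8 * y ^ (2 * M - 1) * C1 = 8 * C1 * y ^ (2 * M - 1) := by ring
      _ ≤ _ := this
  -- the strong kernels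
  set SB : Finset ℕ := (range (Δ + 1)).filter (fun δ => Adm δ ∧ StrongAt i δ) with hSB
  have hSBcard : SB.card ≤ 2 := by
    by_contra hcon
    push Not at hcon
    obtain ⟨a, ha, b, hb, c, hc, hab, hac, hbc⟩ := Finset.two_lt_card.mp hcon
    rw [hSB, Finset.mem_filter, Finset.mem_range] at ha hb hc
    exact hC1 i Δ a b c hCi hΔC ha.2.1 hb.2.1 hc.2.1 (by omega) (by omega) (by omega) hab hac hbc
      ha.2.2 hb.2.2 hc.2.2
  have hch : ∀ δ : ℕ, ∃ q : ℕ, Adm δ → (q.Prime ∧ 5 ≤ q ∧ (q % 8 = 3 ∨ q % 8 = 5) ∧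
      J q δ = -1 ∧ q ≤ C2 * δ ^ C2) := by
    intro δ
    by_cases h : Adm δ
    · obtain ⟨q, hq⟩ := hC2 δ h
      exact ⟨q, fun _ => hq⟩
    · exact ⟨0, fun h' => absurd h' h⟩
  choose qf hqf using hch
  set R : Finset ℕ := SB.image qf with hR
  have hRcard : R.card ≤ 2 := Finset.card_image_le.trans hSBcard
  have hRmem : ∀ q ∈ R, ∃ δ : ℕ, Adm δ ∧ δ ≤ Δ ∧ qf δ = q := by
    intro q hq
    rw [hR, Finset.mem_image] at hq
    obtain ⟨δ, hδ, hq⟩ := hq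
    rw [hSB, Finset.mem_filter, Finset.mem_range] at hδ
    exact ⟨δ, hδ.2.1, by omega, hq⟩
  have hRpr : ∀ q ∈ R, q.Prime ∧ 5 ≤ q ∧ (q % 8 = 3 ∨ q % 8 = 5) := by
    intro q hq
    obtain ⟨δ, hδ, _, rfl⟩ := hRmem q hq
    obtain ⟨h3, h4, h5, _⟩ := hqf δ hδ
    exact ⟨h3, h4, h5⟩
  have hRle : ∀ q ∈ R, q ≤ 2 ^ (9 * C2 * y ^ (2 * M - 1)) := by
    intro q hq
    obtain ⟨δ, hδ, hδle, rfl⟩ := hRmem q hq
    obtain ⟨_, _, _, _, h5⟩ := hqf δ hδ
    have hyp : 1 ≤ y ^ (2 * M - 1) := Nat.one_le_pow _ _ hy1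
    calc qf δ ≤ C2 * δ ^ C2 := h5
      _ ≤ 2 ^ C2 * Δ ^ C2 :=
        Nat.mul_le_mul (Nat.lt_two_pow_self).le (Nat.pow_le_pow_left hδle C2)
      _ = 2 ^ (C2 + 8 * y ^ (2 * M - 1) * C2) := by rw [hΔ, ← pow_mul, ← pow_add]
      _ ≤ 2 ^ (9 * C2 * y ^ (2 * M - 1)) := by
        apply Nat.pow_le_pow_right (by norm_num)
        nlinarith [Nat.mul_le_mul_left C2 hyp]
  have hRprod : ∏ q ∈ R, q ≤ 2 ^ (I / 16) := by
    have h3 : ∏ q ∈ R, q ≤ (2 ^ (9 * C2 * y ^ (2 * M - 1))) ^ R.card :=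
      Finset.prod_le_pow_card R (fun q => q) _ hRle
    refine h3.trans ?_
    calc (2 ^ (9 * C2 * y ^ (2 * M - 1))) ^ R.card ≤ (2 ^ (9 * C2 * y ^ (2 * M - 1))) ^ 2 :=
          Nat.pow_le_pow_right (by positivity) hRcard
      _ = 2 ^ (9 * C2 * y ^ (2 * M - 1) * 2) := by rw [← pow_mul]
      _ ≤ 2 ^ (I / 16) := by
        apply Nat.pow_le_pow_right (by norm_num)
        rw [Nat.le_div_iff_mul_le (by norm_num)]
        have := rch_pow C2 288 (2 * M - 1) (2 * M + 4) y (by omega) hy1 (by omega)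
        calc 9 * C2 * y ^ (2 * M - 1) * 2 * 16 = 288 * C2 * y ^ (2 * M - 1) := by ring
          _ ≤ y ^ (2 * M + 4) := this
          _ ≤ I := hI1
  have hkills : ∀ δ : ℕ, Adm δ → δ ≤ 2 ^ (8 * y ^ (2 * M - 1)) → StrongAt (kap M y 0) δ →
      ∃ q ∈ R, J q δ = -1 := by
    intro δ hδ hle hst
    refine ⟨qf δ, ?_, ?_⟩
    · rw [hR, Finset.mem_image]
      refine ⟨δ, ?_, rfl⟩
      rw [hSB, Finset.mem_filter, Finset.mem_range]
      exact ⟨Nat.lt_succ_of_le hle, hδ, hst⟩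
    · exact (hqf δ hδ).2.2.2.1
  have hfc : (R.filter (fun q => q % 8 = 3)).card ≤ 2 :=
    (Finset.card_filter_le _ _).trans hRcard
  by_cases ha : (R.filter (fun q => q % 8 = 3)).card = 1
  · refine ⟨R, 3, hRcard, hRpr, hRprod, Or.inl rfl, ?_, hkills⟩
    right
    rw [ha]; norm_num
  · refine ⟨R, 5, hRcard, hRpr, hRprod, Or.inr rfl, ?_, hkills⟩
    have : (if (5 : ℕ) = 3 then 1 else 0) = 0 := by norm_num
    rw [this]
    omega

end Pool.Agent.H307R2.OP
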