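import Pool.Agent.H307R2.OP.DefsC

/-!
# Odd values of the partition function: a strongly biased kernel is bad (task B-SB, helper503)
-/

set_option autoImplicit false

namespace Pool.Agent.H307R2.OP

open Finset

namespace SBaux

lemma J_tri (p δ : ℕ) : J p δ = 0 ∨ J p δ = 1 ∨ J p δ = -1 := by
  unfold J
  rcases jacobiSym.trichotomy (p : ℤ) δ with h | h | h
  · left; rw [h]; norm_num
  · right; left; rw [h]; norm_num
  · right; right; rw [h]; norm_num

lemma dvd_of_J (p δ : ℕ) (hp : p.Prime) (hδ : 1 ≤ δ) (h : J p δ = 0) : p ∣ δ := by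
  have : NeZero δ := ⟨by omega⟩
  have h0 : jacobiSym (p : ℤ) δ = 0 := by
    unfold J at h
    exact_mod_cast h
  have h1 := jacobiSym.eq_zero_iff_not_coprime.1 h0
  by_contra hnd
  apply h1
  rw [Int.gcd_natCast_natCast]
  exact (Nat.Prime.coprime_iff_not_dvd hp).2 hnd

lemma card_Z (I i δ : ℕ) (hδ : 1 ≤ δ) (hδI : δ ≤ 2 ^ I) :
    ((PB i 5).filter (fun p => J p δ = 0)).card ≤ I := by
  set Z := (PB i 5).filter (fun p => J p δ = 0) with hZ
  have hprime : ∀ p ∈ Z, p.Prime := fun p hp =>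
    (mem_filter.1 (mem_filter.1 hp).1).2.1
  have hdvd : ∏ p ∈ Z, p ∣ δ := by
    apply Finset.prod_primes_dvd
    · intro p hp
      exact (hprime p hp).prime
    · intro p hp
      exact dvd_of_J p δ (hprime p hp) hδ (mem_filter.1 hp).2
  have h1 : 2 ^ Z.card ≤ ∏ p ∈ Z, p := by
    rw [← Finset.prod_const]
    exact Finset.prod_le_prod' fun p hp => (hprime p hp).two_le
  have h2 : 2 ^ Z.card ≤ 2 ^ I := h1.trans ((Nat.le_of_dvd (by omega) hdvd).trans hδI)
  exact (Nat.pow_le_pow_iff_right (by norm_num)).1 h2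

lemma small (i : ℕ) (hi : 100 ≤ i) : ((2 ^ (i / 4) : ℕ) : ℝ) / 2 ^ i ≤ 1 / (i : ℝ) ^ 2 := by
  have hi0 : (0 : ℝ) < i := by exact_mod_cast (by omega : 0 < i)
  rw [div_le_div_iff₀ (by positivity) (by positivity), one_mul]
  set n := i / 4 with hn
  have h4 : 4 * n ≤ i := by omega
  have hin : i < 4 * (n + 1) := by omega
  have hn4 : 4 ≤ n := by omega
  have h1 : n + 1 ≤ 2 ^ n := Nat.lt_two_pow_self
  have h2 : 16 ≤ 2 ^ n := by
    calc 16 = 2 ^ 4 := by norm_num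
      _ ≤ 2 ^ n := Nat.pow_le_pow_right (by norm_num) hn4
  have h3 : i ^ 2 ≤ 16 * (n + 1) ^ 2 := by nlinarith
  have h5 : 16 * (n + 1) ^ 2 ≤ 2 ^ n * (2 ^ n) ^ 2 := Nat.mul_le_mul h2 (Nat.pow_le_pow_left h1 2)
  have h6 : 2 ^ n * i ^ 2 ≤ 2 ^ i := by
    calc 2 ^ n * i ^ 2 ≤ 2 ^ n * (2 ^ n * (2 ^ n) ^ 2) := Nat.mul_le_mul_left _ (h3.trans h5)
      _ = 2 ^ (4 * n) := by ring
      _ ≤ 2 ^ i := Nat.pow_le_pow_right (by norm_num) h4
  exact_mod_cast h6

end SBaux

open SBaux in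
/-- task B-SB -/
theorem strongBad (h : PCStmt) : StrongBad := by
  obtain ⟨i0, hmass⟩ := h.mass
  refine ⟨max i0 100, fun I i δ hC hiI hI hδ hδI hs => ?_⟩
  refine ⟨5, by simp, ?_⟩
  have hi100 : 100 ≤ i := (le_max_right _ _).trans hC
  have hS := hmass i ((le_max_left _ _).trans hC)
  unfold StrongAt at hs
  have hi0 : (0 : ℝ) < i := by exact_mod_cast (by omega : 0 < i)
  have hiI' : (i : ℝ) ≤ I := by exact_mod_cast hiI
  have hsum : ∑ p ∈ PB i 5, (1 : ℝ) / p - ∑ p ∈ (PB i 5).filter (fun p => J p δ = 0), (1 : ℝ) / p -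
      2 * ∑ p ∈ (PB i 5).filter (fun p => J p δ = -1), (1 : ℝ) / p ≤ ∑ p ∈ PB i 5, J p δ / p := by
    rw [Finset.sum_filter, Finset.sum_filter, Finset.mul_sum, ← Finset.sum_sub_distrib,
      ← Finset.sum_sub_distrib]
    refine Finset.sum_le_sum fun p _ => ?_
    rcases J_tri p δ with h0 | h0 | h0
    · rw [h0]; norm_num
    · rw [h0]; norm_num
    · rw [h0]
      norm_num
      apply le_of_eq
      ring
  have hZ : ∑ p ∈ (PB i 5).filter (fun p => J p δ = 0), (1 : ℝ) / p ≤ 1 / (i : ℝ) ^ 2 := by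
    calc ∑ p ∈ (PB i 5).filter (fun p => J p δ = 0), (1 : ℝ) / p
        ≤ ∑ _p ∈ (PB i 5).filter (fun p => J p δ = 0), (1 : ℝ) / 2 ^ i := by
          refine Finset.sum_le_sum fun p hp => ?_
          have hp' := (mem_Ioc.1 (mem_filter.1 (mem_filter.1 hp).1).1).1
          apply one_div_le_one_div_of_le (by positivity)
          exact_mod_cast hp'.le
      _ = (((PB i 5).filter (fun p => J p δ = 0)).card : ℝ) / 2 ^ i := by
          rw [Finset.sum_const, nsmul_eq_mul, mul_one_div]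
      _ ≤ ((2 ^ (i / 4) : ℕ) : ℝ) / 2 ^ i := by
          apply div_le_div_of_nonneg_right _ (by positivity)
          exact_mod_cast (card_Z I i δ hδ hδI).trans hI
      _ ≤ _ := small i hi100
  have hI2 : 1 / (I : ℝ) ^ 2 ≤ 1 / (i : ℝ) ^ 2 := by
    apply one_div_le_one_div_of_le (by positivity)
    exact pow_le_pow_left₀ hi0.le hiI' 2
  have h1 : 1 / (i : ℝ) ^ 2 ≤ 1 / 100 * (1 / i) := by
    have h100 : (100 : ℝ) ≤ i := by exact_mod_cast hi100
    rw [pow_two, one_div_mul_one_div]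
    exact one_div_le_one_div_of_le (by positivity) (by nlinarith)
  have h2 : (0 : ℝ) < 1 / i := by positivity
  have h3 : 1 / (6 * (i : ℝ)) = 1 / 6 * (1 / i) := by ring
  rw [h3] at hS
  refine lt_of_lt_of_le ?_ (le_abs_self _)
  linarith

end Pool.Agent.H307R2.OP
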