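import Pool.Agent.H307R2.OP.DefsC

set_option autoImplicit false

/-! Task B-STR: at most two strongly biased kernels. -/

namespace Pool.Agent.H307R2.OP

open Finset

namespace STR

/-- the Jacobi symbol as a function on the units modulo `m` -/
def chi (m D : ℕ) (u : (ZMod m)ˣ) : ℤ := jacobiSym (((u : ZMod m).val : ℕ) : ℤ) D

theorem val_mul_mod {m k : ℕ} [NeZero m] (hk : k ∣ m) (u v : (ZMod m)ˣ) :
    ((u * v : (ZMod m)ˣ) : ZMod m).val % k = ((u : ZMod m).val * (v : ZMod m).val) % k := by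
  rw [Units.val_mul, ZMod.val_mul, Nat.mod_mod_of_dvd _ hk]

theorem chi_mul {m D : ℕ} [NeZero m] (hD : D ∣ m) (u v : (ZMod m)ˣ) :
    chi m D (u * v) = chi m D u * chi m D v := by
  unfold chi
  rw [← jacobiSym.mul_left]
  apply jacobiSym.mod_left'
  have := val_mul_mod hD u v
  exact_mod_cast this

theorem exists_c {m D : ℕ} [NeZero m] (h8 : 8 ∣ m) (hD : D ∣ m) (hodd : D % 2 = 1)
    (hns : ¬ IsSquare D) : ∃ c : (ZMod m)ˣ, (c : ZMod m).val % 8 = 1 ∧ chi m D c = -1 := by
  have hm : m ≠ 0 := NeZero.ne m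
  obtain ⟨a, b, hab, hsf⟩ := Nat.sq_mul_squarefree D
  have ha1 : a ≠ 1 := by
    rintro rfl
    apply hns
    rw [← hab, mul_one]
    exact ⟨b, pow_two b⟩
  obtain ⟨l, hl, e, rfl⟩ := Nat.exists_prime_and_dvd ha1
  have hle : ¬ l ∣ e := by
    intro h
    obtain ⟨f, rfl⟩ := h
    have h1 : l * l ∣ l * (l * f) := ⟨f, by ring⟩
    have := hsf l h1
    exact hl.one_lt.ne' (Nat.isUnit_iff.1 this)
  have hlD : l ∣ D := ⟨b ^ 2 * e, by rw [← hab]; ring⟩
  have heD : e ∣ D := ⟨b ^ 2 * l, by rw [← hab]; ring⟩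
  have hbD : b ∣ D := ⟨b * (l * e), by rw [← hab]; ring⟩
  have hl2 : l ≠ 2 := by
    rintro rfl
    omega
  set v := m.factorization l with hv
  set m' := m / l ^ v with hm'
  have hmm : l ^ v * m' = m := Nat.ordProj_mul_ordCompl_eq_self m l
  have hcop : Nat.Coprime l m' := Nat.coprime_ordCompl hl hm
  have h8' : 8 ∣ m' := by
    have h1 : Nat.Coprime 8 (l ^ v) := by
      apply Nat.Coprime.pow_right
      have : Nat.Coprime 2 l := by
        rw [Nat.coprime_primes Nat.prime_two hl]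
        exact hl2.symm
      exact Nat.Coprime.pow_left 3 this
    rw [← hmm] at h8
    exact h1.dvd_of_dvd_mul_left h8
  have he' : e ∣ m' := by
    have h1 : Nat.Coprime e (l ^ v) := by
      apply Nat.Coprime.pow_right
      exact ((Nat.Prime.coprime_iff_not_dvd hl).2 hle).symm
    have h2 : e ∣ l ^ v * m' := by rw [hmm]; exact heD.trans hD
    exact h1.dvd_of_dvd_mul_left h2
  have : Fact l.Prime := ⟨hl⟩
  obtain ⟨z, hz⟩ := FiniteField.exists_nonsquare (F := ZMod l) (by
    rw [ZMod.ringChar_zmod_n]; exact hl2)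
  have hz0 : z ≠ 0 := by
    rintro rfl
    exact hz ⟨0, by simp⟩
  obtain ⟨c0, hc1, hc2⟩ := Nat.chineseRemainder hcop z.val 1
  have hcz : ((c0 : ℕ) : ZMod l) = z := by
    have := (ZMod.natCast_eq_natCast_iff _ _ _).2 hc1
    rw [this, ZMod.natCast_zmod_val]
  have hlc : ¬ l ∣ c0 := by
    intro h
    apply hz0
    rw [← hcz]
    exact (ZMod.natCast_eq_zero_iff _ _).2 h
  have hc0m : Nat.Coprime c0 m := by
    rw [← hmm]
    apply Nat.Coprime.mul_right
    · apply Nat.Coprime.pow_right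
      exact ((Nat.Prime.coprime_iff_not_dvd hl).2 hlc).symm
    · have := hc2.gcd_eq
      rw [Nat.gcd_one_left] at this
      exact this
  have hval : (((ZMod.unitOfCoprime c0 hc0m : (ZMod m)ˣ)) : ZMod m).val = c0 % m := by
    rw [ZMod.coe_unitOfCoprime, ZMod.val_natCast]
  refine ⟨ZMod.unitOfCoprime c0 hc0m, ?_, ?_⟩
  · rw [hval, Nat.mod_mod_of_dvd _ h8]
    exact (hc2.of_dvd h8')
  · unfold chi
    rw [hval]
    have h1 : jacobiSym ((c0 % m : ℕ) : ℤ) D = jacobiSym (c0 : ℤ) D := by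
      apply jacobiSym.mod_left'
      have : c0 % m % D = c0 % D := Nat.mod_mod_of_dvd _ hD
      exact_mod_cast this
    rw [h1, ← hab]
    have hb0 : b ≠ 0 := by
      rintro rfl
      simp at hab
      omega
    have he0 : e ≠ 0 := by
      rintro rfl
      simp at hab
      omega
    have : NeZero b := ⟨hb0⟩
    have : NeZero e := ⟨he0⟩
    have : NeZero l := ⟨hl.ne_zero⟩
    have h2 : (c0 : ℤ).gcd b = 1 := by
      have : Nat.Coprime c0 b := hc0m.coprime_dvd_right (hbD.trans hD)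
      exact_mod_cast this
    have h3 : jacobiSym (c0 : ℤ) l = -1 := by
      rw [← jacobiSym.legendreSym.to_jacobiSym, legendreSym.eq_neg_one_iff]
      push_cast
      rw [hcz]
      exact hz
    have h4 : jacobiSym (c0 : ℤ) e = 1 := by
      rw [← jacobiSym.one_left e]
      apply jacobiSym.mod_left'
      have : c0 % e = 1 % e := hc2.of_dvd he'
      exact_mod_cast this
    rw [pow_two, jacobiSym.mul_right, jacobiSym.mul_right, jacobiSym.mul_right, h3, h4,
      ← pow_two, jacobiSym.sq_one h2]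
    norm_num

/-- the units `≡ 5 (mod 8)` -/
def A5 (m : ℕ) [NeZero m] : Finset (ZMod m)ˣ := univ.filter (fun u => (u : ZMod m).val % 8 = 5)

theorem sum_chi {m D : ℕ} [NeZero m] (h8 : 8 ∣ m) (hD : D ∣ m) (hodd : D % 2 = 1)
    (hns : ¬ IsSquare D) : ∑ u ∈ A5 m, chi m D u = 0 := by
  obtain ⟨c, hc1, hc2⟩ := exists_c h8 hD hodd hns
  have h1 : ∑ u ∈ A5 m, chi m D u = ∑ u ∈ A5 m, chi m D (c * u) := by
    symm
    apply Finset.sum_equiv (Equiv.mulLeft c)
    · intro u
      simp only [A5, mem_filter, mem_univ, true_and, Equiv.coe_mulLeft]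
      rw [val_mul_mod h8, Nat.mul_mod, hc1, one_mul, Nat.mod_mod]
    · intro u _
      rfl
  have h2 : ∑ u ∈ A5 m, chi m D (c * u) = -∑ u ∈ A5 m, chi m D u := by
    rw [← Finset.sum_neg_distrib]
    refine Finset.sum_congr rfl fun u _ => ?_
    rw [chi_mul hD, hc2]
    ring
  rw [h2] at h1
  omega

theorem card_A5 {m : ℕ} [NeZero m] (h8 : 8 ∣ m) : 4 * (A5 m).card = Nat.totient m := by
  classical
  have hsurj := ZMod.unitsMap_surjective (n := 8) h8
  have hval : ∀ u : (ZMod m)ˣ, ((ZMod.unitsMap h8 u : (ZMod 8)ˣ) : ZMod 8).val =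
      (u : ZMod m).val % 8 := by
    intro u
    rw [ZMod.unitsMap_def, Units.coe_map]
    show (ZMod.castHom h8 (ZMod 8) (u : ZMod m)).val = _
    rw [ZMod.castHom_apply, ZMod.cast_eq_val, ZMod.val_natCast]
  have h5 : Nat.Coprime 5 8 := by norm_num
  have hA : A5 m = univ.filter (fun u => ZMod.unitsMap h8 u = ZMod.unitOfCoprime 5 h5) := by
    ext u
    simp only [A5, mem_filter, mem_univ, true_and]
    rw [Units.ext_iff, ← hval, ZMod.coe_unitOfCoprime]
    constructor
    · intro h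
      apply ZMod.val_injective
      rw [h]
      rfl
    · intro h
      rw [h]
      rfl
  have hfib : ∀ x : (ZMod 8)ˣ, (univ.filter (fun u => ZMod.unitsMap h8 u = x)).card =
      (A5 m).card := by
    intro x
    rw [hA]
    exact MonoidHom.card_fiber_eq_of_mem_range _ (hsurj x) (hsurj _)
  have hsum := Finset.card_eq_sum_card_fiberwise (s := (univ : Finset (ZMod m)ˣ))
    (t := (univ : Finset (ZMod 8)ˣ)) (f := ZMod.unitsMap h8) (fun _ _ => mem_univ _)
  rw [Finset.sum_congr rfl fun x _ => hfib x, Finset.sum_const, Finset.card_univ,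
    Finset.card_univ, ZMod.card_units_eq_totient, ZMod.card_units_eq_totient] at hsum
  have : Nat.totient 8 = 4 := by decide
  rw [this, smul_eq_mul] at hsum
  exact hsum.symm

theorem not_sq_of_mod {D : ℕ} (h : D % 8 = 7) : ¬ IsSquare D := by
  rintro ⟨k, rfl⟩
  have h1 : k % 8 < 8 := Nat.mod_lt _ (by norm_num)
  rw [Nat.mul_mod] at h
  interval_cases k % 8 <;> omega

theorem not_sq_mul {a b : ℕ} (ha : Squarefree a) (hb : Squarefree b) (hne : a ≠ b)
    (ha0 : a ≠ 0) : ¬ IsSquare (a * b) := by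
  rintro ⟨k, hk⟩
  have h1 : a ∣ k := by
    have h2 : a ∣ k ^ 2 := ⟨b, by rw [hk]; ring⟩
    exact (ha.dvd_pow_iff_dvd (by norm_num)).1 h2
  obtain ⟨t, rfl⟩ := h1
  have h2 : b = a * (t * t) := by
    have : a * b = a * (a * (t * t)) := by rw [hk]; ring
    exact Nat.eq_of_mul_eq_mul_left (Nat.pos_of_ne_zero ha0) this
  have h3 : t * t ∣ b := ⟨a, by rw [h2]; ring⟩
  have h4 := Nat.isUnit_iff.1 (hb t h3)
  apply hne
  rw [h2, h4]
  ring

theorem chi_mul_right {m a b : ℕ} (ha : a ≠ 0) (hb : b ≠ 0) (u : (ZMod m)ˣ) :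
    chi m (a * b) u = chi m a u * chi m b u := by
  have : NeZero a := ⟨ha⟩
  have : NeZero b := ⟨hb⟩
  unfold chi
  rw [jacobiSym.mul_right]

theorem neg_one_le_chi {m D : ℕ} (u : (ZMod m)ˣ) : 0 ≤ 1 + chi m D u := by
  unfold chi
  rcases jacobiSym.trichotomy (((u : ZMod m).val : ℕ) : ℤ) D with h | h | h <;> rw [h] <;> norm_num

theorem card_T {m a b c : ℕ} [NeZero m] (h8 : 8 ∣ m) (hd : a * b * c ∣ m)
    (ha : Adm a) (hb : Adm b) (hc : Adm c) (hab : a ≠ b) (hac : a ≠ c) (hbc : b ≠ c) :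
    32 * (((A5 m).filter (fun u => chi m a u = 1 ∧ chi m b u = 1 ∧ chi m c u = 1)).card) ≤
      Nat.totient m := by
  have ha0 : a ≠ 0 := by have := ha.1; omega
  have hb0 : b ≠ 0 := by have := hb.1; omega
  have hc0 : c ≠ 0 := by have := hc.1; omega
  have ha8 : a % 8 = 7 := by have := ha.1; omega
  have hb8 : b % 8 = 7 := by have := hb.1; omega
  have hc8 : c % 8 = 7 := by have := hc.1; omega
  have hmod2 : ∀ x y : ℕ, x % 8 = 7 → y % 8 = 7 → (x * y) % 8 = 1 := by
    intro x y hx hy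
    rw [Nat.mul_mod, hx, hy]
  have hab8 := hmod2 a b ha8 hb8
  have hac8 := hmod2 a c ha8 hc8
  have hbc8 := hmod2 b c hb8 hc8
  have habc8 : (a * b * c) % 8 = 7 := by
    rw [Nat.mul_mod, hab8, hc8]
  have s1 := sum_chi (m := m) (D := a) h8 (Dvd.dvd.trans ⟨b * c, by ring⟩ hd) (by omega)
    (not_sq_of_mod ha8)
  have s2 := sum_chi (m := m) (D := b) h8 (Dvd.dvd.trans ⟨a * c, by ring⟩ hd) (by omega)
    (not_sq_of_mod hb8)
  have s3 := sum_chi (m := m) (D := c) h8 (Dvd.dvd.trans ⟨a * b, by ring⟩ hd) (by omega)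
    (not_sq_of_mod hc8)
  have s4 := sum_chi (m := m) (D := a * b) h8 (Dvd.dvd.trans ⟨c, by ring⟩ hd) (by omega)
    (not_sq_mul ha.2 hb.2 hab ha0)
  have s5 := sum_chi (m := m) (D := a * c) h8 (Dvd.dvd.trans ⟨b, by ring⟩ hd) (by omega)
    (not_sq_mul ha.2 hc.2 hac ha0)
  have s6 := sum_chi (m := m) (D := b * c) h8 (Dvd.dvd.trans ⟨a, by ring⟩ hd) (by omega)
    (not_sq_mul hb.2 hc.2 hbc hb0)
  have s7 := sum_chi (m := m) (D := a * b * c) h8 hd (by omega) (not_sq_of_mod habc8)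
  have key : ∑ u ∈ A5 m, (1 + chi m a u) * (1 + chi m b u) * (1 + chi m c u) =
      ((A5 m).card : ℤ) := by
    have e1 : ∀ u ∈ A5 m, (1 + chi m a u) * (1 + chi m b u) * (1 + chi m c u) =
        1 + (chi m a u + (chi m b u + (chi m c u + (chi m (a * b) u + (chi m (a * c) u +
          (chi m (b * c) u + chi m (a * b * c) u)))))) := by
      intro u _
      rw [chi_mul_right (mul_ne_zero ha0 hb0) hc0, chi_mul_right ha0 hb0, chi_mul_right ha0 hc0,
        chi_mul_right hb0 hc0]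
      ring
    rw [Finset.sum_congr rfl e1]
    simp only [Finset.sum_add_distrib]
    rw [s1, s2, s3, s4, s5, s6, s7]
    simp
  have h1 : (8 * (((A5 m).filter (fun u => chi m a u = 1 ∧ chi m b u = 1 ∧
      chi m c u = 1)).card) : ℤ) ≤ ((A5 m).card : ℤ) := by
    rw [← key]
    calc (8 * (((A5 m).filter (fun u => chi m a u = 1 ∧ chi m b u = 1 ∧
          chi m c u = 1)).card) : ℤ)
        = ∑ u ∈ (A5 m).filter (fun u => chi m a u = 1 ∧ chi m b u = 1 ∧ chi m c u = 1),
            (1 + chi m a u) * (1 + chi m b u) * (1 + chi m c u) := by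
          rw [Finset.sum_congr rfl (g := fun _ => (8 : ℤ))]
          · rw [Finset.sum_const, nsmul_eq_mul]
            ring
          · intro u hu
            obtain ⟨-, h1, h2, h3⟩ := mem_filter.1 hu
            rw [h1, h2, h3]
            norm_num
      _ ≤ _ := by
          apply Finset.sum_le_sum_of_subset_of_nonneg (filter_subset _ _)
          intro u _ _
          have h1 := neg_one_le_chi (m := m) (D := a) u
          have h2 := neg_one_le_chi (m := m) (D := b) u
          have h3 := neg_one_le_chi (m := m) (D := c) u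
          positivity
  have h2 := card_A5 (m := m) h8
  have h3 : 8 * (((A5 m).filter (fun u => chi m a u = 1 ∧ chi m b u = 1 ∧
      chi m c u = 1)).card) ≤ (A5 m).card := by exact_mod_cast h1
  omega

/-- primes in a residue class, dyadic interval -/
theorem class_count {N0 : ℕ} (hBT : ∀ a q N : ℕ, 1 ≤ q → N0 ≤ N →
    (((range N).filter (fun k => (a + k * q).Prime)).card : ℝ) ≤
      9 / 2 * ((q : ℝ) / Nat.totient q) * (N / Real.log N)) {m X : ℕ} [NeZero m]
    (hN : N0 ≤ X / m + 1) (u : ZMod m) :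
    (((Ioc X (2 * X)).filter (fun q : ℕ => q.Prime ∧ (q : ZMod m) = u)).card : ℝ) ≤
      9 / 2 * ((m : ℝ) / Nat.totient m) * (((X / m + 1 : ℕ) : ℝ) / Real.log (X / m + 1 : ℕ)) := by
  have hm : 0 < m := Nat.pos_of_ne_zero (NeZero.ne m)
  set r := (u - ((X + 1 : ℕ) : ZMod m)).val with hr
  have hrm : r < m := ZMod.val_lt _
  refine le_trans ?_ (hBT (X + 1 + r) m (X / m + 1) hm hN)
  norm_cast
  have key : ∀ q ∈ (Ioc X (2 * X)).filter (fun q : ℕ => q.Prime ∧ (q : ZMod m) = u),
      q = X + 1 + r + (q - (X + 1)) / m * m ∧ (q - (X + 1)) / m < X / m + 1 ∧ q.Prime := by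
    intro q hq
    obtain ⟨h1, h2, h3⟩ := mem_filter.1 hq
    rw [mem_Ioc] at h1
    have h4 : ((q - (X + 1) : ℕ) : ZMod m) = (r : ZMod m) := by
      rw [hr, ZMod.natCast_zmod_val, Nat.cast_sub (by omega), h3]
    have h5 : (q - (X + 1)) % m = r := by
      have := (ZMod.natCast_eq_natCast_iff' _ _ _).1 h4
      rw [this, Nat.mod_eq_of_lt hrm]
    have h6 := Nat.mod_add_div (q - (X + 1)) m
    rw [h5] at h6
    refine ⟨?_, ?_, h2⟩
    · have : (q - (X + 1)) / m * m = m * ((q - (X + 1)) / m) := mul_comm _ _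
      omega
    · have : (q - (X + 1)) / m ≤ X / m := Nat.div_le_div_right (by omega)
      omega
  apply Finset.card_le_card_of_injOn (fun q => (q - (X + 1)) / m)
  · intro q hq
    obtain ⟨h1, h2, h3⟩ := key q hq
    rw [Finset.mem_coe, mem_filter, mem_range]
    refine ⟨h2, ?_⟩
    rw [← h1]
    exact h3
  · intro q hq q' hq' h
    have h1 := (key q hq).1
    have h2 := (key q' hq').1
    simp only at h
    rw [h1, h2, h]

theorem card_biased {i δ : ℕ} (h : StrongAt i δ) :
    20 * (((PB i 5).filter (fun p => J p δ = -1)).card : ℝ) ≤ ((PB i 5).card : ℝ) := by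
  have hX : (0 : ℝ) < 2 ^ i := by positivity
  have h1 : (((PB i 5).filter (fun p => J p δ = -1)).card : ℝ) * (1 / (2 * 2 ^ i)) ≤
      ∑ p ∈ (PB i 5).filter (fun p => J p δ = -1), (1 : ℝ) / p := by
    rw [← nsmul_eq_mul, ← Finset.sum_const]
    apply Finset.sum_le_sum
    intro p hp
    have h2 := (mem_filter.1 (mem_filter.1 hp).1).1
    rw [mem_Ioc] at h2
    have h3 : (p : ℝ) ≤ 2 * 2 ^ i := by
      have : (p : ℝ) ≤ ((2 ^ (i + 1) : ℕ) : ℝ) := by exact_mod_cast h2.2
      rw [pow_succ] at this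
      push_cast at this
      linarith
    have h4 : (0 : ℝ) < p := by
      have : 0 < p := lt_of_le_of_lt (Nat.zero_le _) h2.1
      exact_mod_cast this
    exact one_div_le_one_div_of_le h4 h3
  have h2 : ∑ p ∈ PB i 5, (1 : ℝ) / p ≤ ((PB i 5).card : ℝ) * (1 / 2 ^ i) := by
    rw [← nsmul_eq_mul, ← Finset.sum_const]
    apply Finset.sum_le_sum
    intro p hp
    have h2 := (mem_filter.1 hp).1
    rw [mem_Ioc] at h2
    have h3 : (2 : ℝ) ^ i ≤ p := by
      have : ((2 ^ i : ℕ) : ℝ) ≤ p := by exact_mod_cast h2.1.le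
      push_cast at this
      exact this
    exact one_div_le_one_div_of_le hX h3
  unfold StrongAt at h
  have h3 : (((PB i 5).filter (fun p => J p δ = -1)).card : ℝ) * (1 / (2 * 2 ^ i)) ≤
      1 / 40 * (((PB i 5).card : ℝ) * (1 / 2 ^ i)) := by linarith
  have h4 : (((PB i 5).filter (fun p => J p δ = -1)).card : ℝ) * (1 / (2 * 2 ^ i)) =
      ((((PB i 5).filter (fun p => J p δ = -1)).card : ℝ) / 2) * (1 / 2 ^ i) := by
    field_simp
  have h5 : 1 / 40 * (((PB i 5).card : ℝ) * (1 / 2 ^ i)) =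
      (((PB i 5).card : ℝ) / 40) * (1 / 2 ^ i) := by ring
  rw [h4, h5] at h3
  have h6 := le_of_mul_le_mul_right h3 (by positivity)
  linarith

theorem J_eq {i Δ δ p : ℕ} (hΔ : Δ ≤ 2 ^ i) (hδ : δ ≤ Δ) (hA : Adm δ) (hp : p ∈ PB i 5) :
    Nat.Coprime p δ ∧ (J p δ = 1 ∨ J p δ = -1) := by
  have h1 := (mem_filter.1 hp)
  have h2 := mem_Ioc.1 h1.1
  have hδ0 : 0 < δ := by have := hA.1; omega
  have hcop : Nat.Coprime p δ := by
    rw [Nat.Prime.coprime_iff_not_dvd h1.2.1]
    intro h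
    have := Nat.le_of_dvd hδ0 h
    omega
  refine ⟨hcop, ?_⟩
  have h3 : (p : ℤ).gcd δ = 1 := by exact_mod_cast hcop
  unfold J
  rcases jacobiSym.eq_one_or_neg_one h3 with h | h <;> rw [h] <;> norm_num

theorem log_facts {m i : ℕ} (hm : 1 ≤ m) (hi : 3000 ≤ i) (h : m ^ 500 ≤ 2 ^ i) :
    Real.log m ≤ i * Real.log 2 / 500 ∧ 1000 * m ≤ 2 ^ i := by
  have hm' : (0 : ℝ) < m := by exact_mod_cast hm
  have h1 : Real.log m ≤ i * Real.log 2 / 500 := by
    have h2 : Real.log ((m : ℝ) ^ 500) ≤ Real.log ((2 : ℝ) ^ i) := by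
      apply Real.log_le_log (by positivity)
      exact_mod_cast h
    rw [Real.log_pow, Real.log_pow] at h2
    push_cast at h2
    linarith
  refine ⟨h1, ?_⟩
  by_contra hcon
  have h3 : 2 ^ i < 1024 * m := by omega
  have h4 : (2 ^ i) ^ 500 < (1024 * m) ^ 500 := Nat.pow_lt_pow_left h3 (by norm_num)
  have h5 : (1024 * m) ^ 500 ≤ 2 ^ (5000 + i) := by
    rw [mul_pow, pow_add]
    have : (1024 : ℕ) ^ 500 = 2 ^ 5000 := by
      rw [show (1024 : ℕ) = 2 ^ 10 by norm_num, ← pow_mul]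
    rw [this]
    exact Nat.mul_le_mul_left _ h
  have h6 : (2 ^ i) ^ 500 < 2 ^ (5000 + i) := lt_of_lt_of_le h4 h5
  rw [← pow_mul] at h6
  have h7 := (Nat.pow_lt_pow_iff_right (by norm_num : 1 < 2)).1 h6
  omega

theorem num_end {P' P T φ m N X K lN : ℝ} (hK : 0 < K) (hX : 0 < X) (hm : 0 < m) (hN : 0 < N)
    (hφ : 0 < φ) (hT : T ≤ φ / 32) (hup : P' ≤ T * (9 / 2 * (m / φ) * (N / lN)))
    (hlN : 0.998 * K ≤ lN) (hmN : m * N ≤ X + m) (hmX : m ≤ X / 1000) (hlow : 0.85 * P ≤ P')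
    (hbl : 0.2475 * (X / K) ≤ P) : False := by
  have hlNpos : 0 < lN := lt_of_lt_of_le (by positivity) hlN
  have hup2 : P' ≤ 9 / 64 * (m * N) / lN := by
    refine hup.trans ?_
    calc T * (9 / 2 * (m / φ) * (N / lN))
        ≤ (φ / 32) * (9 / 2 * (m / φ) * (N / lN)) :=
          mul_le_mul_of_nonneg_right hT (by positivity)
      _ = 9 / 64 * (m * N) / lN := by
          field_simp
          ring
  have hup3 : P' ≤ 9 / 64 * (1.001 * X) / (0.998 * K) := by
    refine hup2.trans ?_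
    apply div_le_div₀ (by positivity) ?_ (by positivity) hlN
    have : m * N ≤ 1.001 * X := by linarith
    linarith
  have hup4 : 9 / 64 * (1.001 * X) / (0.998 * K) ≤ 0.15 * (X / K) := by
    rw [div_le_iff₀ (by positivity)]
    have : 0.15 * (X / K) * (0.998 * K) = 0.1497 * X := by
      field_simp
      norm_num
    rw [this]
    linarith
  have hpos : 0 < X / K := by positivity
  have : 0.85 * (0.2475 * (X / K)) ≤ 0.15 * (X / K) := by linarith
  linarith

end STR

open STR in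
/-- task B-STR -/
theorem strong (h1 : BT4) (h2 : PCStmt) : StrongStmt := by
  classical
  obtain ⟨N0, hBT⟩ := h1
  obtain ⟨i0, hblock⟩ := h2.block
  refine ⟨3000 + i0 + 4 * N0, ?_⟩
  intro i Δ a b c hi hΔ ha hb hc haΔ hbΔ hcΔ hab hac hbc sa sb sc
  have ha0 : 0 < a := by have := ha.1; omega
  have hb0 : 0 < b := by have := hb.1; omega
  have hc0 : 0 < c := by have := hc.1; omega
  have hΔ1 : 1 ≤ Δ := le_trans ha0 haΔ
  have hΔX : Δ ≤ 2 ^ i := le_trans (Nat.le_self_pow (by omega) Δ) hΔ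
  set X := 2 ^ i with hX
  have hX1 : 1 ≤ X := Nat.one_le_two_pow
  set m := 8 * (a * b * c) with hm
  have hm0 : m ≠ 0 := by positivity
  have : NeZero m := ⟨hm0⟩
  have h8 : 8 ∣ m := ⟨_, hm⟩
  have hd : a * b * c ∣ m := ⟨8, by rw [hm]; ring⟩
  have hm500 : m ^ 500 ≤ X := by
    have e1 : m ≤ 8 * Δ ^ 3 := by
      rw [hm]
      have : a * b * c ≤ Δ * Δ * Δ := Nat.mul_le_mul (Nat.mul_le_mul haΔ hbΔ) hcΔ
      calc 8 * (a * b * c) ≤ 8 * (Δ * Δ * Δ) := Nat.mul_le_mul_left _ this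
        _ = 8 * Δ ^ 3 := by ring
    have e2 : Δ ^ 3000 ≤ 2 ^ i := le_trans (Nat.pow_le_pow_right hΔ1 (by omega)) hΔ
    have e3 : (m ^ 500) ^ 2 ≤ (2 ^ i) ^ 2 := by
      calc (m ^ 500) ^ 2 ≤ ((8 * Δ ^ 3) ^ 500) ^ 2 := by
            gcongr
        _ = 2 ^ 3000 * Δ ^ 3000 := by
            rw [← pow_mul, mul_pow, ← pow_mul, show (8 : ℕ) = 2 ^ 3 by norm_num, ← pow_mul]
        _ ≤ 2 ^ i * 2 ^ i := Nat.mul_le_mul (Nat.pow_le_pow_right (by norm_num) (by omega)) e2
        _ = (2 ^ i) ^ 2 := by ring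
    exact (Nat.pow_le_pow_iff_left (by norm_num)).1 e3
  obtain ⟨hlogm, hm1000⟩ := log_facts (Nat.pos_of_ne_zero hm0) (by omega) hm500
  -- the good primes
  set P := PB i 5 with hP
  set P' := P.filter (fun p => J p a = 1 ∧ J p b = 1 ∧ J p c = 1) with hP'
  have hsub : P ⊆ P' ∪ (P.filter (fun p => J p a = -1) ∪ (P.filter (fun p => J p b = -1) ∪
      P.filter (fun p => J p c = -1))) := by
    intro p hp
    have j1 := (J_eq hΔX haΔ ha hp).2
    have j2 := (J_eq hΔX hbΔ hb hp).2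
    have j3 := (J_eq hΔX hcΔ hc hp).2
    simp only [hP', mem_union, mem_filter]
    tauto
  have hcardP : (P.card : ℝ) ≤ P'.card + ((P.filter (fun p => J p a = -1)).card +
      ((P.filter (fun p => J p b = -1)).card + (P.filter (fun p => J p c = -1)).card)) := by
    have h3 := Finset.card_le_card hsub
    have h4 := Finset.card_union_le P' (P.filter (fun p => J p a = -1) ∪
      (P.filter (fun p => J p b = -1) ∪ P.filter (fun p => J p c = -1)))
    have h5 := Finset.card_union_le (P.filter (fun p => J p a = -1))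
      (P.filter (fun p => J p b = -1) ∪ P.filter (fun p => J p c = -1))
    have h6 := Finset.card_union_le (P.filter (fun p => J p b = -1))
      (P.filter (fun p => J p c = -1))
    have : P.card ≤ P'.card + ((P.filter (fun p => J p a = -1)).card +
      ((P.filter (fun p => J p b = -1)).card + (P.filter (fun p => J p c = -1)).card)) := by
      omega
    exact_mod_cast this
  have b1 := card_biased sa
  have b2 := card_biased sb
  have b3 := card_biased sc
  have hlow : 0.85 * (P.card : ℝ) ≤ P'.card := by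
    rw [← hP] at b1 b2 b3
    linarith
  -- the classes
  set T := (A5 m).filter (fun u => chi m a u = 1 ∧ chi m b u = 1 ∧ chi m c u = 1) with hT
  have hTcard := card_T (m := m) h8 hd ha hb hc hab hac hbc
  have hcov : P' ⊆ T.biUnion (fun u => (Ioc X (2 * X)).filter
      (fun q : ℕ => q.Prime ∧ (q : ZMod m) = (u : ZMod m))) := by
    intro p hp
    obtain ⟨hpP, ja, jb, jc⟩ := mem_filter.1 hp
    have hpB := mem_filter.1 hpP
    have ca := (J_eq hΔX haΔ ha hpP).1
    have cb := (J_eq hΔX hbΔ hb hpP).1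
    have cc := (J_eq hΔX hcΔ hc hpP).1
    have h5 : p % 8 = 5 := hpB.2.2
    have c8 : Nat.Coprime p 8 := by
      have : Nat.Coprime p 2 := by
        rw [Nat.coprime_comm, Nat.Prime.coprime_iff_not_dvd Nat.prime_two]
        omega
      exact Nat.Coprime.pow_right 3 this
    have hcop : Nat.Coprime p m := by
      rw [hm]
      exact c8.mul_right ((ca.mul_right cb).mul_right cc)
    have hval : (((ZMod.unitOfCoprime p hcop : (ZMod m)ˣ)) : ZMod m).val = p % m := by
      rw [ZMod.coe_unitOfCoprime, ZMod.val_natCast]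
    have hchi : ∀ d : ℕ, d ∣ m → J p d = 1 → chi m d (ZMod.unitOfCoprime p hcop) = 1 := by
      intro d hdm hJ
      unfold chi
      rw [hval]
      have h1 : jacobiSym ((p % m : ℕ) : ℤ) d = jacobiSym (p : ℤ) d := by
        apply jacobiSym.mod_left'
        have : p % m % d = p % d := Nat.mod_mod_of_dvd _ hdm
        exact_mod_cast this
      rw [h1]
      unfold J at hJ
      exact_mod_cast hJ
    rw [mem_biUnion]
    refine ⟨ZMod.unitOfCoprime p hcop, ?_, ?_⟩
    · rw [hT, mem_filter]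
      refine ⟨?_, hchi a (Dvd.dvd.trans ⟨b * c, by ring⟩ hd) ja,
        hchi b (Dvd.dvd.trans ⟨a * c, by ring⟩ hd) jb,
        hchi c (Dvd.dvd.trans ⟨a * b, by ring⟩ hd) jc⟩
      simp only [A5, mem_filter, mem_univ, true_and]
      rw [hval, Nat.mod_mod_of_dvd _ h8, h5]
    · rw [mem_filter]
      refine ⟨?_, hpB.2.1, ?_⟩
      · have := hpB.1
        rw [pow_succ, mul_comm (2 ^ i) 2] at this
        exact this
      · rw [ZMod.coe_unitOfCoprime]
  -- sizes
  have hXr : (X : ℝ) = 2 ^ i := by rw [hX]; push_cast; rfl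
  have hXpos : (0 : ℝ) < X := by exact_mod_cast hX1
  have hmpos : (0 : ℝ) < m := by exact_mod_cast Nat.pos_of_ne_zero hm0
  set N := X / m + 1 with hN
  have hN1 : (X : ℝ) / m ≤ N := by
    rw [div_le_iff₀ hmpos]
    have h3 := Nat.lt_div_mul_add (a := X) (Nat.pos_of_ne_zero hm0)
    have : X ≤ N * m := by
      rw [hN]
      nlinarith [h3]
    exact_mod_cast this
  have hN2 : (m : ℝ) * N ≤ X + m := by
    have h3 := Nat.div_mul_le_self X m
    have : m * N ≤ X + m := by
      rw [hN]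
      nlinarith [h3]
    exact_mod_cast this
  have hL : 0.69 < Real.log 2 := by
    have := Real.log_two_gt_d9
    linarith
  have hir : (3000 : ℝ) + i0 + 4 * N0 ≤ i := by exact_mod_cast hi
  have hi0 : (0 : ℝ) ≤ i0 := Nat.cast_nonneg _
  have hN0 : (0 : ℝ) ≤ N0 := Nat.cast_nonneg _
  have hlogXm : 0.998 * (i * Real.log 2) ≤ Real.log ((X : ℝ) / m) := by
    rw [Real.log_div hXpos.ne' hmpos.ne', hXr, Real.log_pow]
    linarith
  have hlogN : 0.998 * (i * Real.log 2) ≤ Real.log N :=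
    hlogXm.trans (Real.log_le_log (by positivity) hN1)
  have hiL : (0 : ℝ) < i * Real.log 2 := by
    have : (0 : ℝ) < i := by linarith
    positivity
  have hNN0 : N0 ≤ X / m + 1 := by
    have h3 : (N0 : ℝ) ≤ N := by
      have h4 : Real.log N ≤ N := by
        have hNpos : (0 : ℝ) < N := by
          rw [hN]; positivity
        have := Real.log_le_sub_one_of_pos hNpos
        linarith
      have h5 : (N0 : ℝ) ≤ 0.998 * (i * Real.log 2) := by nlinarith
      linarith
    exact_mod_cast h3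
  have hup : (P'.card : ℝ) ≤ (T.card : ℝ) *
      (9 / 2 * ((m : ℝ) / Nat.totient m) * ((N : ℝ) / Real.log N)) := by
    have h3 : P'.card ≤ ∑ u ∈ T, ((Ioc X (2 * X)).filter
        (fun q : ℕ => q.Prime ∧ (q : ZMod m) = (u : ZMod m))).card :=
      (Finset.card_le_card hcov).trans Finset.card_biUnion_le
    calc (P'.card : ℝ) ≤ ∑ u ∈ T, (((Ioc X (2 * X)).filter
        (fun q : ℕ => q.Prime ∧ (q : ZMod m) = (u : ZMod m))).card : ℝ) := by exact_mod_cast h3
      _ ≤ ∑ u ∈ T, (9 / 2 * ((m : ℝ) / Nat.totient m) * ((N : ℝ) / Real.log N)) := by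
        apply Finset.sum_le_sum
        intro u _
        exact class_count hBT hNN0 _
      _ = _ := by rw [Finset.sum_const, nsmul_eq_mul]
  have hφpos : (0 : ℝ) < Nat.totient m := by
    exact_mod_cast Nat.totient_pos.2 (Nat.pos_of_ne_zero hm0)
  have hTr : (T.card : ℝ) ≤ Nat.totient m / 32 := by
    rw [le_div_iff₀ (by norm_num)]
    have : T.card * 32 ≤ Nat.totient m := by rw [mul_comm]; exact hTcard
    exact_mod_cast this
  have hNpos : (0 : ℝ) < N := by rw [hN]; positivity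
  have hmX : (m : ℝ) ≤ X / 1000 := by
    rw [le_div_iff₀ (by norm_num)]
    have : m * 1000 ≤ X := by rw [mul_comm]; exact hm1000
    exact_mod_cast this
  have hbl := hblock i (by omega)
  rw [← hP, ← hXr] at hbl
  have hbl2 : 0.99 * (X : ℝ) / (4 * i * Real.log 2) = 0.2475 * (X / (i * Real.log 2)) := by
    have : (i : ℝ) ≠ 0 := by
      intro h
      rw [h] at hiL
      simp at hiL
    have hL0 : Real.log 2 ≠ 0 := by linarith
    field_simp
    norm_num
  rw [hbl2] at hbl
  exact num_end hiL hXpos hmpos hNpos hφpos hTr hup hlogN hN2 hmX hlow hbl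

end Pool.Agent.H307R2.OP
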