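import Pool.Agent.H307R2.OP.DefsC

set_option autoImplicit false

/-!
# Task SV: the sieve for at most two residue classes

Instead of Selberg's sieve we use Brun's pure sieve (Bonferroni's inequalities): since `K` is at
least `8 σ + 8`, the truncation error is negligible.
-/

namespace Pool.Agent.H307R2.OP

open Finset

namespace SV

/-- elementary symmetric sums -/
noncomputable def es (x : ℕ → ℝ) (P : Finset ℕ) (j : ℕ) : ℝ :=
  ∑ A ∈ powersetCard j P, ∏ q ∈ A, x q

/-- truncated inclusion-exclusion -/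
noncomputable def bn (x : ℕ → ℝ) (P : Finset ℕ) (r : ℕ) : ℝ :=
  ∑ j ∈ range (r + 1), (-1) ^ j * es x P j

lemma es_zero (x : ℕ → ℝ) (P : Finset ℕ) : es x P 0 = 1 := by
  simp [es]

lemma es_empty (x : ℕ → ℝ) (j : ℕ) : es x ∅ (j + 1) = 0 := by
  unfold es
  rw [Finset.powersetCard_eq_empty.2 (by simp), Finset.sum_empty]

lemma es_insert (x : ℕ → ℝ) {P : Finset ℕ} {p : ℕ} (hp : p ∉ P) (j : ℕ) :
    es x (insert p P) (j + 1) = es x P (j + 1) + x p * es x P j := by
  classical
  unfold es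
  rw [Finset.powersetCard_succ_insert hp, Finset.sum_union, Finset.sum_image, Finset.mul_sum]
  · congr 1
    refine Finset.sum_congr rfl fun A hA => ?_
    have hpA : p ∉ A := fun h => hp ((Finset.mem_powersetCard.1 hA).1 h)
    rw [Finset.prod_insert hpA]
  · intro A hA B hB h
    have hpA : p ∉ A := fun h => hp ((Finset.mem_powersetCard.1 hA).1 h)
    have hpB : p ∉ B := fun h => hp ((Finset.mem_powersetCard.1 hB).1 h)
    have := congrArg (fun s => s.erase p) h
    simpa [Finset.erase_insert hpA, Finset.erase_insert hpB] using this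
  · rw [Finset.disjoint_left]
    intro A hA hA'
    obtain ⟨B, -, rfl⟩ := Finset.mem_image.1 hA'
    exact hp ((Finset.mem_powersetCard.1 hA).1 (Finset.mem_insert_self _ _))

lemma es_nonneg (x : ℕ → ℝ) (P : Finset ℕ) (hx : ∀ p ∈ P, 0 ≤ x p) (j : ℕ) : 0 ≤ es x P j := by
  refine Finset.sum_nonneg fun A hA => Finset.prod_nonneg fun q hq => hx q ?_
  exact (Finset.mem_powersetCard.1 hA).1 hq

lemma bn_zero (x : ℕ → ℝ) (P : Finset ℕ) : bn x P 0 = 1 := by
  simp [bn, es_zero]

lemma bn_succ (x : ℕ → ℝ) (P : Finset ℕ) (r : ℕ) :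
    bn x P (r + 1) = bn x P r + (-1) ^ (r + 1) * es x P (r + 1) := by
  unfold bn
  rw [Finset.sum_range_succ]

lemma bn_empty (x : ℕ → ℝ) (r : ℕ) : bn x ∅ r = 1 := by
  induction r with
  | zero => exact bn_zero x ∅
  | succ r ih => rw [bn_succ, es_empty, ih, mul_zero, add_zero]

lemma bn_insert (x : ℕ → ℝ) {P : Finset ℕ} {p : ℕ} (hp : p ∉ P) (r : ℕ) :
    bn x (insert p P) (r + 1) = bn x P (r + 1) - x p * bn x P r := by
  induction r with
  | zero =>
    rw [bn_succ, bn_succ, bn_zero, bn_zero, es_insert x hp, es_zero]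
    ring
  | succ r ih =>
    rw [bn_succ, ih, es_insert x hp, bn_succ x P (r + 1), bn_succ x P r]
    ring

/-- Bonferroni's inequalities -/
lemma bonf (x : ℕ → ℝ) (P : Finset ℕ) (hx : ∀ p ∈ P, 0 ≤ x p ∧ x p ≤ 1) (r : ℕ) :
    0 ≤ (-1) ^ r * (bn x P r - ∏ p ∈ P, (1 - x p)) := by
  classical
  induction P using Finset.induction_on generalizing r with
  | empty => simp [bn_empty]
  | insert p P hp ih =>
    have hxP : ∀ q ∈ P, 0 ≤ x q ∧ x q ≤ 1 := fun q hq => hx q (Finset.mem_insert_of_mem hq)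
    have hxp := hx p (Finset.mem_insert_self _ _)
    cases r with
    | zero =>
      rw [bn_zero, pow_zero, one_mul]
      have h1 : ∏ q ∈ insert p P, (1 - x q) ≤ 1 :=
        Finset.prod_le_one (fun q hq => by linarith [(hx q hq).2])
          (fun q hq => by linarith [(hx q hq).1])
      linarith
    | succ r =>
      rw [bn_insert x hp, Finset.prod_insert hp]
      have h1 := ih hxP (r + 1)
      have h2 := ih hxP r
      have h3 : (-1 : ℝ) ^ (r + 1) * (bn x P (r + 1) - x p * bn x P r -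
          (1 - x p) * ∏ q ∈ P, (1 - x q)) =
          (-1) ^ (r + 1) * (bn x P (r + 1) - ∏ q ∈ P, (1 - x q)) +
          x p * ((-1) ^ r * (bn x P r - ∏ q ∈ P, (1 - x q))) := by
        ring
      rw [h3]
      exact add_nonneg h1 (mul_nonneg hxp.1 h2)

lemma bern {x s : ℝ} (hx : 0 ≤ x) (hs : 0 ≤ s) (k : ℕ) :
    s ^ (k + 1) + (k + 1) * x * s ^ k ≤ (x + s) ^ (k + 1) := by
  induction k with
  | zero => simp; linarith
  | succ k ih =>
    have h1 : (x + s) * (s ^ (k + 1) + (k + 1) * x * s ^ k) ≤ (x + s) * (x + s) ^ (k + 1) :=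
      mul_le_mul_of_nonneg_left ih (by positivity)
    have h2 : 0 ≤ (k + 1) * x ^ 2 * s ^ k := by positivity
    have h3 : (x + s) * (s ^ (k + 1) + (k + 1) * x * s ^ k) =
        s ^ (k + 1 + 1) + ((k + 1 : ℕ) + 1) * x * s ^ (k + 1) + (k + 1) * x ^ 2 * s ^ k := by
      push_cast; ring
    rw [pow_succ' (x + s)]
    linarith

lemma es_le (x : ℕ → ℝ) (P : Finset ℕ) (hx : ∀ p ∈ P, 0 ≤ x p) (k : ℕ) :
    es x P k ≤ (∑ p ∈ P, x p) ^ k / (k.factorial : ℝ) := by
  classical
  induction P using Finset.induction_on generalizing k with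
  | empty =>
    cases k with
    | zero => simp [es_zero]
    | succ k => simp [es_empty]
  | insert p P hp ih =>
    have hxP : ∀ q ∈ P, 0 ≤ x q := fun q hq => hx q (Finset.mem_insert_of_mem hq)
    have hxp := hx p (Finset.mem_insert_self _ _)
    cases k with
    | zero => simp [es_zero]
    | succ k =>
      rw [es_insert x hp, Finset.sum_insert hp]
      have h1 := ih hxP (k + 1)
      have h2 := ih hxP k
      set s := ∑ q ∈ P, x q with hs
      have hs0 : 0 ≤ s := Finset.sum_nonneg hxP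
      have hk : (0 : ℝ) < ((k + 1).factorial : ℝ) := by positivity
      have hk0 : (0 : ℝ) < (k.factorial : ℝ) := by positivity
      have hf : ((k + 1).factorial : ℝ) = (k + 1) * (k.factorial : ℝ) := by
        rw [Nat.factorial_succ]; push_cast; ring
      have h3 := bern hxp hs0 k
      calc es x P (k + 1) + x p * es x P k
          ≤ s ^ (k + 1) / ((k + 1).factorial : ℝ) + x p * (s ^ k / (k.factorial : ℝ)) :=
            add_le_add h1 (mul_le_mul_of_nonneg_left h2 hxp)
        _ = (s ^ (k + 1) + (k + 1) * x p * s ^ k) / ((k + 1).factorial : ℝ) := by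
            rw [hf]; field_simp
        _ ≤ _ := by gcongr

/-- the number of elements of one residue class -/
lemma count_class (U m a : ℕ) (hm : 1 ≤ m) :
    |(((range (U + 1)).filter (fun u => u % m = a % m)).card : ℝ) - ((U : ℝ) + 1) / m| ≤ 1 := by
  have h1 : ((range (U + 1)).filter (fun u => u % m = a % m)).card =
      (U + 1).count (fun u => u ≡ a [MOD m]) := by
    rw [Nat.count_eq_card_filter_range]
    rfl
  have h2 := Nat.count_modEq_card (U + 1) (r := m) (by omega) a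
  have h3 : (((U + 1 : ℕ) / m : ℕ) : ℝ) ≤ ((U : ℝ) + 1) / m := by
    have := @Nat.cast_div_le ℝ _ _ _ (U + 1) m
    push_cast at this
    exact this
  have hm0 : (0 : ℝ) < m := by exact_mod_cast hm
  have h4 : ((U : ℝ) + 1) / m < (((U + 1 : ℕ) / m : ℕ) : ℝ) + 1 := by
    rw [div_lt_iff₀ hm0]
    have := Nat.lt_mul_div_succ (U + 1) (show 0 < m by omega)
    have h5 : ((U + 1 : ℕ) : ℝ) < (m : ℝ) * (((U + 1) / m : ℕ) + 1) := by exact_mod_cast this
    push_cast at h5 ⊢
    linarith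
  rw [h1, h2]
  push_cast
  rw [abs_le]
  split_ifs
  · constructor <;> linarith
  · constructor <;> linarith

/-- the number of elements in the chosen residue classes -/
lemma count_A (U : ℕ) (Ω : ℕ → Finset ℕ) (A : Finset ℕ) : ∀ (m a : ℕ), 1 ≤ m →
    (∀ p ∈ A, p.Prime ∧ Nat.Coprime p m ∧ ∀ x ∈ Ω p, x < p) →
    |(((range (U + 1)).filter (fun u => u % m = a % m ∧ ∀ p ∈ A, u % p ∈ Ω p)).card : ℝ) -
      ((U : ℝ) + 1) / m * ∏ p ∈ A, ((Ω p).card : ℝ) / p| ≤ ∏ p ∈ A, ((Ω p).card : ℝ) := by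
  classical
  induction A using Finset.induction_on with
  | empty =>
    intro m a hm _
    simpa using count_class U m a hm
  | insert p A hp ih =>
    intro m a hm hA
    obtain ⟨hpp, hpm, hΩ⟩ := hA p (Finset.mem_insert_self _ _)
    have hcop : Nat.Coprime m p := hpm.symm
    have hp0 : (0 : ℝ) < p := by exact_mod_cast hpp.pos
    have hm0 : (0 : ℝ) < m := by exact_mod_cast hm
    have hA' : ∀ q ∈ A, q.Prime ∧ Nat.Coprime q (m * p) ∧ ∀ x ∈ Ω q, x < q := by
      intro q hq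
      obtain ⟨h1, h2, h3⟩ := hA q (Finset.mem_insert_of_mem hq)
      refine ⟨h1, Nat.Coprime.mul_right h2 ?_, h3⟩
      exact (Nat.coprime_primes h1 hpp).2 (fun e => hp (e ▸ hq))
    set S := (range (U + 1)).filter
      (fun u => u % m = a % m ∧ ∀ q ∈ insert p A, u % q ∈ Ω q) with hS
    set b : ℕ → ℕ := fun x => (Nat.chineseRemainder hcop a x : ℕ) with hb
    have hb1 : ∀ x, b x ≡ a [MOD m] := fun x => (Nat.chineseRemainder hcop a x).2.1
    have hb2 : ∀ x, b x ≡ x [MOD p] := fun x => (Nat.chineseRemainder hcop a x).2.2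
    have hfib : S.card = ∑ x ∈ Ω p, (S.filter (fun u => u % p = x)).card :=
      Finset.card_eq_sum_card_fiberwise fun u hu => by
        have hu' := Finset.mem_coe.1 hu
        exact (Finset.mem_filter.1 hu').2.2 p (Finset.mem_insert_self _ _)
    have hset : ∀ x ∈ Ω p, S.filter (fun u => u % p = x) = (range (U + 1)).filter
        (fun u => u % (m * p) = b x % (m * p) ∧ ∀ q ∈ A, u % q ∈ Ω q) := by
      intro x hx
      ext u
      simp only [hS, Finset.mem_filter, Finset.mem_insert, forall_eq_or_imp]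
      have key : (u % m = a % m ∧ u % p = x) ↔ u % (m * p) = b x % (m * p) := by
        have h1 := Nat.modEq_and_modEq_iff_modEq_mul (a := u) (b := b x) hcop
        constructor
        · rintro ⟨h2, h3⟩
          refine h1.1 ⟨?_, ?_⟩
          · exact (show u ≡ a [MOD m] from h2).trans (hb1 x).symm
          · have h4 : u ≡ x [MOD p] := by
              show u % p = x % p
              rw [h3, Nat.mod_eq_of_lt (hΩ x hx)]
            exact h4.trans (hb2 x).symm
        · intro h2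
          obtain ⟨h3, h4⟩ := h1.2 h2
          refine ⟨h3.trans (hb1 x), ?_⟩
          have h5 : u % p = x % p := h4.trans (hb2 x)
          rw [h5, Nat.mod_eq_of_lt (hΩ x hx)]
      constructor
      · rintro ⟨⟨h1, h2, h3, h4⟩, h5⟩
        exact ⟨h1, key.1 ⟨h2, h5⟩, h4⟩
      · rintro ⟨h1, h2, h3⟩
        obtain ⟨h4, h5⟩ := key.2 h2
        exact ⟨⟨h1, h4, h5 ▸ hx, h3⟩, h5⟩
    have hmp : 1 ≤ m * p := Nat.mul_pos hm hpp.pos
    rw [hfib, Finset.sum_congr rfl fun x hx => by rw [hset x hx], Finset.prod_insert hp,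
      Finset.prod_insert hp]
    push_cast
    have hsum : (∑ x ∈ Ω p, (((range (U + 1)).filter
        (fun u => u % (m * p) = b x % (m * p) ∧ ∀ q ∈ A, u % q ∈ Ω q)).card : ℝ)) -
        ((U : ℝ) + 1) / m * (((Ω p).card : ℝ) / p * ∏ q ∈ A, ((Ω q).card : ℝ) / q) =
        ∑ x ∈ Ω p, ((((range (U + 1)).filter
          (fun u => u % (m * p) = b x % (m * p) ∧ ∀ q ∈ A, u % q ∈ Ω q)).card : ℝ) -
          ((U : ℝ) + 1) / ((m * p : ℕ) : ℝ) * ∏ q ∈ A, ((Ω q).card : ℝ) / q) := by
      rw [Finset.sum_sub_distrib, Finset.sum_const, nsmul_eq_mul]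
      push_cast
      field_simp
    rw [hsum]
    calc |∑ x ∈ Ω p, ((((range (U + 1)).filter
          (fun u => u % (m * p) = b x % (m * p) ∧ ∀ q ∈ A, u % q ∈ Ω q)).card : ℝ) -
          ((U : ℝ) + 1) / ((m * p : ℕ) : ℝ) * ∏ q ∈ A, ((Ω q).card : ℝ) / q)|
        ≤ ∑ x ∈ Ω p, |(((range (U + 1)).filter
          (fun u => u % (m * p) = b x % (m * p) ∧ ∀ q ∈ A, u % q ∈ Ω q)).card : ℝ) -
          ((U : ℝ) + 1) / ((m * p : ℕ) : ℝ) * ∏ q ∈ A, ((Ω q).card : ℝ) / q| :=
          Finset.abs_sum_le_sum_abs _ _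
      _ ≤ ∑ _x ∈ Ω p, ∏ q ∈ A, ((Ω q).card : ℝ) :=
          Finset.sum_le_sum fun x _ => ih (m * p) (b x) hmp hA'
      _ = _ := by rw [Finset.sum_const, nsmul_eq_mul]

/-- the indicator of the surviving numbers is at most the truncated sum over the classes -/
lemma ind_le (P : Finset ℕ) (Ω : ℕ → Finset ℕ) (r : ℕ) (hr : Even r) (u : ℕ) :
    (if ∀ p ∈ P, u % p ∉ Ω p then (1 : ℝ) else 0) ≤
      ∑ j ∈ range (r + 1), (-1 : ℝ) ^ j *
        ∑ A ∈ powersetCard j P, (if ∀ p ∈ A, u % p ∈ Ω p then (1 : ℝ) else 0) := by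
  classical
  set x : ℕ → ℝ := fun p => if u % p ∈ Ω p then 1 else 0 with hx
  have h1 := bonf x P (fun p _ => by
    simp only [hx]; split_ifs <;> norm_num) r
  rw [hr.neg_one_pow, one_mul, sub_nonneg] at h1
  have h2 : (∏ p ∈ P, (1 - x p)) = if ∀ p ∈ P, u % p ∉ Ω p then (1 : ℝ) else 0 := by
    split_ifs with h
    · refine Finset.prod_eq_one fun p hp => ?_
      simp [hx, h p hp]
    · push Not at h
      obtain ⟨p, hp, hp'⟩ := h
      refine Finset.prod_eq_zero hp ?_
      simp [hx, hp']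
  rw [h2] at h1
  refine h1.trans (le_of_eq ?_)
  unfold bn es
  refine Finset.sum_congr rfl fun j _ => ?_
  congr 1
  refine Finset.sum_congr rfl fun A _ => ?_
  split_ifs with h
  · refine Finset.prod_eq_one fun p hp => ?_
    simp [hx, h p hp]
  · push Not at h
    obtain ⟨p, hp, hp'⟩ := h
    refine Finset.prod_eq_zero hp ?_
    simp [hx, hp']

/-- Brun's pure sieve -/
lemma brun (m a U r : ℕ) (P : Finset ℕ) (Ω : ℕ → Finset ℕ) (hm : 1 ≤ m) (hr : Even r)
    (hP : ∀ p ∈ P, p.Prime ∧ Nat.Coprime p m ∧ ∀ x ∈ Ω p, x < p) :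
    (((range (U + 1)).filter (fun u => u % m = a % m ∧ ∀ p ∈ P, u % p ∉ Ω p)).card : ℝ) ≤
      ((U : ℝ) + 1) / m * bn (fun p => ((Ω p).card : ℝ) / p) P r +
      ∑ j ∈ range (r + 1), es (fun p => ((Ω p).card : ℝ)) P j := by
  classical
  set T := (range (U + 1)).filter (fun u => u % m = a % m) with hT
  have h1 : (((range (U + 1)).filter (fun u => u % m = a % m ∧ ∀ p ∈ P, u % p ∉ Ω p)).card : ℝ) =
      ∑ u ∈ T, (if ∀ p ∈ P, u % p ∉ Ω p then (1 : ℝ) else 0) := by
    rw [← Finset.filter_filter, Finset.sum_boole]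
  rw [h1]
  have h2 : ∀ A ⊆ P, ∑ u ∈ T, (if ∀ p ∈ A, u % p ∈ Ω p then (1 : ℝ) else 0) =
      (((range (U + 1)).filter (fun u => u % m = a % m ∧ ∀ p ∈ A, u % p ∈ Ω p)).card : ℝ) := by
    intro A _
    rw [← Finset.filter_filter, Finset.sum_boole]
  calc ∑ u ∈ T, (if ∀ p ∈ P, u % p ∉ Ω p then (1 : ℝ) else 0)
      ≤ ∑ u ∈ T, ∑ j ∈ range (r + 1), (-1 : ℝ) ^ j *
        ∑ A ∈ powersetCard j P, (if ∀ p ∈ A, u % p ∈ Ω p then (1 : ℝ) else 0) :=
        Finset.sum_le_sum fun u _ => ind_le P Ω r hr u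
    _ = ∑ j ∈ range (r + 1), (-1 : ℝ) ^ j * ∑ A ∈ powersetCard j P,
        (((range (U + 1)).filter (fun u => u % m = a % m ∧ ∀ p ∈ A, u % p ∈ Ω p)).card : ℝ) := by
        rw [Finset.sum_comm]
        refine Finset.sum_congr rfl fun j _ => ?_
        rw [← Finset.mul_sum, Finset.sum_comm]
        congr 1
        refine Finset.sum_congr rfl fun A hA => h2 A (Finset.mem_powersetCard.1 hA).1
    _ ≤ ∑ j ∈ range (r + 1), ((-1 : ℝ) ^ j * ∑ A ∈ powersetCard j P,
          (((U : ℝ) + 1) / m * ∏ p ∈ A, ((Ω p).card : ℝ) / p) +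
          ∑ A ∈ powersetCard j P, ∏ p ∈ A, ((Ω p).card : ℝ)) := by
        refine Finset.sum_le_sum fun j _ => ?_
        rw [Finset.mul_sum, Finset.mul_sum, ← Finset.sum_add_distrib]
        refine Finset.sum_le_sum fun A hA => ?_
        have h3 := count_A U Ω A m a hm (fun p hp => hP p ((Finset.mem_powersetCard.1 hA).1 hp))
        rw [abs_le] at h3
        rcases neg_one_pow_eq_or ℝ j with h | h <;> rw [h] <;> linarith [h3.1, h3.2]
    _ = _ := by
        rw [Finset.sum_add_distrib]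
        congr 1
        unfold bn es
        rw [Finset.mul_sum]
        refine Finset.sum_congr rfl fun j _ => ?_
        rw [← Finset.mul_sum]
        ring

lemma eight_pow {s : ℝ} (k : ℕ) (h : 8 * s + 7 ≤ k) :
    Real.exp (16 * s + 14) ≤ (8 : ℝ) ^ k := by
  have h1 : Real.exp 2 ≤ 8 := by
    have h2 : Real.exp 2 = Real.exp 1 ^ 2 := by rw [← Real.exp_nat_mul]; norm_num
    have h3 := Real.exp_one_lt_d9
    have h4 := Real.exp_pos 1
    rw [h2]
    nlinarith
  calc Real.exp (16 * s + 14) ≤ Real.exp (k * 2) := Real.exp_le_exp.2 (by linarith)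
    _ = Real.exp 2 ^ k := by rw [Real.exp_nat_mul]
    _ ≤ 8 ^ k := pow_le_pow_left₀ (Real.exp_pos 2).le h1 k

lemma tail_le {s : ℝ} (hs : 0 ≤ s) (k : ℕ) (h : 8 * s + 7 ≤ k) :
    s ^ k / (k.factorial : ℝ) ≤ Real.exp (-s) := by
  have e1 := Real.pow_div_factorial_le_exp (8 * s) (by positivity) k
  have e2 : Real.exp (16 * s + 14) ≤ (8 : ℝ) ^ k := eight_pow k h
  rw [mul_pow] at e1
  have h8 : (0 : ℝ) < 8 ^ k := by positivity
  have e3 : s ^ k / (k.factorial : ℝ) ≤ Real.exp (8 * s) / 8 ^ k := by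
    rw [le_div_iff₀ h8]
    calc s ^ k / (k.factorial : ℝ) * 8 ^ k = 8 ^ k * s ^ k / (k.factorial : ℝ) := by ring
      _ ≤ _ := e1
  refine e3.trans ?_
  rw [div_le_iff₀ h8]
  calc Real.exp (8 * s) ≤ Real.exp (-s + (16 * s + 14)) := Real.exp_le_exp.2 (by linarith)
    _ = Real.exp (-s) * Real.exp (16 * s + 14) := Real.exp_add _ _
    _ ≤ _ := mul_le_mul_of_nonneg_left e2 (Real.exp_pos _).le

end SV

open SV in
/-- task B-SV -/
theorem sv : SVStmt := by
  classical
  intro m a U D z K P Ω hm hD hP hΩ hzK hK _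
  set x : ℕ → ℝ := fun p => ((Ω p).card : ℝ) / p with hx
  set σ := ∑ p ∈ P, x p with hσ
  have hx0 : ∀ p ∈ P, 0 ≤ x p := fun p _ => by positivity
  have hx1 : ∀ p ∈ P, 0 ≤ x p ∧ x p ≤ 1 := by
    intro p hp
    refine ⟨hx0 p hp, ?_⟩
    have h1 : (0 : ℝ) < p := by exact_mod_cast (hP p hp).1.pos
    rw [hx]
    simp only
    rw [div_le_one h1]
    have h2 : (Ω p).card ≤ p := (hΩ p hp).1.trans (by linarith [(hP p hp).2.1])
    exact_mod_cast h2
  have hσ0 : 0 ≤ σ := Finset.sum_nonneg hx0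
  have hK8 : 8 ≤ K := by
    have : (8 : ℝ) ≤ K := by linarith
    exact_mod_cast this
  -- the truncation
  obtain ⟨r, hr, hrK, hrK'⟩ : ∃ r : ℕ, Even r ∧ r + 1 ≤ K ∧ K ≤ r + 2 := by
    refine ⟨2 * ((K - 1) / 2), even_two_mul _, by omega, by omega⟩
  have h1 := brun m a U r P Ω hm hr (fun p hp => ⟨(hP p hp).1, (hP p hp).2.2.2, (hΩ p hp).2⟩)
  -- the main term
  have h2 := bonf x P hx1 (r + 1)
  have h3 : (-1 : ℝ) ^ (r + 1) = -1 := (Even.add_one hr).neg_one_pow
  rw [bn_succ, h3] at h2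
  have h4 := es_le x P hx0 (r + 1)
  have hKr : (K : ℝ) ≤ ((r + 2 : ℕ) : ℝ) := Nat.cast_le.2 hrK'
  have h5 : σ ^ (r + 1) / ((r + 1).factorial : ℝ) ≤ Real.exp (-σ) :=
    tail_le hσ0 (r + 1) (by push_cast at hKr ⊢; linarith)
  have h6 : ∏ p ∈ P, (1 - x p) ≤ Real.exp (-σ) := by
    rw [hσ, ← Finset.sum_neg_distrib, Real.exp_sum]
    refine Finset.prod_le_prod (fun p hp => by linarith [(hx1 p hp).2]) fun p _ => ?_
    have := Real.add_one_le_exp (-(x p))
    linarith
  have h7 : bn x P r ≤ 2 * Real.exp (-σ) := by linarith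
  -- the error term
  have h8 : ∑ j ∈ range (r + 1), es (fun p => ((Ω p).card : ℝ)) P j ≤ (D : ℝ) ^ 6 := by
    have hD1 : (1 : ℝ) ≤ D := by exact_mod_cast hD
    rcases P.eq_empty_or_nonempty with hPe | hPn
    · subst hPe
      rw [Finset.sum_range_succ']
      have : ∑ j ∈ range r, es (fun p => ((Ω p).card : ℝ)) ∅ (j + 1) = 0 :=
        Finset.sum_eq_zero fun j _ => es_empty _ j
      rw [this, es_zero, zero_add]
      exact one_le_pow₀ hD1
    · obtain ⟨p0, hp0⟩ := hPn
      have hz : 64 ≤ z := (hP p0 hp0).2.1.trans (hP p0 hp0).2.2.1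
      have hPz : P.card ≤ z := by
        have : P ⊆ Finset.Ioc 0 z := fun p hp =>
          Finset.mem_Ioc.2 ⟨(hP p hp).1.pos, (hP p hp).2.2.1⟩
        simpa using Finset.card_le_card this
      have e1 : ∀ j, es (fun p => ((Ω p).card : ℝ)) P j ≤ (((2 * z) ^ j : ℕ) : ℝ) := by
        intro j
        have e2 : es (fun p => ((Ω p).card : ℝ)) P j ≤ ∑ A ∈ powersetCard j P, (2 : ℝ) ^ j := by
          refine Finset.sum_le_sum fun A hA => ?_
          have hA' := Finset.mem_powersetCard.1 hA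
          calc ∏ p ∈ A, ((Ω p).card : ℝ) ≤ ∏ _p ∈ A, (2 : ℝ) :=
              Finset.prod_le_prod (fun _ _ => by positivity) fun p hp => by
                exact_mod_cast (hΩ p (hA'.1 hp)).1
            _ = 2 ^ j := by rw [Finset.prod_const, hA'.2]
        rw [Finset.sum_const, Finset.card_powersetCard, nsmul_eq_mul] at e2
        refine e2.trans ?_
        have e3 : P.card.choose j ≤ z ^ j :=
          (Nat.choose_le_pow _ _).trans (Nat.pow_le_pow_left hPz j)
        have e4 : P.card.choose j * 2 ^ j ≤ (2 * z) ^ j := by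
          rw [mul_pow, mul_comm]
          exact Nat.mul_le_mul_left _ e3
        exact_mod_cast e4
      have e5 : ∑ j ∈ range (r + 1), es (fun p => ((Ω p).card : ℝ)) P j ≤
          ((∑ j ∈ range (r + 1), (2 * z) ^ j : ℕ) : ℝ) := by
        push_cast
        refine Finset.sum_le_sum fun j _ => ?_
        have := e1 j
        push_cast at this
        exact this
      have e6 : ∑ j ∈ range (r + 1), (2 * z) ^ j < (2 * z) ^ (r + 1) :=
        Nat.geomSum_lt (by omega) (fun k hk => Finset.mem_range.1 hk)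
      have e7 : (2 * z) ^ (r + 1) ≤ D ^ 6 := by
        calc (2 * z) ^ (r + 1) ≤ (2 * z) ^ K := Nat.pow_le_pow_right (by omega) hrK
          _ ≤ (z * z) ^ K := Nat.pow_le_pow_left (by nlinarith) K
          _ = (z ^ K) * (z ^ K) := by rw [mul_pow]
          _ ≤ D * D := Nat.mul_le_mul hzK hzK
          _ = D ^ 2 := by ring
          _ ≤ D ^ 6 := Nat.pow_le_pow_right hD (by norm_num)
      refine e5.trans ?_
      exact_mod_cast e6.le.trans e7
  -- conclusion
  have hm0 : (1 : ℝ) ≤ m := by exact_mod_cast hm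
  have h9 : ((U : ℝ) + 1) / m ≤ (U : ℝ) / m + 1 := by
    rw [add_div]
    have : (1 : ℝ) / m ≤ 1 := by
      rw [div_le_one (by linarith)]
      exact hm0
    linarith
  have h10 : (0 : ℝ) ≤ ((U : ℝ) + 1) / m := by positivity
  have h11 : ((U : ℝ) + 1) / m * bn x P r ≤ 16 * ((U : ℝ) / m + 1) * Real.exp (-σ) := by
    have e1 : ((U : ℝ) + 1) / m * bn x P r ≤ ((U : ℝ) + 1) / m * (2 * Real.exp (-σ)) :=
      mul_le_mul_of_nonneg_left h7 h10
    have e2 : ((U : ℝ) + 1) / m * (2 * Real.exp (-σ)) ≤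
        ((U : ℝ) / m + 1) * (2 * Real.exp (-σ)) :=
      mul_le_mul_of_nonneg_right h9 (by positivity)
    have e3 : (0 : ℝ) ≤ ((U : ℝ) / m + 1) * Real.exp (-σ) := by positivity
    nlinarith
  linarith

end Pool.Agent.H307R2.OP
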