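import Pool.Agent.H307R2.OP.DefsC

set_option autoImplicit false

/-!
# Odd values of the partition function: the tuples that come from `n = 0`
-/

namespace Pool.Agent.H307R2.OP

open Finset

theorem t0_mem_blk {M : ℕ} (g : Cfg M) {A : Fin M → Finset ℕ} (hA : A ∈ g.Fam) {j : Fin M}
    {q : ℕ} (hq : q ∈ A j) : q.Prime ∧ 2 ^ (g.κ j) < q ∧ q ≤ 2 ^ (g.κ j + 1) := by
  unfold Cfg.Fam at hA
  rw [Fintype.mem_piFinset] at hA
  have hAj := (Finset.mem_powersetCard.mp (hA j)).1 hq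
  unfold Cfg.Blk PB at hAj
  rw [Finset.mem_sdiff, Finset.mem_filter, Finset.mem_Ioc] at hAj
  exact ⟨hAj.1.2.1, hAj.1.1.1, hAj.1.1.2⟩

theorem t0_block_eq {M : ℕ} (g : Cfg M) (hg : g.Ok) {i j : Fin M} {q : ℕ}
    (h1 : 2 ^ (g.κ i) < q) (h2 : q ≤ 2 ^ (g.κ i + 1)) (h3 : 2 ^ (g.κ j) < q)
    (h4 : q ≤ 2 ^ (g.κ j + 1)) : i = j := by
  apply hg.inj
  have h5 : g.κ i < g.κ j + 1 := (Nat.pow_lt_pow_iff_right (by norm_num)).mp (h1.trans_le h4)
  have h6 : g.κ j < g.κ i + 1 := (Nat.pow_lt_pow_iff_right (by norm_num)).mp (h3.trans_le h2)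
  omega

theorem t0_sub {M : ℕ} (g : Cfg M) (hg : g.Ok) {A B : Fin M → Finset ℕ} (hA : A ∈ g.Fam)
    (hB : B ∈ g.Fam) (h : g.Q A = g.Q B) (j : Fin M) : A j ⊆ B j := by
  intro q hq
  obtain ⟨hp, h1, h2⟩ := t0_mem_blk g hA hq
  have hd : q ∣ g.Q B := by
    rw [← h]
    unfold Cfg.Q
    exact (Finset.dvd_prod_of_mem (fun q => q) hq).trans
      (Finset.dvd_prod_of_mem (fun j => ∏ q ∈ A j, q) (Finset.mem_univ j))
  unfold Cfg.Q at hd
  obtain ⟨i, _, hi⟩ := (Prime.dvd_finsetProd_iff hp.prime _).mp hd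
  obtain ⟨q', hq', hdq⟩ := (Prime.dvd_finsetProd_iff hp.prime _).mp hi
  obtain ⟨hp', h3, h4⟩ := t0_mem_blk g hB hq'
  have he : q = q' := (Nat.prime_dvd_prime_iff_eq hp hp').mp hdq
  subst he
  have hij : j = i := t0_block_eq g hg h1 h2 h3 h4
  subst hij
  exact hq'

theorem t0_Q_pos {M : ℕ} (g : Cfg M) {A : Fin M → Finset ℕ} (hA : A ∈ g.Fam) : 0 < g.Q A := by
  unfold Cfg.Q
  exact Finset.prod_pos (fun j _ => Finset.prod_pos (fun q hq => (t0_mem_blk g hA hq).1.pos))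

theorem t0_u_le (r I N u : ℕ) (hN : N ≤ 2 ^ I) (h : 3 * N + 1 = 4 ^ r * u ^ 2) :
    (u : ℝ) ≤ Real.sqrt (3 * 2 ^ I) / 2 ^ r + 1 := by
  have h1 : ((2 : ℝ) ^ r * u) ^ 2 ≤ 3 * 2 ^ I + 1 := by
    have h2 : (4 ^ r * u ^ 2 : ℕ) ≤ 3 * 2 ^ I + 1 := by rw [← h]; omega
    have h3 : (4 : ℝ) ^ r * (u : ℝ) ^ 2 ≤ 3 * 2 ^ I + 1 := by exact_mod_cast h2
    have h4 : ((2 : ℝ) ^ r * u) ^ 2 = 4 ^ r * (u : ℝ) ^ 2 := by
      rw [mul_pow, ← pow_mul, mul_comm r 2, pow_mul]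
      norm_num
    rw [h4]; exact h3
  have hs : Real.sqrt (3 * 2 ^ I) ^ 2 = 3 * 2 ^ I := Real.sq_sqrt (by positivity)
  have hs0 : 0 ≤ Real.sqrt (3 * (2 : ℝ) ^ I) := Real.sqrt_nonneg _
  have h5 : (2 : ℝ) ^ r * u ≤ Real.sqrt (3 * 2 ^ I) + 1 := by
    apply le_of_sq_le_sq _ (by positivity)
    nlinarith
  have h6 : (u : ℝ) ≤ (Real.sqrt (3 * 2 ^ I) + 1) / 2 ^ r := by
    rw [le_div_iff₀ (by positivity)]
    linarith
  have h7 : (1 : ℝ) / 2 ^ r ≤ 1 := by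
    rw [div_le_one (by positivity)]
    exact one_le_pow₀ (by norm_num)
  rw [add_div] at h6
  linarith
where
  le_of_sq_le_sq {a b : ℝ} (h : a ^ 2 ≤ b ^ 2) (hb : 0 ≤ b) : a ≤ b := by
    by_contra hc
    push Not at hc
    nlinarith

open Classical in
/-- the tuples that come from `n = 0` -/
theorem tupZero (h1 : TupStmt) : TupZero := by
  intro M g hg
  have hU : 0 ≤ g.U := by
    unfold Cfg.U
    positivity
  set F := g.Tup.filter (fun t => ∃ u : ℕ, 3 * g.N t + 1 = 4 ^ g.r * u ^ 2) with hF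
  have hch : ∀ t : (Σ _ : Fin M → Finset ℕ, ℕ), ∃ u : ℕ, t ∈ F →
      3 * g.N t + 1 = 4 ^ g.r * u ^ 2 := by
    intro t
    by_cases ht : t ∈ F
    · obtain ⟨u, hu⟩ := (Finset.mem_filter.mp ht).2
      exact ⟨u, fun _ => hu⟩
    · exact ⟨0, fun h => absurd h ht⟩
  choose uf huf using hch
  have hRpos : 0 < g.Rp := by
    unfold Cfg.Rp
    exact Finset.prod_pos (fun q hq => (hg.hR q hq).1.pos)
  have hFam : ∀ t ∈ F, t.1 ∈ g.Fam := by
    intro t ht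
    have := (Finset.mem_filter.mp ht).1
    unfold Cfg.Tup at this
    exact (Finset.mem_sigma.mp this).1
  have hcard : F.card ≤ ((Icc 1 (2 ^ (g.I / 8))) ×ˢ (range (⌊g.U + 1⌋₊ + 1))).card := by
    apply Finset.card_le_card_of_injOn (fun t => (g.Q t.1, uf t))
    · intro t ht
      have htF : t ∈ F := ht
      have htA := hFam t htF
      have htT := (Finset.mem_filter.mp htF).1
      simp only [Finset.coe_product, Set.mem_prod, Finset.mem_coe, Finset.mem_Icc,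
        Finset.mem_range]
      refine ⟨⟨t0_Q_pos g htA, ?_⟩, ?_⟩
      · refine le_trans ?_ (hg.hRQ t.1 htA)
        exact Nat.le_mul_of_pos_left _ hRpos
      · obtain ⟨s, hs⟩ := h1 M g hg t htT
        have hN : g.N t ≤ 2 ^ g.I := hs.2.2.2.2.2.2.2
        have hle := t0_u_le g.r g.I (g.N t) (uf t) hN (huf t htF)
        rw [Nat.lt_succ_iff]
        exact Nat.le_floor hle
    · rintro ⟨A, p⟩ hAp ⟨B, q⟩ hBq heq
      have hA : A ∈ g.Fam := hFam _ hAp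
      have hB : B ∈ g.Fam := hFam _ hBq
      simp only [Prod.mk.injEq] at heq
      obtain ⟨hQ, hu⟩ := heq
      have hAB : A = B := by
        funext j
        exact Finset.Subset.antisymm (t0_sub g hg hA hB hQ j) (t0_sub g hg hB hA hQ.symm j)
      subst hAB
      have e1 := huf _ hAp
      have e2 := huf _ hBq
      rw [hu] at e1
      have e3 : g.Rp * g.Q A * p = g.Rp * g.Q A * q := by
        have e4 : 3 * g.N ⟨A, p⟩ + 1 = 3 * g.N ⟨A, q⟩ + 1 := by rw [e1, e2]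
        have e5 : g.N ⟨A, p⟩ = g.N ⟨A, q⟩ := by omega
        exact e5
      have e6 : p = q := Nat.eq_of_mul_eq_mul_left (Nat.mul_pos hRpos (t0_Q_pos g hA)) e3
      rw [e6]
  rw [Finset.card_product, Nat.card_Icc, Finset.card_range] at hcard
  have hc2 : (F.card : ℝ) ≤ 2 ^ (g.I / 8) * ((⌊g.U + 1⌋₊ : ℝ) + 1) := by
    have : F.card ≤ 2 ^ (g.I / 8) * (⌊g.U + 1⌋₊ + 1) := by simpa using hcard
    exact_mod_cast this
  refine hc2.trans ?_
  apply mul_le_mul_of_nonneg_left _ (by positivity)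
  have := Nat.floor_le (show 0 ≤ g.U + 1 by linarith)
  linarith

end Pool.Agent.H307R2.OP
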