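import Pool.Agent.H307R2.OP.AlgMain
import Pool.Agent.H307R2.OP.BAD
import Pool.Agent.H307R2.OP.BAD2
import Pool.Agent.H307R2.OP.BT4
import Pool.Agent.H307R2.OP.BTOT
import Pool.Agent.H307R2.OP.ES
import Pool.Agent.H307R2.OP.F1
import Pool.Agent.H307R2.OP.F2
import Pool.Agent.H307R2.OP.FIN
import Pool.Agent.H307R2.OP.FIX
import Pool.Agent.H307R2.OP.KP
import Pool.Agent.H307R2.OP.MAIN
import Pool.Agent.H307R2.OP.PAR
import Pool.Agent.H307R2.OP.PC
import Pool.Agent.H307R2.OP.QR
import Pool.Agent.H307R2.OP.RCH
import Pool.Agent.H307R2.OP.SB
import Pool.Agent.H307R2.OP.SIG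
import Pool.Agent.H307R2.OP.STR
import Pool.Agent.H307R2.OP.SV
import Pool.Agent.H307R2.OP.T0
import Pool.Agent.H307R2.OP.T1
import Pool.Agent.H307R2.OP.T2
import Pool.Agent.H307R2.OP.T3
import Pool.Agent.H307R2.OP.T5
import Pool.Agent.H307R2.OP.TUP

set_option autoImplicit false

/-!
# Odd values of the partition function (MP_ebc808_nt): the assembly
-/

namespace Pool.Agent.H307R2.OP

theorem badAt_main : BadAtCount := badAtCount badCount

theorem strong_main : StrongStmt := strong bt4 pc

theorem fix_main : FixStmt := fix qr sv

theorem sig_main : SigStmt := sig qr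

theorem tupLow_main : TupLow := tupLow pc es

theorem tupLarge_main : TupLarge := tupLarge qr es tup

theorem tupSmall_main : TupSmall := tupSmall qr es tup pc

theorem tupZero_main : TupZero := tupZero tup

theorem good_main : GoodCount := goodCount qr es tup fix_main sig_main

theorem badSum_main : BadSum := badSum badAt_main

theorem badNum_main : BadNum := badNum badAt_main

theorem strongBad_main : StrongBad := strongBad pc

theorem par_main : ParStmt := par pc

theorem rChoice_main : RChoice := rChoice strong_main killPrime

theorem badTotal_main : BadTotal :=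
  badTotal qr tup tupLow_main tupLarge_main tupSmall_main tupZero_main badSum_main badNum_main
    strongBad_main par_main pc

theorem mainY_main : MainY :=
  mainY oc_main exists_odd tup tupLow_main good_main par_main rChoice_main badTotal_main

/-- **odd values of the partition function** -/
theorem final_main : FinalStmt := final mainY_main

end Pool.Agent.H307R2.OP
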