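import Pool.Agent.H307R2.OP.Defs

set_option autoImplicit false

/-! Exact statements of the tasks of the algebraic part (all independent). -/

namespace Pool.Agent.H307R2.OP.Stub

open PowerSeries Pool.Agent.H397R2.PP

/-- task Z5 -/
theorem card_rep5 : CR5 := sorry

/-- task TH5 -/
theorem me5 (h : CR5) : ME5 := sorry

/-- task T5R -/
theorem t5h (h : ME5) (hf : HeckeFacts) : T5H := sorry

/-- task GEN -/
theorem gen : GenStmt := sorry

/-- task G123 -/
theorem t5g (H : T5H) (hg : GenStmt) : T5G := sorry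

/-- task KK -/
theorem t5k (H : T5H) (G : T5G) : T5K := sorry

/-- task PAIR -/
theorem pair (G : T5G) (K : T5K) : PairStmt := sorry

/-- task PAIR -/
theorem l5 (G : T5G) (K : T5K) : L5Stmt := sorry

/-- task P3 -/
theorem p3 (H : NIL.T3H) : P3Stmt := sorry

/-- task JI -/
theorem ji (H3 : NIL.T3H) (G : T5G) (hp : PairStmt) (h3 : P3Stmt) : JIStmt := sorry

/-- task MS -/
theorem heckeFacts : HeckeFacts := sorry

/-- task FQ -/
theorem fq (H3 : NIL.T3H) (G : T5G) (hf : HeckeFacts) (hj : JIStmt) : FQStmt := sorry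

/-- task OC -/
theorem oc (H3 : NIL.T3H) (H5 : T5H) (G : T5G) (hp : PairStmt) (hl : L5Stmt) (hf : HeckeFacts)
    (hq : FQStmt) : OCStmt := sorry

/-- task PX -/
theorem exists_odd (r m N : ℕ) (hm : 3 * m + 1 = 4 ^ r) (h : coeff N (Db ^ m) = 1) :
    ∃ n u : ℕ, Odd (Fintype.card (Nat.Partition n)) ∧ 24 * n + 4 ^ r * u ^ 2 = 3 * N + 1 := sorry

end Pool.Agent.H307R2.OP.Stub
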