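import Pool.Agent.H307R2.OP.DefsC

set_option autoImplicit false

/-! Exact statements of the tasks of the analytic part (all independent). -/

namespace Pool.Agent.H307R2.OP.Stub

/-- task B-QR -/
theorem qr : QRStmt := sorry

/-- task B-BAD -/
theorem badCount : BadCount := sorry

/-- task B-BAD2 -/
theorem badAtCount (h : BadCount) : BadAtCount := sorry

/-- task B-BT4 -/
theorem bt4 : BT4 := sorry

/-- task B-PC -/
theorem pc : PCStmt := sorry

/-- task B-STR -/
theorem strong (h1 : BT4) (h2 : PCStmt) : StrongStmt := sorry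

/-- task B-KP -/
theorem killPrime : KillPrime := sorry

/-- task B-ES -/
theorem es : ESStmt := sorry

/-- task B-SV -/
theorem sv : SVStmt := sorry

/-- task B-FIX -/
theorem fix (h1 : QRStmt) (h2 : SVStmt) : FixStmt := sorry

/-- task B-SIG -/
theorem sig (h1 : QRStmt) : SigStmt := sorry

/-- task B-TUP -/
theorem tup : TupStmt := sorry

/-- task B-T1 -/
theorem tupLow (h1 : PCStmt) (h2 : ESStmt) : TupLow := sorry

/-- task B-T2 -/
theorem tupLarge (h1 : QRStmt) (h2 : ESStmt) (h3 : TupStmt) : TupLarge := sorry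

/-- task B-T3 -/
theorem tupSmall (h1 : QRStmt) (h2 : ESStmt) (h3 : TupStmt) (h4 : PCStmt) : TupSmall := sorry

/-- task B-T0 -/
theorem tupZero (h1 : TupStmt) : TupZero := sorry

/-- task B-T5 -/
theorem goodCount (h1 : QRStmt) (h2 : ESStmt) (h3 : TupStmt) (h4 : FixStmt) (h5 : SigStmt) :
    GoodCount := sorry

/-- task B-F1 -/
theorem badSum (h : BadAtCount) : BadSum := sorry

/-- task B-F2 -/
theorem badNum (h : BadAtCount) : BadNum := sorry

/-- task B-SB -/
theorem strongBad (h : PCStmt) : StrongBad := sorry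

/-- task B-PAR -/
theorem par (h : PCStmt) : ParStmt := sorry

/-- task B-RCH -/
theorem rChoice (h1 : StrongStmt) (h2 : KillPrime) : RChoice := sorry

/-- task B-BTOT -/
theorem badTotal (h1 : QRStmt) (h2 : TupStmt) (h3 : TupLow) (h4 : TupLarge) (h5 : TupSmall)
    (h6 : TupZero) (h7 : BadSum) (h8 : BadNum) (h9 : StrongBad) (h10 : ParStmt) (h11 : PCStmt) :
    BadTotal := sorry

end Pool.Agent.H307R2.OP.Stub
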