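import Pool.Agent.H307R2.OP.Defs
import Pool.Agent.H307R2.OP.DefsC

set_option autoImplicit false

/-! Exact statements of the two final tasks. -/

namespace Pool.Agent.H307R2.OP.Stub

open PowerSeries Pool.Agent.H397R2.PP

/-- task B-MAIN -/
theorem mainY (a1 : OCStmt)
    (a2 : ∀ r m N : ℕ, 3 * m + 1 = 4 ^ r → coeff N (Db ^ m) = 1 →
      ∃ n u : ℕ, Odd (Fintype.card (Nat.Partition n)) ∧ 24 * n + 4 ^ r * u ^ 2 = 3 * N + 1)
    (h1 : TupStmt) (h2 : TupLow) (h3 : GoodCount) (h4 : ParStmt) (h5 : RChoice)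
    (h6 : BadTotal) : MainY := sorry

/-- task B-FIN -/
theorem final (h : MainY) : FinalStmt := sorry

end Pool.Agent.H307R2.OP.Stub
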